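import Mathlib

/-!
Definitions used in the statement on zero-cycles over fields of cohomological dimension one.
-/

open scoped LinearAlgebra.Projectivization IntermediateField

namespace Zc68

section Cohomology

variable {G M : Type} [Group G] [TopologicalSpace G] [AddCommGroup M] {n : ℕ}

/-- The coboundary of a homogeneous cochain. -/
def dCochain (f : (Fin n → G) → M) : (Fin (n + 1) → G) → M :=
  fun g => ∑ i : Fin (n + 1), (-1 : ℤ) ^ (i : ℕ) • f fun j => g (i.succAbove j)

/-- Continuous homogeneous cochains with values in a discrete module. -/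
def IsCochain (ρ : Representation ℤ G M) (f : (Fin n → G) → M) : Prop :=
  IsLocallyConstant f ∧ ∀ (s : G) (g : Fin n → G), f (fun j => s * g j) = ρ s (f g)

/-- The continuous cohomology group `H^i(G, M)` vanishes (for `i ≥ 1`): every homogeneous
`i`-cocycle `G^(i+1) → M` is a coboundary. -/
def Van (ρ : Representation ℤ G M) (i : ℕ) : Prop :=
  ∀ f : (Fin (i + 1) → G) → M, IsCochain ρ f → dCochain f = 0 →
    ∃ e : (Fin i → G) → M, IsCochain ρ e ∧ dCochain e = f

/-- The action on the discrete module `M` is continuous: stabilisers are open. -/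
def Disc (ρ : Representation ℤ G M) : Prop := ∀ m : M, IsOpen {s : G | ρ s m = m}

end Cohomology

/-- `cd(K) ≤ 1`: `H^i(Gal(Kbar/K), M) = 0` for all `i ≥ 2` and all finite Galois modules `M`. -/
def CdLEOne (K : Type) [Field K] : Prop :=
  ∀ (M : Type) [AddCommGroup M] [Finite M] (ρ : Representation ℤ (Field.absoluteGaloisGroup K) M),
    Disc ρ → ∀ i, 2 ≤ i → Van ρ i

section Geometry

variable {K : Type} [Field K] {N r : ℕ}

/-- `z` is a common zero of the polynomials `F i`. -/
def OnX (F : Fin r → MvPolynomial (Fin N) K) {L : Type} [CommRing L] [Algebra K L]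
    (z : Fin N → L) : Prop :=
  ∀ i, MvPolynomial.aeval z (F i) = 0

/-- The forms `F i` cut out a smooth complete intersection `X` in `P^(N-1)`: their gradients are
linearly independent at every geometric point of `X`. -/
def SmoothCI (F : Fin r → MvPolynomial (Fin N) K) : Prop :=
  (∀ i, ∃ d, (F i).IsHomogeneous d) ∧
    ∀ z : Fin N → AlgebraicClosure K, z ≠ 0 → OnX F z →
      LinearIndependent (AlgebraicClosure K)
        fun i j => MvPolynomial.aeval z (MvPolynomial.pderiv j (F i))

/-- `X` is geometrically integral and geometrically unirational: over the algebraic closure its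
homogeneous coordinate ring embeds in a rational function field. -/
def GeomUnirational (F : Fin r → MvPolynomial (Fin N) K) : Prop :=
  ∃ (m : ℕ) (φ : Fin N → FractionRing (MvPolynomial (Fin m) (AlgebraicClosure K))), φ ≠ 0 ∧
    RingHom.ker (MvPolynomial.aeval (R := AlgebraicClosure K) φ) =
      Ideal.span (Set.range fun i => MvPolynomial.map (algebraMap K (AlgebraicClosure K)) (F i))

/-- A geometric point of the smooth projective curve with function field `L` over `K`: a valuation
ring `O` of `L` over `K` with a `K`-embedding of its residue field in the algebraic closure. -/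
structure Place (K L : Type) [Field K] [Field L] [Algebra K L] where
  O : ValuationSubring L
  mem : ∀ c : K, algebraMap K L c ∈ O
  ι : O →+* AlgebraicClosure K
  ι_const : ∀ c : K, ι ⟨algebraMap K L c, mem c⟩ = algebraMap K (AlgebraicClosure K) c
  ι_eq_zero : ∀ a : O, ι a = 0 ↔ a ∈ IsLocalRing.maximalIdeal O

open Classical in
/-- The order of vanishing of `f` along the valuation ring `O`. -/
noncomputable def ordAt {L : Type} [Field L] (O : ValuationSubring L) (f : L) : ℤ :=
  if h : f ∈ O then (Ring.ord O ⟨f, h⟩).toNat
  else -((Ring.ord O ⟨f⁻¹, (O.mem_or_inv_mem f).resolve_left h⟩).toNat : ℤ)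

/-- `x` is the image of the geometric point `p` under the map to projective space given by `z`. -/
def IsCentre {L : Type} [Field L] [Algebra K L] (p : Place K L) (z : Fin N → L)
    (x : ℙ (AlgebraicClosure K) (Fin N → AlgebraicClosure K)) : Prop :=
  ∃ (c : L) (w : Fin N → p.O) (h : (fun j => p.ι (w j)) ≠ 0),
    (∀ j, (w j : L) = c * z j) ∧ x = Projectivization.mk (AlgebraicClosure K) _ h

/-- `c` is the push-forward to `X` of the divisor of a rational function `f` on a smooth projective
curve over `K` (with function field `L`) mapping to `X` by `z`. A closed point is written as the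
sum of the geometric points above it. -/
def IsDiv (F : Fin r → MvPolynomial (Fin N) K)
    (c : ℙ (AlgebraicClosure K) (Fin N → AlgebraicClosure K) →₀ ℤ) : Prop :=
  ∃ (L : Type) (_ : Field L) (_ : Algebra K L) (t : L), Transcendental K t ∧
    FiniteDimensional K⟮t⟯ L ∧ ∃ z : Fin N → L, z ≠ 0 ∧ OnX F z ∧ ∃ f : L, f ≠ 0 ∧
      ∃ (T : Finset (Place K L))
        (x : Place K L → ℙ (AlgebraicClosure K) (Fin N → AlgebraicClosure K)),
        (∀ p, ordAt p.O f ≠ 0 → p ∈ T) ∧ (∀ p ∈ T, IsCentre p z (x p)) ∧
          c = ∑ p ∈ T, Finsupp.single (x p) (ordAt p.O f)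

/-- The zero-cycles on `X` that are rationally equivalent to zero over `K`. -/
noncomputable def RatTrivial (F : Fin r → MvPolynomial (Fin N) K) :
    AddSubgroup (ℙ (AlgebraicClosure K) (Fin N → AlgebraicClosure K) →₀ ℤ) :=
  AddSubgroup.closure {c | IsDiv F c}

/-- The geometric point given by a `K`-rational point of projective space. -/
noncomputable def ratPt (P : Fin N → K) (hP : P ≠ 0) :
    ℙ (AlgebraicClosure K) (Fin N → AlgebraicClosure K) :=
  Projectivization.mk (AlgebraicClosure K) (fun j => algebraMap K (AlgebraicClosure K) (P j))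
    fun h => hP (funext fun j => (algebraMap K (AlgebraicClosure K)).injective
      ((congrFun h j).trans (map_zero _).symm))

end Geometry

end Zc68
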