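import Mathlib
import Pool.Agent.Work.MP_d65f04_ag.Defs

-- merged part: Pool.Agent.Work.MP_d65f04_ag.Base
section
/-!
Basic objects: the del Pezzo surface `S : Q0 = Q1 = 0` in `P^4`, the invariant `Inv`, and the
property `Good2` of a field.
-/

namespace Zc68

/-- First quadric of the del Pezzo surface `S`. -/
def Q0 {R : Type} [CommRing R] (y : Fin 5 → R) : R :=
  3 * y 0 ^ 2 + 6 * y 1 ^ 2 + y 2 ^ 2 - y 3 ^ 2 - 2 * y 4 ^ 2

/-- Second quadric of the del Pezzo surface `S`. -/
def Q1 {R : Type} [CommRing R] (y : Fin 5 → R) : R :=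
  -9 * y 0 ^ 2 - 12 * y 1 ^ 2 + y 2 ^ 2 + y 3 ^ 2

theorem map_Q0 {R S Φ : Type} [CommRing R] [CommRing S] [FunLike Φ R S] [RingHomClass Φ R S]
    (f : Φ) (y : Fin 5 → R) : f (Q0 y) = Q0 fun j => f (y j) := by
  simp [Q0, map_ofNat]

theorem map_Q1 {R S Φ : Type} [CommRing R] [CommRing S] [FunLike Φ R S] [RingHomClass Φ R S]
    (f : Φ) (y : Fin 5 → R) : f (Q1 y) = Q1 fun j => f (y j) := by
  simp [Q1, map_ofNat]

/-- `S` has no point over `k`. -/
def NoPt (k : Type) [Field k] : Prop := ∀ y : Fin 5 → k, Q0 y = 0 → Q1 y = 0 → y = 0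

/-- The invariant kept along the tower of fields. -/
def Inv (k : Type) [Field k] : Prop :=
  NoPt k ∧ ¬ IsSquare (2 : k) ∧ ¬ IsSquare (3 : k) ∧ ¬ IsSquare (6 : k) ∧ ¬ IsSquare (-1 : k)

/-- Every polynomial of odd degree has a root. -/
def OddRoot (k : Type) [Field k] : Prop :=
  ∀ p : Polynomial k, Odd p.natDegree → ∃ x, p.IsRoot x

/-- Every element is a norm from every quadratic extension. -/
def AllNorm (k : Type) [Field k] : Prop :=
  ∀ a b : k, IsSquare a ∨ ∃ x y : k, x ^ 2 - a * y ^ 2 = b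

/-- Odd degree polynomials have roots and every conic has a point. -/
def Good2 (k : Type) [Field k] : Prop := OddRoot k ∧ AllNorm k

/-- The diagonal quadratic form `∑ a_j θ_j^n y_j^2`. -/
def dq {k R ι : Type} [CommRing k] [CommRing R] [Algebra k R] [Fintype ι]
    (a θ : ι → k) (n : ℕ) (y : ι → R) : R :=
  ∑ j, algebraMap k R (a j * θ j ^ n) * y j ^ 2

/-- The image in `L` of the forms of degree `n` under `y ↦ x`. -/
noncomputable def UU (k : Type) {L : Type} [Field k] [CommRing L] [Algebra k L] (x : Fin 5 → L)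
    (n : ℕ) : Submodule k L :=
  (MvPolynomial.homogeneousSubmodule (Fin 5) k n).map (MvPolynomial.aeval x).toLinearMap

end Zc68
end

-- merged part: Pool.Agent.Work.MP_d65f04_ag.Conic0
section
/-! The function field of the conic `x ^ 2 - a y ^ 2 = b` as a fixed field in `K(t)`, where
`K = k(√a)`. -/

namespace Zc68

open Polynomial

/-- `K = k(r)` with `r ^ 2 = a`, `E = K(t)`, and `τ` is the involution `r ↦ -r`, `t ↦ b / t`. -/
structure ConicData (k K E : Type) [Field k] [Field K] [Field E] [Algebra k K] [Algebra K E]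
    [Algebra k E] [IsScalarTower k K E] (a b : k) (r : K) (c : K →ₐ[k] K) (t : E)
    (τ : E →ₐ[k] E) : Prop where
  sq : r ^ 2 = algebraMap k K a
  ne : r ≠ 0
  conj : c r = -r
  dec : ∀ x : K, ∃ u v : k, x = algebraMap k K u + algebraMap k K v * r
  nonnorm : ∀ x : K, x * c x ≠ algebraMap k K b
  trans : Transcendental K t
  gen : ∀ f : E, ∃ p q : K[X], q ≠ 0 ∧ f = aeval t p / aeval t q
  tauC : ∀ x : K, τ (algebraMap K E x) = algebraMap K E (c x)
  taut : τ t = algebraMap k E b / t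

/-- The fixed field of `τ`. -/
def LL {k E : Type} [Field k] [Field E] [Algebra k E] (τ : E →ₐ[k] E) : IntermediateField k E where
  carrier := {f | τ f = f}
  mul_mem' := by intro f g hf hg; simp only [Set.mem_setOf_eq, map_mul] at *; rw [hf, hg]
  add_mem' := by intro f g hf hg; simp only [Set.mem_setOf_eq, map_add] at *; rw [hf, hg]
  algebraMap_mem' := by intro u; simp
  inv_mem' := by intro f hf; simp only [Set.mem_setOf_eq, map_inv₀] at *; rw [hf]

theorem mem_LL {k E : Type} [Field k] [Field E] [Algebra k E] (τ : E →ₐ[k] E) (f : E) :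
    f ∈ LL τ ↔ τ f = f := Iff.rfl

/-- The functions with poles of order at most `n` at the point `{0, ∞}` of degree two. -/
def TT {k : Type} (K : Type) {E : Type} [Field k] [Field K] [Field E] [Algebra k K] [Algebra K E]
    [Algebra k E] [IsScalarTower k K E] (t : E) (τ : E →ₐ[k] E) (n : ℕ) : Submodule k (LL τ) where
  carrier := {f | ∃ p : K[X], p.natDegree ≤ 2 * n ∧ (f : E) * t ^ n = aeval t p}
  add_mem' := by
    rintro f g ⟨p, hp, hf⟩ ⟨q, hq, hg⟩
    refine ⟨p + q, (natDegree_add_le p q).trans (max_le hp hq), ?_⟩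
    rw [map_add, ← hf, ← hg]; push_cast; ring
  zero_mem' := ⟨0, by simp, by simp⟩
  smul_mem' := by
    rintro u f ⟨p, hp, hf⟩
    refine ⟨C (algebraMap k K u) * p, (natDegree_C_mul_le _ p).trans hp, ?_⟩
    rw [map_mul, ← hf, aeval_C, ← IsScalarTower.algebraMap_apply]
    have : ((u • f : LL τ) : E) = u • (f : E) := rfl
    rw [this, Algebra.smul_def, mul_assoc]

theorem mem_TT {k K E : Type} [Field k] [Field K] [Field E] [Algebra k K] [Algebra K E]
    [Algebra k E] [IsScalarTower k K E] (t : E) (τ : E →ₐ[k] E) (n : ℕ) (f : LL τ) :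
    f ∈ TT K t τ n ↔ ∃ p : K[X], p.natDegree ≤ 2 * n ∧ (f : E) * t ^ n = aeval t p := Iff.rfl

theorem mul_mem_TT {k K E : Type} [Field k] [Field K] [Field E] [Algebra k K] [Algebra K E]
    [Algebra k E] [IsScalarTower k K E] {t : E} {τ : E →ₐ[k] E} {m n : ℕ} {f g : LL τ}
    (hf : f ∈ TT K t τ m) (hg : g ∈ TT K t τ n) : f * g ∈ TT K t τ (m + n) := by
  obtain ⟨p, hp, hf⟩ := hf
  obtain ⟨q, hq, hg⟩ := hg
  refine ⟨p * q, (natDegree_mul_le).trans (by omega), ?_⟩
  rw [map_mul, ← hf, ← hg]; push_cast; ring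

theorem one_mem_TT {k K E : Type} [Field k] [Field K] [Field E] [Algebra k K] [Algebra K E]
    [Algebra k E] [IsScalarTower k K E] {t : E} {τ : E →ₐ[k] E} : (1 : LL τ) ∈ TT K t τ 0 :=
  ⟨1, by simp, by simp⟩

end Zc68
end

-- merged part: Pool.Agent.Work.MP_d65f04_ag.Cd1
section
/-! Homological algebra of continuous homogeneous cochains. -/

namespace Zc68

variable {G A B C M : Type} [Group G] [TopologicalSpace G] [IsTopologicalGroup G]
  [AddCommGroup A] [AddCommGroup B] [AddCommGroup C] [AddCommGroup M] {n : ℕ}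

omit [Group G] [TopologicalSpace G] [IsTopologicalGroup G] in
theorem dCochain_cons_cd1 (f : (Fin (n + 1) → G) → M) (a : G) (h : Fin (n + 1) → G) :
    dCochain f (Fin.cons a h) = f h - dCochain (fun x => f (Fin.cons a x)) h := by
  unfold dCochain
  rw [Fin.sum_univ_succ, sub_eq_add_neg, ← Finset.sum_neg_distrib]
  congr 1
  · simp
  · refine Finset.sum_congr rfl fun i _ => ?_
    rw [Fin.val_succ, pow_succ, mul_neg_one, neg_smul]
    congr 3
    funext j
    refine Fin.cases ?_ (fun j => ?_) j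
    · simp
    · simp [Fin.succ_succAbove_succ]

omit [Group G] [TopologicalSpace G] [IsTopologicalGroup G] in
theorem dCochain_sub_cd1 (f g : (Fin n → G) → M) :
    dCochain (fun x => f x - g x) = fun x => dCochain f x - dCochain g x := by
  funext x
  simp [dCochain, smul_sub, Finset.sum_sub_distrib]

omit [Group G] [TopologicalSpace G] [IsTopologicalGroup G] in
theorem dCochain_add_cd1 (f g : (Fin n → G) → M) :
    dCochain (fun x => f x + g x) = fun x => dCochain f x + dCochain g x := by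
  funext x
  simp [dCochain, smul_add, Finset.sum_add_distrib]

omit [Group G] [TopologicalSpace G] [IsTopologicalGroup G] in
theorem dCochain_map_cd1 (φ : A →+ B) (f : (Fin n → G) → A) :
    dCochain (fun x => φ (f x)) = fun x => φ (dCochain f x) := by
  funext x
  simp [dCochain, map_sum]

omit [Group G] [TopologicalSpace G] [IsTopologicalGroup G] in
theorem dCochain_dCochain_cd1 : ∀ (n : ℕ) (f : (Fin n → G) → M), dCochain (dCochain f) = 0
  | 0, f => by
    funext g
    have : ∀ x y : Fin 0 → G, f x = f y := fun x y => congrArg f (Subsingleton.elim x y)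
    simp only [dCochain, Fin.sum_univ_succ, Finset.univ_eq_empty, Finset.sum_empty]
    simp [this _ (fun j => j.elim0)]
  | n + 1, f => by
    funext g
    rw [← Fin.cons_self_tail g, dCochain_cons_cd1]
    simp only [dCochain_cons_cd1]
    rw [dCochain_sub_cd1, dCochain_dCochain_cd1 n]
    simp

theorem dCochain_dCochain (f : (Fin n → G) → M) : dCochain (dCochain f) = 0 :=
  dCochain_dCochain_cd1 n f

theorem IsCochain.d {ρ : Representation ℤ G M} {f : (Fin n → G) → M} (hf : IsCochain ρ f) :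
    IsCochain ρ (dCochain f) := by
  refine ⟨?_, fun s g => ?_⟩
  · refine (IsLocallyConstant.iff_eventually_eq _).2 fun x => ?_
    have : ∀ i : Fin (n + 1), ∀ᶠ y in nhds x,
        f (fun j => y (i.succAbove j)) = f fun j => x (i.succAbove j) := fun i =>
      (hf.1.comp_continuous (f := fun (y : Fin (n + 1) → G) j => y (i.succAbove j))
        (by fun_prop)).eventually_eq x
    filter_upwards [Filter.eventually_all.2 this] with y hy
    exact Finset.sum_congr rfl fun i _ => by rw [hy i]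
  · simp only [dCochain, map_sum, map_zsmul]
    exact Finset.sum_congr rfl fun i _ => by rw [← hf.2]

/-- Cochains lift along surjections of discrete modules. -/
theorem lift_cochain {ρB : Representation ℤ G B} {ρC : Representation ℤ G C} (π : B →+ C)
    (hπ : ∀ s b, π (ρB s b) = ρC s (π b)) (hsurj : Function.Surjective π) (hB : Disc ρB)
    (f : (Fin (n + 1) → G) → C) (hf : IsCochain ρC f) :
    ∃ g : (Fin (n + 1) → G) → B, IsCochain ρB g ∧ ∀ x, π (g x) = f x := by
  choose s hs using hsurj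
  refine ⟨fun x => ρB (x 0) (s (f fun j => (x 0)⁻¹ * x j)), ⟨?_, fun t x => ?_⟩, fun x => ?_⟩
  · refine (IsLocallyConstant.iff_eventually_eq _).2 fun x => ?_
    have h1 : ∀ᶠ y in nhds x, (f fun j => (y 0)⁻¹ * y j) = f fun j => (x 0)⁻¹ * x j :=
      (hf.1.comp_continuous (f := fun (y : Fin (n + 1) → G) j => (y 0)⁻¹ * y j)
        (by fun_prop)).eventually_eq x
    have h2 : ∀ᶠ y : Fin (n + 1) → G in nhds x,
        (x 0)⁻¹ * y 0 ∈ {t : G | ρB t (s (f fun j => (x 0)⁻¹ * x j)) =
          s (f fun j => (x 0)⁻¹ * x j)} :=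
      (by fun_prop : Continuous fun y : Fin (n + 1) → G => (x 0)⁻¹ * y 0).continuousAt.eventually
        ((hB _).mem_nhds (by simp))
    filter_upwards [h1, h2] with y hy1 hy2
    rw [hy1]
    conv_rhs => rw [← (hy2 : _ = _)]
    rw [← Module.End.mul_apply, ← map_mul, mul_inv_cancel_left]
  · simp only [map_mul, Module.End.mul_apply, mul_inv_rev, mul_assoc, inv_mul_cancel_left]
  · rw [hπ, hs, ← hf.2]
    simp

/-- A short exact sequence of modules. -/
structure SES (ρA : Representation ℤ G A) (ρB : Representation ℤ G B) (ρC : Representation ℤ G C)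
    (ι : A →+ B) (π : B →+ C) : Prop where
  equivL : ∀ s a, ι (ρA s a) = ρB s (ι a)
  equivR : ∀ s b, π (ρB s b) = ρC s (π b)
  inj : Function.Injective ι
  surj : Function.Surjective π
  exact : ∀ b, π b = 0 ↔ ∃ a, ι a = b

variable {ρA : Representation ℤ G A} {ρB : Representation ℤ G B} {ρC : Representation ℤ G C}
  {ι : A →+ B} {π : B →+ C}

omit [IsTopologicalGroup G] in
theorem IsCochain.map_cd1 {f : (Fin n → G) → A} (hf : IsCochain ρA f)
    (hι : ∀ s a, ι (ρA s a) = ρB s (ι a)) : IsCochain ρB fun x => ι (f x) :=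
  ⟨hf.1.comp ι, fun s g => by simp only [hf.2, hι]⟩

omit [IsTopologicalGroup G] in
theorem IsCochain.sub_cd1 {f g : (Fin n → G) → A} (hf : IsCochain ρA f) (hg : IsCochain ρA g) :
    IsCochain ρA fun x => f x - g x :=
  ⟨hf.1.sub hg.1, fun s x => by simp only [hf.2, hg.2, map_sub]⟩

omit [IsTopologicalGroup G] in
theorem IsCochain.add_cd1 {f g : (Fin n → G) → A} (hf : IsCochain ρA f) (hg : IsCochain ρA g) :
    IsCochain ρA fun x => f x + g x :=
  ⟨hf.1.add hg.1, fun s x => by simp only [hf.2, hg.2, map_add]⟩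

omit [IsTopologicalGroup G] in
theorem SES.pull_cd1 (h : SES ρA ρB ρC ι π) {f : (Fin n → G) → B} (hf : IsCochain ρB f)
    (h0 : ∀ x, π (f x) = 0) : ∃ a : (Fin n → G) → A, IsCochain ρA a ∧ ∀ x, ι (a x) = f x := by
  choose a ha using fun x => (h.exact _).1 (h0 x)
  refine ⟨a, ⟨?_, fun s g => h.inj (by rw [h.equivL, ha, ha, hf.2])⟩, ha⟩
  refine (IsLocallyConstant.iff_eventually_eq _).2 fun x => ?_
  filter_upwards [hf.1.eventually_eq x] with y hy
  exact h.inj (by rw [ha, ha, hy])

theorem SES.van_mid (h : SES ρA ρB ρC ι π) (hB : Disc ρB) (hA : Van ρA (n + 1))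
    (hC : Van ρC (n + 1)) : Van ρB (n + 1) := by
  intro f hf hdf
  obtain ⟨eC, heC, hd⟩ := hC _ (hf.map_cd1 h.equivR) (by
    rw [dCochain_map_cd1, hdf]; funext x; simp)
  obtain ⟨eB, heB, hπ⟩ := lift_cochain π h.equivR h.surj hB eC heC
  obtain ⟨a, ha, hι⟩ := h.pull_cd1 (hf.sub_cd1 heB.d) fun x => by
    have := congrFun (dCochain_map_cd1 π eB) x
    rw [funext hπ, hd] at this
    rw [map_sub, ← this, sub_self]
  obtain ⟨eA, heA, hdA⟩ := hA a ha (by
    funext x
    apply h.inj
    have := congrFun (dCochain_map_cd1 ι a) x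
    rw [funext hι, dCochain_sub_cd1, dCochain_dCochain, hdf] at this
    simpa using this.symm)
  refine ⟨fun x => eB x + ι (eA x), heB.add_cd1 (heA.map_cd1 h.equivL), ?_⟩
  rw [dCochain_add_cd1, dCochain_map_cd1, hdA]
  funext x
  simp [hι]

theorem SES.van_left (h : SES ρA ρB ρC ι π) (hB : Disc ρB) (hC : Van ρC (n + 1))
    (hB' : Van ρB (n + 2)) : Van ρA (n + 2) := by
  intro a ha hda
  obtain ⟨eB, heB, hd⟩ := hB' _ (ha.map_cd1 h.equivL) (by
    rw [dCochain_map_cd1, hda]; funext x; simp)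
  obtain ⟨eC, heC, hdC⟩ := hC _ (heB.map_cd1 h.equivR) (by
    rw [dCochain_map_cd1, hd]
    funext x
    exact (h.exact _).2 ⟨_, rfl⟩)
  obtain ⟨e', he', hπ⟩ := lift_cochain π h.equivR h.surj hB eC heC
  obtain ⟨a', ha', hι⟩ := h.pull_cd1 (heB.sub_cd1 he'.d) fun x => by
    have := congrFun (dCochain_map_cd1 π e') x
    rw [funext hπ, hdC] at this
    rw [map_sub, ← this, sub_self]
  refine ⟨a', ha', ?_⟩
  funext x
  apply h.inj
  have := congrFun (dCochain_map_cd1 ι a') x
  rw [funext hι, dCochain_sub_cd1, dCochain_dCochain, hd] at this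
  simpa using this.symm

end Zc68
end

-- merged part: Pool.Agent.Work.MP_d65f04_ag.Cd2
section
/-! Dimension shifting. -/

open Filter Topology

set_option linter.unusedSectionVars false

namespace Zc68

section aux

variable {G M M' : Type} [Group G] [AddCommGroup M] [AddCommGroup M']

/-- A representation given by additive maps. -/
def repCd2 (φ : G → M →+ M) (h1 : ∀ m, φ 1 m = m) (hm : ∀ s t m, φ (s * t) m = φ s (φ t m)) :
    Representation ℤ G M where
  toFun s := (φ s).toIntLinearMap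
  map_one' := LinearMap.ext h1
  map_mul' s t := LinearMap.ext (hm s t)

theorem map_dCd2 {X : Type} {n : ℕ} (φ : M →+ M') (f : (Fin n → X) → M) (g : Fin (n + 1) → X) :
    φ (dCochain f g) = dCochain (fun x => φ (f x)) g := by
  simp only [dCochain, map_sum, map_zsmul]

/-- The cocycle identity at a tuple with a new first entry. -/
theorem coneCd2 {X : Type} {n : ℕ} (f : (Fin (n + 1) → X) → M) (x : X) (g : Fin (n + 1) → X) :
    dCochain f (Fin.cons x g) = f g - dCochain (fun h : Fin n → X => f (Fin.cons x h)) g := by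
  rw [dCochain, Fin.sum_univ_succ, dCochain, sub_eq_add_neg, ← Finset.sum_neg_distrib]
  congr 1
  · simp
  · refine Finset.sum_congr rfl fun i _ => ?_
    rw [Fin.val_succ, pow_succ, mul_neg, mul_one, neg_smul]
    congr 3
    funext j
    refine Fin.cases ?_ (fun j => ?_) j <;> simp

omit [AddCommGroup M] in
theorem tubeCd2 {X Y : Type} [TopologicalSpace X] [TopologicalSpace Y] [CompactSpace Y]
    {h : X × Y → M} (hh : IsLocallyConstant h) (x₀ : X) :
    ∀ᶠ x in 𝓝 x₀, ∀ y, h (x, y) = h (x₀, y) := by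
  have := isCompact_univ.eventually_forall_of_forall_eventually (x₀ := x₀)
    (P := fun x y => h (x, y) = h (x₀, y)) fun y _ => by
      have h1 := hh.eventually_eq (x₀, y)
      have h2 := (hh.comp_continuous (f := fun z : X × Y => (x₀, z.2)) (by fun_prop)).eventually_eq
        (x₀, y)
      filter_upwards [h1, h2] with z a b using a.trans b.symm
  exact this.mono fun x hx y => hx y trivial

variable [TopologicalSpace G] [IsTopologicalGroup G]

theorem Disc.lcCd2 {ρ : Representation ℤ G M} (hρ : Disc ρ) (m : M) :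
    IsLocallyConstant fun s => ρ s m := by
  refine (IsLocallyConstant.iff_eventually_eq _).2 fun s₀ => ?_
  have : ∀ᶠ s in 𝓝 s₀, s₀⁻¹ * s ∈ {s : G | ρ s m = m} :=
    (by fun_prop : ContinuousAt (fun s : G => s₀⁻¹ * s) s₀).eventually
      ((hρ m).mem_nhds (by simp))
  filter_upwards [this] with s hs
  have e : ρ s m = ρ s₀ (ρ (s₀⁻¹ * s) m) := by
    rw [← Module.End.mul_apply, ← map_mul, mul_inv_cancel_left]
  rw [e, hs]

/-- The action on locally constant functions. -/
noncomputable def coindCd2 (ρ : Representation ℤ G M) :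
    Representation ℤ G (LocallyConstant G M) :=
  repCd2 (fun s =>
    { toFun := fun φ => ⟨fun x => ρ s (φ (s⁻¹ * x)),
        (φ.isLocallyConstant.comp_continuous (f := fun x => s⁻¹ * x) (by fun_prop)).comp (ρ s)⟩
      map_zero' := by ext x; simp
      map_add' := fun a b => by ext x; simp })
    (fun m => by ext x; simp) (fun s t m => by ext x; simp [mul_assoc])

theorem coindCd2_apply (ρ : Representation ℤ G M) (s : G) (φ : LocallyConstant G M) (x : G) :
    coindCd2 ρ s φ x = ρ s (φ (s⁻¹ * x)) := rfl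

variable [CompactSpace G]

theorem Disc.coindCd2 {ρ : Representation ℤ G M} (hρ : Disc ρ) (φ : LocallyConstant G M) :
    IsLocallyConstant fun s => coindCd2 ρ s φ := by
  refine (IsLocallyConstant.iff_eventually_eq _).2 fun s₀ => ?_
  have h : IsLocallyConstant fun z : G × G => ρ z.1 (φ (z.1⁻¹ * z.2)) := by
    refine (IsLocallyConstant.iff_eventually_eq _).2 fun z₀ => ?_
    have h1 := (φ.isLocallyConstant.comp_continuous (f := fun z : G × G => z.1⁻¹ * z.2)
      (by fun_prop)).eventually_eq z₀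
    have h2 := ((hρ.lcCd2 (φ (z₀.1⁻¹ * z₀.2))).comp_continuous continuous_fst).eventually_eq z₀
    filter_upwards [h1, h2] with z a b
    exact (congrArg (ρ z.1) a).trans b
  filter_upwards [tubeCd2 h s₀] with s hs
  exact LocallyConstant.ext hs

theorem van_coindCd2 (ρ : Representation ℤ G M) (n : ℕ) : Van (coindCd2 ρ) n := by
  intro f hf hd
  have h : IsLocallyConstant fun z : (Fin n → G) × G => f (Fin.cons z.2 z.1) z.2 := by
    refine (IsLocallyConstant.iff_eventually_eq _).2 fun z₀ => ?_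
    have h1 := (hf.1.comp_continuous (f := fun z : (Fin n → G) × G => Fin.cons z.2 z.1)
      (continuous_pi fun j => Fin.cases continuous_snd
        (fun j => (continuous_apply j).comp continuous_fst) j)).eventually_eq z₀
    have h2 := ((f (Fin.cons z₀.2 z₀.1)).isLocallyConstant.comp_continuous
      continuous_snd).eventually_eq z₀
    filter_upwards [h1, h2] with z a b
    exact (DFunLike.congr_fun a z.2).trans b
  refine ⟨fun g => ⟨fun x => f (Fin.cons x g) x,
    h.comp_continuous (f := fun x => (g, x)) (by fun_prop)⟩, ⟨?_, fun s g => ?_⟩, ?_⟩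
  · refine (IsLocallyConstant.iff_eventually_eq _).2 fun g₀ => ?_
    filter_upwards [tubeCd2 h g₀] with g hg
    exact LocallyConstant.ext hg
  · ext x
    have e : (Fin.cons x fun j => s * g j : Fin (n + 1) → G) =
        fun j => s * (Fin.cons (s⁻¹ * x) g : Fin (n + 1) → G) j := by
      funext j
      refine Fin.cases ?_ (fun j => ?_) j <;> simp
    change f (Fin.cons x fun j => s * g j) x = ρ s (f (Fin.cons (s⁻¹ * x) g) (s⁻¹ * x))
    rw [e, hf.2, coindCd2_apply]
  · funext g
    ext x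
    let ev : LocallyConstant G M →+ M := ⟨⟨fun φ => φ x, rfl⟩, fun _ _ => rfl⟩
    have h1 := coneCd2 f x g
    rw [hd, Pi.zero_apply, eq_comm, sub_eq_zero] at h1
    exact (map_dCd2 ev _ g).trans ((map_dCd2 ev (fun h : Fin n → G => f (Fin.cons x h)) g).symm.trans
      (congrArg ev h1.symm))

end aux

variable {G : Type} [Group G] [TopologicalSpace G] [IsTopologicalGroup G] [CompactSpace G]

/-- `H^i(G, M) = 0` for all finite discrete modules `M`. -/
def VanFin (G : Type) [Group G] [TopologicalSpace G] (i : ℕ) : Prop :=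
  ∀ (M : Type) [AddCommGroup M] [Finite M] (ρ : Representation ℤ G M), Disc ρ → Van ρ i

theorem VanFin.torsion {i : ℕ} (h : VanFin G i) (M : Type) [AddCommGroup M]
    (ρ : Representation ℤ G M) (hρ : Disc ρ) (htor : ∀ m : M, ∃ n : ℕ, 0 < n ∧ n • m = 0) :
    Van ρ i := by
  intro f hf hd
  have : Finite (Set.range f) := hf.1.range_finite
  let N := AddSubgroup.closure (Set.range f)
  have : Finite N := AddCommGroup.finite_of_fg_isAddTorsion N fun m => by
    obtain ⟨n, hn, e⟩ := htor m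
    exact isOfFinAddOrder_iff_nsmul_eq_zero.2 ⟨n, hn, Subtype.ext e⟩
  have st : ∀ s : G, ∀ m ∈ N, ρ s m ∈ N := fun s =>
    (AddSubgroup.closure_le (N.comap (ρ s).toAddMonoidHom)).2 (by
      rintro _ ⟨g, rfl⟩
      exact AddSubgroup.subset_closure ⟨_, hf.2 s g⟩)
  let ρN : Representation ℤ G N := repCd2
    (fun s => ((ρ s).toAddMonoidHom.comp N.subtype).codRestrict N fun m => st s m m.2)
    (fun m => Subtype.ext (by simp)) (fun s t m => Subtype.ext (by simp))
  obtain ⟨e, he, hde⟩ := h N ρN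
    (fun m => by
      simp only [Subtype.ext_iff]
      exact hρ m)
    (fun g => ⟨f g, AddSubgroup.subset_closure ⟨g, rfl⟩⟩)
    ⟨IsLocallyConstant.desc _ Subtype.val hf.1 Subtype.val_injective,
      fun s g => Subtype.ext (hf.2 s g)⟩
    (funext fun g => Subtype.ext ((map_dCd2 N.subtype _ g).trans (congrFun hd g)))
  exact ⟨fun g => e g, ⟨he.1.comp Subtype.val, fun s g => congrArg Subtype.val (he.2 s g)⟩,
    funext fun g => (map_dCd2 N.subtype e g).symm.trans (congrArg Subtype.val (congrFun hde g))⟩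

theorem VanFin.succ {i : ℕ} (h : VanFin G (i + 1)) : VanFin G (i + 2) := by
  intro M _ _ ρ hρ
  let ι : M →+ LocallyConstant G M := ⟨⟨LocallyConstant.const G, rfl⟩, fun _ _ => rfl⟩
  have eq : ∀ s a, ι (ρ s a) = coindCd2 ρ s (ι a) := fun s a => rfl
  let ρC : Representation ℤ G (LocallyConstant G M ⧸ ι.range) := repCd2
    (fun s => QuotientAddGroup.map ι.range ι.range (coindCd2 ρ s).toAddMonoidHom (by
      rintro _ ⟨a, rfl⟩
      exact ⟨ρ s a, eq s a⟩))
    (fun m => QuotientAddGroup.induction_on m fun φ => by simp)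
    (fun s t m => QuotientAddGroup.induction_on m fun φ => by simp)
  have ses : SES ρ (coindCd2 ρ) ρC ι (QuotientAddGroup.mk' ι.range) :=
    ⟨eq, fun _ _ => rfl, fun a b e => DFunLike.congr_fun e 1,
      QuotientAddGroup.mk'_surjective _, fun b => QuotientAddGroup.eq_zero_iff b⟩
  refine ses.van_left (fun φ => (hρ.coindCd2 φ).isOpen_fiber φ) (h.torsion _ ρC (fun m => ?_)
    fun m => ⟨Nat.card M, Nat.card_pos, ?_⟩) (van_coindCd2 ρ _)
  · refine QuotientAddGroup.induction_on m fun φ => ?_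
    exact ((hρ.coindCd2 φ).comp (QuotientAddGroup.mk' ι.range)).isOpen_fiber _
  · refine QuotientAddGroup.induction_on m fun φ => ?_
    have : Nat.card M • φ = 0 := by
      ext x
      exact card_nsmul_eq_zero'
    rw [← QuotientAddGroup.mk_nsmul, this, QuotientAddGroup.mk_zero]

end Zc68
end

-- merged part: Pool.Agent.Work.MP_d65f04_ag.Cd3
section
/-! Reduction to `ℤ / 2` for pro-2 groups. -/

namespace Zc68

open Filter Topology

variable {G : Type} [Group G] [TopologicalSpace G] [IsTopologicalGroup G] [CompactSpace G]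

omit [Group G] [TopologicalSpace G] [IsTopologicalGroup G] [CompactSpace G] in
lemma d_cons_cd3 {M : Type} [AddCommGroup M] {n : ℕ} (f : (Fin (n + 1) → G) → M)
    (hf : dCochain f = 0) (x : G) (g : Fin (n + 1) → G) :
    dCochain (fun h : Fin n → G => f (Fin.cons x h)) g = f g := by
  have h := congrFun hf (Fin.cons x g : Fin (n + 2) → G)
  rw [dCochain, Fin.sum_univ_succ, Pi.zero_apply] at h
  have h1 : ∀ i : Fin (n + 1), (fun j => (Fin.cons x g : Fin (n + 2) → G) (i.succ.succAbove j)) =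
      (Fin.cons x (fun j => g (i.succAbove j)) : Fin (n + 1) → G) := by
    intro i
    funext j
    refine Fin.cases ?_ (fun j => ?_) j <;> simp
  simp only [h1, Fin.val_zero, pow_zero, one_smul, Fin.zero_succAbove, Fin.cons_succ, Fin.val_succ,
    pow_succ, mul_neg, mul_one, neg_smul, Finset.sum_neg_distrib] at h
  rw [dCochain]
  exact (add_neg_eq_zero.1 h).symm

/-- The right translations of the first variable that do not change `f`. -/
def stabCd3 {M : Type} {n : ℕ} (f : (Fin (n + 1) → G) → M) : Subgroup G where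
  carrier := {u | ∀ (x : G) (g : Fin n → G), f (Fin.cons (x * u) g) = f (Fin.cons x g)}
  one_mem' := fun x g => by rw [mul_one]
  mul_mem' := fun {a b} ha hb x g => by rw [← mul_assoc, hb, ha]
  inv_mem' := fun {a} ha x g => by rw [← ha, inv_mul_cancel_right]

omit [Group G] [IsTopologicalGroup G] [CompactSpace G] in
lemma continuous_cons_cd3 {X : Type} [TopologicalSpace X] {n : ℕ} {a : X → G}
    {b : X → Fin n → G} (ha : Continuous a) (hb : Continuous b) :
    Continuous fun x => (Fin.cons (a x) (b x) : Fin (n + 1) → G) :=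
  continuous_pi fun j => by
    refine Fin.cases ?_ (fun j => ?_) j
    · simpa using ha
    · exact (continuous_apply j).comp hb

lemma isOpen_stabCd3 {M : Type} {n : ℕ} {f : (Fin (n + 1) → G) → M} (hf : IsLocallyConstant f) :
    IsOpen (stabCd3 f : Set G) := by
  refine Subgroup.isOpen_of_mem_nhds _ (g := 1) ?_
  have h1 : IsLocallyConstant fun z : G × G × (Fin n → G) => f (Fin.cons (z.2.1 * z.1) z.2.2) :=
    hf.comp_continuous (continuous_cons_cd3 (by fun_prop) (by fun_prop))
  have h2 : IsLocallyConstant fun z : G × G × (Fin n → G) => f (Fin.cons z.2.1 z.2.2) :=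
    hf.comp_continuous (continuous_cons_cd3 (by fun_prop) (by fun_prop))
  have h3 := (isCompact_univ (X := G × (Fin n → G))).eventually_forall_of_forall_eventually
    (x₀ := (1 : G)) (P := fun u y => f (Fin.cons (y.1 * u) y.2) = f (Fin.cons y.1 y.2))
    (fun y _ => by
      filter_upwards [h1.eventually_eq (1, y), h2.eventually_eq (1, y)] with z e1 e2
      rw [e1, e2, mul_one])
  filter_upwards [h3] with u hu x g using hu (x, g) trivial

theorem van_of_odd (hG : ∀ U : Subgroup G, IsOpen (U : Set G) → ∃ a : ℕ, U.index = 2 ^ a)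
    (M : Type) [AddCommGroup M] [Finite M] (hM : Odd (Nat.card M)) (ρ : Representation ℤ G M)
    (i : ℕ) : Van ρ (i + 1) := by
  intro f hf hd
  obtain ⟨a, ha⟩ := hG _ (isOpen_stabCd3 hf.1)
  have : (stabCd3 f).FiniteIndex := ⟨by rw [ha]; positivity⟩
  have := Fintype.ofFinite (G ⧸ stabCd3 f)
  have hc : IsCoprime ((2 ^ a : ℕ) : ℤ) (Nat.card M : ℤ) :=
    Nat.isCoprime_iff_coprime.2 (Nat.Coprime.pow_left a (Nat.coprime_two_left.2 hM))
  obtain ⟨u, w, huw⟩ := hc
  have key : ∀ (x : G) (g : Fin (i + 1) → G),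
      f (Fin.cons (x : G ⧸ stabCd3 f).out g) = f (Fin.cons x g) := by
    intro x g
    obtain ⟨h, hh⟩ := QuotientGroup.mk_out_eq_mul (stabCd3 f) x
    rw [hh]
    exact h.2 x g
  refine ⟨fun g => u • ∑ q : G ⧸ stabCd3 f, f (Fin.cons q.out g), ⟨?_, fun s g => ?_⟩, ?_⟩
  · rw [IsLocallyConstant.iff_eventually_eq]
    intro g
    have h1 : ∀ q : G ⧸ stabCd3 f, ∀ᶠ y in 𝓝 g, f (Fin.cons q.out y) = f (Fin.cons q.out g) :=
      fun q => (hf.1.comp_continuous
        (continuous_cons_cd3 continuous_const continuous_id)).eventually_eq g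
    filter_upwards [eventually_all.2 h1] with y hy
    simp only [hy]
  · beta_reduce
    rw [map_zsmul, map_sum]
    refine congrArg (u • ·) (Eq.symm ?_)
    refine Fintype.sum_equiv (MulAction.toPerm s : Equiv.Perm (G ⧸ stabCd3 f)) _ _ fun q => ?_
    have h1 : (MulAction.toPerm s : Equiv.Perm (G ⧸ stabCd3 f)) q =
        ((s * q.out : G) : G ⧸ stabCd3 f) := by
      conv_lhs => rw [← q.out_eq']
      rfl
    rw [h1, key, ← hf.2]
    congr 1
    funext j
    refine Fin.cases ?_ (fun j => ?_) j <;> simp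
  · funext g
    have h1 : dCochain (fun g => u • ∑ q : G ⧸ stabCd3 f, f (Fin.cons q.out g)) g =
        u • ∑ q : G ⧸ stabCd3 f, dCochain (fun h => f (Fin.cons q.out h)) g := by
      simp only [dCochain, Finset.smul_sum]
      rw [Finset.sum_comm]
      exact Finset.sum_congr rfl fun q _ => Finset.sum_congr rfl fun j _ => smul_comm _ _ _
    rw [h1]
    simp only [d_cons_cd3 f hd]
    rw [Finset.sum_const, Finset.card_univ, ← Nat.card_eq_fintype_card, ← Subgroup.index_eq_card,
      ha, ← natCast_zsmul, smul_smul, eq_sub_of_add_eq huw, sub_smul, one_smul, mul_smul,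
      natCast_zsmul, card_nsmul_eq_zero', smul_zero, sub_zero]

omit [CompactSpace G] in
lemma Disc.isOpen_cd3 {M : Type} [AddCommGroup M] {ρ : Representation ℤ G M} (h : Disc ρ) (b : M)
    (p : M → Prop) : IsOpen {s : G | p (ρ s b)} := by
  refine isOpen_iff_mem_nhds.2 fun s hs => ?_
  have h1 : IsOpen {t : G | ρ (s⁻¹ * t) b = b} :=
    (h b).preimage (continuous_const.mul continuous_id)
  filter_upwards [h1.mem_nhds (by simp : ρ (s⁻¹ * s) b = b)] with t ht
  have h2 : ρ t b = ρ s b := by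
    conv_rhs => rw [← ht, ← Module.End.mul_apply, ← map_mul, mul_inv_cancel_left]
  rw [h2]
  exact hs

omit [IsTopologicalGroup G] [CompactSpace G] in
lemma exists_fixed_cd3 (hG : ∀ U : Subgroup G, IsOpen (U : Set G) → ∃ a : ℕ, U.index = 2 ^ a)
    {M : Type} [AddCommGroup M] [Finite M] (hM : 2 ∣ Nat.card M) {ρ : Representation ℤ G M}
    (h : Disc ρ) : ∃ (p : ℕ) (m : M), p.Prime ∧ addOrderOf m = p ∧ ∀ s, ρ s m = m := by
  let _ : MulAction G M := MulAction.compHom M ρ
  let φ := MulAction.toPermHom G M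
  have hφ : ∀ s m, φ s m = ρ s m := fun s m => rfl
  have ho : IsOpen (φ.ker : Set G) := by
    have : (φ.ker : Set G) = ⋂ m, {s | ρ s m = m} := by
      ext s
      simp only [SetLike.mem_coe, MonoidHom.mem_ker, Set.mem_iInter, Equiv.ext_iff, hφ]
      rfl
    rw [this]
    exact isOpen_iInter_of_finite h
  obtain ⟨a, ha⟩ := hG _ ho
  rw [Subgroup.index_ker] at ha
  have hP : IsPGroup 2 φ.range := IsPGroup.of_card ha
  obtain ⟨b, hb, hb0⟩ := hP.exists_fixed_point_of_prime_dvd_card_of_fixed_point M hM (a := 0)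
    (by rintro ⟨_, s, rfl⟩; exact map_zero (ρ s))
  have hb' : ∀ s, ρ s b = b := fun s => hb ⟨φ s, s, rfl⟩
  obtain ⟨p, hp, hd⟩ := Nat.exists_prime_and_dvd (n := Nat.card (AddSubgroup.zmultiples b))
    (by rw [Nat.card_zmultiples]; simpa using hb0.symm)
  have := Fact.mk hp
  obtain ⟨⟨m, k, rfl⟩, hm⟩ := exists_prime_addOrderOf_dvd_card' p hd
  refine ⟨p, k • b, hp, ?_, fun s => by rw [map_zsmul, hb']⟩
  rw [← hm, ← AddSubgroup.addOrderOf_coe]

/-- The representation on a quotient. -/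
def quotRepCd3 {M : Type} [AddCommGroup M] (ρ : Representation ℤ G M) (S : AddSubgroup M)
    (hS : ∀ s, ∀ m ∈ S, ρ s m ∈ S) : Representation ℤ G (M ⧸ S) where
  toFun s := (QuotientAddGroup.map S S (ρ s).toAddMonoidHom (hS s)).toIntLinearMap
  map_one' := LinearMap.ext fun x => by
    induction x using QuotientAddGroup.induction_on with
    | H x => simp
  map_mul' s t := LinearMap.ext fun x => by
    induction x using QuotientAddGroup.induction_on with
    | H x => simp

theorem vanFin_of_pro2 (hG : ∀ U : Subgroup G, IsOpen (U : Set G) → ∃ a : ℕ, U.index = 2 ^ a)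
    (i : ℕ) (h : Van (Representation.trivial ℤ G (ZMod 2)) (i + 1)) : VanFin G (i + 1) := by
  intro M _ _ ρ hρ
  induction hn : Nat.card M using Nat.strong_induction_on generalizing M with
  | _ n ih =>
  rcases Nat.even_or_odd (Nat.card M) with hM | hM
  swap
  · exact van_of_odd hG M hM ρ i
  obtain ⟨p, m, hp, hm, hfix⟩ := exists_fixed_cd3 hG hM.two_dvd hρ
  have : NeZero p := ⟨hp.ne_zero⟩
  have hA : Van (Representation.trivial ℤ G (ZMod p)) (i + 1) := by
    rcases hp.eq_two_or_odd' with rfl | hodd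
    · exact h
    · exact van_of_odd hG _ (by rwa [Nat.card_zmod]) _ i
  let ι : ZMod p →+ M := ZMod.lift p ⟨zmultiplesHom M m, by
    rw [zmultiplesHom_apply, natCast_zsmul, ← hm, addOrderOf_nsmul_eq_zero]⟩
  have hι : ∀ k : ℤ, ι k = k • m := fun k => ZMod.lift_coe _ _ k
  have hιfix : ∀ s a, ρ s (ι a) = ι a := fun s a => by
    obtain ⟨k, rfl⟩ := ZMod.intCast_surjective a
    rw [hι, map_zsmul, hfix]
  have hinj : Function.Injective ι := (ZMod.lift_injective p).2 fun k hk => by
    rw [ZMod.intCast_zmod_eq_zero_iff_dvd, ← hm]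
    exact addOrderOf_dvd_iff_zsmul_eq_zero.2 hk
  have hS : ∀ s, ∀ x ∈ ι.range, ρ s x ∈ ι.range := by
    rintro s _ ⟨a, rfl⟩
    exact ⟨a, (hιfix s a).symm⟩
  have hses : SES (Representation.trivial ℤ G (ZMod p)) ρ (quotRepCd3 ρ ι.range hS) ι
      (QuotientAddGroup.mk' ι.range) :=
    ⟨fun s a => (hιfix s a).symm, fun s b => rfl, hinj, QuotientAddGroup.mk'_surjective _,
      fun b => QuotientAddGroup.eq_zero_iff b⟩
  refine hses.van_mid hρ hA (ih _ ?_ _ _ (fun c => ?_) rfl)
  · have h1 := AddSubgroup.card_eq_card_quotient_mul_card_addSubgroup ι.range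
    have h2 : Nat.card ι.range = p := by
      rw [← Nat.card_congr (AddMonoidHom.ofInjective hinj).toEquiv, Nat.card_zmod]
    rw [← hn, h1, h2]
    exact lt_mul_of_one_lt_right Nat.card_pos hp.one_lt
  · induction c using QuotientAddGroup.induction_on with
    | H b => exact hρ.isOpen_cd3 b fun x => (x : M ⧸ ι.range) = b

end Zc68
end

-- merged part: Pool.Agent.Work.MP_d65f04_ag.Cd4
section
/-! The property `Good2` and finite extensions. -/

namespace Zc68

open Polynomial

theorem OddRoot.finrank_eq_one_cd4 {K : Type} (E : Type) [Field K] [CharZero K] [Field E]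
    [Algebra K E] [FiniteDimensional K E] (h : OddRoot K) (hodd : Odd (Module.finrank K E)) :
    Module.finrank K E = 1 := by
  obtain ⟨α, hα⟩ := Field.exists_primitive_element K E
  have hint : IsIntegral K α := Algebra.IsIntegral.isIntegral α
  have hd : Module.finrank K E = (minpoly K α).natDegree := by
    rw [← IntermediateField.adjoin.finrank hint, hα, IntermediateField.finrank_top']
  rw [hd] at hodd ⊢
  obtain ⟨x, hx⟩ := h _ hodd
  exact natDegree_eq_of_degree_eq_some
    (degree_eq_one_of_irreducible_of_root (minpoly.irreducible hint) hx)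

theorem OddRoot.finrank_eq {K : Type} (E : Type) [Field K] [CharZero K] [Field E] [Algebra K E]
    [FiniteDimensional K E] (h : OddRoot K) : ∃ a : ℕ, Module.finrank K E = 2 ^ a := by
  let N := IntermediateField.normalClosure K E (AlgebraicClosure E)
  have : IsGalois K (AlgebraicClosure E) := by
    have : IsAlgClosure K (AlgebraicClosure E) := IsAlgClosure.ofAlgebraic K E _
    exact {}
  have : IsGalois K N := IsGalois.normalClosure K E _
  obtain ⟨P⟩ : Nonempty (Sylow 2 (N ≃ₐ[K] N)) := inferInstance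
  have h1 : Module.finrank K (IntermediateField.fixedField (P : Subgroup (N ≃ₐ[K] N))) =
      (P : Subgroup (N ≃ₐ[K] N)).index := by
    rw [IntermediateField.finrank_eq_fixingSubgroup_index,
      IntermediateField.fixingSubgroup_fixedField]
  have h2 := h.finrank_eq_one_cd4 (IntermediateField.fixedField (P : Subgroup (N ≃ₐ[K] N)))
    (by rw [h1, ← Nat.not_even_iff_odd, even_iff_two_dvd]; exact P.not_dvd_index)
  obtain ⟨n, hn⟩ := P.isPGroup'.exists_card_eq
  have h3 : Module.finrank K N = 2 ^ n := by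
    rw [← IsGalois.card_aut_eq_finrank, ← (P : Subgroup (N ≃ₐ[K] N)).index_mul_card, ← h1, h2, hn,
      one_mul]
  have h4 : Module.finrank K E ∣ 2 ^ n := by
    rw [← h3, ← Module.finrank_mul_finrank K E N]
    exact dvd_mul_right _ _
  obtain ⟨a, -, ha⟩ := (Nat.dvd_prime_pow Nat.prime_two).mp h4
  exact ⟨a, ha⟩

theorem exists_odd_factor_cd4 {E : Type} [Field E] (p : E[X]) (hp : Odd p.natDegree) :
    ∃ q : E[X], Irreducible q ∧ q ∣ p ∧ Odd q.natDegree := by
  induction p using WfDvdMonoid.induction_on_irreducible with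
  | zero => simp at hp
  | unit u hu => rw [natDegree_eq_zero_of_isUnit hu] at hp; simp at hp
  | mul a i ha hi ih =>
    rw [natDegree_mul hi.ne_zero ha] at hp
    by_cases h : Odd i.natDegree
    · exact ⟨i, hi, dvd_mul_right _ _, h⟩
    · obtain ⟨q, hq, hqa, hq'⟩ := ih (by
        rw [Nat.not_odd_iff_even] at h
        exact (Nat.odd_add.mp (add_comm i.natDegree _ ▸ hp)).mpr h)
      exact ⟨q, hq, hqa.mul_left _, hq'⟩

theorem OddRoot.of_finite {K : Type} (E : Type) [Field K] [CharZero K] [Field E] [Algebra K E]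
    [FiniteDimensional K E] (h : OddRoot K) : OddRoot E := by
  intro p hp
  obtain ⟨q, hq, hqp, hodd⟩ := exists_odd_factor_cd4 p hp
  have : Fact (Irreducible q) := ⟨hq⟩
  have : FiniteDimensional E (AdjoinRoot q) := (AdjoinRoot.powerBasis hq.ne_zero).finite
  have : FiniteDimensional K (AdjoinRoot q) := Module.Finite.trans E _
  obtain ⟨a, ha⟩ := h.finrank_eq (AdjoinRoot q)
  have hd : q.natDegree ∣ 2 ^ a := by
    rw [← ha, ← Module.finrank_mul_finrank K E (AdjoinRoot q),
      (AdjoinRoot.powerBasis hq.ne_zero).finrank, AdjoinRoot.powerBasis_dim]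
    exact dvd_mul_left _ _
  have h1 : q.natDegree = 1 :=
    Nat.Coprime.eq_one_of_dvd ((Nat.coprime_two_right.mpr hodd).pow_right a) hd
  obtain ⟨x, hx⟩ := exists_root_of_degree_eq_one
    ((degree_eq_iff_natDegree_eq hq.ne_zero).mpr h1)
  exact ⟨x, hx.dvd hqp⟩

theorem OddRoot.index_eq {K : Type} [Field K] [CharZero K] (h : OddRoot K)
    (U : Subgroup (AlgebraicClosure K ≃ₐ[K] AlgebraicClosure K))
    (hU : IsOpen (U : Set (AlgebraicClosure K ≃ₐ[K] AlgebraicClosure K))) :
    ∃ a : ℕ, U.index = 2 ^ a := by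
  have h1 : (IntermediateField.fixedField U).fixingSubgroup = U :=
    InfiniteGalois.fixingSubgroup_fixedField ⟨U, U.isClosed_of_isOpen hU⟩
  have : FiniteDimensional K (IntermediateField.fixedField U) :=
    (InfiniteGalois.isOpen_iff_finite _).mp (by rw [h1]; exact hU)
  obtain ⟨a, ha⟩ := h.finrank_eq (IntermediateField.fixedField U)
  exact ⟨a, by rw [← ha, IntermediateField.finrank_eq_fixingSubgroup_index, h1]⟩

end Zc68
end

-- merged part: Pool.Agent.Work.MP_d65f04_ag.Cd4b
section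
/-! The property `Good2` and finite extensions. -/

namespace Zc68

theorem AllNorm.ternary_cd4b {K : Type} [Field K] (h : AllNorm K) (a b c : K) :
    ∃ x y z : K, (x ≠ 0 ∨ y ≠ 0 ∨ z ≠ 0) ∧ a * x ^ 2 + b * y ^ 2 + c * z ^ 2 = 0 := by
  by_cases ha : a = 0
  · exact ⟨1, 0, 0, by simp, by simp [ha]⟩
  rcases h (-b / a) (-c / a) with ⟨s, hs⟩ | ⟨x, y, hxy⟩
  · refine ⟨s, 1, 0, by simp, ?_⟩
    rw [sq, ← hs]; field_simp; ring
  · refine ⟨x, y, 1, by simp, ?_⟩
    field_simp at hxy
    linear_combination hxy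

/-- Quadratic forms in three variables are isotropic. -/
theorem AllNorm.isotropic {K V : Type} [Field K] [CharZero K] [AddCommGroup V] [Module K V]
    [FiniteDimensional K V] (h : AllNorm K) (q : QuadraticForm K V)
    (hV : 3 ≤ Module.finrank K V) : ∃ v, v ≠ 0 ∧ q v = 0 := by
  classical
  letI : Invertible (2 : K) := invertibleOfNonzero two_ne_zero
  obtain ⟨w, ⟨e⟩⟩ := q.equivalent_weightedSumSquares
  let i : Fin 3 ↪ Fin (Module.finrank K V) := Fin.castLEEmb hV
  obtain ⟨x, y, z, hne, hxyz⟩ := h.ternary_cd4b (w (i 0)) (w (i 1)) (w (i 2))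
  let u : Fin (Module.finrank K V) → K := Function.extend i ![x, y, z] 0
  have hu : ∀ j, u (i j) = ![x, y, z] j := fun j => i.injective.extend_apply _ _ j
  refine ⟨e.symm u, fun h0 => ?_, ?_⟩
  · have hu0 : u = 0 := by simpa using congrArg e h0
    have h0 := hu 0; have h1 := hu 1; have h2 := hu 2
    rw [hu0] at h0 h1 h2
    simp at h0 h1 h2
    rcases hne with h | h | h <;> exact h (by symm; assumption)
  · rw [e.symm.map_app, QuadraticMap.weightedSumSquares_apply,
      ← Finset.sum_subset (Finset.subset_univ (Finset.univ.map i)), Finset.sum_map,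
      Fin.sum_univ_three, hu, hu, hu]
    · simpa [sq] using hxyz
    · intro j _ hj
      have : u j = 0 := Function.extend_apply' _ _ _ (by simpa using hj)
      simp [this]

theorem AllNorm.transfer_cd4b {K F : Type} [Field K] [CharZero K] [Field F] [Algebra K F]
    (hF : Module.finrank K F = 2) (h : AllNorm K) (A B : F) (hA : ¬ IsSquare A) :
    ∃ x y : F, x ^ 2 - A * y ^ 2 ≠ 0 ∧ ∃ c : K, B * (x ^ 2 - A * y ^ 2) = algebraMap K F c := by
  have : FiniteDimensional K F := Module.finite_of_finrank_eq_succ hF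
  have hq : Module.finrank K (F ⧸ Submodule.span K {(1 : F)}) = 1 := by
    have := Submodule.finrank_quotient_add_finrank (Submodule.span K {(1 : F)})
    rw [finrank_span_singleton one_ne_zero, hF] at this
    omega
  obtain ⟨e⟩ := Module.nonempty_linearEquiv_of_finrank_eq_one hq
  let s : F →ₗ[K] K := e.symm.toLinearMap ∘ₗ (Submodule.span K {(1 : F)}).mkQ
  let l₁ : F × F →ₗ[K] F := LinearMap.fst K F F
  let l₂ : F × F →ₗ[K] F := LinearMap.snd K F F
  let Q : QuadraticMap K (F × F) F :=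
    QuadraticMap.linMulLin (LinearMap.mulLeft K B ∘ₗ l₁) l₁ -
      QuadraticMap.linMulLin (LinearMap.mulLeft K (B * A) ∘ₗ l₂) l₂
  obtain ⟨⟨x, y⟩, hv, hv0⟩ := h.isotropic (s.compQuadraticMap Q)
    (by rw [Module.finrank_prod, hF]; norm_num)
  refine ⟨x, y, fun h0 => ?_, ?_⟩
  · by_cases hy : y = 0
    · apply hv
      have : x = 0 := by simpa [hy] using h0
      simp [this, hy]
    · exact hA ⟨x / y, by field_simp; linear_combination -h0⟩
  · have h1 : s (B * x * x - B * (A * y) * y) = 0 := by simpa [Q, l₁, l₂] using hv0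
    simp only [s, LinearMap.coe_comp, LinearEquiv.coe_coe, Function.comp_apply,
      EmbeddingLike.map_eq_zero_iff, Submodule.mkQ_apply, Submodule.Quotient.mk_eq_zero,
      Submodule.mem_span_singleton] at h1
    obtain ⟨c, hc⟩ := h1
    exact ⟨c, by rw [Algebra.algebraMap_eq_smul_one, hc]; ring⟩

theorem div_value_cd4b {F : Type} [Field F] {A B x y p q : F} (h : x ^ 2 - A * y ^ 2 ≠ 0)
    (e : B * (x ^ 2 - A * y ^ 2) = p ^ 2 - A * q ^ 2) : ∃ u v : F, u ^ 2 - A * v ^ 2 = B := by
  refine ⟨(p * x - A * q * y) / (x ^ 2 - A * y ^ 2), (q * x - p * y) / (x ^ 2 - A * y ^ 2), ?_⟩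
  field_simp
  linear_combination (A * y ^ 2 - x ^ 2) * e

theorem AllNorm.of_quadratic {K : Type} (F : Type) [Field K] [CharZero K] [Field F] [Algebra K F]
    (hF : Module.finrank K F = 2) (h : AllNorm K) : AllNorm F := by
  have step : ∀ (a : K) (B : F), IsSquare (algebraMap K F a) ∨
      ∃ x y : F, x ^ 2 - algebraMap K F a * y ^ 2 = B := by
    intro a B
    refine or_iff_not_imp_left.mpr fun ha => ?_
    obtain ⟨x, y, hxy, c, hc⟩ := h.transfer_cd4b hF _ B ha
    rcases h a c with hs | ⟨p, q, hpq⟩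
    · exact absurd (hs.map (algebraMap K F)) ha
    · refine div_value_cd4b hxy (p := algebraMap K F p) (q := algebraMap K F q) ?_
      rw [hc, ← hpq]; simp
  intro A B
  refine or_iff_not_imp_left.mpr fun hA => ?_
  obtain ⟨x, y, hxy, c, hc⟩ := h.transfer_cd4b hF A B hA
  rcases step c A with ⟨s, hs⟩ | ⟨p, q, hpq⟩
  · exact div_value_cd4b hxy (p := s) (q := 0) (by rw [hc, hs]; ring)
  · have hq : q ≠ 0 := by
      rintro rfl
      exact hA ⟨p, by rw [← hpq]; ring⟩
    refine div_value_cd4b hxy (p := p / q) (q := 1 / q) ?_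
    rw [hc, ← hpq]; field_simp; ring

end Zc68
end

-- merged part: Pool.Agent.Work.MP_d65f04_ag.Cd5
section
/-! Vanishing of the relative Brauer groups. -/

namespace Zc68

theorem h1_genCd5 {K E G : Type} [Field K] [Field E] [Algebra K E] [Group G] [Finite G]
    (φ : G →* (E ≃ₐ[K] E)) (hφ : Function.Injective φ)
    (c : G → E) (hc0 : ∀ s, c s ≠ 0) (hc : ∀ s t, c (s * t) = c s * φ s (c t)) :
    ∃ b : E, b ≠ 0 ∧ ∀ s, c s * b = φ s b := by
  classical
  have := Fintype.ofFinite G
  have hli : LinearIndependent E (fun s : G => ((φ s : E →* E) : E → E)) :=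
    (linearIndependent_monoidHom E E).comp (fun s : G => (φ s : E →* E)) fun s t e =>
      hφ (AlgEquiv.ext fun x => DFunLike.congr_fun e x)
  obtain ⟨x, hx⟩ : ∃ x : E, ∑ t, c t * φ t x ≠ 0 := by
    by_contra h
    push Not at h
    refine hc0 1 (Fintype.linearIndependent_iff.1 hli c ?_ 1)
    funext x
    simpa using h x
  refine ⟨(∑ t, c t * φ t x)⁻¹, inv_ne_zero hx, fun s => ?_⟩
  have h1 : c s * φ s (∑ t, c t * φ t x) = ∑ t, c t * φ t x := by
    rw [map_sum, Finset.mul_sum, ← Equiv.sum_comp (Equiv.mulLeft s) fun t => c t * φ t x]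
    refine Finset.sum_congr rfl fun t _ => ?_
    simp only [Equiv.coe_mulLeft, hc, map_mul, AlgEquiv.mul_apply, mul_assoc]
  have h2 : φ s (∑ t, c t * φ t x) ≠ 0 := (map_ne_zero _).2 hx
  rw [map_inv₀]
  generalize φ s (∑ t, c t * φ t x) = y at h1 h2
  rw [← h1]
  have := hc0 s
  field_simp

theorem h1_finite {K E : Type} [Field K] [Field E] [Algebra K E] [FiniteDimensional K E]
    (c : (E ≃ₐ[K] E) → E) (hc0 : ∀ s, c s ≠ 0) (hc : ∀ s t, c (s * t) = c s * s (c t)) :
    ∃ b : E, b ≠ 0 ∧ ∀ s, c s * b = s b :=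
  h1_genCd5 (MonoidHom.id _) Function.injective_id c hc0 hc

section Ext

variable {G M T : Type} [Group G] [CommGroup M] [MulDistribMulAction G M] [Group T]

/-- Extension of a splitting of a group extension across a subgroup of index two. -/
theorem stepCd5 (π : T →* G) (ι : M →* T) (hι : Function.Injective ι)
    (hsurj : Function.Surjective π) (hker : ∀ x, π x = 1 ↔ ∃ m, ι m = x)
    (hconj : ∀ x m, x * ι m = ι (π x • m) * x) (H H1 : Subgroup G) (hle : H ≤ H1)
    (h2 : ∀ g ∈ H1, ∀ k ∈ H1, (g * k ∈ H ↔ (g ∈ H ↔ k ∈ H))) (σ : G) (hσ1 : σ ∈ H1)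
    (hσ : σ ∉ H)
    (h1 : ∀ f : G → M, (∀ g ∈ H, ∀ k ∈ H, f (g * k) = f g * g • f k) →
      ∃ m, ∀ g ∈ H, f g * m = g • m)
    (h0 : ∀ β : M, (∀ g ∈ H, g • β = β) → σ • β = β →
      ∃ γ : M, (∀ g ∈ H, g • γ = γ) ∧ γ * σ • γ = β)
    (s : G → T) (hs : ∀ g ∈ H, ∀ k ∈ H, s (g * k) = s g * s k) (hπ : ∀ g ∈ H, π (s g) = g) :
    ∃ S : G → T, (∀ g ∈ H1, ∀ k ∈ H1, S (g * k) = S g * S k) ∧ ∀ g ∈ H1, π (S g) = g := by
  classical
  have hσi : σ⁻¹ ∉ H := fun h => hσ (by simpa using H.inv_mem h)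
  have hσi1 : σ⁻¹ ∈ H1 := H1.inv_mem hσ1
  have hcj : ∀ g ∈ H, σ⁻¹ * g * σ ∈ H := fun g hg => by
    have a := hle hg
    rw [h2 _ (H1.mul_mem hσi1 a) _ hσ1, h2 _ hσi1 _ a]
    simp [hσ, hσi, hg]
  have hcj' : ∀ g ∈ H, σ * g * σ⁻¹ ∈ H := fun g hg => by
    have a := hle hg
    rw [h2 _ (H1.mul_mem hσ1 a) _ hσi1, h2 _ hσ1 _ a]
    simp [hσ, hσi, hg]
  have hσσ : σ * σ ∈ H := (h2 _ hσ1 _ hσ1).2 Iff.rfl
  have hout : ∀ g ∈ H1, g ∉ H → g * σ⁻¹ ∈ H := fun g hg hg' => by
    rw [h2 _ hg _ hσi1]; simp [hg', hσi]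
  obtain ⟨x0, hx0⟩ := hsurj σ
  have hf : ∀ g, ∃ m, g ∈ H → x0 * s (σ⁻¹ * g * σ) = ι m * s g * x0 := by
    intro g
    by_cases hg : g ∈ H
    · obtain ⟨m, hm⟩ := (hker (x0 * s (σ⁻¹ * g * σ) * x0⁻¹ * (s g)⁻¹)).1 (by
        simp only [map_mul, map_inv, hx0, hπ g hg, hπ _ (hcj g hg)]
        group)
      exact ⟨m, fun _ => by rw [hm]; group⟩
    · exact ⟨1, fun h => absurd h hg⟩
  choose f hf using hf
  obtain ⟨m, hm⟩ := h1 f fun g hg k hk => by
    apply hι
    have e1 := hf _ (H.mul_mem hg hk)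
    have e2 : σ⁻¹ * (g * k) * σ = (σ⁻¹ * g * σ) * (σ⁻¹ * k * σ) := by group
    rw [e2, hs _ (hcj g hg) _ (hcj k hk), ← mul_assoc, hf g hg, mul_assoc, hf k hk, hs g hg k hk]
      at e1
    have e3 := hconj (s g) (f k)
    rw [hπ g hg] at e3
    have e4 : ι (f g) * s g * (ι (f k) * s k * x0) =
        ι (f g) * (s g * ι (f k)) * s k * x0 := by group
    rw [e4, e3] at e1
    rw [map_mul]
    have e5 : ι (f g) * (ι (g • f k) * s g) * s k * x0 =
      ι (f g) * ι (g • f k) * (s g * s k) * x0 := by group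
    rw [e5] at e1
    exact (mul_right_cancel (mul_right_cancel e1)).symm
  obtain ⟨x1, hx1, hn1⟩ : ∃ x1, π x1 = σ ∧ ∀ g ∈ H, x1 * s (σ⁻¹ * g * σ) = s g * x1 := by
    refine ⟨ι m * x0, by rw [map_mul, (hker _).2 ⟨m, rfl⟩, one_mul, hx0], fun g hg => ?_⟩
    have e3 := hconj (s g) m
    rw [hπ g hg, ← hm g hg, mul_comm (f g), map_mul] at e3
    rw [mul_assoc, hf g hg, ← mul_assoc (s g), e3]
    group
  obtain ⟨β, hβ⟩ := (hker (x1 * x1 * (s (σ * σ))⁻¹)).1 (by
    simp only [map_mul, map_inv, hx1, hπ _ hσσ]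
    group)
  have hβ' : x1 * x1 = ι β * s (σ * σ) := by rw [hβ]; group
  have hβσ : σ • β = β := by
    apply hι
    have e1 := hn1 _ hσσ
    have e2 : σ⁻¹ * (σ * σ) * σ = σ * σ := by group
    rw [e2] at e1
    have e3 := hconj x1 β
    rw [hx1] at e3
    have e4 : x1 * (x1 * x1) = (x1 * x1) * x1 := by group
    rw [hβ', ← mul_assoc, e3, mul_assoc, e1, mul_assoc] at e4
    exact mul_right_cancel e4
  have hβH : ∀ g ∈ H, g • β = β := fun g hg => by
    apply hι
    have e1 := hn1 g hg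
    have e2 := hn1 _ (hcj g hg)
    have e3 := hconj (s g) β
    rw [hπ g hg] at e3
    have e4 : s g * (x1 * x1) = (x1 * x1) * s (σ⁻¹ * (σ⁻¹ * g * σ) * σ) := by
      rw [← mul_assoc, ← e1, mul_assoc, ← e2, ← mul_assoc]
    have e5 : σ * σ * (σ⁻¹ * (σ⁻¹ * g * σ) * σ) = g * (σ * σ) := by group
    rw [hβ', mul_assoc, ← hs _ hσσ _ (hcj _ (hcj g hg)), e5, hs g hg _ hσσ, ← mul_assoc, e3,
      ← mul_assoc] at e4
    exact mul_right_cancel (mul_right_cancel e4)
  obtain ⟨γ, hγ, hγβ⟩ := h0 β⁻¹ (fun g hg => by rw [smul_inv', hβH g hg])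
    (by rw [smul_inv', hβσ])
  obtain ⟨x, hx, hn, hxx⟩ : ∃ x, π x = σ ∧ (∀ g ∈ H, x * s g = s (σ * g * σ⁻¹) * x) ∧
      x * x = s (σ * σ) := by
    refine ⟨ι γ * x1, by rw [map_mul, (hker _).2 ⟨γ, rfl⟩, one_mul, hx1], fun g hg => ?_, ?_⟩
    · have e1 := hn1 _ (hcj' g hg)
      have e2 : σ⁻¹ * (σ * g * σ⁻¹) * σ = g := by group
      rw [e2] at e1
      have e3 := hconj (s (σ * g * σ⁻¹)) γ
      rw [hπ _ (hcj' g hg), hγ _ (hcj' g hg)] at e3
      rw [mul_assoc, e1, ← mul_assoc, ← e3, mul_assoc]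
    · have e3 := hconj x1 γ
      rw [hx1] at e3
      have e4 : ι γ * x1 * (ι γ * x1) = ι γ * (x1 * ι γ) * x1 := by group
      have e5 : ι γ * (ι (σ • γ) * x1) * x1 = ι (γ * σ • γ) * (x1 * x1) := by
        rw [map_mul]; group
      rw [e4, e3, e5, hγβ, hβ', map_inv]
      group
  refine ⟨fun g => if g ∈ H then s g else s (g * σ⁻¹) * x, fun g hg k hk => ?_, fun g hg => ?_⟩
  · have hgk := h2 g hg k hk
    by_cases a : g ∈ H <;> by_cases b : k ∈ H
    · simp only [if_pos a, if_pos b, if_pos (H.mul_mem a b), hs g a k b]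
    · have c : g * k ∉ H := by simp [hgk, a, b]
      simp only [if_pos a, if_neg b, if_neg c]
      rw [mul_assoc g, hs g a _ (hout k hk b), mul_assoc]
    · have c : g * k ∉ H := by simp [hgk, a, b]
      simp only [if_neg a, if_pos b, if_neg c]
      rw [mul_assoc _ x, hn k b, ← mul_assoc, ← hs _ (hout g hg a) _ (hcj' k b)]
      congr 2
      group
    · have c : g * k ∈ H := by simp [hgk, a, b]
      simp only [if_neg a, if_neg b, if_pos c]
      have e : s (g * σ⁻¹) * x * (s (k * σ⁻¹) * x) = s (g * σ⁻¹) * (x * s (k * σ⁻¹)) * x := by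
        group
      rw [e, hn _ (hout k hk b), ← mul_assoc, mul_assoc _ x, hxx,
        ← hs _ (hout g hg a) _ (hcj' _ (hout k hk b)),
        ← hs _ (H.mul_mem (hout g hg a) (hcj' _ (hout k hk b))) _ hσσ]
      congr 1
      group
  · by_cases a : g ∈ H
    · simp only [if_pos a, hπ g a]
    · simp only [if_neg a, map_mul, hπ _ (hout g hg a), hx]
      group

/-- A 2-cocycle. -/
structure CocCd5 (G M : Type) [Group G] [CommGroup M] [MulDistribMulAction G M] where
  c : G → G → M
  hc : ∀ s t u, c s t * c (s * t) u = s • c t u * c s (t * u)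

theorem CocCd5.left (C : CocCd5 G M) (u : G) : C.c 1 u = C.c 1 1 := by
  have := C.hc 1 1 u
  simp only [mul_one, one_mul, one_smul] at this
  exact (mul_right_cancel this).symm

theorem CocCd5.right (C : CocCd5 G M) (s : G) : C.c s 1 = s • C.c 1 1 := by
  have := C.hc s 1 1
  simp only [mul_one] at this
  exact mul_right_cancel this

/-- The twisted product defined by a cocycle. -/
@[ext] structure TwCd5 (C : CocCd5 G M) where
  a : M
  s : G

variable {C : CocCd5 G M}

instance : Mul (TwCd5 C) := ⟨fun x y => ⟨x.a * x.s • y.a * C.c x.s y.s, x.s * y.s⟩⟩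
instance : One (TwCd5 C) := ⟨⟨(C.c 1 1)⁻¹, 1⟩⟩
instance : _root_.Inv (TwCd5 C) := ⟨fun x => ⟨(C.c 1 1 * x.s⁻¹ • x.a * C.c x.s⁻¹ x.s)⁻¹, x.s⁻¹⟩⟩

theorem TwCd5.mul_a (x y : TwCd5 C) : (x * y).a = x.a * x.s • y.a * C.c x.s y.s := rfl
theorem TwCd5.mul_s (x y : TwCd5 C) : (x * y).s = x.s * y.s := rfl
theorem TwCd5.one_a : (1 : TwCd5 C).a = (C.c 1 1)⁻¹ := rfl
theorem TwCd5.one_s : (1 : TwCd5 C).s = 1 := rfl
theorem TwCd5.inv_a (x : TwCd5 C) :
    (x⁻¹).a = (C.c 1 1 * x.s⁻¹ • x.a * C.c x.s⁻¹ x.s)⁻¹ := rfl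
theorem TwCd5.inv_s (x : TwCd5 C) : (x⁻¹).s = x.s⁻¹ := rfl

instance : Group (TwCd5 C) where
  mul_assoc x y z := by
    refine TwCd5.ext ?_ (mul_assoc _ _ _)
    simp only [TwCd5.mul_a, TwCd5.mul_s, smul_mul', mul_smul]
    have := C.hc x.s y.s z.s
    calc x.a * x.s • y.a * C.c x.s y.s * x.s • y.s • z.a * C.c (x.s * y.s) z.s
        = x.a * x.s • y.a * x.s • y.s • z.a * (C.c x.s y.s * C.c (x.s * y.s) z.s) := by ac_rfl
      _ = _ := by rw [this]; ac_rfl
  one_mul x := by
    refine TwCd5.ext ?_ (one_mul _)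
    rw [TwCd5.mul_a, TwCd5.one_a, TwCd5.one_s, one_smul, C.left x.s, mul_right_comm, inv_mul_cancel,
      one_mul]
  mul_one x := by
    refine TwCd5.ext ?_ (mul_one _)
    rw [TwCd5.mul_a, TwCd5.one_a, TwCd5.one_s, C.right x.s, smul_inv', mul_assoc, inv_mul_cancel,
      mul_one]
  inv_mul_cancel x := by
    refine TwCd5.ext ?_ (inv_mul_cancel _)
    rw [TwCd5.mul_a, TwCd5.one_a, TwCd5.inv_a, TwCd5.inv_s, mul_assoc, mul_assoc, mul_inv,
      mul_assoc, inv_mul_cancel, mul_one]

/-- The projection of the twisted product. -/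
def TwCd5.proj (C : CocCd5 G M) : TwCd5 C →* G where
  toFun x := x.s
  map_one' := rfl
  map_mul' _ _ := rfl

/-- The inclusion of the module in the twisted product. -/
def TwCd5.incl (C : CocCd5 G M) : M →* TwCd5 C :=
  MonoidHom.mk' (fun m => ⟨m * (C.c 1 1)⁻¹, 1⟩) fun m n => by
    refine TwCd5.ext ?_ (mul_one _).symm
    simp only [TwCd5.mul_a, one_smul]
    rw [mul_assoc _ (n * _), mul_assoc n, inv_mul_cancel, mul_one]
    ac_rfl

theorem TwCd5.incl_inj : Function.Injective (TwCd5.incl C) := fun _ _ e =>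
  mul_right_cancel (congrArg TwCd5.a e)

theorem TwCd5.proj_surj : Function.Surjective (TwCd5.proj C) := fun g => ⟨⟨1, g⟩, rfl⟩

theorem TwCd5.ker (x : TwCd5 C) : TwCd5.proj C x = 1 ↔ ∃ m, TwCd5.incl C m = x := by
  constructor
  · intro h
    exact ⟨x.a * C.c 1 1, TwCd5.ext (mul_inv_cancel_right _ _) h.symm⟩
  · rintro ⟨m, rfl⟩
    rfl

theorem TwCd5.conj (x : TwCd5 C) (m : M) :
    x * TwCd5.incl C m = TwCd5.incl C (TwCd5.proj C x • m) * x := by
  refine TwCd5.ext ?_ ((mul_one _).trans (one_mul _).symm)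
  change x.a * x.s • (m * (C.c 1 1)⁻¹) * C.c x.s 1 =
    x.s • m * (C.c 1 1)⁻¹ * (1 : G) • x.a * C.c 1 x.s
  rw [C.left x.s, C.right x.s, smul_mul', smul_inv', one_smul, mul_assoc, mul_assoc,
    inv_mul_cancel, mul_one, mul_right_comm, mul_assoc _ _⁻¹, inv_mul_cancel, mul_one, mul_comm]

end Ext

section Gal

open IntermediateField

variable {K E : Type} [Field K] [CharZero K] [Field E] [Algebra K E]
  [FiniteDimensional K E] [IsGalois K E]

theorem allNormCd5 (hK : AllNorm K) (k : ℕ) : ∀ (n : ℕ) (H : Subgroup (E ≃ₐ[K] E)),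
    Nat.card (E ≃ₐ[K] E) = 2 ^ (n + k) → Nat.card H = 2 ^ n → AllNorm (fixedField H) := by
  induction k with
  | zero =>
    intro n H h1 h2
    have : H = ⊤ := Subgroup.eq_top_of_card_eq H (h2.trans h1.symm)
    rw [this, IsGalois.fixedField_top]
    intro a b
    obtain ⟨a, rfl⟩ := (botEquiv K E).symm.surjective a
    obtain ⟨b, rfl⟩ := (botEquiv K E).symm.surjective b
    rcases hK a b with ⟨x, rfl⟩ | ⟨x, y, rfl⟩
    · exact Or.inl ⟨_, map_mul _ x x⟩
    · exact Or.inr ⟨(botEquiv K E).symm x, (botEquiv K E).symm y, by simp⟩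
  | succ k ih =>
    intro n H h1 h2
    have : Fact (Nat.Prime 2) := ⟨Nat.prime_two⟩
    obtain ⟨H1, k1, k2⟩ := Sylow.exists_subgroup_card_pow_succ (p := 2) (n := n)
      (by rw [h1]; exact pow_dvd_pow 2 (by omega)) h2
    have a1 := ih (n + 1) H1 (by rw [h1]; congr 1; omega) k1
    let : Algebra (fixedField H1) (fixedField H) :=
      (inclusion (fixedField_le k2)).toRingHom.toAlgebra
    have : IsScalarTower (fixedField H1) (fixedField H) E :=
      IsScalarTower.of_algebraMap_eq fun _ => rfl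
    refine AllNorm.of_quadratic (fixedField H) ?_ a1
    have := Module.finrank_mul_finrank (fixedField H1) (fixedField H) E
    rw [finrank_fixedField_eq_card, finrank_fixedField_eq_card, k1, h2, pow_succ, mul_comm] at this
    exact Nat.eq_of_mul_eq_mul_left (by positivity) this

omit [IsGalois K E] in
theorem normCd5 (H H1 : Subgroup (E ≃ₐ[K] E)) (hle : H ≤ H1)
    (h2 : ∀ g ∈ H1, ∀ k ∈ H1, (g * k ∈ H ↔ (g ∈ H ↔ k ∈ H))) (σ : E ≃ₐ[K] E) (hσ1 : σ ∈ H1)
    (hσ : σ ∉ H) (hN : AllNorm (fixedField H1)) (β : E) (hβ : ∀ g ∈ H, g β = β)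
    (hβσ : σ β = β) : ∃ γ : E, (∀ g ∈ H, g γ = γ) ∧ γ * σ γ = β := by
  have hσi : σ⁻¹ ∉ H := fun h => hσ (by simpa using H.inv_mem h)
  have hσi1 : σ⁻¹ ∈ H1 := H1.inv_mem hσ1
  have hcj : ∀ g ∈ H, σ⁻¹ * g * σ ∈ H := fun g hg => by
    have a := hle hg
    rw [h2 _ (H1.mul_mem hσi1 a) _ hσ1, h2 _ hσi1 _ a]
    simp [hσ, hσi, hg]
  have hσσ : σ * σ ∈ H := (h2 _ hσ1 _ hσ1).2 Iff.rfl
  have hfix : ∀ x : E, (∀ g ∈ H, g x = x) → σ x = x → x ∈ fixedField H1 := fun x h h' => by
    rw [mem_fixedField_iff]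
    intro g hg
    by_cases a : g ∈ H
    · exact h g a
    · have b : g * σ ∈ H := by rw [h2 _ hg _ hσ1]; simp [a, hσ]
      have := h _ b
      rwa [AlgEquiv.mul_apply, h'] at this
  obtain ⟨z, hz, hzσ⟩ : ∃ z : E, (∀ g ∈ H, g z = z) ∧ σ z ≠ z := by
    by_contra h
    push Not at h
    apply hσ
    rw [← fixingSubgroup_fixedField H, IntermediateField.mem_fixingSubgroup_iff]
    exact fun x hx => h x ((mem_fixedField_iff _ _).1 hx)
  have hθ : ∀ g ∈ H, g (z - σ z) = z - σ z := fun g hg => by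
    have := congrArg σ (hz _ (hcj g hg))
    rw [← AlgEquiv.mul_apply, ← mul_assoc, ← mul_assoc, mul_inv_cancel, one_mul,
      AlgEquiv.mul_apply] at this
    rw [map_sub, hz g hg, this]
  have hθσ : σ (z - σ z) = -(z - σ z) := by
    rw [map_sub, ← AlgEquiv.mul_apply, hz _ hσσ, neg_sub]
  have hθ0 : z - σ z ≠ 0 := sub_ne_zero.2 hzσ.symm
  generalize z - σ z = θ at hθ hθσ hθ0
  have hmem : ∀ x : fixedField H1, ∀ g ∈ H1, g (x : E) = x := fun x =>
    (mem_fixedField_iff _ _).1 x.2
  have : CharZero E := charZero_of_injective_algebraMap (algebraMap K E).injective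
  rcases hN ⟨θ * θ, hfix _ (fun g hg => by rw [map_mul, hθ g hg])
    (by rw [map_mul, hθσ, neg_mul_neg])⟩ ⟨β, hfix β hβ hβσ⟩ with ⟨x, hx⟩ | ⟨x, y, hxy⟩
  · exfalso
    have e : θ * θ = (x : E) * x := congrArg Subtype.val hx
    have e1 : σ θ = θ := by
      rcases mul_self_eq_mul_self_iff.1 e with h | h
      · rw [h, hmem x σ hσ1]
      · rw [h, map_neg, hmem x σ hσ1]
    rw [hθσ] at e1
    exact hθ0 (by linear_combination (-1 / 2 : E) * e1)
  · have e : (x : E) ^ 2 - θ * θ * (y : E) ^ 2 = β := congrArg Subtype.val hxy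
    refine ⟨x + y * θ, fun g hg => ?_, ?_⟩
    · rw [map_add, map_mul, hmem x g (hle hg), hmem y g (hle hg), hθ g hg]
    · rw [map_add, map_mul, hmem x σ hσ1, hmem y σ hσ1, hθσ, ← e]
      ring

theorem splitCd5 (hK : Good2 K) (C : CocCd5 (E ≃ₐ[K] E) Eˣ) :
    ∃ s : (E ≃ₐ[K] E) → TwCd5 C, (∀ g k, s (g * k) = s g * s k) ∧ ∀ g, (s g).s = g := by
  obtain ⟨a, ha⟩ := hK.1.finrank_eq E
  rw [← IsGalois.card_aut_eq_finrank] at ha
  have : Fact (Nat.Prime 2) := ⟨Nat.prime_two⟩
  have key : ∀ n ≤ a, ∃ H : Subgroup (E ≃ₐ[K] E), Nat.card H = 2 ^ n ∧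
      ∃ s : (E ≃ₐ[K] E) → TwCd5 C, (∀ g ∈ H, ∀ k ∈ H, s (g * k) = s g * s k) ∧
        ∀ g ∈ H, TwCd5.proj C (s g) = g := by
    intro n
    induction n with
    | zero =>
      intro _
      refine ⟨⊥, by simp, fun _ => 1, fun _ _ _ _ => (mul_one (1 : TwCd5 C)).symm,
        fun g hg => ?_⟩
      rw [Subgroup.mem_bot.1 hg, map_one]
    | succ n ih =>
      intro hn
      obtain ⟨H, k0, s, hs, hπ⟩ := ih (by omega)
      obtain ⟨H1, k1, k2⟩ := Sylow.exists_subgroup_card_pow_succ (p := 2) (n := n)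
        (by rw [ha]; exact pow_dvd_pow 2 hn) k0
      have hidx : (H.subgroupOf H1).index = 2 := by
        have h1 := (H.subgroupOf H1).card_mul_index
        rw [Nat.card_congr (Subgroup.subgroupOfEquivOfLe k2).toEquiv, k0, k1, pow_succ] at h1
        exact Nat.eq_of_mul_eq_mul_left (by positivity) h1
      have h2 : ∀ g ∈ H1, ∀ k ∈ H1, (g * k ∈ H ↔ (g ∈ H ↔ k ∈ H)) := fun g hg k hk =>
        Subgroup.mul_mem_iff_of_index_two hidx (a := ⟨g, hg⟩) (b := ⟨k, hk⟩)
      obtain ⟨σ, hσ1, hσ⟩ : ∃ σ ∈ H1, σ ∉ H := by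
        by_contra h
        push Not at h
        rw [le_antisymm k2 h, k1] at k0
        have := Nat.pow_right_injective le_rfl k0
        omega
      have hN := allNormCd5 hK.2 (a - (n + 1)) (n + 1) H1 (by rw [ha]; congr 1; omega) k1
      refine ⟨H1, k1, stepCd5 (TwCd5.proj C) (TwCd5.incl C) TwCd5.incl_inj TwCd5.proj_surj
        TwCd5.ker TwCd5.conj H H1 k2 h2 σ hσ1 hσ (fun f hf => ?_) (fun β hβ hβσ => ?_) s hs hπ⟩
      · obtain ⟨b, hb, e⟩ := h1_genCd5 H.subtype H.subtype_injective (fun g => (f g : E))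
          (fun g => (f g).ne_zero) fun g k => congrArg Units.val (hf g g.2 k k.2)
        exact ⟨Units.mk0 b hb, fun g hg => Units.ext (e ⟨g, hg⟩)⟩
      · obtain ⟨γ, hγ, e⟩ := normCd5 H H1 k2 h2 σ hσ1 hσ hN β
          (fun g hg => congrArg Units.val (hβ g hg)) (congrArg Units.val hβσ)
        have h0 : γ ≠ 0 := fun h => β.ne_zero (by rw [← e, h, zero_mul])
        exact ⟨Units.mk0 γ h0, fun g hg => Units.ext (hγ g hg), Units.ext e⟩
  obtain ⟨H, k0, s, hs, hπ⟩ := key a le_rfl
  have : H = ⊤ := Subgroup.eq_top_of_card_eq H (k0.trans ha.symm)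
  subst this
  exact ⟨s, fun g k => hs g trivial k trivial, fun g => hπ g trivial⟩

end Gal

theorem h2_finite {K E : Type} [Field K] [CharZero K] [Field E] [Algebra K E]
    [FiniteDimensional K E] [IsGalois K E] (hK : Good2 K)
    (c : (E ≃ₐ[K] E) → (E ≃ₐ[K] E) → E) (hc0 : ∀ s t, c s t ≠ 0)
    (hc : ∀ s t u, c s t * c (s * t) u = s (c t u) * c s (t * u)) :
    ∃ b : (E ≃ₐ[K] E) → E, (∀ s, b s ≠ 0) ∧ ∀ s t, c s t * b (s * t) = b s * s (b t) := by
  obtain ⟨s, hs, hπ⟩ := splitCd5 hK
    ⟨fun s t => Units.mk0 (c s t) (hc0 s t), fun s t u => Units.ext (hc s t u)⟩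
  refine ⟨fun g => ((s g).a : E)⁻¹, fun g => inv_ne_zero (s g).a.ne_zero, fun g k => ?_⟩
  have h1 := congrArg TwCd5.a (hs g k)
  rw [TwCd5.mul_a, hπ, hπ] at h1
  have h2 : ((s (g * k)).a : E) = (s g).a * g (s k).a * c g k := congrArg Units.val h1
  have h3 : g ((s k).a : E) ≠ 0 := (map_ne_zero _).2 (s k).a.ne_zero
  have h4 := (s g).a.ne_zero
  have h5 := hc0 g k
  beta_reduce
  rw [h2, map_inv₀]
  field_simp

end Zc68
end

-- merged part: Pool.Agent.Work.MP_d65f04_ag.Cd6
section
/-! Fields with the property `Good2` have cohomological dimension at most one. -/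

namespace Zc68

section General

open Filter Topology

variable {G M : Type} [Group G] [TopologicalSpace G] [IsTopologicalGroup G] [AddCommGroup M]

theorem Disc.lc_cd6 {ρ : Representation ℤ G M} (hρ : Disc ρ) {X : Type} [TopologicalSpace X]
    {γ : X → G} (hγ : Continuous γ) {β : X → M} (hβ : IsLocallyConstant β) :
    IsLocallyConstant fun x => ρ (γ x) (β x) := by
  rw [IsLocallyConstant.iff_eventually_eq]
  intro x
  have h1 : ∀ᶠ y in 𝓝 x, ρ ((γ x)⁻¹ * γ y) (β x) = β x :=
    ((hρ (β x)).preimage (continuous_const.mul hγ)).mem_nhds (by simp)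
  filter_upwards [h1, hβ.eventually_eq x] with y h1 h2
  rw [h2]
  conv_rhs => rw [← h1]
  rw [← Module.End.mul_apply, ← map_mul, mul_inv_cancel_left]

omit [Group G] [TopologicalSpace G] [IsTopologicalGroup G] in
theorem d1_cd6 (f : (Fin 1 → G) → M) (a b : G) : dCochain f ![a, b] = f ![b] - f ![a] := by
  have e0 : (fun j : Fin 1 => ![a, b] ((0 : Fin 2).succAbove j)) = ![b] := by
    ext j; fin_cases j; rfl
  have e1 : (fun j : Fin 1 => ![a, b] ((1 : Fin 2).succAbove j)) = ![a] := by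
    ext j; fin_cases j; rfl
  have : dCochain f ![a, b] = ∑ i : Fin 2, (-1 : ℤ) ^ (i : ℕ) •
    f fun j => ![a, b] (i.succAbove j) := rfl
  rw [this, Fin.sum_univ_two, e0, e1]
  simp [sub_eq_add_neg]

omit [Group G] [TopologicalSpace G] [IsTopologicalGroup G] in
theorem d2_cd6 (f : (Fin 2 → G) → M) (a b c : G) :
    dCochain f ![a, b, c] = f ![b, c] - f ![a, c] + f ![a, b] := by
  have e0 : (fun j : Fin 2 => ![a, b, c] ((0 : Fin 3).succAbove j)) = ![b, c] := by
    ext j; fin_cases j <;> rfl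
  have e1 : (fun j : Fin 2 => ![a, b, c] ((1 : Fin 3).succAbove j)) = ![a, c] := by
    ext j; fin_cases j <;> rfl
  have e2 : (fun j : Fin 2 => ![a, b, c] ((2 : Fin 3).succAbove j)) = ![a, b] := by
    ext j; fin_cases j <;> rfl
  have : dCochain f ![a, b, c] = ∑ i : Fin 3, (-1 : ℤ) ^ (i : ℕ) •
    f fun j => ![a, b, c] (i.succAbove j) := rfl
  rw [this, Fin.sum_univ_three, e0, e1, e2]
  simp [sub_eq_add_neg]

omit [Group G] [TopologicalSpace G] [IsTopologicalGroup G] in
theorem d3_cd6 (f : (Fin 3 → G) → M) (a b c d : G) :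
    dCochain f ![a, b, c, d] = f ![b, c, d] - f ![a, c, d] + f ![a, b, d] - f ![a, b, c] := by
  have e0 : (fun j : Fin 3 => ![a, b, c, d] ((0 : Fin 4).succAbove j)) = ![b, c, d] := by
    ext j; fin_cases j <;> rfl
  have e1 : (fun j : Fin 3 => ![a, b, c, d] ((1 : Fin 4).succAbove j)) = ![a, c, d] := by
    ext j; fin_cases j <;> rfl
  have e2 : (fun j : Fin 3 => ![a, b, c, d] ((2 : Fin 4).succAbove j)) = ![a, b, d] := by
    ext j; fin_cases j <;> rfl
  have e3 : (fun j : Fin 3 => ![a, b, c, d] ((3 : Fin 4).succAbove j)) = ![a, b, c] := by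
    ext j; fin_cases j <;> rfl
  have : dCochain f ![a, b, c, d] = ∑ i : Fin 4, (-1 : ℤ) ^ (i : ℕ) •
    f fun j => ![a, b, c, d] (i.succAbove j) := rfl
  have v3 : ((3 : Fin 4) : ℕ) = 3 := rfl
  have v2 : ((2 : Fin 4) : ℕ) = 2 := rfl
  have p3 : (-1 : ℤ) ^ 3 = -1 := by norm_num
  rw [this, Fin.sum_univ_four, e0, e1, e2, e3, v2, v3, p3]
  simp [sub_eq_add_neg]

theorem van_one_cd6 {ρ : Representation ℤ G M} (hρ : Disc ρ)
    (h : ∀ c : G → M, IsLocallyConstant c → (∀ s t, c (s * t) = c s + ρ s (c t)) →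
      ∃ b, ∀ s, c s + b = ρ s b) : Van ρ 1 := by
  intro f hf hd
  have key : ∀ a b : G, f ![a, b] = ρ a (f ![1, a⁻¹ * b]) := fun a b => by
    rw [← hf.2]
    congr 1
    ext j
    fin_cases j <;> simp
  obtain ⟨b, hb⟩ := h (fun s => f ![1, s])
    (hf.1.comp_continuous (continuous_pi fun j => by fin_cases j <;> simp <;> fun_prop))
    fun s t => by
      have e := (d2_cd6 f 1 s (s * t)).symm.trans (congrFun hd _)
      rw [key s, inv_mul_cancel_left] at e
      rw [← sub_eq_zero, ← neg_eq_zero]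
      refine Eq.trans ?_ e
      abel
  refine ⟨fun g => ρ (g 0) b, ⟨hρ.lc_cd6 (continuous_apply 0) (IsLocallyConstant.const b),
    fun s g => by simp⟩, funext fun g => ?_⟩
  obtain ⟨x, y, rfl⟩ : ∃ x y, g = ![x, y] := ⟨g 0, g 1, by ext j; fin_cases j <;> rfl⟩
  have e1 : ρ y b = ρ x (ρ (x⁻¹ * y) b) := by
    rw [← Module.End.mul_apply, ← map_mul, mul_inv_cancel_left]
  refine (d1_cd6 _ x y).trans ?_
  rw [key]
  simp only [Matrix.cons_val_zero]
  rw [e1, ← hb, map_add, add_sub_cancel_right]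

theorem van_two_cd6 {ρ : Representation ℤ G M} (hρ : Disc ρ)
    (h : ∀ c : G × G → M, IsLocallyConstant c →
      (∀ s t u, c (s, t) + c (s * t, u) = ρ s (c (t, u)) + c (s, t * u)) →
      ∃ β : G → M, IsLocallyConstant β ∧ ∀ s t, c (s, t) + β (s * t) = β s + ρ s (β t)) :
    Van ρ 2 := by
  intro f hf hd
  have key : ∀ a b c : G, f ![a, b, c] = ρ a (f ![1, a⁻¹ * b, a⁻¹ * c]) := fun a b c => by
    rw [← hf.2]
    congr 1
    ext j
    fin_cases j <;> simp
  obtain ⟨β, hβ, hb⟩ := h (fun p => f ![1, p.1, p.1 * p.2])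
    (hf.1.comp_continuous (continuous_pi fun j => by fin_cases j <;> simp <;> fun_prop))
    fun s t u => by
      have e := (d3_cd6 f 1 s (s * t) (s * (t * u))).symm.trans (congrFun hd _)
      rw [key s, inv_mul_cancel_left, inv_mul_cancel_left] at e
      simp only [mul_assoc s t u]
      rw [← sub_eq_zero, ← neg_eq_zero]
      refine Eq.trans ?_ e
      abel
  refine ⟨fun g => ρ (g 0) (β ((g 0)⁻¹ * g 1)), ⟨hρ.lc_cd6 (continuous_apply 0)
    (hβ.comp_continuous (by fun_prop)), fun s g => ?_⟩, funext fun g => ?_⟩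
  · simp [mul_assoc]
  obtain ⟨x, y, z, rfl⟩ : ∃ x y z, g = ![x, y, z] :=
    ⟨g 0, g 1, g 2, by ext j; fin_cases j <;> rfl⟩
  have e1 : ∀ m, ρ y m = ρ x (ρ (x⁻¹ * y) m) := fun m => by
    rw [← Module.End.mul_apply, ← map_mul, mul_inv_cancel_left]
  have e2 : f ![1, x⁻¹ * y, x⁻¹ * y * (y⁻¹ * z)] + _ = _ := hb (x⁻¹ * y) (y⁻¹ * z)
  rw [mul_assoc, mul_inv_cancel_left] at e2
  refine (d2_cd6 _ x y z).trans ?_
  rw [key]
  simp only [Matrix.cons_val_zero, Matrix.cons_val_one]
  rw [e1, eq_sub_of_add_eq e2, map_sub, map_add]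
  abel

/-- A locally constant function on a compact group is uniformly locally constant. -/
theorem unif_cd6 [CompactSpace G] {α : Type} {F : G → α} (hF : IsLocallyConstant F) :
    ∀ᶠ u in 𝓝 (1 : G), ∀ x, F (x * u) = F x := by
  have := isCompact_univ.eventually_forall_of_forall_eventually (x₀ := (1 : G))
    (P := fun u x => F (x * u) = F x) fun y _ => by
      have h1 := (hF.comp_continuous (f := fun z : G × G => z.2 * z.1) (by fun_prop)).eventually_eq
        (1, y)
      have h2 := (hF.comp_continuous (f := fun z : G × G => z.2) (by fun_prop)).eventually_eq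
        (1, y)
      filter_upwards [h1, h2] with z h1 h2
      simp only [Function.comp, mul_one] at h1 h2
      rw [h1, h2]
  simpa using this

end General

open Filter Topology in
/-- A locally constant function on `Gal × Gal` comes from a finite Galois extension. -/
theorem fin_gal_cd6 {K Ω : Type} [Field K] [Field Ω] [Algebra K Ω] [IsGalois K Ω]
    {F : (Ω ≃ₐ[K] Ω) × (Ω ≃ₐ[K] Ω) → Ω} (hF : IsLocallyConstant F) :
    ∃ (E : IntermediateField K Ω) (_ : FiniteDimensional K E) (_ : IsGalois K E)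
      (c : (E ≃ₐ[K] E) → (E ≃ₐ[K] E) → E), ∀ s t,
        (c (AlgEquiv.restrictNormalHom E s) (AlgEquiv.restrictNormalHom E t) : Ω) = F (s, t) := by
  have h := unif_cd6 hF
  rw [← Prod.mk_one_one, nhds_prod_eq, Filter.eventually_prod_iff] at h
  obtain ⟨P, hP, Q, hQ, h⟩ := h
  have hS : ∀ᶠ u in 𝓝 (1 : Ω ≃ₐ[K] Ω), ∀ x ∈ Set.range F, u x = x :=
    (eventually_all_finite hF.range_finite).2 fun x _ =>
      (stabilizer_isOpen_of_isIntegral (K := K) x).mem_nhds (one_mem _)
  obtain ⟨E, hE, hN, hV⟩ := (krullTopology_mem_nhds_one_iff_of_normal K Ω _).1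
    (hP.and (hQ.and hS))
  have hG : IsGalois K E := ⟨⟩
  have hm : ∀ p, F p ∈ E := fun p => by
    rw [← InfiniteGalois.fixedField_fixingSubgroup E]
    exact fun u => (hV u.2).2.2 _ ⟨p, rfl⟩
  choose σ hσ using AlgEquiv.restrictNormalHom_surjective (F := K) (K₁ := E) Ω
  have hk : ∀ s, s⁻¹ * σ (AlgEquiv.restrictNormalHom E s) ∈ E.fixingSubgroup := fun s => by
    rw [← IntermediateField.restrictNormalHom_ker, MonoidHom.mem_ker, map_mul, hσ, map_inv,
      inv_mul_cancel]
  refine ⟨E, hE, hG, fun a b => ⟨F (σ a, σ b), hm _⟩, fun s t => ?_⟩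
  have := h (hV (hk s)).1 (hV (hk t)).2.1 (s, t)
  simpa using this

/-- The multiplicative group of the algebraic closure as a Galois module. -/
noncomputable def unitsRep (K : Type) [Field K] :
    Representation ℤ (AlgebraicClosure K ≃ₐ[K] AlgebraicClosure K)
      (Additive (AlgebraicClosure K)ˣ) where
  toFun s := (MonoidHom.toAdditive (Units.map (s : AlgebraicClosure K →* AlgebraicClosure K))).toIntLinearMap
  map_one' := by ext; rfl
  map_mul' s t := by ext; rfl

theorem unitsRep_apply {K : Type} [Field K] (s : AlgebraicClosure K ≃ₐ[K] AlgebraicClosure K)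
    (u : Additive (AlgebraicClosure K)ˣ) :
    ((unitsRep K s u).toMul : AlgebraicClosure K) = s (u.toMul : AlgebraicClosure K) := rfl

variable {K : Type} [Field K] [CharZero K]

omit [CharZero K] in
theorem ext_cd6 {u v : Additive (AlgebraicClosure K)ˣ}
    (h : (u.toMul : AlgebraicClosure K) = v.toMul) : u = v :=
  Additive.toMul.injective (Units.ext h)

omit [CharZero K] in
theorem lc_val_cd6 {X : Type} [TopologicalSpace X] {c : X → Additive (AlgebraicClosure K)ˣ}
    (hc : IsLocallyConstant c) :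
    IsLocallyConstant fun x => ((c x).toMul : AlgebraicClosure K) :=
  hc.comp fun u => (u.toMul : AlgebraicClosure K)

theorem disc_unitsRep : Disc (unitsRep K) := by
  intro m
  convert stabilizer_isOpen_of_isIntegral (K := K) (m.toMul : AlgebraicClosure K) using 1
  ext s
  exact ⟨fun h => congrArg (fun u : Additive (AlgebraicClosure K)ˣ =>
    (u.toMul : AlgebraicClosure K)) h, fun h => ext_cd6 h⟩

theorem van_unitsRep_one : Van (unitsRep K) 1 := by
  refine van_one_cd6 disc_unitsRep fun c hc hcc => ?_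
  obtain ⟨E, hE, hG, c', h⟩ := fin_gal_cd6 (lc_val_cd6 (hc.comp_continuous
    (f := fun p : (AlgebraicClosure K ≃ₐ[K] AlgebraicClosure K) ×
      (AlgebraicClosure K ≃ₐ[K] AlgebraicClosure K) => p.1) continuous_fst))
  have hs := AlgEquiv.restrictNormalHom_surjective (F := K) (K₁ := E) (AlgebraicClosure K)
  have h' : ∀ s, (c' (AlgEquiv.restrictNormalHom E s) 1 : AlgebraicClosure K) = (c s).toMul :=
    fun s => by simpa using h s 1
  obtain ⟨b, hb0, hb⟩ := h1_finite (fun a => c' a 1) (fun a ha => by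
      obtain ⟨s, rfl⟩ := hs a
      have := h' s
      rw [ha] at this
      exact Units.ne_zero _ this.symm)
    fun a a' => by
      obtain ⟨s, rfl⟩ := hs a
      obtain ⟨t, rfl⟩ := hs a'
      apply Subtype.ext
      rw [← map_mul, h', hcc, IntermediateField.coe_mul, h', AlgEquiv.restrictNormalHom_apply, h']
      rfl
  refine ⟨Additive.ofMul (Units.mk0 (b : AlgebraicClosure K) (by simpa using hb0)),
    fun s => ext_cd6 ?_⟩
  have := congrArg Subtype.val (hb (AlgEquiv.restrictNormalHom E s))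
  rw [IntermediateField.coe_mul, h', AlgEquiv.restrictNormalHom_apply] at this
  exact this

theorem van_unitsRep_two (hK : Good2 K) : Van (unitsRep K) 2 := by
  refine van_two_cd6 disc_unitsRep fun c hc hcc => ?_
  obtain ⟨E, hE, hG, c', h⟩ := fin_gal_cd6 (lc_val_cd6 hc)
  have hs := AlgEquiv.restrictNormalHom_surjective (F := K) (K₁ := E) (AlgebraicClosure K)
  obtain ⟨b, hb0, hb⟩ := h2_finite hK c' (fun a a' ha => by
      obtain ⟨s, rfl⟩ := hs a
      obtain ⟨t, rfl⟩ := hs a'
      have := h s t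
      rw [ha] at this
      exact Units.ne_zero _ this.symm)
    fun a a' a'' => by
      obtain ⟨s, rfl⟩ := hs a
      obtain ⟨t, rfl⟩ := hs a'
      obtain ⟨u, rfl⟩ := hs a''
      apply Subtype.ext
      rw [← map_mul, ← map_mul, IntermediateField.coe_mul, IntermediateField.coe_mul, h, h, h,
        AlgEquiv.restrictNormalHom_apply, h]
      exact congrArg (fun u : Additive (AlgebraicClosure K)ˣ => (u.toMul : AlgebraicClosure K))
        (hcc s t u)
  have hr : IsLocallyConstant (AlgEquiv.restrictNormalHom (F := K) (K₁ := AlgebraicClosure K) E) := by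
    rw [IsLocallyConstant.iff_eventually_eq]
    intro x
    filter_upwards [(E.fixingSubgroup_isOpen.preimage (continuous_const_mul x⁻¹)).mem_nhds
      (by simp)] with y hy
    have hy' : x⁻¹ * y ∈ E.fixingSubgroup := hy
    rw [← IntermediateField.restrictNormalHom_ker, MonoidHom.mem_ker, map_mul, map_inv,
      inv_mul_eq_one] at hy'
    exact hy'.symm
  refine ⟨fun s => Additive.ofMul (Units.mk0 (b (AlgEquiv.restrictNormalHom E s) :
    AlgebraicClosure K) (by simpa using hb0 _)), hr.comp fun a => Additive.ofMul (Units.mk0 (b a :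
    AlgebraicClosure K) (by simpa using hb0 _)), fun s t => ext_cd6 ?_⟩
  have := congrArg Subtype.val (hb (AlgEquiv.restrictNormalHom E s)
    (AlgEquiv.restrictNormalHom E t))
  rw [IntermediateField.coe_mul, IntermediateField.coe_mul, h, AlgEquiv.restrictNormalHom_apply,
    ← map_mul] at this
  exact this

/-- Kummer theory. -/
theorem van_zmod_two (hK : Good2 K) :
    Van (Representation.trivial ℤ (AlgebraicClosure K ≃ₐ[K] AlgebraicClosure K) (ZMod 2)) 2 := by
  let ι : ZMod 2 →+ Additive (AlgebraicClosure K)ˣ :=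
    ZMod.lift 2 ⟨zmultiplesHom _ (Additive.ofMul (-1)), ext_cd6 (by simp)⟩
  have ι1 : ι 1 = Additive.ofMul (-1) := by
    have : ι ((1 : ℤ) : ZMod 2) = _ := ZMod.lift_coe 2 _ 1
    simpa using this
  have cases : ∀ a : ZMod 2, a = 0 ∨ a = 1 := by decide
  have hS : SES (Representation.trivial ℤ (AlgebraicClosure K ≃ₐ[K] AlgebraicClosure K) (ZMod 2))
      (unitsRep K) (unitsRep K) ι (nsmulAddMonoidHom 2) := by
    refine ⟨fun s a => ?_, fun s b => by simp, ?_, fun u => ?_, fun u => ⟨fun h => ?_, ?_⟩⟩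
    · rcases cases a with rfl | rfl
      · simp
      · rw [Representation.trivial_apply, ι1]
        exact ext_cd6 (by simp [unitsRep_apply])
    · rw [injective_iff_map_eq_zero]
      intro a ha
      rcases cases a with rfl | rfl
      · rfl
      · rw [ι1] at ha
        have := congrArg (fun u : Additive (AlgebraicClosure K)ˣ =>
          (u.toMul : AlgebraicClosure K)) ha
        norm_num at this
    · obtain ⟨z, hz⟩ := IsAlgClosed.exists_pow_nat_eq (u.toMul : AlgebraicClosure K) two_pos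
      have hz0 : z ≠ 0 := by
        rintro rfl
        exact Units.ne_zero _ (hz.symm.trans (by simp))
      exact ⟨Additive.ofMul (Units.mk0 z hz0), ext_cd6 (by simpa using hz)⟩
    · have h2 : (u.toMul : AlgebraicClosure K) ^ 2 = 1 := by
        simpa using congrArg (fun u : Additive (AlgebraicClosure K)ˣ =>
          (u.toMul : AlgebraicClosure K)) h
      rcases sq_eq_one_iff.1 h2 with h1 | h1
      · exact ⟨0, ext_cd6 (by simp [h1])⟩
      · exact ⟨1, ext_cd6 (by simp [ι1, h1])⟩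
    · rintro ⟨a, rfl⟩
      rcases cases a with rfl | rfl
      · simp
      · rw [ι1]
        exact ext_cd6 (by simp)
  exact hS.van_left (n := 0) disc_unitsRep van_unitsRep_one (van_unitsRep_two hK)

theorem cdLEOne_of_good2 (hK : Good2 K) : CdLEOne K := by
  have h2 : VanFin (AlgebraicClosure K ≃ₐ[K] AlgebraicClosure K) 2 :=
    vanFin_of_pro2 hK.1.index_eq 1 (van_zmod_two hK)
  have h : ∀ i, VanFin (AlgebraicClosure K ≃ₐ[K] AlgebraicClosure K) (i + 2) := by
    intro i
    induction i with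
    | zero => exact h2
    | succ i ih => exact ih.succ
  intro M _ _ ρ hρ i hi
  obtain ⟨j, rfl⟩ := Nat.exists_eq_add_of_le' hi
  exact h j M ρ hρ

end Zc68
end

-- merged part: Pool.Agent.Work.MP_d65f04_ag.ValA
section
/-! The decomposition field is an immediate extension. -/

namespace Zc68

variable {G M Γ : Type} [Group G] [Field M] [MulSemiringAction G M]
  [LinearOrderedCommGroupWithZero Γ]

/-- The decomposition group of the valuation `v`. -/
def decomp (G : Type) {M Γ : Type} [Group G] [Field M] [MulSemiringAction G M]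
    [LinearOrderedCommGroupWithZero Γ] (v : Valuation M Γ) : Subgroup G where
  carrier := {g | ∀ x, v (g • x) ≤ 1 ↔ v x ≤ 1}
  mul_mem' := by
    intro g h hg hh x
    rw [mul_smul, hg, hh]
  one_mem' := by intro x; rw [one_smul]
  inv_mem' := by
    intro g hg x
    rw [← hg, smul_inv_smul]

theorem mem_decomp (v : Valuation M Γ) (g : G) :
    g ∈ decomp G v ↔ ∀ x, v (g • x) ≤ 1 ↔ v x ≤ 1 := Iff.rfl

omit [Group G] in
theorem valA_avoid [Finite G] (p : G → ℕ → Prop) (h : ∀ g n n', p g n → p g n' → n = n') :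
    ∃ n, ∀ g, ¬ p g n := by
  have hf : (⋃ g : G, {n | p g n}).Finite :=
    Set.finite_iUnion fun g => Set.Subsingleton.finite fun n hn n' hn' => h g n n' hn hn'
  obtain ⟨n, hn⟩ := hf.exists_notMem
  exact ⟨n, fun g hg => hn (Set.mem_iUnion.2 ⟨g, hg⟩)⟩

theorem valA_smul_ne {g : G} {x : M} (hx : x ≠ 0) : g • x ≠ 0 := by
  intro h
  apply hx
  have := congrArg (fun t => g⁻¹ • t) h
  simpa using this

theorem valA_le_iff (v : Valuation M Γ) {g : G} (hg : g ∈ decomp G v) (x y : M) :
    v (g • x) ≤ v (g • y) ↔ v x ≤ v y := by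
  by_cases hy : y = 0
  · subst hy
    simp only [smul_zero, map_zero, le_zero_iff, map_eq_zero]
    exact ⟨fun h => by_contra fun hx => valA_smul_ne hx h, fun h => by rw [h, smul_zero]⟩
  · have h1 : 0 < v y := (v.pos_iff).2 hy
    have h2 : 0 < v (g • y) := (v.pos_iff).2 (valA_smul_ne hy)
    have := hg (x / y)
    rw [smul_div₀', map_div₀, map_div₀, div_le_one₀ h2, div_le_one₀ h1] at this
    exact this

theorem valA_not_lt [Finite G] (v : Valuation M Γ) {g : G} (hg : g ∈ decomp G v) (x : M) :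
    ¬ v (g • x) < v x := by
  intro h
  have key : ∀ n : ℕ, v (g ^ (n + 1) • x) < v x := by
    intro n
    induction n with
    | zero => simpa using h
    | succ n ih =>
      have h1 : v (g • (g ^ (n + 1) • x)) ≤ v (g • x) := (valA_le_iff v hg _ _).2 ih.le
      rw [← mul_smul, ← pow_succ'] at h1
      exact h1.trans_lt h
  have hpos := orderOf_pos g
  have := key (orderOf g - 1)
  rw [Nat.sub_add_cancel hpos, pow_orderOf_eq_one, one_smul] at this
  exact lt_irrefl _ this

theorem val_smul_of_mem_decomp [Finite G] (v : Valuation M Γ) {g : G} (hg : g ∈ decomp G v)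
    (x : M) : v (g • x) = v x := by
  apply le_antisymm
  · have := valA_not_lt v ((decomp G v).inv_mem hg) (g • x)
    rw [inv_smul_smul] at this
    exact not_lt.1 this
  · exact not_lt.1 (valA_not_lt v hg x)

theorem valA_exists_x [Finite G] (v : Valuation M Γ) {g : G} (hg : g ∉ decomp G v) :
    ∃ x, v x ≤ 1 ∧ 1 < v (g • x) := by
  by_contra hcon
  push Not at hcon
  apply hg
  have key : ∀ (n : ℕ) x, v x ≤ 1 → v (g ^ n • x) ≤ 1 := by
    intro n
    induction n with
    | zero => intro x hx; simpa using hx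
    | succ n ih => intro x hx; rw [pow_succ', mul_smul]; exact hcon _ (ih x hx)
  intro x
  refine ⟨fun h => ?_, hcon x⟩
  have hpos := orderOf_pos g
  have := key (orderOf g - 1) _ h
  rwa [← mul_smul, ← pow_succ, Nat.sub_add_cancel hpos, pow_orderOf_eq_one, one_smul] at this

theorem valA_nat_le (v : Valuation M Γ) (hv : ∀ n : ℕ, n ≠ 0 → v n = 1) (n : ℕ) : v n ≤ 1 := by
  by_cases h : n = 0
  · simp [h]
  · exact (hv n h).le

theorem valA_nat_sub (v : Valuation M Γ) (hv : ∀ n : ℕ, n ≠ 0 → v n = 1) {n n' : ℕ}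
    (h : v ((n : M) - n') < 1) : n = n' := by
  by_contra hne
  rcases lt_or_gt_of_ne hne with hl | hl
  · have := hv (n' - n) (by omega)
    rw [Nat.cast_sub hl.le, Valuation.map_sub_swap] at this
    exact absurd this h.ne
  · have := hv (n - n') (by omega)
    rw [Nat.cast_sub hl.le] at this
    exact absurd this h.ne

theorem valA_smul_nat (g : G) (n : ℕ) : g • (n : M) = n :=
  map_natCast (MulSemiringAction.toRingHom G M g) n

theorem valA_exists_bg [Finite G] (v : Valuation M Γ) (hv : ∀ n : ℕ, n ≠ 0 → v n = 1) (g : G) :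
    ∃ b : M, (∀ h : G, v (h • b) ≤ 1) ∧ (∀ h ∈ decomp G v, v (h • b) = 1) ∧
      (g ∉ decomp G v → v (g • b) < 1) := by
  by_cases hg : g ∈ decomp G v
  · exact ⟨1, by simp, by simp, fun h => absurd hg h⟩
  obtain ⟨x, hx1, hx2⟩ := valA_exists_x v hg
  obtain ⟨n, hn⟩ := valA_avoid (fun (h : G) (n : ℕ) => v (h • x - n) < 1) (by
    intro h n n' h1 h2
    apply valA_nat_sub v hv
    have : (n : M) - n' = (h • x - n') - (h • x - n) := by ring
    rw [this]
    exact (v.map_sub _ _).trans_lt (max_lt h2 h1))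
  have hs : ∀ h : G, v (h • (x - n)⁻¹) = (v (h • x - n))⁻¹ := by
    intro h
    rw [smul_inv'', smul_sub, valA_smul_nat, map_inv₀]
  refine ⟨(x - n)⁻¹, fun h => ?_, fun h hh => ?_, fun _ => ?_⟩
  · rw [hs]
    exact inv_le_one_of_one_le₀ (not_lt.1 (hn h))
  · rw [hs]
    have h1 : v (h • x - n) ≤ 1 :=
      (v.map_sub _ _).trans (max_le ((hh x).2 hx1) (valA_nat_le v hv n))
    rw [le_antisymm h1 (not_lt.1 (hn h)), inv_one]
  · rw [hs]
    have h1 : v (g • x - n) = v (g • x) :=
      v.map_sub_eq_of_lt_left ((valA_nat_le v hv n).trans_lt hx2)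
    rw [h1]
    exact inv_lt_one_of_one_lt₀ hx2

theorem valA_prod_lt {ι : Type} (s : Finset ι) (f : ι → Γ) (h : ∀ i ∈ s, f i ≤ 1) {i : ι}
    (hi : i ∈ s) (hlt : f i < 1) : ∏ i ∈ s, f i < 1 := by
  classical
  rw [← Finset.mul_prod_erase s f hi]
  have h1 : ∏ j ∈ s.erase i, f j ≤ 1 :=
    Finset.prod_le_one' fun j hj => h j (Finset.mem_of_mem_erase hj)
  calc f i * ∏ j ∈ s.erase i, f j ≤ f i * 1 := by gcongr
    _ < 1 := by rwa [mul_one]

theorem valA_exists_b [Finite G] (v : Valuation M Γ) (hv : ∀ n : ℕ, n ≠ 0 → v n = 1) :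
    ∃ b : M, (∀ h ∈ decomp G v, h • b = b) ∧ v b = 1 ∧ ∀ g ∉ decomp G v, v (g • b) < 1 := by
  classical
  have := Fintype.ofFinite G
  choose bg h1 h2 h3 using valA_exists_bg (G := G) v hv
  set b0 : M := ∏ g : G, bg g with hb0
  have hs : ∀ h : G, v (h • b0) = ∏ g : G, v (h • bg g) := by
    intro h
    rw [hb0, Finset.smul_prod', map_prod]
  have e1 : ∀ h : G, v (h • b0) ≤ 1 := fun h => by
    rw [hs]; exact Finset.prod_le_one' fun g _ => h1 g h
  have e2 : ∀ h ∈ decomp G v, v (h • b0) = 1 := fun h hh => by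
    rw [hs]; exact Finset.prod_eq_one fun g _ => h2 g h hh
  have e3 : ∀ h ∉ decomp G v, v (h • b0) < 1 := fun h hh => by
    rw [hs]; exact valA_prod_lt _ _ (fun g _ => h1 g h) (Finset.mem_univ h) (h3 h hh)
  refine ⟨∏ δ : decomp G v, (δ : G) • b0, fun h hh => ?_, ?_, fun g hg => ?_⟩
  · rw [Finset.smul_prod']
    refine Fintype.prod_equiv (Equiv.mulLeft (⟨h, hh⟩ : decomp G v)) _ _ fun δ => ?_
    simp [mul_smul]
  · rw [map_prod]
    exact Finset.prod_eq_one fun δ _ => e2 _ δ.2
  · rw [Finset.smul_prod', map_prod]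
    refine valA_prod_lt _ _ (fun δ _ => ?_) (Finset.mem_univ 1) ?_
    · rw [← mul_smul]; exact e1 _
    · simpa using e3 g hg

/-- the elements of value less than one -/
def valAIdeal (v : Valuation M Γ) : Ideal v.integer where
  carrier := {x | v x < 1}
  add_mem' := fun {a b} ha hb => (v.map_add a b).trans_lt (max_lt ha hb)
  zero_mem' := by simp
  smul_mem' := fun c x hx => by
    have hc : v c ≤ 1 := c.2
    have hx' : v x < 1 := hx
    show v ((c : M) * x) < 1
    rw [map_mul]
    calc v c * v x ≤ 1 * v x := by gcongr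
      _ < 1 := by rwa [one_mul]

open Polynomial in
theorem valA_lemma [Finite G] (v : Valuation M Γ) (hv : ∀ n : ℕ, n ≠ 0 → v n = 1) (z : M)
    (hz0 : z ≠ 0) (hz : ∀ g ∈ decomp G v, g • z = z) (hne : ∀ g ∉ decomp G v, v (g • z) ≠ v z) :
    ∃ c : M, (∀ g : G, g • c = c) ∧ v (z - c) < v z := by
  classical
  have := Fintype.ofFinite G
  have hvz : 0 < v z := (v.pos_iff).2 hz0
  set w : G → M := fun g => g • z / z with hw
  have hw0 : ∀ g, w g ≠ 0 := fun g => div_ne_zero (valA_smul_ne hz0) hz0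
  have hwD : ∀ g ∈ decomp G v, w g = 1 := fun g hg => by simp [hw, hz g hg, hz0]
  have hwN : ∀ g ∉ decomp G v, v (w g) ≠ 1 := fun g hg h => by
    rw [hw, map_div₀, div_eq_one_iff_eq hvz.ne'] at h
    exact hne g hg h
  let α : G → v.integer := fun g =>
    if h : 1 < v (w g) then ⟨(w g)⁻¹, by
      show v (w g)⁻¹ ≤ 1
      rw [map_inv₀]; exact inv_le_one_of_one_le₀ h.le⟩ else 1
  let β : G → v.integer := fun g => if h : 1 < v (w g) then 1 else ⟨w g, not_lt.1 h⟩
  let u : G → M := fun g => if 1 < v (w g) then w g else 1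
  have hu0 : ∀ g, u g ≠ 0 := fun g => by
    simp only [u]; split_ifs
    · exact hw0 g
    · exact one_ne_zero
  have huα : ∀ g, u g * α g = 1 := fun g => by
    simp only [u, α]; split_ifs
    · exact mul_inv_cancel₀ (hw0 g)
    · simp
  have huβ : ∀ g, u g * β g = w g := fun g => by
    simp only [u, β]; split_ifs <;> simp
  set Q : (v.integer)[X] := ∏ g, (C (α g) + C (β g) * X) with hQ
  set P : M[X] := ∏ g : G, (1 + C (g • z) * X) with hP
  have hPfix : ∀ (h : G) j, h • P.coeff j = P.coeff j := by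
    intro h j
    rw [← coeff_smul]
    congr 1
    rw [hP, Finset.smul_prod']
    refine Fintype.prod_equiv (Equiv.mulLeft h) _ _ fun g => ?_
    simp [smul_add, smul_mul', smul_C, smul_X, mul_smul]
  have hPQ : P = (C (∏ g, u g) * Q.map (v.integer).subtype).comp (C z * X) := by
    rw [hQ, Polynomial.map_prod, map_prod C, ← Finset.prod_mul_distrib, prod_comp, hP]
    refine Finset.prod_congr rfl fun g _ => ?_
    have e : C (u g) * Polynomial.map (v.integer).subtype (C (α g) + C (β g) * X) =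
        1 + C (w g) * X := by
      rw [Polynomial.map_add, Polynomial.map_mul, map_C, map_C, map_X, mul_add, ← mul_assoc,
        ← C_mul, ← C_mul]
      simp only [Subring.coe_subtype]
      rw [huα, huβ, C_1]
    rw [e, add_comp, one_comp, mul_comp, C_comp, X_comp, ← mul_assoc, ← C_mul, hw]
    simp only
    rw [div_mul_cancel₀ _ hz0]
  have hcoef : ∀ j, P.coeff j = (∏ g, u g) * (Q.coeff j : M) * z ^ j := by
    intro j
    rw [hPQ, comp_C_mul_X_coeff, coeff_C_mul, coeff_map]
    rfl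
  set π := Ideal.Quotient.mk (valAIdeal v) with hπ
  set a := (Finset.univ.filter fun g : G => 1 < v (w g)).card with ha
  set d := (Finset.univ.filter fun g : G => g ∈ decomp G v).card with hd
  have hd0 : d ≠ 0 := by
    rw [hd]
    exact Finset.card_ne_zero.2 ⟨1, by simp [(decomp G v).one_mem]⟩
  have hred : Q.map π = X ^ a * (1 + X) ^ d := by
    have p1 : ∀ (p : G → Prop) [DecidablePred p] (t : (v.integer ⧸ valAIdeal v)[X]),
        t ^ (Finset.univ.filter p).card = ∏ g, if p g then t else 1 := by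
      intro p _ t
      rw [← Finset.prod_filter]
      exact (Finset.prod_const t).symm
    rw [hQ, Polynomial.map_prod, ha, hd, p1, p1, ← Finset.prod_mul_distrib]
    refine Finset.prod_congr rfl fun g _ => ?_
    rw [Polynomial.map_add, Polynomial.map_mul, map_C, map_C, map_X]
    by_cases hg : g ∈ decomp G v
    · have h1 : ¬ 1 < v (w g) := by rw [hwD g hg]; simp
      have h2 : β g = 1 := by
        simp only [β, dif_neg h1]
        exact Subtype.ext (hwD g hg)
      have h3 : α g = 1 := by simp only [α, dif_neg h1]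
      rw [if_neg h1, if_pos hg, h2, h3]; simp
    · by_cases h1 : 1 < v (w g)
      · have h2 : β g = 1 := by simp only [β, dif_pos h1]
        have h3 : π (α g) = 0 := by
          rw [hπ, Ideal.Quotient.eq_zero_iff_mem]
          simp only [α, dif_pos h1]
          show v (w g)⁻¹ < 1
          rw [map_inv₀]; exact inv_lt_one_of_one_lt₀ h1
        rw [if_pos h1, if_neg hg, h2, h3]; simp
      · have h3 : α g = 1 := by simp only [α, dif_neg h1]
        have h2 : π (β g) = 0 := by
          rw [hπ, Ideal.Quotient.eq_zero_iff_mem]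
          simp only [β, dif_neg h1]
          exact lt_of_le_of_ne (not_lt.1 h1) (hwN g hg)
        rw [if_neg h1, if_neg hg, h2, h3]; simp
  have c1 : v ((Q.coeff a : M) - 1) < 1 := by
    have : π (Q.coeff a - 1) = 0 := by
      rw [map_sub, ← coeff_map, hred, map_one]
      have := coeff_X_pow_mul ((1 + X : (v.integer ⧸ valAIdeal v)[X]) ^ d) a 0
      rw [zero_add] at this
      rw [this, coeff_one_add_X_pow]; simp
    rw [hπ, Ideal.Quotient.eq_zero_iff_mem] at this
    exact this
  have c2 : v ((Q.coeff (a + 1) : M) - d) < 1 := by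
    have : π (Q.coeff (a + 1) - d) = 0 := by
      rw [map_sub, ← coeff_map, hred, map_natCast, add_comm a 1, coeff_X_pow_mul,
        coeff_one_add_X_pow]; simp
    rw [hπ, Ideal.Quotient.eq_zero_iff_mem] at this
    exact this
  have hq1 : v (Q.coeff a : M) = 1 := by
    have := v.map_add_eq_of_lt_left (x := 1) (y := (Q.coeff a : M) - 1) (by rwa [map_one])
    simpa using this
  have hq0 : (Q.coeff a : M) ≠ 0 := fun h => by rw [h, map_zero] at hq1; exact zero_ne_one hq1
  have hdv : v d = 1 := hv d hd0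
  have hdM : (d : M) ≠ 0 := fun h => by rw [h, map_zero] at hdv; exact zero_ne_one hdv
  have hU : (∏ g, u g) ≠ 0 := Finset.prod_ne_zero_iff.2 fun g _ => hu0 g
  refine ⟨P.coeff (a + 1) / (d * P.coeff a), fun g => ?_, ?_⟩
  · rw [smul_div₀', smul_mul', hPfix, hPfix, valA_smul_nat]
  · have e : z - P.coeff (a + 1) / (d * P.coeff a) =
        z * ((d * ((Q.coeff a : M) - 1) - ((Q.coeff (a + 1) : M) - d)) / (d * (Q.coeff a : M))) := by
      rw [hcoef, hcoef]
      field_simp
      ring
    rw [e, map_mul, map_div₀, map_mul v (d : M) (Q.coeff a : M), hdv, hq1, one_mul, div_one]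
    have : v ((d : M) * ((Q.coeff a : M) - 1) - ((Q.coeff (a + 1) : M) - d)) < 1 :=
      (v.map_sub _ _).trans_lt (max_lt (by rwa [map_mul, hdv, one_mul]) c2)
    calc v z * _ < v z * 1 := by gcongr
      _ = v z := mul_one _

theorem decomp_immediate [Finite G] (v : Valuation M Γ) (hv : ∀ n : ℕ, n ≠ 0 → v n = 1) (y : M)
    (hy0 : y ≠ 0) (hy : ∀ g ∈ decomp G v, g • y = y) :
    ∃ c : M, (∀ g : G, g • c = c) ∧ v (y - c) < v y := by
  obtain ⟨b, hb1, hb2, hb3⟩ := valA_exists_b (G := G) v hv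
  have hb0 : b ≠ 0 := fun h => by rw [h, map_zero] at hb2; exact zero_ne_one hb2
  have hvy : 0 < v y := (v.pos_iff).2 hy0
  obtain ⟨m, hm⟩ := valA_avoid
    (fun (g : G) (m : ℕ) => g ∉ decomp G v ∧ v (g • (b ^ m * y)) = v (b ^ m * y)) (by
      rintro g n n' ⟨hg, h1⟩ ⟨-, h2⟩
      rw [smul_mul', smul_pow', map_mul, map_mul, map_pow, map_pow, hb2, one_pow] at h1 h2
      have h3 : 0 < v (g • y) := (v.pos_iff).2 (valA_smul_ne hy0)
      have h4 : v (g • b) ^ n = v (g • b) ^ n' := mul_right_cancel₀ h3.ne' (h1.trans h2.symm)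
      exact pow_right_injective₀ ((v.pos_iff).2 (valA_smul_ne hb0)) (hb3 g hg).ne h4)
  obtain ⟨c1, hc1, hc1'⟩ := valA_lemma (G := G) v hv (b ^ m * y)
    (mul_ne_zero (pow_ne_zero _ hb0) hy0)
    (fun g hg => by rw [smul_mul', smul_pow', hb1 g hg, hy g hg]) (fun g hg h => hm g ⟨hg, h⟩)
  obtain ⟨c2, hc2, hc2'⟩ := valA_lemma (G := G) v hv b hb0 hb1
    (fun g hg => by rw [hb2]; exact (hb3 g hg).ne)
  rw [map_mul, map_pow, hb2, one_pow, one_mul] at hc1'
  have hvc : v c2 = 1 := by
    have := v.map_sub_eq_of_lt_left hc2'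
    rwa [sub_sub_cancel, hb2] at this
  rw [hb2] at hc2'
  have hc0 : c2 ≠ 0 := fun h => by rw [h, map_zero] at hvc; exact zero_ne_one hvc
  have hpow : ∀ n : ℕ, v (c2 ^ n - b ^ n) < 1 := by
    intro n
    induction n with
    | zero => simp
    | succ n ih =>
      have : c2 ^ (n + 1) - b ^ (n + 1) = c2 * (c2 ^ n - b ^ n) - b ^ n * (b - c2) := by ring
      rw [this]
      refine (v.map_sub _ _).trans_lt (max_lt ?_ ?_)
      · rwa [map_mul, hvc, one_mul]
      · rwa [map_mul, map_pow, hb2, one_pow, one_mul]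
  refine ⟨c1 / c2 ^ m, fun g => by rw [smul_div₀', smul_pow', hc1, hc2], ?_⟩
  have e : y - c1 / c2 ^ m = (y * (c2 ^ m - b ^ m) + (b ^ m * y - c1)) / c2 ^ m := by
    field_simp
    ring
  rw [e, map_div₀, map_pow, hvc, one_pow, div_one]
  refine (v.map_add _ _).trans_lt (max_lt ?_ hc1')
  rw [map_mul]
  have := hpow m
  calc v y * _ < v y * 1 := by gcongr
    _ = v y := mul_one _

end Zc68
end

-- merged part: Pool.Agent.Work.MP_d65f04_ag.CycB
section
/-! Closed points that are not rational have even degree. -/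

namespace Zc68

open Polynomial
open scoped IntermediateField

variable {K L : Type} [Field K] [CharZero K] [Field L] [Algebra K L]

/-- The structure map of a valuation ring containing the constants. -/
def constHomCycB (O : ValuationSubring L) (h : ∀ c : K, algebraMap K L c ∈ O) : K →+* O :=
  (algebraMap K L).codRestrict O.toSubring h

omit [CharZero K] in
theorem Place.eval₂_cycB (p : Place K L) (a : p.O) (g : K[X]) :
    p.ι (g.eval₂ (constHomCycB p.O p.mem) a) = aeval (p.ι a) g := by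
  rw [hom_eval₂, aeval_def]
  congr 1
  ext c
  exact p.ι_const c

omit [CharZero K] in
theorem coe_eval₂_cycB (O : ValuationSubring L) (h : ∀ c : K, algebraMap K L c ∈ O) (a : O)
    (g : K[X]) : ((g.eval₂ (constHomCycB O h) a : O) : L) = aeval (a : L) g := by
  rw [aeval_def]
  exact hom_eval₂ g (constHomCycB O h) O.subtype a

/-- Two places with the same valuation ring are conjugate on each element. -/
theorem Place.conj (p q : Place K L) (h : p.O = q.O) (a : L) (hp : a ∈ p.O) (hq : a ∈ q.O) :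
    ∃ σ : AlgebraicClosure K ≃ₐ[K] AlgebraicClosure K, σ (p.ι ⟨a, hp⟩) = q.ι ⟨a, hq⟩ := by
  obtain ⟨O, m, ι, hc, hz⟩ := p
  obtain ⟨O', m', ι', hc', hz'⟩ := q
  obtain rfl : O = O' := h
  refine minpoly.exists_algEquiv_of_root' (Algebra.IsAlgebraic.isAlgebraic _) ?_
  have e1 := Place.eval₂_cycB ⟨O, m, ι, hc, hz⟩ ⟨a, hp⟩ (minpoly K (ι ⟨a, hp⟩))
  have e2 := Place.eval₂_cycB ⟨O, m', ι', hc', hz'⟩ ⟨a, hp⟩ (minpoly K (ι ⟨a, hp⟩))
  simp only at e1 e2
  rw [minpoly.aeval, hz] at e1
  rw [← e2, hz']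
  exact e1

omit [CharZero K] in
theorem Place.mem_of_isAlgebraic_cycB (p : Place K L) (a : L) (ha : IsAlgebraic K a) :
    a ∈ p.O := by
  have hi : IsIntegral p.O a := by
    refine ⟨(minpoly K a).map (constHomCycB p.O p.mem), (minpoly.monic ha.isIntegral).map _, ?_⟩
    rw [eval₂_map]
    exact minpoly.aeval K a
  obtain ⟨y, rfl⟩ := IsIntegrallyClosed.isIntegral_iff.mp hi
  exact y.2

/-- The values of an algebraic function at two places are conjugate. -/
theorem Place.conj_of_isAlgebraic (p q : Place K L) (a : L) (ha : IsAlgebraic K a) :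
    ∃ (hp : a ∈ p.O) (hq : a ∈ q.O) (σ : AlgebraicClosure K ≃ₐ[K] AlgebraicClosure K),
      σ (p.ι ⟨a, hp⟩) = q.ι ⟨a, hq⟩ := by
  have key : ∀ (r : Place K L) (hr : a ∈ r.O), aeval (r.ι ⟨a, hr⟩) (minpoly K a) = 0 := by
    intro r hr
    rw [← r.eval₂_cycB]
    have : (minpoly K a).eval₂ (constHomCycB r.O r.mem) ⟨a, hr⟩ = 0 :=
      Subtype.ext ((coe_eval₂_cycB _ _ _ _).trans (minpoly.aeval K a))
    rw [this, map_zero]
  refine ⟨p.mem_of_isAlgebraic_cycB a ha, q.mem_of_isAlgebraic_cycB a ha, ?_⟩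
  refine minpoly.exists_algEquiv_of_root' (Algebra.IsAlgebraic.isAlgebraic _) ?_
  rw [← minpoly.eq_of_irreducible_of_monic (minpoly.irreducible ha.isIntegral) (key p _)
    (minpoly.monic ha.isIntegral)]
  exact key q _

theorem even_card_cycB (hK : OddRoot K) (p : Place K L)
    (hp : ∃ a : p.O, p.ι a ∉ Set.range (algebraMap K (AlgebraicClosure K))) :
    Even (Nat.card {q : Place K L // q.O = p.O}) := by
  obtain ⟨O, m, ι, hc, hz⟩ := p
  obtain ⟨a, ha⟩ := hp
  simp only at a ha ⊢
  letI : Algebra K (IsLocalRing.ResidueField O) :=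
    ((IsLocalRing.residue O).comp (constHomCycB O m)).toAlgebra
  let mk : ∀ (j : O →+* AlgebraicClosure K),
      (∀ c : K, j ⟨algebraMap K L c, m c⟩ = algebraMap K (AlgebraicClosure K) c) →
      (∀ a : O, j a = 0 ↔ a ∈ IsLocalRing.maximalIdeal O) →
      (IsLocalRing.ResidueField O →ₐ[K] AlgebraicClosure K) := fun j hj hj' =>
    { toRingHom := Ideal.Quotient.lift _ j fun a ha => (hj' a).mpr ha
      commutes' := hj }
  let Φ : (IsLocalRing.ResidueField O →ₐ[K] AlgebraicClosure K) → {q : Place K L // q.O = O} :=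
    fun ψ => ⟨⟨O, m, ψ.toRingHom.comp (IsLocalRing.residue O), fun c => ψ.commutes c, fun a => by
      rw [RingHom.comp_apply, map_eq_zero_iff _ ψ.toRingHom.injective,
        IsLocalRing.residue_eq_zero_iff]⟩, rfl⟩
  have hΦ : Function.Bijective Φ := by
    constructor
    · intro ψ ψ' h
      have h1 := congrArg Subtype.val h
      simp only [Φ, Place.mk.injEq, heq_eq_eq, true_and] at h1
      ext x
      obtain ⟨y, rfl⟩ := IsLocalRing.residue_surjective x
      exact DFunLike.congr_fun h1 y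
    · rintro ⟨⟨O', m', ι', hc', hz'⟩, h⟩
      obtain rfl : O' = O := h
      exact ⟨mk ι' hc' hz', rfl⟩
  rw [← Nat.card_congr (Equiv.ofBijective Φ hΦ)]
  have halg : Algebra.IsAlgebraic K (IsLocalRing.ResidueField O) :=
    Algebra.IsAlgebraic.of_injective (mk ι hc hz) (mk ι hc hz).toRingHom.injective
  rw [← Field.finSepDegree_eq_of_isAlgClosed,
    ← Field.finSepDegree_mul_finSepDegree_of_isAlgebraic K K⟮IsLocalRing.residue O a⟯]
  refine Even.mul_right ?_ _
  have hint : IsIntegral K (IsLocalRing.residue O a) := Algebra.IsIntegral.isIntegral _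
  have := IntermediateField.adjoin.finiteDimensional hint
  rw [Field.finSepDegree_eq_finrank_of_isSeparable]
  obtain ⟨j, hj⟩ := hK.finrank_eq K⟮IsLocalRing.residue O a⟯
  rw [hj]
  rcases j with _ | j
  · exfalso
    rw [pow_zero, IntermediateField.finrank_adjoin_simple_eq_one_iff,
      IntermediateField.mem_bot] at hj
    obtain ⟨c, hc'⟩ := hj
    exact ha ⟨c, by rw [← (mk ι hc hz).commutes c, hc']; rfl⟩
  · exact (Nat.even_pow.mpr ⟨even_two, by omega⟩)

theorem sum_even (hK : OddRoot K) (T : Finset (Place K L)) (w : Place K L → ℤ)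
    (hT : ∀ p ∈ T, ∀ q : Place K L, p.O = q.O → q ∈ T)
    (hw : ∀ p q : Place K L, p.O = q.O → w p = w q)
    (hrat : ∀ p ∈ T, ∃ a : p.O, p.ι a ∉ Set.range (algebraMap K (AlgebraicClosure K))) :
    Even (∑ p ∈ T, w p) := by
  classical
  rw [← Finset.sum_fiberwise_of_maps_to (g := Place.O) (t := T.image Place.O)
    fun p hp => Finset.mem_image_of_mem _ hp]
  refine Finset.even_sum _ fun O hO => ?_
  obtain ⟨p, hp, rfl⟩ := Finset.mem_image.mp hO
  rw [Finset.sum_congr rfl (g := fun _ => w p) fun q hq => hw q p (Finset.mem_filter.mp hq).2,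
    Finset.sum_const, nsmul_eq_mul]
  refine Even.mul_right ?_ _
  have := even_card_cycB hK p (hrat p hp)
  rw [Nat.subtype_card (T.filter fun q => q.O = p.O)
    (fun q => by rw [Finset.mem_filter]; exact ⟨fun h => h.2, fun h => ⟨hT p hp q h.symm, h⟩⟩)]
    at this
  exact_mod_cast this

end Zc68
end
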