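import Pool.Agent.Work.MP_d65f04_ag.CycB
import Pool.Agent.Work.MP_d65f04_ag.Defs

-- merged part: Pool.Agent.Work.MP_d65f04_ag.MQ
section
/-! Multiquadratic extensions and an exchange lemma for algebraic independence. -/

namespace Zc68

/-- The subfield `E + E s` for `s ^ 2 ∈ E`. -/
def quadExtMQ {Ω : Type} [Field Ω] (E : Subfield Ω) (s : Ω) (hs : s ^ 2 ∈ E)
    (hn : ∀ e ∈ E, s ^ 2 ≠ e ^ 2) : Subfield Ω where
  carrier := {z | ∃ a ∈ E, ∃ b ∈ E, z = a + b * s}
  mul_mem' := by
    rintro _ _ ⟨a, ha, b, hb, rfl⟩ ⟨c, hc, d, hd, rfl⟩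
    exact ⟨a * c + b * d * s ^ 2, add_mem (mul_mem ha hc) (mul_mem (mul_mem hb hd) hs),
      a * d + b * c, add_mem (mul_mem ha hd) (mul_mem hb hc), by ring⟩
  one_mem' := ⟨1, one_mem _, 0, zero_mem _, by ring⟩
  add_mem' := by
    rintro _ _ ⟨a, ha, b, hb, rfl⟩ ⟨c, hc, d, hd, rfl⟩
    exact ⟨a + c, add_mem ha hc, b + d, add_mem hb hd, by ring⟩
  zero_mem' := ⟨0, zero_mem _, 0, zero_mem _, by ring⟩
  neg_mem' := by
    rintro _ ⟨a, ha, b, hb, rfl⟩
    exact ⟨-a, neg_mem ha, -b, neg_mem hb, by ring⟩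
  inv_mem' := by
    rintro _ ⟨a, ha, b, hb, rfl⟩
    by_cases hb0 : b = 0
    · exact ⟨a⁻¹, inv_mem ha, 0, zero_mem _, by simp [hb0]⟩
    have hN : a ^ 2 - b ^ 2 * s ^ 2 ≠ 0 := by
      intro h
      apply hn (a / b) (div_mem ha hb)
      field_simp
      linear_combination -h
    have hNE : a ^ 2 - b ^ 2 * s ^ 2 ∈ E := sub_mem (pow_mem ha 2) (mul_mem (pow_mem hb 2) hs)
    refine ⟨a / (a ^ 2 - b ^ 2 * s ^ 2), div_mem ha hNE, -b / (a ^ 2 - b ^ 2 * s ^ 2),
      div_mem (neg_mem hb) hNE, ?_⟩
    apply inv_eq_of_mul_eq_one_right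
    field_simp
    ring

theorem mq_aux {Ω ι : Type} [Field Ω] [CharZero Ω] [DecidableEq ι] (s : ι → Ω) (S : Finset ι) :
    ∀ E : Subfield Ω, (∀ j, s j ^ 2 ∈ E) →
      (∀ J ⊆ S, J.Nonempty → ∀ e ∈ E, ∏ j ∈ J, s j ^ 2 ≠ e ^ 2) →
      ∀ c : Finset ι → Ω, (∀ J, c J ∈ E) → ∑ J ∈ S.powerset, c J * ∏ j ∈ J, s j = 0 →
        ∀ J ⊆ S, c J = 0 := by
  induction S using Finset.induction_on with
  | empty =>
    intro E _ _ c _ h J hJ
    rw [Finset.subset_empty.1 hJ]
    simpa using h
  | insert j0 S hj0 ih =>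
    intro E hs hl c hc h
    have hn : ∀ e ∈ E, s j0 ^ 2 ≠ e ^ 2 := by
      intro e he
      have := hl {j0} (by simp) (by simp) e he
      simpa using this
    have hind : ∀ a ∈ E, ∀ b ∈ E, a + b * s j0 = 0 → a = 0 ∧ b = 0 := by
      intro a ha b hb hab
      have hb0 : b = 0 := by
        by_contra hb0
        apply hn (a / b) (div_mem ha hb)
        field_simp
        linear_combination (b * s j0 - a) * hab
      refine ⟨?_, hb0⟩
      simpa [hb0] using hab
    have key := ih (quadExtMQ E (s j0) (hs j0) hn)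
      (fun j => ⟨s j ^ 2, hs j, 0, zero_mem _, by ring⟩) ?_
      (fun J => c J + c (insert j0 J) * s j0) (fun J => ⟨_, hc _, _, hc _, rfl⟩) ?_
    · intro J hJ
      by_cases hj : j0 ∈ J
      · have h1 : J.erase j0 ⊆ S := Finset.subset_insert_iff.1 hJ
        have h2 := (hind _ (hc _) _ (hc _) (key _ h1)).2
        rwa [Finset.insert_erase hj] at h2
      · have h1 : J ⊆ S := (Finset.subset_insert_iff_of_notMem hj).1 hJ
        exact (hind _ (hc _) _ (hc _) (key _ h1)).1
    · rintro J hJ hne _ ⟨a, ha, b, hb, rfl⟩ heq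
      have hP : ∏ j ∈ J, s j ^ 2 ∈ E := prod_mem fun j _ => hs j
      have h2 : (2 : Ω) ∈ E := by exact_mod_cast natCast_mem E 2
      have h3 := hind (a ^ 2 + b ^ 2 * s j0 ^ 2 - ∏ j ∈ J, s j ^ 2)
        (sub_mem (add_mem (pow_mem ha 2) (mul_mem (pow_mem hb 2) (hs j0))) hP)
        (2 * a * b) (mul_mem (mul_mem h2 ha) hb) (by rw [heq]; ring)
      have hab : a = 0 ∨ b = 0 := by simpa using h3.2
      rcases hab with h0 | h0
      · apply hl (insert j0 J) (Finset.insert_subset_insert _ hJ) (by simp) (b * s j0 ^ 2)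
          (mul_mem hb (hs j0))
        rw [Finset.prod_insert fun hj => hj0 (hJ hj), heq, h0]
        ring
      · apply hl J (hJ.trans (Finset.subset_insert _ _)) hne a ha
        rw [heq, h0]
        ring
    · rw [Finset.sum_powerset_insert hj0, ← Finset.sum_add_distrib] at h
      rw [← h]
      apply Finset.sum_congr rfl
      intro J hJ
      rw [Finset.prod_insert fun hj => hj0 (Finset.mem_powerset.1 hJ hj)]
      ring

/-- Products of square roots are linearly independent if no nonempty subproduct of the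
radicands is a square. -/
theorem mq_indep {F Ω ι : Type} [Field F] [CharZero F] [Field Ω] [Algebra F Ω]
    (l : ι → F) (s : ι → Ω) (hs : ∀ j, s j ^ 2 = algebraMap F Ω (l j))
    (hl : ∀ J : Finset ι, J.Nonempty → ¬ IsSquare (∏ j ∈ J, l j)) :
    LinearIndependent F fun J : Finset ι => ∏ j ∈ J, s j := by
  classical
  have : CharZero Ω := charZero_of_injective_algebraMap (algebraMap F Ω).injective
  rw [linearIndependent_iff']
  intro t g hg J hJ
  have hsub : t ⊆ (t.biUnion id).powerset := fun J hJ =>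
    Finset.mem_powerset.2 (Finset.subset_biUnion_of_mem id hJ)
  have key := mq_aux s (t.biUnion id) (algebraMap F Ω).fieldRange (fun j => ⟨l j, (hs j).symm⟩) ?_
    (fun J => if J ∈ t then algebraMap F Ω (g J) else 0) ?_ ?_ J
    (Finset.subset_biUnion_of_mem id hJ)
  · simpa [hJ] using key
  · rintro J _ hne _ ⟨e, rfl⟩ heq
    apply hl J hne
    refine ⟨e, (algebraMap F Ω).injective ?_⟩
    rw [map_prod, map_mul, ← sq, ← heq]
    exact Finset.prod_congr rfl fun j _ => (hs j).symm
  · intro J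
    split_ifs
    · exact ⟨_, rfl⟩
    · exact zero_mem _
  · rw [← Finset.sum_subset hsub, ← hg]
    · apply Finset.sum_congr rfl
      intro J hJ
      rw [if_pos hJ, Algebra.smul_def]
    · intro J _ hJ
      rw [if_neg hJ, zero_mul]

/-- The generic polynomial of degree `< d` evaluated at `t`. -/
noncomputable def genPoly {k : Type} [Field k] (d : ℕ) (t : k) : MvPolynomial (Fin d) k :=
  ∑ m : Fin d, MvPolynomial.C (t ^ (m : ℕ)) * MvPolynomial.X m

/-- A constant times a product of distinct linear forms `genPoly d (θ j)` is a square in the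
rational function field only if the product is empty and the constant is a square. -/
theorem isSquare_genPoly {k ι : Type} [Field k] {d : ℕ} (hd : 2 ≤ d) (θ : ι → k)
    (hθ : Function.Injective θ) (J : Finset ι) (c : k) (hc : c ≠ 0)
    (h : IsSquare (algebraMap (MvPolynomial (Fin d) k) (FractionRing (MvPolynomial (Fin d) k))
      (MvPolynomial.C c * ∏ j ∈ J, genPoly d (θ j)))) : J = ∅ ∧ IsSquare c := by
  classical
  obtain ⟨d, rfl⟩ : ∃ d', d = d' + 2 := ⟨d - 2, by omega⟩
  obtain ⟨r, hr⟩ := h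
  obtain ⟨q, rfl⟩ := IsIntegrallyClosed.exists_algebraMap_eq_of_isIntegral_pow
    (R := MvPolynomial (Fin (d + 2)) k) (x := r) (n := 2) (by norm_num)
    (by rw [sq, ← hr]; exact isIntegral_algebraMap)
  rw [← map_mul] at hr
  have hq := IsFractionRing.injective _ _ hr
  let w : Fin (d + 2) → Polynomial k := Fin.cons Polynomial.X (Fin.cons (-1) 0)
  have hw : ∀ t : k, MvPolynomial.aeval w (genPoly (d + 2) t) =
      Polynomial.X - Polynomial.C t := by
    intro t
    simp [genPoly, w, Fin.sum_univ_succ, sub_eq_add_neg]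
  have h1 := congrArg (MvPolynomial.aeval w) hq
  rw [map_mul, map_mul, map_prod, MvPolynomial.aeval_C, Finset.prod_congr rfl fun j _ => hw (θ j),
    Polynomial.algebraMap_eq] at h1
  generalize MvPolynomial.aeval w q = Q at h1
  have hJ : J = ∅ := by
    by_contra hne
    obtain ⟨j0, hj0⟩ := Finset.nonempty_iff_ne_empty.2 hne
    rw [← Finset.mul_prod_erase _ _ hj0] at h1
    have hpr := Polynomial.prime_X_sub_C (θ j0)
    have hd1 : Polynomial.X - Polynomial.C (θ j0) ∣ Q * Q :=
      h1 ▸ Dvd.dvd.mul_left (dvd_mul_right _ _) _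
    obtain ⟨Q', rfl⟩ := (hpr.dvd_or_dvd hd1).elim id id
    have h2 : Polynomial.C c * ∏ j ∈ J.erase j0, (Polynomial.X - Polynomial.C (θ j)) =
        (Polynomial.X - Polynomial.C (θ j0)) * (Q' * Q') := by
      apply mul_left_cancel₀ hpr.ne_zero
      linear_combination h1
    have h3 := congrArg (Polynomial.eval (θ j0)) h2
    simp only [Polynomial.eval_mul, Polynomial.eval_C, Polynomial.eval_prod, Polynomial.eval_sub,
      Polynomial.eval_X, sub_self, zero_mul, mul_eq_zero, hc, false_or,
      Finset.prod_eq_zero_iff] at h3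
    obtain ⟨j, hj, h4⟩ := h3
    exact (Finset.mem_erase.1 hj).1 (hθ (sub_eq_zero.1 h4)).symm
  refine ⟨hJ, Q.eval 0, ?_⟩
  have h3 := congrArg (Polynomial.eval 0) h1
  simpa [hJ] using h3

/-- A nonzero element of the kernel of a map from a domain is independent of a family whose
image is independent. -/
theorem indep_option {k A B ι : Type} [Field k] [CommRing A] [IsDomain A] [CommRing B]
    [Algebra k A] [Algebra k B] (f : A →ₐ[k] B) (x : ι → A)
    (hx : AlgebraicIndependent k fun i => f (x i)) (u : A) (hu : u ≠ 0) (hfu : f u = 0) :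
    AlgebraicIndependent k fun o : Option ι => o.elim u x := by
  have hx0 : AlgebraicIndependent k x := AlgebraicIndependent.of_comp f hx
  rw [AlgebraicIndependent.option_iff]
  refine ⟨hx0, ?_⟩
  have hinj : ∀ a : Algebra.adjoin k (Set.range x), f a = 0 → a = 0 := by
    intro a ha
    obtain ⟨p, rfl⟩ := hx0.aevalEquiv.surjective a
    have h1 : ((hx0.aevalEquiv p : Algebra.adjoin k (Set.range x)) : A) = MvPolynomial.aeval x p :=
      hx0.algebraMap_aevalEquiv p
    rw [h1, ← AlgHom.comp_apply, MvPolynomial.comp_aeval] at ha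
    rw [hx.eq_zero_of_aeval_eq_zero p ha, map_zero]
  rintro ⟨P, hP, hPu⟩
  obtain ⟨Q, hQ, hnd⟩ := Polynomial.exists_eq_pow_rootMultiplicity_mul_and_not_dvd P hP 0
  rw [hQ, map_mul, map_pow] at hPu
  simp only [map_zero, sub_zero, Polynomial.aeval_X] at hPu hnd
  have hQu : Polynomial.aeval u Q = 0 := (mul_eq_zero.1 hPu).resolve_left (pow_ne_zero _ hu)
  apply hnd
  rw [Polynomial.X_dvd_iff]
  apply hinj
  have h2 := congrArg (Polynomial.aeval u) (Polynomial.X_mul_divX_add Q)
  rw [hQu, map_add, map_mul, Polynomial.aeval_X, Polynomial.aeval_C] at h2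
  have h3 := congrArg f h2
  rw [map_add, map_mul, hfu, zero_mul, zero_add, map_zero] at h3
  exact h3

/-- A map from a domain of transcendence degree `≤ d` whose image contains `d` independent
elements is injective. -/
theorem injective_of_indep {k A B : Type} [Field k] [CommRing A] [IsDomain A] [CommRing B]
    [Algebra k A] [Algebra k B] (f : A →ₐ[k] B) {d : ℕ} (hA : Algebra.trdeg k A ≤ d)
    (x : Fin d → A) (hx : AlgebraicIndependent k fun i => f (x i)) : Function.Injective f := by
  rw [injective_iff_map_eq_zero]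
  intro u hfu
  by_contra hu
  have h1 := (indep_option f x hx u hu hfu).cardinalMk_le_trdeg.trans hA
  simp only [Cardinal.mk_option, Cardinal.mk_fin] at h1
  norm_cast at h1
  omega

/-- In a factorial domain of transcendence degree `≤ d + 1`, the kernel of a non-injective map to
a domain whose image contains `d` independent elements is generated by a prime element. -/
theorem ker_eq_span_prime {k A B : Type} [Field k] [CommRing A] [IsDomain A]
    [UniqueFactorizationMonoid A] [CommRing B] [IsDomain B] [Algebra k A] [Algebra k B]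
    (f : A →ₐ[k] B) {d : ℕ} (hA : Algebra.trdeg k A ≤ (d + 1 : ℕ)) (x : Fin d → A)
    (hx : AlgebraicIndependent k fun i => f (x i)) (hf : ¬ Function.Injective f) :
    ∃ G : A, Prime G ∧ RingHom.ker f = Ideal.span {G} := by
  have hne : RingHom.ker f ≠ ⊥ := fun h => hf ((RingHom.injective_iff_ker_eq_bot f).2 h)
  obtain ⟨G, hG, hp⟩ := (RingHom.ker_isPrime f).exists_mem_prime_of_ne_bot hne
  refine ⟨G, hp, le_antisymm ?_ ((Ideal.span_singleton_le_iff_mem _).2 hG)⟩
  intro u hu
  by_contra hun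
  have hpr : (Ideal.span {G}).IsPrime := (Ideal.span_singleton_prime hp.ne_zero).2 hp
  let g : (A ⧸ Ideal.span {G}) →ₐ[k] B := Ideal.Quotient.liftₐ _ f fun a ha =>
    ((Ideal.span_singleton_le_iff_mem _).2 hG : Ideal.span {G} ≤ RingHom.ker f) ha
  let π : A →ₐ[k] A ⧸ Ideal.span {G} := Ideal.Quotient.mkₐ k _
  have h1 := indep_option g (fun i => π (x i)) hx (π u)
    (fun h => hun (Ideal.Quotient.eq_zero_iff_mem.1 h)) hu
  have h2 : AlgebraicIndependent k fun o : Option (Fin d) => π (o.elim u x) := by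
    convert h1 using 2 with o
    cases o <;> rfl
  have h3 := indep_option π (fun o : Option (Fin d) => o.elim u x) h2 G hp.ne_zero
    (Ideal.Quotient.eq_zero_iff_mem.2 (Ideal.mem_span_singleton_self G))
  have h4 := h3.cardinalMk_le_trdeg.trans hA
  simp only [Cardinal.mk_option, Cardinal.mk_fin] at h4
  norm_cast at h4
  omega

end Zc68
end

-- merged part: Pool.Agent.Work.MP_d65f04_ag.Diag
section
/-! Coordinate rings of cones over diagonal complete intersections of Vandermonde type. -/

namespace Zc68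

/-- `R` is generated by the `y j` subject to the `r` relations `∑ a_j θ_j^n y_j^2 = 0`, `n < r`
(the universal property is only required for maps to fields). -/
structure DiagData (k R ι : Type) [Field k] [CommRing R] [Algebra k R] [Fintype ι]
    (a θ : ι → k) (r d : ℕ) (y : ι → R) : Prop where
  ha : ∀ j, a j ≠ 0
  hθ : Function.Injective θ
  card : Fintype.card ι = r + d
  two_le : 2 ≤ d
  gen : Algebra.adjoin k (Set.range y) = ⊤
  eqs : ∀ n < r, dq a θ n y = 0
  univ : ∀ (Ω : Type) [Field Ω] [Algebra k Ω] (s : ι → Ω), (∀ n < r, dq a θ n s = 0) →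
    ∃ f : R →ₐ[k] Ω, ∀ j, f (y j) = s j

variable {k R ι : Type} [Field k] [CharZero k] [CommRing R] [Algebra k R] [Fintype ι]
  [DecidableEq ι] {a θ : ι → k} {r d : ℕ} {y : ι → R}

open Polynomial in
/-- Coefficients of the nodal polynomial with one node removed. -/
theorem coeff_nodal_erase_diag (θ : ι → k) (j : ι) (m : ℕ) :
    (Lagrange.nodal (Finset.univ.erase j) θ).coeff m =
      ∑ i ∈ Finset.Icc (m + 1) (Fintype.card ι),
        θ j ^ (i - (m + 1)) * (Lagrange.nodal Finset.univ θ).coeff i := by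
  have h1 : Lagrange.nodal (Finset.univ.erase j) θ =
      Lagrange.nodal Finset.univ θ /ₘ (X - C (θ j)) := by
    rw [Lagrange.nodal_eq_mul_nodal_erase (Finset.mem_univ j),
      mul_divByMonic_cancel_left _ (monic_X_sub_C _)]
  rw [h1, coeff_divByMonic_X_sub_C, Lagrange.natDegree_nodal, Finset.card_univ]

open Polynomial in
theorem eval_nodal_erase_diag (θ : ι → k) (i j : ι) :
    ∑ m ∈ Finset.range (Fintype.card ι),
      θ i ^ m * (Lagrange.nodal (Finset.univ.erase j) θ).coeff m =
      if j = i then ∏ l ∈ Finset.univ.erase i, (θ i - θ l) else 0 := by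
  have hdeg : (Lagrange.nodal (Finset.univ.erase j) θ).natDegree < Fintype.card ι := by
    rw [Lagrange.natDegree_nodal, Finset.card_erase_of_mem (Finset.mem_univ j), Finset.card_univ]
    have : 0 < Fintype.card ι := Fintype.card_pos_iff.2 ⟨j⟩
    omega
  have h := eval_eq_sum_range' hdeg (θ i)
  have h2 : ∑ m ∈ Finset.range (Fintype.card ι),
      θ i ^ m * (Lagrange.nodal (Finset.univ.erase j) θ).coeff m =
      (Lagrange.nodal (Finset.univ.erase j) θ).eval (θ i) := by
    rw [h]
    exact Finset.sum_congr rfl fun m _ => mul_comm _ _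
  rw [h2]
  split_ifs with hji
  · subst hji
    exact Lagrange.eval_nodal
  · exact Lagrange.eval_nodal_at_node (Finset.mem_erase.2 ⟨Ne.symm hji, Finset.mem_univ _⟩)

open Polynomial in
theorem sum_pow_div_diag (hθ : Function.Injective θ) (e : ℕ) (he : e + 1 < Fintype.card ι) :
    ∑ j, θ j ^ e / ∏ l ∈ Finset.univ.erase j, (θ j - θ l) = 0 := by
  have h := Lagrange.coeff_eq_sum (s := Finset.univ) (v := θ) hθ.injOn
    (P := (X : k[X]) ^ e) (by
      rw [degree_X_pow, Finset.card_univ]
      exact_mod_cast (by omega : e < Fintype.card ι))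
  rw [coeff_X_pow, if_neg (by rw [Finset.card_univ]; omega)] at h
  rw [h]
  exact Finset.sum_congr rfl fun j _ => by rw [eval_pow, eval_X]

/-- Solutions of the Vandermonde system: `a_j δ'(θ_j) y_j^2 = g(θ_j)` with `deg g < d`, where the
coefficients `γ` of `g` are linear combinations of the `y_j^2`. -/
theorem exists_gamma (hθ : Function.Injective θ) (card : Fintype.card ι = r + d)
    (eqs : ∀ n < r, dq a θ n y = 0) :
    ∃ γ : Fin d → R, (∀ m, γ m ∈ Submodule.span k (Set.range fun j => y j ^ 2)) ∧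
      ∀ j, algebraMap k R (a j * ∏ l ∈ Finset.univ.erase j, (θ j - θ l)) * y j ^ 2 =
        ∑ m : Fin d, algebraMap k R (θ j ^ (m : ℕ)) * γ m := by
  set γ' : ℕ → R := fun m => ∑ j,
    algebraMap k R (a j * (Lagrange.nodal (Finset.univ.erase j) θ).coeff m) * y j ^ 2 with hγ'
  have hzero : ∀ m, d ≤ m → γ' m = 0 := by
    intro m hm
    have h1 : γ' m = ∑ i ∈ Finset.Icc (m + 1) (Fintype.card ι),
        algebraMap k R ((Lagrange.nodal Finset.univ θ).coeff i) * dq a θ (i - (m + 1)) y := by
      simp only [hγ', dq, coeff_nodal_erase_diag, Finset.mul_sum, map_sum, Finset.sum_mul]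
      rw [Finset.sum_comm]
      refine Finset.sum_congr rfl fun i _ => Finset.sum_congr rfl fun j _ => ?_
      simp only [map_mul]
      ring
    rw [h1]
    refine Finset.sum_eq_zero fun i hi => ?_
    rw [eqs _ (by have := Finset.mem_Icc.1 hi; omega), mul_zero]
  refine ⟨fun m => γ' m, fun m => ?_, fun i => ?_⟩
  · refine Submodule.sum_mem _ fun j _ => ?_
    rw [← Algebra.smul_def]
    exact Submodule.smul_mem _ _ (Submodule.subset_span ⟨j, rfl⟩)
  · have h1 : ∑ m : Fin d, algebraMap k R (θ i ^ (m : ℕ)) * γ' m =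
        ∑ m ∈ Finset.range (Fintype.card ι), algebraMap k R (θ i ^ m) * γ' m := by
      rw [Fin.sum_univ_eq_sum_range (fun m => algebraMap k R (θ i ^ m) * γ' m) d]
      refine Finset.sum_subset (Finset.range_subset_range.2 (by omega)) fun m _ hm => ?_
      rw [hzero m (by simpa using hm), mul_zero]
    have h2 : ∑ m ∈ Finset.range (Fintype.card ι), algebraMap k R (θ i ^ m) * γ' m =
        ∑ j, algebraMap k R (a j * ∑ m ∈ Finset.range (Fintype.card ι),
          θ i ^ m * (Lagrange.nodal (Finset.univ.erase j) θ).coeff m) * y j ^ 2 := by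
      simp only [hγ', Finset.mul_sum, map_sum, Finset.sum_mul]
      rw [Finset.sum_comm]
      refine Finset.sum_congr rfl fun j _ => Finset.sum_congr rfl fun m _ => ?_
      simp only [map_mul]
      ring
    rw [h1, h2]
    simp only [eval_nodal_erase_diag]
    rw [Finset.sum_eq_single i]
    · rw [if_pos rfl]
    · intro j _ hj
      rw [if_neg hj, mul_zero, map_zero, zero_mul]
    · intro h
      exact absurd (Finset.mem_univ i) h

/-- Conversely such values solve the Vandermonde system. -/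
theorem dq_eq_zero_of_gamma (hθ : Function.Injective θ) (card : Fintype.card ι = r + d)
    (γ : Fin d → R)
    (h : ∀ j, algebraMap k R (a j * ∏ l ∈ Finset.univ.erase j, (θ j - θ l)) * y j ^ 2 =
        ∑ m : Fin d, algebraMap k R (θ j ^ (m : ℕ)) * γ m) :
    ∀ n < r, dq a θ n y = 0 := by
  intro n hn
  have hne : ∀ j, ∏ l ∈ Finset.univ.erase j, (θ j - θ l) ≠ 0 := fun j =>
    Finset.prod_ne_zero_iff.2 fun l hl =>
      sub_ne_zero.2 fun e => (Finset.mem_erase.1 hl).1 (hθ e).symm
  have h1 : ∀ j, algebraMap k R (a j * θ j ^ n) * y j ^ 2 =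
      ∑ m : Fin d, algebraMap k R (θ j ^ (n + m) / ∏ l ∈ Finset.univ.erase j, (θ j - θ l)) *
        γ m := by
    intro j
    have e : a j * θ j ^ n = (θ j ^ n / ∏ l ∈ Finset.univ.erase j, (θ j - θ l)) *
        (a j * ∏ l ∈ Finset.univ.erase j, (θ j - θ l)) := by
      have := hne j
      field_simp
    rw [e, map_mul, mul_assoc, h j, Finset.mul_sum]
    refine Finset.sum_congr rfl fun m _ => ?_
    rw [← mul_assoc, ← map_mul, pow_add]
    congr 2
    ring
  unfold dq
  simp only [h1]
  rw [Finset.sum_comm]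
  refine Finset.sum_eq_zero fun m _ => ?_
  rw [← Finset.sum_mul, ← map_sum, sum_pow_div_diag hθ _ (by have := m.2; omega), map_zero,
    zero_mul]

end Zc68
end

-- merged part: Pool.Agent.Work.MP_d65f04_ag.Diag2
section
/-! Structure of the rings described by `DiagData`. -/

namespace Zc68

variable {k R ι : Type} [Field k] [CharZero k] [CommRing R] [Algebra k R] [Fintype ι]
  [DecidableEq ι] {a θ : ι → k} {r d : ℕ} {y : ι → R}

/-- An algebraic closure of the rational function field in `d` variables. -/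
abbrev OmDiag2 (k : Type) [Field k] (d : ℕ) : Type :=
  AlgebraicClosure (FractionRing (MvPolynomial (Fin d) k))

omit [CharZero k] in
/-- Inversion of a Vandermonde system. -/
theorem vand_solve_diag2 (t : Fin d → k) (ht : Function.Injective t) :
    ∃ V : Fin d → Fin d → k, ∀ (S : Type) [CommRing S] [Algebra k S] (g : Fin d → S) (m : Fin d),
      g m = ∑ i, V m i • ∑ n : Fin d, algebraMap k S (t i ^ (n : ℕ)) * g n := by
  have hdet : IsUnit (Matrix.vandermonde t).det :=
    (Matrix.det_vandermonde_ne_zero_iff.2 ht).isUnit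
  refine ⟨fun m i => (Matrix.vandermonde t)⁻¹ m i, fun S _ _ g m => ?_⟩
  have h : ∀ n : Fin d, ∑ i, (Matrix.vandermonde t)⁻¹ m i * t i ^ (n : ℕ) =
      if m = n then 1 else 0 := fun n => by
    have := congrFun (congrFun (Matrix.nonsing_inv_mul _ hdet) m) n
    rwa [Matrix.mul_apply, Matrix.one_apply] at this
  simp only [Finset.smul_sum, ← Algebra.smul_def, smul_smul]
  rw [Finset.sum_comm]
  simp only [← Finset.sum_smul, h, ite_smul, one_smul, zero_smul, Finset.sum_ite_eq,
    Finset.mem_univ, if_true]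

omit [CharZero k] in
/-- The squarefree monomials span. -/
theorem span_top_diag2 {P : Type} [CommRing P] [Algebra k P] [Algebra P R] [IsScalarTower k P R]
    (gen : Algebra.adjoin k (Set.range y) = ⊤) (hy : ∀ j, ∃ p : P, y j ^ 2 = algebraMap P R p) :
    Submodule.span P (Set.range fun J : Finset ι => ∏ j ∈ J, y j) = ⊤ := by
  set M := Submodule.span P (Set.range fun J : Finset ι => ∏ j ∈ J, y j) with hM
  have h0 : ∀ J : Finset ι, ∏ j ∈ J, y j ∈ M := fun J => Submodule.subset_span ⟨J, rfl⟩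
  have h1 : ∀ j, ∀ m ∈ M, y j * m ∈ M := by
    intro j m hm
    induction hm using Submodule.span_induction with
    | mem x hx =>
      obtain ⟨J, rfl⟩ := hx
      by_cases hj : j ∈ J
      · obtain ⟨p, hp⟩ := hy j
        have : y j * ∏ i ∈ J, y i = p • ∏ i ∈ J.erase j, y i := by
          rw [← Finset.mul_prod_erase J y hj, Algebra.smul_def, ← hp]; ring
        simp only [this]
        exact M.smul_mem _ (h0 _)
      · simp only [← Finset.prod_insert hj]
        exact h0 _
    | zero => rw [mul_zero]; exact M.zero_mem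
    | add u v _ _ hu hv => rw [mul_add]; exact M.add_mem hu hv
    | smul p u _ hu => rw [mul_smul_comm]; exact M.smul_mem _ hu
  have h2 : ∀ x ∈ Algebra.adjoin k (Set.range y), ∀ m ∈ M, x * m ∈ M := by
    intro x hx
    induction hx using Algebra.adjoin_induction with
    | mem x hx => obtain ⟨j, rfl⟩ := hx; exact h1 j
    | algebraMap c =>
      intro m hm
      rw [IsScalarTower.algebraMap_apply k P R, ← Algebra.smul_def]
      exact M.smul_mem _ hm
    | add u v _ _ hu hv => intro m hm; rw [add_mul]; exact M.add_mem (hu m hm) (hv m hm)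
    | mul u v _ _ hu hv => intro m hm; rw [mul_assoc]; exact hu _ (hv m hm)
  refine eq_top_iff.2 fun x _ => ?_
  have := h2 x (gen ▸ Algebra.mem_top) _ (h0 ∅)
  rwa [Finset.prod_empty, mul_one] at this

omit [CharZero k] [Fintype ι] [DecidableEq ι] in
/-- `R` is algebraic over a subalgebra containing the squares of the generators. -/
theorem isAlgebraic_diag2 [Nontrivial R] (gen : Algebra.adjoin k (Set.range y) = ⊤)
    (A : Subalgebra k R) (hy : ∀ j, y j ^ 2 ∈ A) : Algebra.IsAlgebraic A R := by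
  have h : ∀ x ∈ Algebra.adjoin k (Set.range y), IsIntegral A x := by
    intro x hx
    induction hx using Algebra.adjoin_induction with
    | mem x hx =>
      obtain ⟨j, rfl⟩ := hx
      exact IsIntegral.of_pow two_pos (isIntegral_algebraMap (x := (⟨_, hy j⟩ : A)))
    | algebraMap c => exact isIntegral_algebraMap (x := (⟨_, A.algebraMap_mem c⟩ : A))
    | add u v _ _ hu hv => exact hu.add hv
    | mul u v _ _ hu hv => exact hu.mul hv
  exact ⟨fun x => (h x (gen ▸ Algebra.mem_top)).isAlgebraic⟩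

/-- `R` as an algebra over the polynomial ring, with its map to the multiquadratic extension. -/
theorem DiagData.master_diag2 (h : DiagData k R ι a θ r d y) :
    ∃ (_ : Algebra (MvPolynomial (Fin d) k) R) (_ : IsScalarTower k (MvPolynomial (Fin d) k) R)
      (_ : R →ₐ[MvPolynomial (Fin d) k] OmDiag2 k d) (w : ι → k), (∀ j, w j ≠ 0) ∧
      (∀ m, algebraMap (MvPolynomial (Fin d) k) R (MvPolynomial.X m) ∈
        Submodule.span k (Set.range fun j => y j ^ 2)) ∧
      ∀ j, y j ^ 2 =
        algebraMap (MvPolynomial (Fin d) k) R (MvPolynomial.C (w j) * genPoly d (θ j)) := by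
  obtain ⟨γ, hγ, hy⟩ := exists_gamma (a := a) h.hθ h.card h.eqs
  set W : ι → k := fun j => a j * ∏ l ∈ Finset.univ.erase j, (θ j - θ l) with hW
  have hW0 : ∀ j, W j ≠ 0 := fun j => mul_ne_zero (h.ha j) (Finset.prod_ne_zero_iff.2 fun l hl =>
    sub_ne_zero.2 fun e => (Finset.mem_erase.1 hl).1 (h.hθ e).symm)
  have key : ∀ (S : Type) [CommRing S] [Algebra k S] (g : Fin d → S) (j : ι),
      algebraMap k S (W j) * MvPolynomial.aeval g (MvPolynomial.C (W j)⁻¹ * genPoly d (θ j)) =
        ∑ m : Fin d, algebraMap k S (θ j ^ (m : ℕ)) * g m := by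
    intro S _ _ g j
    simp only [genPoly, map_mul, map_sum, MvPolynomial.aeval_C, MvPolynomial.aeval_X]
    rw [← mul_assoc, ← map_mul, mul_inv_cancel₀ (hW0 j), map_one, one_mul]
  let x : Fin d → OmDiag2 k d := fun m =>
    algebraMap (MvPolynomial (Fin d) k) (OmDiag2 k d) (MvPolynomial.X m)
  have hx : ∀ p, MvPolynomial.aeval x p = algebraMap (MvPolynomial (Fin d) k) (OmDiag2 k d) p :=
    fun p => by
      have : MvPolynomial.aeval x =
          IsScalarTower.toAlgHom k (MvPolynomial (Fin d) k) (OmDiag2 k d) := by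
        ext m; simp [x]
      rw [this]; rfl
  choose s hs using fun j => IsAlgClosed.exists_pow_nat_eq
    (MvPolynomial.aeval x (MvPolynomial.C (W j)⁻¹ * genPoly d (θ j))) two_pos
  have hs' : ∀ j, algebraMap k (OmDiag2 k d) (W j) * s j ^ 2 =
      ∑ m : Fin d, algebraMap k (OmDiag2 k d) (θ j ^ (m : ℕ)) * x m := fun j => by
    rw [hs, key]
  obtain ⟨f, hf⟩ := h.univ (OmDiag2 k d) s (dq_eq_zero_of_gamma h.hθ h.card x hs')
  obtain ⟨e⟩ : Nonempty (Fin d ↪ ι) :=
    Function.Embedding.nonempty_of_card_le (by rw [Fintype.card_fin, h.card]; omega)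
  obtain ⟨V, hV⟩ := vand_solve_diag2 (fun i => θ (e i)) (h.hθ.comp e.injective)
  have hfγ : ∀ m, f (γ m) = x m := fun m => by
    rw [hV R γ m, hV _ x m, map_sum]
    refine Finset.sum_congr rfl fun i _ => ?_
    rw [map_smul, ← hy, ← hs', map_mul, map_pow, hf, AlgHom.commutes]
  letI alg : Algebra (MvPolynomial (Fin d) k) R :=
    (MvPolynomial.aeval γ : MvPolynomial (Fin d) k →ₐ[k] R).toRingHom.toAlgebra
  have ha : ∀ p, algebraMap (MvPolynomial (Fin d) k) R p = MvPolynomial.aeval γ p := fun _ => rfl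
  have hc : ∀ p, f (algebraMap (MvPolynomial (Fin d) k) R p) =
      algebraMap (MvPolynomial (Fin d) k) (OmDiag2 k d) p := fun p => by
    rw [ha, ← hx, ← AlgHom.comp_apply, MvPolynomial.comp_aeval]
    simp only [hfγ]
  refine ⟨alg, IsScalarTower.of_algebraMap_eq fun c => ?_, ⟨f.toRingHom, hc⟩, fun j => (W j)⁻¹,
    fun j => inv_ne_zero (hW0 j), fun m => ?_, fun j => ?_⟩
  · rw [ha, AlgHom.commutes]
  · rw [ha, MvPolynomial.aeval_X]; exact hγ m
  · have hu : IsUnit (algebraMap k R (W j)) := (hW0 j).isUnit.map _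
    refine hu.mul_left_cancel ?_
    rw [ha, key, hy]

section alg

variable [Algebra (MvPolynomial (Fin d) k) R]

omit [Algebra k R] [Fintype ι] [DecidableEq ι] in
theorem indep_img_diag2 (hd : 2 ≤ d) (hθ : Function.Injective θ)
    (f : R →ₐ[MvPolynomial (Fin d) k] OmDiag2 k d) {w : ι → k} (hw : ∀ j, w j ≠ 0)
    (hy : ∀ j, y j ^ 2 =
      algebraMap (MvPolynomial (Fin d) k) R (MvPolynomial.C (w j) * genPoly d (θ j))) :
    LinearIndependent (MvPolynomial (Fin d) k) fun J : Finset ι => f (∏ j ∈ J, y j) := by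
  have h := mq_indep (F := FractionRing (MvPolynomial (Fin d) k)) (Ω := OmDiag2 k d)
    (fun j => algebraMap (MvPolynomial (Fin d) k) _ (MvPolynomial.C (w j) * genPoly d (θ j)))
    (fun j => f (y j))
    (fun j => by rw [← map_pow, hy, AlgHom.commutes, ← IsScalarTower.algebraMap_apply])
    (fun J hJ hsq => by
      rw [← map_prod, Finset.prod_mul_distrib, ← map_prod] at hsq
      exact hJ.ne_empty (isSquare_genPoly hd θ hθ J _
        (Finset.prod_ne_zero_iff.2 fun j _ => hw j) hsq).1)
  simp only [map_prod]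
  exact h.restrict_scalars' _

omit [Algebra k R] [Fintype ι] [DecidableEq ι] in
theorem indep_img_opt_diag2 (hd : 2 ≤ d) (hθ : Function.Injective θ)
    (f : R →ₐ[MvPolynomial (Fin d) k] OmDiag2 k d) {w : ι → k} (hw : ∀ j, w j ≠ 0)
    (hy : ∀ j, y j ^ 2 =
      algebraMap (MvPolynomial (Fin d) k) R (MvPolynomial.C (w j) * genPoly d (θ j)))
    {c : k} (hc : ¬ IsSquare c) {t : OmDiag2 k d} (ht : t ^ 2 = algebraMap k _ c) :
    LinearIndependent (MvPolynomial (Fin d) k) fun J : Finset ι ⊕ Finset ι =>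
      J.elim (fun J => t * f (∏ j ∈ J, y j)) fun J => f (∏ j ∈ J, y j) := by
  have hc0 : c ≠ 0 := fun e => hc (e ▸ IsSquare.zero)
  have h := mq_indep (F := FractionRing (MvPolynomial (Fin d) k)) (Ω := OmDiag2 k d)
    (fun o : Option ι => algebraMap (MvPolynomial (Fin d) k) _
      (MvPolynomial.C (o.elim c w) * Option.elim' 1 (fun j => genPoly d (θ j)) o))
    (fun o => o.elim t fun j => f (y j))
    (fun o => by
      cases o with
      | none =>
        simp only [Option.elim_none, Option.elim', mul_one, ht]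
        rw [← IsScalarTower.algebraMap_apply, ← MvPolynomial.algebraMap_eq,
          ← IsScalarTower.algebraMap_apply]
      | some j =>
        simp only [Option.elim_some, Option.elim']
        rw [← map_pow, hy, AlgHom.commutes, ← IsScalarTower.algebraMap_apply])
    (fun J hJ hsq => by
      rw [← map_prod, Finset.prod_mul_distrib, ← map_prod, ← Finset.prod_eraseNone] at hsq
      obtain ⟨h1, h2⟩ := isSquare_genPoly hd θ hθ _ _
        (Finset.prod_ne_zero_iff.2 fun o _ => by
          cases o with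
          | none => exact hc0
          | some j => exact hw j) hsq
      have hJ' : J = {none} := by
        refine Finset.eq_singleton_iff_nonempty_unique_mem.2 ⟨hJ, fun o ho => ?_⟩
        cases o with
        | none => rfl
        | some j => exact absurd (h1 ▸ Finset.mem_eraseNone.2 ho) (Finset.notMem_empty j)
      rw [hJ', Finset.prod_singleton] at h2
      exact hc h2)
  let g : Finset ι ⊕ Finset ι → Finset (Option ι) :=
    Sum.elim (fun J => Finset.insertNone J) fun J => J.map Function.Embedding.some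
  have hg : Function.Injective g := by
    rintro (J | J) (J' | J') e
    · exact congrArg _ (Finset.insertNone.injective e)
    · have : none ∈ J'.map Function.Embedding.some := by
        have e' : Finset.insertNone J = J'.map Function.Embedding.some := e
        rw [← e']; exact Finset.none_mem_insertNone
      simp at this
    · have : none ∈ J.map Function.Embedding.some := by
        have e' : J.map Function.Embedding.some = Finset.insertNone J' := e
        rw [e']; exact Finset.none_mem_insertNone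
      simp at this
    · exact congrArg _ (Finset.map_injective _ e)
  have h2 := (h.comp g hg).restrict_scalars' (MvPolynomial (Fin d) k)
  convert h2 using 1
  funext J
  rcases J with J | J
  · simp [g, Finset.prod_insertNone, map_prod]
  · simp [g, Finset.prod_map, map_prod]

omit [CharZero k] [Algebra k R] [DecidableEq ι] in
theorem injective_diag2 (f : R →ₐ[MvPolynomial (Fin d) k] OmDiag2 k d)
    (hsp : Submodule.span (MvPolynomial (Fin d) k)
      (Set.range fun J : Finset ι => ∏ j ∈ J, y j) = ⊤)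
    (hli : LinearIndependent (MvPolynomial (Fin d) k) fun J : Finset ι => f (∏ j ∈ J, y j)) :
    Function.Injective f := by
  refine (injective_iff_map_eq_zero f).2 fun u hu => ?_
  obtain ⟨p, rfl⟩ := (Submodule.mem_span_range_iff_exists_fun _).1 (hsp ▸ Submodule.mem_top : u ∈ _)
  simp only [map_sum, map_smul] at hu
  simp only [Fintype.linearIndependent_iff.1 hli p hu, zero_smul, Finset.sum_const_zero]

end alg

/-- The monomial basis `y^J γ^α`. -/
theorem DiagData.exists_basis (h : DiagData k R ι a θ r d y) :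
    ∃ γ : Fin d → R, (∀ m, γ m ∈ Submodule.span k (Set.range fun j => y j ^ 2)) ∧
      ∃ b : Module.Basis (Finset ι × (Fin d →₀ ℕ)) k R,
        ∀ J α, b (J, α) = (∏ j ∈ J, y j) * ∏ m, γ m ^ α m := by
  obtain ⟨_, _, f, w, hw, hγ, hy⟩ := h.master_diag2
  have hsp := span_top_diag2 (P := MvPolynomial (Fin d) k) h.gen fun j => ⟨_, hy j⟩
  have hli : LinearIndependent (MvPolynomial (Fin d) k) fun J : Finset ι => ∏ j ∈ J, y j :=
    LinearIndependent.of_comp f.toLinearMap (indep_img_diag2 h.two_le h.hθ f hw hy)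
  refine ⟨_, hγ, (MvPolynomial.basisMonomials (Fin d) k).smulTower' (Module.Basis.mk hli hsp.ge),
    fun J α => ?_⟩
  rw [Module.Basis.smulTower'_apply, Module.Basis.mk_apply, MvPolynomial.coe_basisMonomials,
    Algebra.smul_def, mul_comm]
  simp only [MvPolynomial.monomial_eq, map_one, one_mul]
  rw [Finsupp.prod_fintype _ _ fun _ => pow_zero _, map_prod]
  simp only [map_pow]

theorem DiagData.isDomain (h : DiagData k R ι a θ r d y) : IsDomain R := by
  obtain ⟨_, _, f, w, hw, -, hy⟩ := h.master_diag2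
  have hsp := span_top_diag2 (P := MvPolynomial (Fin d) k) h.gen fun j => ⟨_, hy j⟩
  exact (injective_diag2 f hsp (indep_img_diag2 h.two_le h.hθ f hw hy)).isDomain f.toRingHom

theorem DiagData.ne_zero (h : DiagData k R ι a θ r d y) (j : ι) : y j ≠ 0 := by
  obtain ⟨_, _, f, w, hw, -, hy⟩ := h.master_diag2
  have := (indep_img_diag2 h.two_le h.hθ f hw hy).ne_zero {j}
  rw [Finset.prod_singleton] at this
  exact fun e => this (by rw [e, map_zero])

/-- `k` is quadratically closed in the fraction field of `R`. -/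
theorem DiagData.isSquare_of (h : DiagData k R ι a θ r d y) (c : k) (u w : R) (hu : u ≠ 0)
    (hc : algebraMap k R c * u ^ 2 = w ^ 2) : IsSquare c := by
  obtain ⟨_, _, f, w', hw, -, hy⟩ := h.master_diag2
  have hsp := span_top_diag2 (P := MvPolynomial (Fin d) k) h.gen fun j => ⟨_, hy j⟩
  by_contra hsq
  obtain ⟨t, ht⟩ := IsAlgClosed.exists_pow_nat_eq (algebraMap k (OmDiag2 k d) c) two_pos
  have hli := Fintype.linearIndependent_iff.1 (indep_img_opt_diag2 h.two_le h.hθ f hw hy hsq ht)
  have key : ∀ v : R, t * f u + f v = 0 → False := fun v hv => by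
    obtain ⟨p, rfl⟩ :=
      (Submodule.mem_span_range_iff_exists_fun _).1 (hsp ▸ Submodule.mem_top : u ∈ _)
    obtain ⟨q, rfl⟩ :=
      (Submodule.mem_span_range_iff_exists_fun _).1 (hsp ▸ Submodule.mem_top : v ∈ _)
    have h0 := hli (Sum.elim p q) (by
      rw [Fintype.sum_sum_type, ← hv]
      simp only [Sum.elim_inl, Sum.elim_inr, map_sum, map_smul, Finset.mul_sum, mul_smul_comm])
    have hp : ∀ J, p J = 0 := fun J => h0 (Sum.inl J)
    exact hu (by simp only [hp, zero_smul, Finset.sum_const_zero])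
  have h2 : (t * f u) ^ 2 = f w ^ 2 := by
    rw [mul_pow, ht, ← map_pow, ← map_pow, ← hc, map_mul,
      IsScalarTower.algebraMap_apply k (MvPolynomial (Fin d) k) R, AlgHom.commutes,
      ← IsScalarTower.algebraMap_apply]
  rcases sq_eq_sq_iff_eq_or_eq_neg.1 h2 with e | e
  · exact key (-w) (by rw [e, map_neg, add_neg_cancel])
  · exact key w (by rw [e, neg_add_cancel])

omit [CharZero k] [Fintype ι] [DecidableEq ι] in
theorem sq_mem_diag2 [Algebra (MvPolynomial (Fin d) k) R]
    [IsScalarTower k (MvPolynomial (Fin d) k) R] (A : Subalgebra k R)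
    (hA : ∀ m, algebraMap (MvPolynomial (Fin d) k) R (MvPolynomial.X m) ∈ A)
    (p : MvPolynomial (Fin d) k) : algebraMap (MvPolynomial (Fin d) k) R p ∈ A := by
  induction p using MvPolynomial.induction_on with
  | C c =>
    rw [← MvPolynomial.algebraMap_eq, ← IsScalarTower.algebraMap_apply]
    exact A.algebraMap_mem c
  | add p q hp hq => rw [map_add]; exact A.add_mem hp hq
  | mul_X p m hp => rw [map_mul]; exact A.mul_mem hp (hA m)

theorem DiagData.trdeg_eq (h : DiagData k R ι a θ r d y) : Algebra.trdeg k R = d := by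
  have := h.isDomain
  obtain ⟨_, _, f, w, hw, -, hy⟩ := h.master_diag2
  have hinj : Function.Injective (algebraMap (MvPolynomial (Fin d) k) R) := by
    refine Function.Injective.of_comp (f := f) ?_
    have : f ∘ algebraMap (MvPolynomial (Fin d) k) R =
        algebraMap (MvPolynomial (Fin d) k) (OmDiag2 k d) := funext f.commutes
    rw [this, IsScalarTower.algebraMap_eq (MvPolynomial (Fin d) k)
      (FractionRing (MvPolynomial (Fin d) k)) (OmDiag2 k d), RingHom.coe_comp]
    exact (RingHom.injective _).comp (IsFractionRing.injective _ _)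
  have hind : AlgebraicIndependent k fun m : Fin d =>
      algebraMap (MvPolynomial (Fin d) k) R (MvPolynomial.X m) :=
    (MvPolynomial.algebraicIndependent_X (Fin d) k).map'
      (f := IsScalarTower.toAlgHom k (MvPolynomial (Fin d) k) R) hinj
  have hb := hind.isTranscendenceBasis_iff_isAlgebraic.2 (isAlgebraic_diag2 h.gen _ fun j => by
    rw [hy]
    exact sq_mem_diag2 _ (fun m => Algebra.subset_adjoin (Set.mem_range_self m)) _)
  rw [← hb.cardinalMk_eq_trdeg, Cardinal.mk_fin]

/-- Any `d` of the generators are algebraically independent. -/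
theorem DiagData.indep (h : DiagData k R ι a θ r d y) (e : Fin d → ι)
    (he : Function.Injective e) : AlgebraicIndependent k fun m => y (e m) := by
  have := h.isDomain
  obtain ⟨_, _, f, w, hw, -, hy⟩ := h.master_diag2
  obtain ⟨V, hV⟩ := vand_solve_diag2 (fun i => θ (e i)) (h.hθ.comp he)
  have halg : Algebra.IsAlgebraic (Algebra.adjoin k (Set.range fun m => y (e m))) R := by
    refine isAlgebraic_diag2 h.gen _ fun j => ?_
    rw [hy]
    refine sq_mem_diag2 _ (fun m => ?_) _
    rw [hV R (fun m => algebraMap (MvPolynomial (Fin d) k) R (MvPolynomial.X m)) m]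
    refine Subalgebra.sum_mem _ fun i _ => Subalgebra.smul_mem _ ?_ _
    have h1 : ∑ n : Fin d, algebraMap k R (θ (e i) ^ (n : ℕ)) *
        algebraMap (MvPolynomial (Fin d) k) R (MvPolynomial.X n) =
        (w (e i))⁻¹ • y (e i) ^ 2 := by
      rw [hy, map_mul, ← MvPolynomial.algebraMap_eq, ← IsScalarTower.algebraMap_apply,
        ← Algebra.smul_def, smul_smul, inv_mul_cancel₀ (hw _), one_smul, genPoly, map_sum]
      refine Finset.sum_congr rfl fun n _ => ?_
      rw [map_mul, ← MvPolynomial.algebraMap_eq, ← IsScalarTower.algebraMap_apply]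
    rw [h1]
    exact Subalgebra.smul_mem _
      (Subalgebra.pow_mem _ (Algebra.subset_adjoin (Set.mem_range_self i)) _) _
  exact (Algebra.IsAlgebraic.isTranscendenceBasis_of_le_trdeg_of_finite k (fun m => y (e m))
    (by rw [h.trdeg_eq, Cardinal.mk_fin])).1

end Zc68
end

-- merged part: Pool.Agent.Work.MP_d65f04_ag.Nagata
section
/-! The cone over a quadric surface with a point and non-square discriminant is factorial. -/

namespace Zc68

open Polynomial

section nagata

variable {C A : Type} [CommRing C] [IsDomain C] [CommRing A] [Algebra C A]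

theorem key_nagata (s s' : A) (q : C) (hq : q ≠ 0)
    (hs : Function.Injective (aeval s : C[X] →ₐ[C] A)) (h : s * s' = algebraMap C A q)
    (u v : C[X]) (huv : aeval s' u = s * aeval s v) : u = 0 := by
  obtain ⟨n, hn⟩ : ∃ n, u.natDegree = n := ⟨_, rfl⟩
  have h1 : aeval s (∑ i ∈ Finset.range (n + 1), Polynomial.C (u.coeff i * q ^ i) * X ^ (n - i))
      = aeval s (X ^ (n + 1) * v : C[X]) := by
    rw [map_mul, map_pow, aeval_X, pow_succ, mul_assoc, ← huv, aeval_eq_sum_range (p := u), hn,
      Finset.mul_sum, map_sum]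
    refine Finset.sum_congr rfl (fun i hi => ?_)
    have hi' : i ≤ n := by simpa [Nat.lt_succ_iff] using hi
    obtain ⟨j, rfl⟩ := Nat.exists_eq_add_of_le hi'
    rw [map_mul, map_pow, aeval_X, aeval_C, map_mul, map_pow, ← h, Algebra.smul_def,
      Nat.add_sub_cancel_left]
    ring
  have h2 := hs h1
  ext i
  by_cases hi : i ≤ n
  · have h3 := congrArg (fun p => p.coeff (n - i)) h2
    simp only [finset_sum_coeff, coeff_C_mul, coeff_X_pow, coeff_X_pow_mul'] at h3
    rw [if_neg (by omega), Finset.sum_eq_single i] at h3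
    · simpa [hq] using h3
    · intro j hj hji
      have : j ≤ n := by simpa [Nat.lt_succ_iff] using hj
      rw [if_neg (by omega), mul_zero]
    · intro hi'
      exact absurd (Finset.mem_range.2 (by omega)) hi'
  · rw [coeff_eq_zero_of_natDegree_lt (by omega), coeff_zero]

omit [IsDomain C] in
theorem nf_nagata (s s' : A) (q : C) (h : s * s' = algebraMap C A q)
    (hgen : Algebra.adjoin C {s, s'} = ⊤) (a : A) :
    ∃ f g : C[X], a = s * aeval s f + aeval s' g := by
  have hs : ∀ f g : C[X], ∃ f' g' : C[X],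
      s * (s * aeval s f + aeval s' g) = s * aeval s f' + aeval s' g' := by
    intro f g
    refine ⟨X * f + Polynomial.C (g.coeff 0), Polynomial.C q * g.divX, ?_⟩
    conv_lhs => rw [← divX_mul_X_add g]
    simp only [map_add, map_mul, aeval_X, aeval_C, ← h]
    ring
  have hs' : ∀ f g : C[X], ∃ f' g' : C[X],
      s' * (s * aeval s f + aeval s' g) = s * aeval s f' + aeval s' g' := by
    intro f g
    refine ⟨Polynomial.C q * f.divX, X * g + Polynomial.C (q * f.coeff 0), ?_⟩
    conv_lhs => rw [← divX_mul_X_add f]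
    simp only [map_add, map_mul, aeval_X, aeval_C, ← h]
    ring
  have ha : a ∈ Algebra.adjoin C {s, s'} := hgen ▸ Algebra.mem_top
  have key : ∀ b ∈ Algebra.adjoin C ({s, s'} : Set A), ∀ f g : C[X], ∃ f' g' : C[X],
      b * (s * aeval s f + aeval s' g) = s * aeval s f' + aeval s' g' := by
    intro b hb
    induction hb using Algebra.adjoin_induction with
    | mem x hx =>
      rcases hx with rfl | rfl
      · exact hs
      · exact hs'
    | algebraMap r =>
      intro f g
      exact ⟨Polynomial.C r * f, Polynomial.C r * g, by simp only [map_mul, aeval_C]; ring⟩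
    | add x y _ _ hx hy =>
      intro f g
      obtain ⟨f1, g1, h1⟩ := hx f g
      obtain ⟨f2, g2, h2⟩ := hy f g
      exact ⟨f1 + f2, g1 + g2, by rw [add_mul, h1, h2, map_add, map_add]; ring⟩
    | mul x y _ _ hx hy =>
      intro f g
      obtain ⟨f2, g2, h2⟩ := hy f g
      obtain ⟨f1, g1, h1⟩ := hx f2 g2
      exact ⟨f1, g1, by rw [mul_assoc, h2, h1]⟩
  obtain ⟨f, g, hfg⟩ := key a ha 0 1
  exact ⟨f, g, by simpa using hfg⟩

theorem dvd_iff_nagata (s s' : A) (q : C) (hq : q ≠ 0)
    (hs : Function.Injective (aeval s : C[X] →ₐ[C] A)) (h : s * s' = algebraMap C A q)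
    (hgen : Algebra.adjoin C {s, s'} = ⊤) (g : C[X]) :
    s ∣ aeval s' g ↔ Polynomial.C q ∣ g := by
  constructor
  · rintro ⟨a, ha⟩
    obtain ⟨f1, g1, rfl⟩ := nf_nagata s s' q h hgen a
    have := key_nagata s s' q hq hs h (g - Polynomial.C q * g1.divX)
      (X * f1 + Polynomial.C (g1.coeff 0)) (by
        have e1 : aeval s' g1 = aeval s' g1.divX * s' + algebraMap C A (g1.coeff 0) := by
          conv_lhs => rw [← divX_mul_X_add g1]
          simp only [map_add, map_mul, aeval_X, aeval_C]
        rw [map_sub, ha, e1]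
        simp only [map_add, map_mul, aeval_X, aeval_C, ← h]
        ring)
    exact ⟨_, sub_eq_zero.1 this⟩
  · rintro ⟨g1, rfl⟩
    exact ⟨s' * aeval s' g1, by rw [map_mul, aeval_C, ← h, mul_assoc]⟩

theorem prime_nagata (s s' : A) (q : C) (hq : Prime q)
    (hs : Function.Injective (aeval s : C[X] →ₐ[C] A)) (h : s * s' = algebraMap C A q)
    (hgen : Algebra.adjoin C {s, s'} = ⊤) : Prime s := by
  have hC : Prime (Polynomial.C q) := prime_C_iff.2 hq
  have hd := dvd_iff_nagata s s' q hq.ne_zero hs h hgen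
  refine ⟨?_, ?_, ?_⟩
  · intro h0
    have : aeval s (X : C[X]) = aeval s (0 : C[X]) := by simp [h0]
    exact X_ne_zero (hs this)
  · intro hu
    exact hC.not_dvd_one ((hd 1).1 (by simpa using hu.dvd))
  · intro a b hab
    obtain ⟨f1, g1, rfl⟩ := nf_nagata s s' q h hgen a
    obtain ⟨f2, g2, rfl⟩ := nf_nagata s s' q h hgen b
    have h1 : s ∣ aeval s' (g1 * g2) := by
      have e : aeval s' (g1 * g2) = (s * aeval s f1 + aeval s' g1) * (s * aeval s f2 + aeval s' g2)
          - s * (aeval s f1 * (s * aeval s f2 + aeval s' g2) + aeval s' g1 * aeval s f2) := by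
        rw [map_mul]; ring
      rw [e]
      exact dvd_sub hab (dvd_mul_right _ _)
    rcases hC.dvd_or_dvd ((hd _).1 h1) with h2 | h2
    · exact Or.inl (dvd_add (dvd_mul_right _ _) ((hd _).2 h2))
    · exact Or.inr (dvd_add (dvd_mul_right _ _) ((hd _).2 h2))

theorem ufd_nagata [UniqueFactorizationMonoid C] [IsDomain A] [IsNoetherianRing A]
    (s s' : A) (q : C) (hq : Prime q)
    (hs : Function.Injective (aeval s : C[X] →ₐ[C] A)) (h : s * s' = algebraMap C A q)
    (hgen : Algebra.adjoin C {s, s'} = ⊤) : UniqueFactorizationMonoid A := by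
  have hp := prime_nagata s s' q hq hs h hgen
  rw [UniqueFactorizationMonoid.iff_localizationAway_of_prime hp]
  let φ : C[X] →+* Localization.Away s :=
    (algebraMap A (Localization.Away s)).comp (aeval s : C[X] →ₐ[C] A).toRingHom
  letI : Algebra C[X] (Localization.Away s) := φ.toAlgebra
  have hφ : ∀ p : C[X], algebraMap C[X] (Localization.Away s) p
      = algebraMap A (Localization.Away s) (aeval s p) := fun _ => rfl
  have hinj : Function.Injective (algebraMap A (Localization.Away s)) :=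
    IsLocalization.injective (M := Submonoid.powers s) _
      (powers_le_nonZeroDivisors_of_noZeroDivisors hp.ne_zero)
  have hA : ∀ a : A, ∃ (n : ℕ) (p : C[X]), a * s ^ n = aeval s p := by
    intro a
    have ha : a ∈ Algebra.adjoin C {s, s'} := hgen ▸ Algebra.mem_top
    induction ha using Algebra.adjoin_induction with
    | mem x hx =>
      rcases hx with rfl | rfl
      · exact ⟨0, X, by simp⟩
      · exact ⟨1, Polynomial.C q, by rw [aeval_C, ← h]; ring⟩
    | algebraMap r => exact ⟨0, Polynomial.C r, by simp⟩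
    | add x y _ _ hx hy =>
      obtain ⟨n, p, h1⟩ := hx
      obtain ⟨m, p', h2⟩ := hy
      refine ⟨n + m, p * X ^ m + p' * X ^ n, ?_⟩
      simp only [map_add, map_mul, map_pow, aeval_X, ← h1, ← h2]
      ring
    | mul x y _ _ hx hy =>
      obtain ⟨n, p, h1⟩ := hx
      obtain ⟨m, p', h2⟩ := hy
      refine ⟨n + m, p * p', ?_⟩
      simp only [map_mul, ← h1, ← h2]
      ring
  have : IsLocalization.Away (X : C[X]) (Localization.Away s) := by
    refine IsLocalization.Away.mk _ ?_ ?_ ?_
    · rw [hφ, aeval_X]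
      exact IsLocalization.Away.algebraMap_isUnit s
    · intro z
      obtain ⟨n, a, ha⟩ := IsLocalization.Away.surj s z
      obtain ⟨m, p, hp⟩ := hA a
      refine ⟨n + m, p, ?_⟩
      rw [hφ, hφ, aeval_X, ← hp, pow_add, ← mul_assoc, ha, map_mul, map_pow]
    · intro a b hab
      rw [hφ, hφ] at hab
      exact ⟨0, by rw [hs (hinj hab)]⟩
  exact UniqueFactorizationMonoid.of_isLocalization (Submonoid.powers (X : C[X])) _

end nagata

theorem prime_quad_nagata {k : Type} [Field k] (e₁ e₂ : k) (he : ¬ IsSquare (-(e₁ * e₂))) :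
    Prime (MvPolynomial.C e₁ * MvPolynomial.X 0 ^ 2 + MvPolynomial.C e₂ * MvPolynomial.X 1 ^ 2 :
      MvPolynomial (Fin 2) k) := by
  have h1 : e₁ ≠ 0 := by
    rintro rfl
    exact he (by simp)
  rw [← MulEquiv.prime_iff (MvPolynomial.finSuccEquiv k 1).toMulEquiv]
  let c : MvPolynomial (Fin 1) k := MvPolynomial.C (e₂ / e₁) * MvPolynomial.X 0 ^ 2
  have e : (MvPolynomial.finSuccEquiv k 1).toMulEquiv
      (MvPolynomial.C e₁ * MvPolynomial.X 0 ^ 2 + MvPolynomial.C e₂ * MvPolynomial.X 1 ^ 2)
      = Polynomial.C (MvPolynomial.C e₁) * (X ^ 2 + Polynomial.C c) := by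
    have a0 := MvPolynomial.finSuccEquiv_X_zero (R := k) (n := 1)
    have a1 := MvPolynomial.finSuccEquiv_X_succ (R := k) (n := 1) (j := 0)
    have aC : ∀ x : k, MvPolynomial.finSuccEquiv k 1 (MvPolynomial.C x)
        = Polynomial.C (MvPolynomial.C x) := fun x =>
      (MvPolynomial.finSuccEquiv k 1).commutes x
    change MvPolynomial.finSuccEquiv k 1 _ = _
    have e2 : e₂ = e₁ * (e₂ / e₁) := by field_simp
    rw [map_add, map_mul, map_mul, map_pow, map_pow, a0, aC, aC,
      show (1 : Fin 2) = Fin.succ 0 from rfl, a1]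
    simp only [c, map_mul, map_pow]
    conv_lhs => rw [e2]
    simp only [map_mul]
    ring
  rw [e]
  have hu : IsUnit (Polynomial.C (MvPolynomial.C e₁ : MvPolynomial (Fin 1) k)) :=
    ((IsUnit.mk0 e₁ h1).map MvPolynomial.C).map Polynomial.C
  rw [(associated_unit_mul_left _ _ hu).prime_iff]
  have hm : (X ^ 2 + Polynomial.C c).Monic := monic_X_pow_add_C c (by norm_num)
  have hd : (X ^ 2 + Polynomial.C c).natDegree = 2 := natDegree_X_pow_add_C
  refine Irreducible.prime ?_
  rw [hm.irreducible_iff_roots_eq_zero_of_degree_le_three (by omega) (by omega)]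
  refine Multiset.eq_zero_of_forall_notMem (fun r hr => he ?_)
  have h2 := (mem_roots hm.ne_zero).1 hr
  simp only [IsRoot.def, eval_add, eval_pow, eval_X, eval_C] at h2
  have h3 := congrArg (MvPolynomial.eval (fun _ => (1 : k))) h2
  simp only [c, map_add, map_pow, map_mul, MvPolynomial.eval_C, MvPolynomial.eval_X, map_zero,
    one_pow, mul_one] at h3
  refine ⟨e₁ * MvPolynomial.eval (fun _ => (1 : k)) r, ?_⟩
  have h4 : e₂ = -(e₁ * MvPolynomial.eval (fun _ => (1 : k)) r ^ 2) := by
    field_simp at h3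
    linear_combination h3
  rw [h4]
  ring

theorem ufd_cone {k R : Type} [Field k] [CharZero k] [CommRing R] [IsDomain R] [Algebra k R]
    (s s' y z : R) (e₁ e₂ : k) (hind : AlgebraicIndependent k ![s, y, z])
    (h : s * s' = algebraMap k R e₁ * y ^ 2 + algebraMap k R e₂ * z ^ 2)
    (he : ¬ IsSquare (-(e₁ * e₂))) :
    UniqueFactorizationMonoid (Algebra.adjoin k {s, s', y, z}) := by
  classical
  set A := Algebra.adjoin k {s, s', y, z} with hA
  let sA : A := ⟨s, Algebra.subset_adjoin (by simp)⟩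
  let sA' : A := ⟨s', Algebra.subset_adjoin (by simp)⟩
  let yA : A := ⟨y, Algebra.subset_adjoin (by simp)⟩
  let zA : A := ⟨z, Algebra.subset_adjoin (by simp)⟩
  let ψ : MvPolynomial (Fin 2) k →ₐ[k] A := MvPolynomial.aeval ![yA, zA]
  letI : Algebra (MvPolynomial (Fin 2) k) A := ψ.toRingHom.toAlgebra
  have hψ : ∀ p, algebraMap (MvPolynomial (Fin 2) k) A p = ψ p := fun _ => rfl
  have : Algebra.FiniteType k A := by
    have : A.FG := ⟨{s, s', y, z}, by simp [hA]⟩
    exact (Subalgebra.fg_iff_finiteType A).1 this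
  have : IsNoetherianRing A := Algebra.FiniteType.isNoetherianRing k A
  refine ufd_nagata sA sA' _ (prime_quad_nagata e₁ e₂ he) ?_ ?_ ?_
  · have e : ∀ p : MvPolynomial (Fin 3) k,
        ((aeval sA (MvPolynomial.finSuccEquiv k 2 p) : A) : R) = MvPolynomial.aeval ![s, y, z] p := by
      intro p
      induction p using MvPolynomial.induction_on with
      | C a =>
        have : MvPolynomial.finSuccEquiv k 2 (MvPolynomial.C a)
            = Polynomial.C (MvPolynomial.C a) := (MvPolynomial.finSuccEquiv k 2).commutes a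
        rw [this, aeval_C, hψ]
        simp [ψ]
      | add p q hp hq => simp only [map_add, Subalgebra.coe_add, hp, hq]
      | mul_X p i hp =>
        simp only [map_mul, Subalgebra.coe_mul, hp]
        congr 1
        refine Fin.cases ?_ (fun j => ?_) i
        · rw [MvPolynomial.finSuccEquiv_X_zero]
          simp [sA]
        · rw [MvPolynomial.finSuccEquiv_X_succ, aeval_C, hψ]
          fin_cases j <;> simp [ψ, yA, zA]
    intro p p' hpp
    obtain ⟨p, rfl⟩ := (MvPolynomial.finSuccEquiv k 2).surjective p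
    obtain ⟨p', rfl⟩ := (MvPolynomial.finSuccEquiv k 2).surjective p'
    have := congrArg (fun a : A => (a : R)) hpp
    simp only [e] at this
    rw [hind this]
  · apply Subtype.ext
    rw [hψ]
    simpa [ψ, sA, sA', yA, zA] using h
  · rw [eq_top_iff]
    rintro ⟨a, ha⟩ -
    induction ha using Algebra.adjoin_induction with
    | mem x hx =>
      rcases hx with rfl | rfl | rfl | rfl
      · exact Algebra.subset_adjoin (by left; rfl)
      · exact Algebra.subset_adjoin (by right; rfl)
      · have := Subalgebra.algebraMap_mem (Algebra.adjoin (MvPolynomial (Fin 2) k) {sA, sA'})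
          (MvPolynomial.X 0)
        rw [hψ] at this
        simpa [ψ] using this
      · have := Subalgebra.algebraMap_mem (Algebra.adjoin (MvPolynomial (Fin 2) k) {sA, sA'})
          (MvPolynomial.X 1)
        rw [hψ] at this
        simpa [ψ] using this
    | algebraMap r =>
      have := Subalgebra.algebraMap_mem (Algebra.adjoin (MvPolynomial (Fin 2) k) {sA, sA'})
        (MvPolynomial.C r)
      rw [hψ] at this
      simpa [ψ] using this
    | add x y hx hy ihx ihy => exact Subalgebra.add_mem _ ihx ihy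
    | mul x y hx hy ihx ihy => exact Subalgebra.mul_mem _ ihx ihy

end Zc68
end

-- merged part: Pool.Agent.Work.MP_d65f04_ag.CycA0
section
/-! Places and primes of a Dedekind domain. -/

namespace Zc68

open IsDedekindDomain

variable {K B L : Type} [Field K] [CommRing B] [IsDedekindDomain B] [Field L] [Algebra B L]
  [IsFractionRing B L] [Algebra K B] [Algebra K L] [IsScalarTower K B L]

theorem mem_iff_cycA0 (P : HeightOneSpectrum B) (x : L) :
    x ∈ P.valuationSubringAtPrime L ↔ P.valuation L x ≤ 1 := by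
  rw [HeightOneSpectrum.valuationSubringAtPrime_eq_valuationSubring]
  rfl

theorem isUnit_iff_cycA0 (P : HeightOneSpectrum B) (a : P.valuationSubringAtPrime L) :
    IsUnit a ↔ P.valuation L (a : L) = 1 := by
  constructor
  · rintro ⟨u, rfl⟩
    have h1 : P.valuation L ((u : P.valuationSubringAtPrime L) : L) ≤ 1 :=
      (mem_iff_cycA0 P _).1 (u : P.valuationSubringAtPrime L).2
    have h2 : P.valuation L (((u⁻¹ : _) : P.valuationSubringAtPrime L) : L) ≤ 1 :=
      (mem_iff_cycA0 P _).1 ((u⁻¹ : _) : P.valuationSubringAtPrime L).2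
    have h3 : P.valuation L ((u : P.valuationSubringAtPrime L) : L) *
        P.valuation L (((u⁻¹ : _) : P.valuationSubringAtPrime L) : L) = 1 := by
      rw [← map_mul]
      have : ((u : P.valuationSubringAtPrime L) : L) *
          (((u⁻¹ : _) : P.valuationSubringAtPrime L) : L) = 1 := by
        exact congrArg (fun z : P.valuationSubringAtPrime L => (z : L)) u.mul_inv
      rw [this, map_one]
    exact eq_one_of_one_le_mul_left h1 h2 h3.ge
  · intro h
    have ha : (a : L) ≠ 0 := by
      intro h0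
      rw [h0, map_zero] at h
      exact zero_ne_one h
    have hinv : (a : L)⁻¹ ∈ P.valuationSubringAtPrime L := by
      rw [mem_iff_cycA0, map_inv₀, h, inv_one]
    refine IsUnit.of_mul_eq_one ⟨_, hinv⟩ (Subtype.ext ?_)
    simp [ha]

theorem mem_max_iff_cycA0 (P : HeightOneSpectrum B) (a : P.valuationSubringAtPrime L) :
    a ∈ IsLocalRing.maximalIdeal (P.valuationSubringAtPrime L) ↔ P.valuation L (a : L) < 1 := by
  rw [IsLocalRing.mem_maximalIdeal, mem_nonunits_iff, isUnit_iff_cycA0, lt_iff_le_and_ne]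
  exact ⟨fun h => ⟨(mem_iff_cycA0 P _).1 a.2, h⟩, fun h => h.2⟩

theorem valuation_eq_ord_cycA0 (P : HeightOneSpectrum B) (a : P.valuationSubringAtPrime L)
    (ha : a ≠ 0) :
    P.valuation L (a : L) =
      WithZero.exp (-((Ring.ord (P.valuationSubringAtPrime L) a).toNat : ℤ)) := by
  have := P.isPrime
  have : IsDiscreteValuationRing (P.valuationSubringAtPrime L) :=
    IsLocalization.AtPrime.isDiscreteValuationRing_of_dedekind_domain B P.ne_bot _
  obtain ⟨π, hπ⟩ := P.valuation_exists_uniformizer L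
  have hπm : π ∈ P.valuationSubringAtPrime L := by
    rw [mem_iff_cycA0, hπ, ← WithZero.exp_zero, WithZero.exp_le_exp]
    norm_num
  have hirr : Irreducible (⟨π, hπm⟩ : P.valuationSubringAtPrime L) := by
    refine ⟨?_, ?_⟩
    · rw [isUnit_iff_cycA0]
      change ¬ P.valuation L π = 1
      rw [hπ, ← WithZero.exp_zero, WithZero.exp_inj]
      norm_num
    · intro b c hbc
      rw [isUnit_iff_cycA0, isUnit_iff_cycA0]
      have h : P.valuation L (b : L) * P.valuation L (c : L) = WithZero.exp (-1 : ℤ) := by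
        rw [← map_mul, ← hπ]
        exact congrArg _ (congrArg Subtype.val hbc).symm
      have hb := (mem_iff_cycA0 P _).1 b.2
      have hc := (mem_iff_cycA0 P _).1 c.2
      have hb0 : P.valuation L (b : L) ≠ 0 := by
        intro h0
        rw [h0, zero_mul] at h
        exact WithZero.exp_ne_zero h.symm
      have hc0 : P.valuation L (c : L) ≠ 0 := by
        intro h0
        rw [h0, mul_zero] at h
        exact WithZero.exp_ne_zero h.symm
      rw [← WithZero.exp_log hb0] at hb h ⊢
      rw [← WithZero.exp_log hc0] at hc h ⊢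
      rw [← WithZero.exp_zero, WithZero.exp_le_exp] at hb hc
      rw [← WithZero.exp_add, WithZero.exp_inj] at h
      rw [← WithZero.exp_zero, WithZero.exp_inj, WithZero.exp_inj]
      omega
  obtain ⟨n, u, rfl⟩ := IsDiscreteValuationRing.eq_unit_mul_pow_irreducible ha hirr
  rw [Ring.ord_eq_addVal, IsDiscreteValuationRing.addVal_def' u hirr n]
  have hu := (isUnit_iff_cycA0 P (u : P.valuationSubringAtPrime L)).1 u.isUnit
  have : (((u : P.valuationSubringAtPrime L) * (⟨π, hπm⟩ : P.valuationSubringAtPrime L) ^ n :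
      P.valuationSubringAtPrime L) : L) = ((u : P.valuationSubringAtPrime L) : L) * π ^ n := by
    simp
  rw [this, map_mul, map_pow, hu, hπ, one_mul, ← WithZero.exp_nsmul]
  simp

theorem valuation_eq_ordAt (P : HeightOneSpectrum B) (f : L) (hf : f ≠ 0) :
    P.valuation L f = WithZero.exp (-ordAt (P.valuationSubringAtPrime L) f) := by
  unfold ordAt
  split_ifs with h
  · exact valuation_eq_ord_cycA0 P ⟨f, h⟩ fun h0 => hf (congrArg Subtype.val h0)
  · have h1 := valuation_eq_ord_cycA0 P
      ⟨f⁻¹, ((P.valuationSubringAtPrime L).mem_or_inv_mem f).resolve_left h⟩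
      fun h0 => inv_ne_zero hf (congrArg Subtype.val h0)
    change P.valuation L f⁻¹ = _ at h1
    rw [map_inv₀, inv_eq_iff_eq_inv] at h1
    rw [h1, ← WithZero.exp_neg]

theorem ordAt_div (P : HeightOneSpectrum B) (b c : B) (hb : b ≠ 0) (hc : c ≠ 0) :
    ordAt (P.valuationSubringAtPrime L) (algebraMap B L b / algebraMap B L c) =
      (multiplicity P.asIdeal (Ideal.span {b}) : ℤ) - multiplicity P.asIdeal (Ideal.span {c}) := by
  have hb' : algebraMap B L b ≠ 0 := by simpa using hb
  have hc' : algebraMap B L c ≠ 0 := by simpa using hc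
  have h := valuation_eq_ordAt P (algebraMap B L b / algebraMap B L c) (div_ne_zero hb' hc')
  have e1 : P.valuation L (algebraMap B L b) = P.intValuation b := P.valuation_of_algebraMap b
  have e2 : P.valuation L (algebraMap B L c) = P.intValuation c := P.valuation_of_algebraMap c
  rw [map_div₀, e1, e2, P.intValuation_eq_exp_neg_multiplicity hb,
    P.intValuation_eq_exp_neg_multiplicity hc, ← WithZero.exp_sub, WithZero.exp_inj] at h
  omega

theorem exists_prime_of_le (O : ValuationSubring L) (hB : ∀ b : B, algebraMap B L b ∈ O)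
    (hO : O ≠ ⊤) : ∃ P : HeightOneSpectrum B, O = P.valuationSubringAtPrime L := by
  let φ : B →+* O := (algebraMap B L).codRestrict O.toSubring hB
  let I : Ideal B := (IsLocalRing.maximalIdeal O).comap φ
  have hI : I.IsPrime := Ideal.comap_isPrime φ _
  have key : ∀ s : B, s ∉ I → (algebraMap B L s)⁻¹ ∈ O := by
    intro s hs
    have hu : IsUnit (φ s) := by
      by_contra hu
      exact hs ((IsLocalRing.mem_maximalIdeal _).2 hu)
    obtain ⟨t, ht⟩ := hu.exists_right_inv
    have ht' : algebraMap B L s * (t : L) = 1 := congrArg Subtype.val ht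
    rw [← eq_inv_of_mul_eq_one_right ht']
    exact t.2
  have hne : I ≠ ⊥ := by
    intro h0
    apply hO
    rw [eq_top_iff]
    intro x _
    obtain ⟨a, s, hs, rfl⟩ := IsFractionRing.div_surjective (A := B) x
    rw [div_eq_mul_inv]
    refine O.mul_mem _ _ (hB a) (key s ?_)
    rw [h0, Ideal.mem_bot]
    exact nonZeroDivisors.ne_zero hs
  refine ⟨⟨I, hI, hne⟩, (ValuationSubring.eq_of_le_of_ne_top _ ?_ hO).symm⟩
  rintro x ⟨a, s, hs, rfl⟩
  exact O.mul_mem _ _ (hB a) (key s hs)

/-- The restriction of a place to `B`. -/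
noncomputable def Place.res (p : Place K L) (hB : ∀ b : B, algebraMap B L b ∈ p.O) :
    B →ₐ[K] AlgebraicClosure K where
  toRingHom := p.ι.comp ((algebraMap B L).codRestrict p.O.toSubring hB)
  commutes' c := by
    rw [← p.ι_const c]
    exact congrArg p.ι (Subtype.ext (IsScalarTower.algebraMap_apply K B L c).symm)

theorem Place.res_apply (p : Place K L) (hB : ∀ b : B, algebraMap B L b ∈ p.O) (b : B) :
    p.res hB b = p.ι ⟨algebraMap B L b, hB b⟩ := rfl

theorem Place.ker_res (p : Place K L) (hB : ∀ b : B, algebraMap B L b ∈ p.O)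
    (P : HeightOneSpectrum B) (hP : p.O = P.valuationSubringAtPrime L) :
    RingHom.ker (p.res hB) = P.asIdeal := by
  ext b
  rw [RingHom.mem_ker, Place.res_apply, p.ι_eq_zero]
  obtain ⟨O, h1, ι, h2, h3⟩ := p
  dsimp only at hP hB ⊢
  subst hP
  rw [mem_max_iff_cycA0]
  exact P.valuation_lt_one_iff_mem b

/-- A nontrivial place containing `B` is determined by its restriction to `B`. -/
theorem Place.eq_of_res_eq (p q : Place K L) (hp : ∀ b : B, algebraMap B L b ∈ p.O)
    (hq : ∀ b : B, algebraMap B L b ∈ q.O) (hp' : p.O ≠ ⊤) (hq' : q.O ≠ ⊤)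
    (h : p.res hp = q.res hq) : p = q := by
  obtain ⟨P, hP⟩ := exists_prime_of_le p.O hp hp'
  obtain ⟨Q, hQ⟩ := exists_prime_of_le q.O hq hq'
  have hPQ : P = Q := by
    apply HeightOneSpectrum.ext
    rw [← p.ker_res hp P hP, ← q.ker_res hq Q hQ, h]
  subst hPQ
  have hk := p.ker_res hp P hP
  have hres : ∀ b : B, p.ι ⟨algebraMap B L b, hp b⟩ = q.ι ⟨algebraMap B L b, hq b⟩ :=
    fun b => congrArg (fun g : B →ₐ[K] AlgebraicClosure K => g b) h
  have hker : ∀ b : B, p.ι ⟨algebraMap B L b, hp b⟩ = 0 ↔ b ∈ P.asIdeal := by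
    intro b
    rw [← hk, RingHom.mem_ker, Place.res_apply]
  obtain ⟨O, h1, ι, h2, h3⟩ := p
  obtain ⟨O', h1', ι', h2', h3'⟩ := q
  dsimp only at hP hQ hp hq hres hker
  subst hP
  subst hQ
  have hι : ι = ι' := by
    ext x
    obtain ⟨n, d, hnd⟩ := P.exists_primeCompl_mul_eq_of_integer (x : L) ((mem_iff_cycA0 P _).1 x.2)
    have e : x * ⟨algebraMap B L d, hp d⟩ = ⟨algebraMap B L n, hp n⟩ := Subtype.ext hnd
    have e1 := congrArg ι e
    have e2 := congrArg ι' e
    rw [map_mul] at e1 e2
    have hd : ι ⟨algebraMap B L d, hp d⟩ ≠ 0 := fun h0 => d.2 ((hker d).1 h0)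
    apply mul_right_cancel₀ hd
    rw [e1, hres n, ← e2, hres d]
  subst hι
  rfl

/-- Every geometric point of `B` with nonzero kernel comes from a place. -/
theorem Place.exists_res_eq (ψ : B →ₐ[K] AlgebraicClosure K) (hψ : RingHom.ker ψ ≠ ⊥) :
    ∃ (p : Place K L) (hp : ∀ b : B, algebraMap B L b ∈ p.O), p.res hp = ψ := by
  obtain ⟨P, hP⟩ : ∃ P : HeightOneSpectrum B, ∀ b : B, b ∈ P.asIdeal ↔ ψ b = 0 :=
    ⟨⟨RingHom.ker ψ, RingHom.ker_isPrime ψ, hψ⟩, fun b => Iff.rfl⟩
  have hu : ∀ y : P.asIdeal.primeCompl, IsUnit ((ψ : B →+* AlgebraicClosure K) y) := by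
    intro y
    exact isUnit_iff_ne_zero.2 fun h0 => y.2 ((hP y).2 h0)
  let ι : P.valuationSubringAtPrime L →+* AlgebraicClosure K := IsLocalization.lift hu
  have hmem : ∀ b : B, algebraMap B L b ∈ P.valuationSubringAtPrime L := fun b =>
    (algebraMap B (P.valuationSubringAtPrime L) b).2
  have hι : ∀ b : B, ι ⟨algebraMap B L b, hmem b⟩ = ψ b := fun b =>
    IsLocalization.lift_eq hu b
  have hK : ∀ c : K, algebraMap K L c ∈ P.valuationSubringAtPrime L := fun c => by
    rw [IsScalarTower.algebraMap_apply K B L c]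
    exact hmem _
  refine ⟨⟨P.valuationSubringAtPrime L, hK, ι, fun c => ?_, fun a => ?_⟩, hmem, ?_⟩
  · have e : (⟨algebraMap K L c, hK c⟩ : P.valuationSubringAtPrime L) =
        ⟨algebraMap B L (algebraMap K B c), hmem _⟩ :=
      Subtype.ext (IsScalarTower.algebraMap_apply K B L c)
    rw [e, hι, ψ.commutes]
  · obtain ⟨n, d, hnd⟩ := P.exists_primeCompl_mul_eq_of_integer (a : L) ((mem_iff_cycA0 P _).1 a.2)
    have e : a * ⟨algebraMap B L d, hmem d⟩ = ⟨algebraMap B L n, hmem n⟩ := Subtype.ext hnd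
    have e1 := congrArg ι e
    rw [map_mul, hι, hι] at e1
    have hd : ψ d ≠ 0 := fun h0 => d.2 ((hP d).2 h0)
    have hvd : P.valuation L (algebraMap B L d) = 1 := P.valuation_eq_one_iff_notMem.2 d.2
    have hv := congrArg (P.valuation L) hnd
    rw [map_mul, hvd, mul_one] at hv
    rw [mem_max_iff_cycA0, hv]
    have hn : P.valuation L (algebraMap B L n) < 1 ↔ n ∈ P.asIdeal := P.valuation_lt_one_iff_mem n
    rw [hn, hP, ← e1]
    simp [hd]
  · ext b
    exact hι b

end Zc68
end

-- merged part: Pool.Agent.Work.MP_d65f04_ag.CycA1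
section
/-! The multiplicity of a root of a norm. -/

namespace Zc68

open Polynomial

section AuxA1

variable {K : Type} [Field K] [CharZero K]

theorem ker_aeval_a1 (α : AlgebraicClosure K) :
    RingHom.ker (aeval α : K[X] →ₐ[K] AlgebraicClosure K) = Ideal.span {minpoly K α} := by
  ext g
  rw [RingHom.mem_ker, Ideal.mem_span_singleton]
  exact (minpoly.dvd_iff).symm

theorem irr_a1 (α : AlgebraicClosure K) : Irreducible (minpoly K α) :=
  minpoly.irreducible (Algebra.IsIntegral.isIntegral α)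

theorem isMaximal_a1 (α : AlgebraicClosure K) : (Ideal.span {minpoly K α}).IsMaximal :=
  PrincipalIdealRing.isMaximal_of_irreducible (irr_a1 α)

theorem ne_bot_a1 (α : AlgebraicClosure K) : (Ideal.span {minpoly K α} : Ideal K[X]) ≠ ⊥ := by
  rw [Ne, Ideal.span_singleton_eq_bot]
  exact (irr_a1 α).ne_zero

theorem rootMult_minpoly_a1 (α : AlgebraicClosure K) :
    ((minpoly K α).map (algebraMap K (AlgebraicClosure K))).rootMultiplicity α = 1 := by
  apply le_antisymm
  · exact rootMultiplicity_le_one_of_separable ((irr_a1 α).separable.map) α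
  · rw [Nat.one_le_iff_ne_zero, ← pos_iff_ne_zero,
      rootMultiplicity_pos (Polynomial.map_ne_zero (irr_a1 α).ne_zero), IsRoot.def, eval_map,
      ← aeval_def]
    exact minpoly.aeval K α

theorem rootMult_pow_a1 (α : AlgebraicClosure K) (k : ℕ) :
    ((minpoly K α ^ k).map (algebraMap K (AlgebraicClosure K))).rootMultiplicity α = k := by
  induction k with
  | zero => simp
  | succ k ih =>
    have h0 : (minpoly K α).map (algebraMap K (AlgebraicClosure K)) ≠ 0 :=
      Polynomial.map_ne_zero (irr_a1 α).ne_zero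
    have h1 : (minpoly K α ^ k).map (algebraMap K (AlgebraicClosure K)) ≠ 0 :=
      Polynomial.map_ne_zero (pow_ne_zero _ (irr_a1 α).ne_zero)
    rw [pow_succ, Polynomial.map_mul, rootMultiplicity_mul (mul_ne_zero h1 h0), ih,
      rootMult_minpoly_a1]

theorem mult_span_a1 (α : AlgebraicClosure K) (g : K[X]) (hg : g ≠ 0) :
    multiplicity (Ideal.span {minpoly K α}) (Ideal.span {g}) =
      (g.map (algebraMap K (AlgebraicClosure K))).rootMultiplicity α := by
  have hfin : FiniteMultiplicity (minpoly K α) g :=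
    FiniteMultiplicity.of_prime_left (irr_a1 α).prime hg
  have h1 : multiplicity (Ideal.span {minpoly K α}) (Ideal.span {g}) =
      multiplicity (minpoly K α) g := by
    apply multiplicity_eq_of_emultiplicity_eq
    apply emultiplicity_eq_emultiplicity_iff.2
    intro n
    rw [Ideal.span_singleton_pow, Ideal.span_singleton_dvd_span_singleton_iff_dvd]
  obtain ⟨h, hh, hnd⟩ := hfin.exists_eq_pow_mul_and_not_dvd
  rw [h1]
  generalize multiplicity (minpoly K α) g = k at hh
  have hh0 : h ≠ 0 := by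
    rintro rfl
    exact hnd (dvd_zero _)
  have e1 : (minpoly K α ^ k).map (algebraMap K (AlgebraicClosure K)) ≠ 0 :=
    Polynomial.map_ne_zero (pow_ne_zero _ (irr_a1 α).ne_zero)
  have e2 : h.map (algebraMap K (AlgebraicClosure K)) ≠ 0 := Polynomial.map_ne_zero hh0
  rw [hh, Polynomial.map_mul, rootMultiplicity_mul (mul_ne_zero e1 e2), rootMult_pow_a1,
    rootMultiplicity_eq_zero, add_zero]
  rw [IsRoot.def, eval_map, ← aeval_def]
  intro h0
  exact hnd (minpoly.dvd K α h0)

end AuxA1

variable {K B : Type} [Field K] [CharZero K] [CommRing B] [IsDedekindDomain B] [Algebra K B]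
  [Algebra K[X] B] [IsScalarTower K K[X] B] [Module.Finite K[X] B] [Module.IsTorsionFree K[X] B]

omit [CharZero K] [IsDedekindDomain B] [Module.Finite K[X] B] [Module.IsTorsionFree K[X] B] in
theorem apply_algebraMap_a1 {α : AlgebraicClosure K} {ψ : B →ₐ[K] AlgebraicClosure K}
    (h : ψ (algebraMap K[X] B X) = α) (g : K[X]) : ψ (algebraMap K[X] B g) = aeval α g := by
  have : ψ.comp (IsScalarTower.toAlgHom K K[X] B) = aeval α := by
    apply Polynomial.algHom_ext
    simpa using h
  exact DFunLike.congr_fun this g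

omit [IsDedekindDomain B] [Module.Finite K[X] B] [Module.IsTorsionFree K[X] B] in
theorem liesOver_a1 {α : AlgebraicClosure K} {ψ : B →ₐ[K] AlgebraicClosure K}
    (h : ψ (algebraMap K[X] B X) = α) :
    (RingHom.ker ψ).LiesOver (Ideal.span {minpoly K α}) := by
  constructor
  ext g
  rw [← ker_aeval_a1, Ideal.under_def, Ideal.mem_comap, RingHom.mem_ker, RingHom.mem_ker,
    apply_algebraMap_a1 h]

theorem card_fibre_a1 (α : AlgebraicClosure K) (P : Ideal B) [hP : P.IsMaximal]
    [hl : P.LiesOver (Ideal.span {minpoly K α})] :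
    {ψ : B →ₐ[K] AlgebraicClosure K | ψ (algebraMap K[X] B X) = α ∧ RingHom.ker ψ = P}.Finite ∧
    {ψ : B →ₐ[K] AlgebraicClosure K | ψ (algebraMap K[X] B X) = α ∧ RingHom.ker ψ = P}.ncard =
      P.inertiaDeg K[X] := by
  set p : Ideal K[X] := Ideal.span {minpoly K α} with hp
  have : p.IsMaximal := isMaximal_a1 α
  let : Field (K[X] ⧸ p) := Ideal.Quotient.field p
  let : Field (B ⧸ P) := Ideal.Quotient.field P
  have hk : ∀ a ∈ p, (aeval α : K[X] →ₐ[K] AlgebraicClosure K).toRingHom a = 0 := by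
    intro a ha
    rw [hp, ← ker_aeval_a1] at ha
    exact ha
  let : Algebra (K[X] ⧸ p) (AlgebraicClosure K) := (Ideal.Quotient.lift p _ hk).toAlgebra
  have : CharZero (K[X] ⧸ p) := algebraRat.charZero _
  have : Module.Finite (K[X] ⧸ p) (B ⧸ P) := inferInstance
  have halg : ∀ g : K[X], algebraMap (K[X] ⧸ p) (AlgebraicClosure K) (Ideal.Quotient.mk p g) =
      aeval α g := fun g => rfl
  let e : {ψ : B →ₐ[K] AlgebraicClosure K |
      ψ (algebraMap K[X] B X) = α ∧ RingHom.ker ψ = P} ≃
      ((B ⧸ P) →ₐ[K[X] ⧸ p] AlgebraicClosure K) :=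
    { toFun := fun ψ =>
        { toRingHom := Ideal.Quotient.lift P ψ.1.toRingHom (fun a ha => by
            have : a ∈ RingHom.ker ψ.1 := ψ.2.2.symm ▸ ha
            exact this)
          commutes' := fun r => by
            obtain ⟨g, rfl⟩ := Ideal.Quotient.mk_surjective r
            rw [halg, ← apply_algebraMap_a1 ψ.2.1]
            rfl }
      invFun := fun φ =>
        ⟨{ toRingHom := φ.toRingHom.comp (Ideal.Quotient.mk P)
           commutes' := fun c => by
            have h1 := φ.commutes (Ideal.Quotient.mk p (C c))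
            rw [halg, aeval_C] at h1
            rw [← h1, IsScalarTower.algebraMap_apply K K[X] B]
            rfl }, by
          constructor
          · have h1 := φ.commutes (Ideal.Quotient.mk p X)
            rw [halg, aeval_X] at h1
            exact h1
          · ext a
            rw [RingHom.mem_ker, ← Ideal.Quotient.eq_zero_iff_mem]
            exact map_eq_zero_iff φ φ.toRingHom.injective⟩
      left_inv := fun ψ => by
        ext a
        rfl
      right_inv := fun φ => by
        apply AlgHom.ext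
        intro a
        obtain ⟨b, rfl⟩ := Ideal.Quotient.mk_surjective a
        rfl }
  constructor
  · exact Set.finite_coe_iff.1 (Finite.of_equiv _ e.symm)
  · rw [← Nat.card_coe_set_eq, Nat.card_congr e, Nat.card_eq_fintype_card, AlgHom.card,
      Ideal.inertiaDeg_eq_of_isMaximal p P]

theorem ker_isMaximal_a1 {α : AlgebraicClosure K} {ψ : B →ₐ[K] AlgebraicClosure K}
    (h : ψ (algebraMap K[X] B X) = α) : (RingHom.ker ψ).IsMaximal := by
  have := liesOver_a1 h
  have := isMaximal_a1 α
  have : (RingHom.ker ψ).IsPrime := RingHom.ker_isPrime ψ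
  exact Ideal.IsMaximal.of_liesOver_isMaximal (RingHom.ker ψ) (Ideal.span {minpoly K α})

theorem ker_prime_a1 {α : AlgebraicClosure K} {ψ : B →ₐ[K] AlgebraicClosure K}
    (h : ψ (algebraMap K[X] B X) = α) : Prime (RingHom.ker ψ) := by
  have := liesOver_a1 h
  exact Ideal.prime_of_isPrime
    (Ideal.ne_bot_of_liesOver_of_ne_bot (ne_bot_a1 α) (RingHom.ker ψ)) (RingHom.ker_isPrime ψ)

theorem finite_points (α : AlgebraicClosure K) :
    {ψ : B →ₐ[K] AlgebraicClosure K | ψ (algebraMap K[X] B X) = α}.Finite := by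
  have := isMaximal_a1 α
  have hfin := IsDedekindDomain.primesOver_finite (Ideal.span {minpoly K α}) B
  refine (hfin.biUnion (t := fun P => {ψ : B →ₐ[K] AlgebraicClosure K |
    ψ (algebraMap K[X] B X) = α ∧ RingHom.ker ψ = P}) ?_).subset ?_
  · intro P hP
    have := hP.1
    have := hP.2
    have := Ideal.IsMaximal.of_liesOver_isMaximal P (Ideal.span {minpoly K α})
    exact (card_fibre_a1 α P).1
  · intro ψ hψ
    simp only [Set.mem_iUnion]
    exact ⟨RingHom.ker ψ, ⟨RingHom.ker_isPrime ψ, liesOver_a1 hψ⟩, hψ, rfl⟩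

theorem sum_ideal_a1 (α : AlgebraicClosure K) (S : Finset (B →ₐ[K] AlgebraicClosure K))
    (hS : ∀ ψ, ψ ∈ S ↔ ψ (algebraMap K[X] B X) = α) (I : Ideal B) (hI : I ≠ 0) :
    ∑ ψ ∈ S, multiplicity (RingHom.ker ψ) I =
      multiplicity (Ideal.span {minpoly K α}) (Ideal.relNorm K[X] I) := by
  classical
  have hpm := isMaximal_a1 α
  have hpp : Prime (Ideal.span {minpoly K α} : Ideal K[X]) :=
    Ideal.prime_of_isPrime (ne_bot_a1 α) hpm.isPrime
  have prime_case : ∀ P : Ideal B, Prime P → ∑ ψ ∈ S, multiplicity (RingHom.ker ψ) P =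
      multiplicity (Ideal.span {minpoly K α}) (Ideal.relNorm K[X] P) := by
    intro P hP
    have : P.IsPrime := Ideal.isPrime_of_prime hP
    have : P.IsMaximal := Ring.DimensionLEOne.maximalOfPrime hP.ne_zero inferInstance
    have : (P.under K[X]).IsMaximal := Ideal.IsMaximal.under K[X] P
    have hterm : ∀ ψ ∈ S, multiplicity (RingHom.ker ψ) P = if RingHom.ker ψ = P then 1 else 0 := by
      intro ψ hψ
      split_ifs with h
      · rw [h, multiplicity_self]
      · rw [multiplicity_eq_zero, Ideal.dvd_iff_le]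
        intro hle
        exact h (Ideal.IsMaximal.eq_of_le inferInstance
          (ker_isMaximal_a1 ((hS ψ).1 hψ)).ne_top hle).symm
    rw [Finset.sum_congr rfl hterm, Finset.sum_boole, Nat.cast_id,
      Ideal.relNorm_eq_pow_of_isMaximal P (P.under K[X])]
    by_cases hu : P.under K[X] = Ideal.span {minpoly K α}
    · have : P.LiesOver (Ideal.span {minpoly K α}) := ⟨hu.symm⟩
      rw [hu, multiplicity_pow_self_of_prime hpp, ← (card_fibre_a1 α P).2,
        ← Set.ncard_coe_finset]
      congr 1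
      ext ψ
      simp [hS]
    · rw [Finset.card_eq_zero.2, eq_comm, multiplicity_eq_zero]
      · intro hd
        have := Ideal.dvd_iff_le.1 (hpp.dvd_of_dvd_pow hd)
        exact hu (Ideal.IsMaximal.eq_of_le inferInstance hpm.ne_top this)
      · rw [Finset.filter_eq_empty_iff]
        intro ψ hψ h
        have := (liesOver_a1 ((hS ψ).1 hψ)).over
        rw [h] at this
        exact hu this.symm
  induction I using UniqueFactorizationMonoid.induction_on_prime with
  | h₁ => exact absurd rfl hI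
  | h₂ x hx =>
    have hx1 : x = 1 := isUnit_iff_eq_one.1 hx
    rw [hx1, map_one, multiplicity_of_one_right hpp.not_isUnit]
    apply Finset.sum_eq_zero
    intro ψ hψ
    exact multiplicity_of_one_right (ker_prime_a1 ((hS ψ).1 hψ)).not_isUnit
  | h₃ a P ha hP ih =>
    have hn : Ideal.relNorm K[X] P * Ideal.relNorm K[X] a ≠ 0 := by
      rw [← map_mul, Ne, Ideal.zero_eq_bot, Ideal.relNorm_eq_bot_iff]
      exact hI
    rw [map_mul, multiplicity_mul hpp (FiniteMultiplicity.of_prime_left hpp hn), ← ih ha,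
      ← prime_case P hP, ← Finset.sum_add_distrib]
    apply Finset.sum_congr rfl
    intro ψ hψ
    have hq := ker_prime_a1 ((hS ψ).1 hψ)
    exact multiplicity_mul hq (FiniteMultiplicity.of_prime_left hq hI)

theorem sum_multiplicity (α : AlgebraicClosure K) (b : B) (hb : b ≠ 0)
    (S : Finset (B →ₐ[K] AlgebraicClosure K)) (hS : ∀ ψ, ψ ∈ S ↔ ψ (algebraMap K[X] B X) = α) :
    ∑ ψ ∈ S, multiplicity (RingHom.ker ψ) (Ideal.span {b}) =
      ((Algebra.norm K[X] b).map (algebraMap K (AlgebraicClosure K))).rootMultiplicity α := by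
  have : Module.Free K[X] B := Module.free_of_finite_type_torsion_free'
  have hI : (Ideal.span {b} : Ideal B) ≠ 0 := by
    rw [Ne, Ideal.zero_eq_bot, Ideal.span_singleton_eq_bot]
    exact hb
  rw [sum_ideal_a1 α S hS _ hI, Ideal.relNorm_singleton, Algebra.intNorm_eq_norm, mult_span_a1]
  exact Algebra.norm_ne_zero_iff.2 hb

end Zc68
end

-- merged part: Pool.Agent.Work.MP_d65f04_ag.CycA2
section
/-! The push-forward of a divisor to the line is the divisor of the norm. -/

namespace Zc68

open Polynomial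
open scoped IntermediateField

variable {K L : Type} [Field K] [Field L] [Algebra K L]

/-- `τ` takes the value `α` at the place `p`. -/
def Place.At (p : Place K L) (τ : L) (α : AlgebraicClosure K) : Prop :=
  ∃ h : τ ∈ p.O, p.ι ⟨τ, h⟩ = α

section gen

variable {B : Type} [CommRing B] [Algebra B L] [Algebra K B] [IsScalarTower K B L]
  [Algebra K[X] B] [Algebra K[X] L] [IsScalarTower K K[X] B] [IsScalarTower K[X] B L]

theorem poly_mem_A2 (p : Place K L) (h : algebraMap K[X] L X ∈ p.O) (g : K[X]) :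
    algebraMap B L (algebraMap K[X] B g) ∈ p.O := by
  induction g using Polynomial.induction_on with
  | C a =>
    rw [← algebraMap_eq, ← IsScalarTower.algebraMap_apply K K[X] B,
      ← IsScalarTower.algebraMap_apply K B L]
    exact p.mem a
  | add g g' hg hg' =>
    rw [map_add, map_add]
    exact add_mem hg hg'
  | monomial n a hn =>
    rw [pow_succ, ← mul_assoc, map_mul, map_mul, ← IsScalarTower.algebraMap_apply K[X] B L X]
    exact mul_mem hn h

theorem all_mem_A2 [Algebra.IsIntegral K[X] B] (p : Place K L) (h : algebraMap K[X] L X ∈ p.O)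
    (b : B) : algebraMap B L b ∈ p.O := by
  have h1 : ∀ g : K[X], algebraMap K[X] L g ∈ p.O := fun g => by
    rw [IsScalarTower.algebraMap_apply K[X] B L]
    exact poly_mem_A2 p h g
  let : Algebra K[X] p.O := ((algebraMap K[X] L).codRestrict p.O.toSubring h1).toAlgebra
  have : IsScalarTower K[X] p.O L := IsScalarTower.of_algebraMap_eq fun _ => rfl
  have h2 : IsIntegral K[X] (algebraMap B L b) := (Algebra.IsIntegral.isIntegral b).algebraMap
  obtain ⟨y, hy⟩ := IsIntegrallyClosed.isIntegral_iff.1 (h2.tower_top (A := p.O))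
  rw [← hy]
  exact y.2

omit [Algebra B L] [IsScalarTower K B L] [Algebra K[X] L] [IsScalarTower K[X] B L] in
theorem hom_poly_A2 (ψ : B →ₐ[K] AlgebraicClosure K) (g : K[X]) :
    ψ (algebraMap K[X] B g) = aeval (ψ (algebraMap K[X] B X)) g := by
  have : ψ.comp (IsScalarTower.toAlgHom K K[X] B) = aeval (ψ (algebraMap K[X] B X)) :=
    Polynomial.algHom_ext (by simp)
  exact DFunLike.congr_fun this g

omit [Algebra B L] [IsScalarTower K B L] [Algebra K[X] L] [IsScalarTower K[X] B L] in
theorem ker_ne_A2 [FaithfulSMul K[X] B] (ψ : B →ₐ[K] AlgebraicClosure K) :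
    RingHom.ker ψ ≠ ⊥ := by
  intro h
  have h1 : algebraMap K[X] B (minpoly K (ψ (algebraMap K[X] B X))) ∈ RingHom.ker ψ := by
    rw [RingHom.mem_ker, hom_poly_A2, minpoly.aeval]
  rw [h, Ideal.mem_bot, map_eq_zero_iff _ (FaithfulSMul.algebraMap_injective K[X] B)] at h1
  exact minpoly.ne_zero (Algebra.IsIntegral.isIntegral _) h1

omit [Algebra K[X] L] [IsScalarTower K[X] B L] in
theorem ne_top_A2 [FaithfulSMul K[X] B] [FaithfulSMul B L] (p : Place K L)
    (hB : ∀ b : B, algebraMap B L b ∈ p.O) : p.O ≠ ⊤ := by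
  intro h
  refine ker_ne_A2 (p.res hB) (eq_bot_iff.2 fun b hb => ?_)
  replace hb : p.ι ⟨algebraMap B L b, hB b⟩ = 0 := hb
  rw [p.ι_eq_zero, IsLocalRing.mem_maximalIdeal, mem_nonunits_iff] at hb
  by_contra hb0
  have h1 : algebraMap B L b ≠ 0 := fun e =>
    hb0 ((map_eq_zero_iff _ (FaithfulSMul.algebraMap_injective B L)).1 e)
  exact hb (IsUnit.of_mul_eq_one ⟨(algebraMap B L b)⁻¹, by rw [h]; trivial⟩
    (Subtype.ext (mul_inv_cancel₀ h1)))

open Classical in
theorem sum_points_A2 [CharZero K] [IsDedekindDomain B] [IsFractionRing B L]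
    [Module.Finite K[X] B] [Module.IsTorsionFree K[X] B] (b c : B) (hb : b ≠ 0) (hc : c ≠ 0)
    (T : Finset (Place K L))
    (hT : ∀ p : Place K L, ordAt p.O (algebraMap B L b / algebraMap B L c) ≠ 0 → p ∈ T)
    (α : AlgebraicClosure K) :
    ∑ p ∈ T.filter (fun p => p.At (algebraMap K[X] L X) α),
        ordAt p.O (algebraMap B L b / algebraMap B L c) =
      (((Algebra.norm K[X] b).map (algebraMap K (AlgebraicClosure K))).rootMultiplicity α : ℤ) -
        ((Algebra.norm K[X] c).map (algebraMap K (AlgebraicClosure K))).rootMultiplicity α := by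
  have hS : ∀ ψ, ψ ∈ (finite_points (B := B) α).toFinset ↔ ψ (algebraMap K[X] B X) = α :=
    fun ψ => by simp
  rw [← sum_multiplicity α b hb _ hS, ← sum_multiplicity α c hc _ hS, Nat.cast_sum, Nat.cast_sum,
    ← Finset.sum_sub_distrib]
  have key : ∀ (p : Place K L) (hB : ∀ b : B, algebraMap B L b ∈ p.O),
      ordAt p.O (algebraMap B L b / algebraMap B L c) =
        (multiplicity (RingHom.ker (p.res hB)) (Ideal.span {b}) : ℤ) -
          multiplicity (RingHom.ker (p.res hB)) (Ideal.span {c}) := fun p hB => by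
    obtain ⟨P, hP⟩ := exists_prime_of_le p.O hB (ne_top_A2 p hB)
    rw [p.ker_res hB P hP, hP, ordAt_div P b c hb hc]
  have hX := IsScalarTower.algebraMap_apply K[X] B L X
  refine Finset.sum_bij_ne_zero
    (fun p hp _ => p.res (all_mem_A2 p (Finset.mem_filter.1 hp).2.1)) (fun p hp _ => ?_)
    (fun p hp _ q hq _ e => Place.eq_of_res_eq p q _ _ (ne_top_A2 p (all_mem_A2 (B := B) p
      (Finset.mem_filter.1 hp).2.1)) (ne_top_A2 q (all_mem_A2 (B := B) q
      (Finset.mem_filter.1 hq).2.1)) e) (fun ψ hψ h0 => ?_) fun p hp _ => key p _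
  · obtain ⟨h1, h2⟩ := (Finset.mem_filter.1 hp).2
    exact (hS _).2 ((congrArg p.ι (Subtype.ext hX.symm)).trans h2)
  · obtain ⟨p, hp, rfl⟩ := Place.exists_res_eq (L := L) ψ (ker_ne_A2 ψ)
    rw [← key p hp] at h0
    refine ⟨p, Finset.mem_filter.2 ⟨hT p h0, by rw [hX]; exact hp _, ?_⟩, h0, rfl⟩
    exact (congrArg p.ι (Subtype.ext hX)).trans ((hS _).1 hψ)

end gen

open Classical in
theorem sum_ord_gen_A2 [CharZero K] {F : Type} [Field F] [CharZero F] [Algebra K[X] F]
    [IsFractionRing K[X] F] [Algebra F L] [FiniteDimensional F L] [Algebra K[X] L]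
    [IsScalarTower K[X] F L] [IsScalarTower K K[X] L] (f : L) (hf : f ≠ 0) (g q : K[X])
    (hq : q ≠ 0)
    (hN : algebraMap F L (Algebra.norm F f) * algebraMap K[X] L q = algebraMap K[X] L g)
    (T : Finset (Place K L)) (hT : ∀ p : Place K L, ordAt p.O f ≠ 0 → p ∈ T)
    (α : AlgebraicClosure K) :
    ∑ p ∈ T.filter (fun p => p.At (algebraMap K[X] L X) α), ordAt p.O f =
      ((g.map (algebraMap K (AlgebraicClosure K))).rootMultiplicity α : ℤ) -
        (q.map (algebraMap K (AlgebraicClosure K))).rootMultiplicity α := by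
  let B := integralClosure K[X] L
  have : IsDedekindDomain B := IsIntegralClosure.isDedekindDomain K[X] F L B
  have : Module.Finite K[X] B := IsIntegralClosure.finite K[X] F L B
  have : IsFractionRing B L := IsIntegralClosure.isFractionRing_of_finite_extension K[X] F L B
  have : Module.IsTorsionFree K[X] L := .trans_faithfulSMul K[X] F L
  have : Module.IsTorsionFree K[X] B := IsIntegralClosure.isTorsionFree K[X] L
  have := IsIntegralClosure.isLocalization K[X] F L B
  obtain ⟨b, c, hc, rfl⟩ := IsFractionRing.div_surjective (A := B) f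
  have hc0 : c ≠ 0 := nonZeroDivisors.ne_zero hc
  have hb0 : b ≠ 0 := by
    rintro rfl
    simp at hf
  rw [sum_points_A2 b c hb0 hc0 T hT α]
  have nb : Algebra.norm K[X] b ≠ 0 := Algebra.norm_ne_zero_iff.2 hb0
  have nc : Algebra.norm K[X] c ≠ 0 := Algebra.norm_ne_zero_iff.2 hc0
  have hcL : algebraMap B L c ≠ 0 := fun e =>
    hc0 ((map_eq_zero_iff _ (FaithfulSMul.algebraMap_injective B L)).1 e)
  have e1 : Algebra.norm F (algebraMap B L b / algebraMap B L c) *
      algebraMap K[X] F (Algebra.norm K[X] c) = algebraMap K[X] F (Algebra.norm K[X] b) := by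
    rw [← Algebra.norm_localization K[X] (nonZeroDivisors K[X]) (Sₘ := L),
      ← Algebra.norm_localization K[X] (nonZeroDivisors K[X]) (Sₘ := L), ← map_mul,
      div_mul_cancel₀ _ hcL]
  have e2 : Algebra.norm K[X] b * q = g * Algebra.norm K[X] c := by
    apply FaithfulSMul.algebraMap_injective K[X] L
    rw [map_mul, map_mul, ← hN, IsScalarTower.algebraMap_apply K[X] F L (Algebra.norm K[X] b),
      ← e1, map_mul, ← IsScalarTower.algebraMap_apply]
    ring
  have e3 := congrArg (fun r : K[X] =>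
    (r.map (algebraMap K (AlgebraicClosure K))).rootMultiplicity α) e2
  have n1 : (Algebra.norm K[X] b * q).map (algebraMap K (AlgebraicClosure K)) ≠ 0 :=
    Polynomial.map_ne_zero (mul_ne_zero nb hq)
  have n2 := e2 ▸ n1
  simp only [Polynomial.map_mul] at e3 n1 n2
  rw [rootMultiplicity_mul n1, rootMultiplicity_mul n2] at e3
  omega

open Classical in
theorem sum_ord_at [CharZero K] (τ : L) (hτ : Transcendental K τ) [FiniteDimensional K⟮τ⟯ L]
    (f : L) (hf : f ≠ 0) (g q : K[X]) (hq : q ≠ 0)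
    (hN : algebraMap K⟮τ⟯ L (Algebra.norm K⟮τ⟯ f) * aeval τ q = aeval τ g)
    (T : Finset (Place K L)) (hT : ∀ p : Place K L, ordAt p.O f ≠ 0 → p ∈ T)
    (α : AlgebraicClosure K) :
    ∑ p ∈ T.filter (fun p => p.At τ α), ordAt p.O f =
      ((g.map (algebraMap K (AlgebraicClosure K))).rootMultiplicity α : ℤ) -
        (q.map (algebraMap K (AlgebraicClosure K))).rootMultiplicity α := by
  let : Algebra K[X] L := (aeval τ : K[X] →ₐ[K] L).toRingHom.toAlgebra
  let : Algebra K[X] K⟮τ⟯ :=
    (aeval (IntermediateField.AdjoinSimple.gen K τ) : K[X] →ₐ[K] K⟮τ⟯).toRingHom.toAlgebra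
  have e1 : ∀ r : K[X], algebraMap K[X] L r = aeval τ r := fun _ => rfl
  have e2 : ∀ r : K[X], algebraMap K⟮τ⟯ L (algebraMap K[X] K⟮τ⟯ r) = aeval τ r := fun r =>
    (aeval_algebraMap_apply L (IntermediateField.AdjoinSimple.gen K τ) r).symm
  have : IsScalarTower K[X] K⟮τ⟯ L := IsScalarTower.of_algebraMap_eq fun r => (e2 r).symm
  have : IsScalarTower K K[X] L := IsScalarTower.of_algebraMap_eq fun c => by
    rw [e1, AlgHom.commutes]
  have : FaithfulSMul K[X] K⟮τ⟯ := (faithfulSMul_iff_algebraMap_injective _ _).2 fun r s h =>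
    transcendental_iff_injective.1 hτ (by rw [← e2, ← e2, h])
  have : IsFractionRing K[X] K⟮τ⟯ := IsFractionRing.of_field _ _ fun z => by
    obtain ⟨r, s, h⟩ := (IntermediateField.mem_adjoin_simple_iff K z.1).1 z.2
    refine ⟨r, s, (algebraMap K⟮τ⟯ L).injective ?_⟩
    rw [map_div₀, e2, e2]
    exact h
  have := sum_ord_gen_A2 (F := K⟮τ⟯) f hf g q hq hN T hT α
  rwa [e1, aeval_X] at this

end Zc68
end

-- merged part: Pool.Agent.Work.MP_d65f04_ag.ValC
section
/-! A henselian valued field with residue field `k` and divisible value group. -/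

namespace Zc68

/-- `K` is henselian for `v`, with residue field `k` and divisible value group, and `ρ` is a
nonzero element of the maximal ideal. -/
structure ValData (k K : Type) [Field k] [Field K] [Algebra k K] {Γ : Type}
    [LinearOrderedCommGroupWithZero Γ] (v : Valuation (AlgebraicClosure K) Γ) (ρ : K) : Prop where
  const : ∀ c : k, v (algebraMap k (AlgebraicClosure K) c) ≤ 1
  ne : ρ ≠ 0
  lt : v (algebraMap K (AlgebraicClosure K) ρ) < 1
  gal : ∀ (σ : AlgebraicClosure K ≃ₐ[K] AlgebraicClosure K) (x : AlgebraicClosure K),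
    v (σ x) = v x
  res : ∀ x : K, v (algebraMap K (AlgebraicClosure K) x) ≤ 1 →
    ∃ c : k, v (algebraMap K (AlgebraicClosure K) x - algebraMap k (AlgebraicClosure K) c) < 1
  val : ∀ x : AlgebraicClosure K, ∃ y : K, v x = v (algebraMap K (AlgebraicClosure K) y)

section AuxValC

open Polynomial

variable {Γ : Type} [LinearOrderedCommGroupWithZero Γ]

theorem val_const_ValC {k Ω : Type} [Field k] [Field Ω] [Algebra k Ω] (v : Valuation Ω Γ)
    (hc : ∀ c : k, v (algebraMap k Ω c) ≤ 1) {c : k} (h0 : c ≠ 0) : v (algebraMap k Ω c) = 1 := by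
  refine le_antisymm (hc c) ?_
  have h1 : v (algebraMap k Ω c) * v (algebraMap k Ω c⁻¹) = 1 := by
    rw [← map_mul, ← map_mul, mul_inv_cancel₀ h0, map_one, map_one]
  calc (1 : Γ) = v (algebraMap k Ω c) * v (algebraMap k Ω c⁻¹) := h1.symm
    _ ≤ v (algebraMap k Ω c) * 1 := by gcongr; exact hc _
    _ = _ := mul_one _

theorem le_val_sum_ValC {Ω ι : Type} [Field Ω] (v : Valuation Ω Γ) (s : Finset ι) (f : ι → Ω)
    (hd : ∀ i ∈ s, ∀ j ∈ s, i ≠ j → f i ≠ 0 → v (f i) ≠ v (f j)) :
    ∀ i ∈ s, v (f i) ≤ v (∑ j ∈ s, f j) := by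
  classical
  intro i hi
  obtain ⟨m, hm, hmax⟩ := s.exists_max_image (fun j => v (f j)) ⟨i, hi⟩
  by_cases h0 : f m = 0
  · have := hmax i hi
    rw [h0, map_zero] at this
    exact this.trans zero_le
  · rw [v.map_sum_eq_of_lt hm]
    · exact hmax i hi
    · intro j hj
      rw [Finset.mem_sdiff, Finset.mem_singleton] at hj
      exact lt_of_le_of_ne (hmax j hj.1) (hd m hm j hj.1 (Ne.symm hj.2) h0).symm

theorem pow_sub_ValC {K Ω : Type} [Field K] [Field Ω] [Algebra K Ω] (v : Valuation Ω Γ)
    {a b : K} {x : Ω} {i j : ℕ} (hij : i < j) (hx : x ≠ 0)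
    (h : v (algebraMap K Ω a * x ^ i) = v (algebraMap K Ω b * x ^ j))
    (h0 : v (algebraMap K Ω b * x ^ j) ≠ 0) :
    v x ^ (j - i) = v (algebraMap K Ω (a / b)) := by
  have hx' : v x ≠ 0 := by simpa using hx
  rw [map_mul, map_mul, map_pow, map_pow] at h
  rw [map_mul] at h0
  have hb : v (algebraMap K Ω b) ≠ 0 := left_ne_zero_of_mul h0
  rw [map_div₀, map_div₀, pow_sub₀ _ hx' hij.le, eq_div_iff hb]
  have hi : v x ^ i ≠ 0 := pow_ne_zero _ hx'
  apply mul_right_cancel₀ hi
  rw [h]
  field_simp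

/-- The residue field of the intermediate field `L` is `k`. -/
def ResValC (k : Type) {K Ω : Type} [Field k] [Field K] [Field Ω] [Algebra k Ω] [Algebra K Ω]
    (v : Valuation Ω Γ) (L : IntermediateField K Ω) : Prop :=
  ∀ x ∈ L, v x ≤ 1 → ∃ c : k, v (x - algebraMap k Ω c) < 1

variable {k K Ω : Type} [Field k] [Field K] [Field Ω] [Algebra k Ω] [Algebra K Ω]

theorem gal_ValC [CharZero k] [CharZero K] [IsAlgClosure K Ω] (v : Valuation Ω Γ)
    (hc : ∀ c : k, v (algebraMap k Ω c) ≤ 1)
    (hres : ∀ x : K, v (algebraMap K Ω x) ≤ 1 →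
      ∃ c : k, v (algebraMap K Ω x - algebraMap k Ω c) < 1)
    (hmax : ∀ L : IntermediateField K Ω, ResValC k v L → L = ⊥)
    (σ : Ω ≃ₐ[K] Ω) (x : Ω) : v (σ x) = v x := by
  let M' := FiniteGaloisIntermediateField.adjoin K ({x} : Set Ω)
  let M : IntermediateField K Ω := M'.toIntermediateField
  have hxM : x ∈ M := FiniteGaloisIntermediateField.subset_adjoin K {x} rfl
  let w : Valuation M Γ := v.comap (algebraMap M Ω)
  have hw : ∀ y : M, w y = v (y : Ω) := fun _ => rfl
  have hn : ∀ n : ℕ, n ≠ 0 → w n = 1 := by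
    intro n hn
    have := val_const_ValC v hc (c := (n : k)) (by exact_mod_cast hn)
    rw [map_natCast] at this
    rw [hw]
    simpa using this
  let D := decomp (M ≃ₐ[K] M) w
  have hL : ResValC k v (IntermediateField.lift (IntermediateField.fixedField D)) := by
    intro y hy hy1
    have hyM : y ∈ M := IntermediateField.lift_le _ hy
    have hy' : (⟨y, hyM⟩ : M) ∈ IntermediateField.fixedField D :=
      (IntermediateField.mem_lift (⟨y, hyM⟩ : M)).1 hy
    by_cases h0 : y = 0
    · exact ⟨0, by simp [h0]⟩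
    obtain ⟨c, hcG, hlt⟩ := decomp_immediate (G := M ≃ₐ[K] M) w hn ⟨y, hyM⟩
      (fun h => h0 (congrArg Subtype.val h)) (fun g hg => hy' ⟨g, hg⟩)
    obtain ⟨a, ha⟩ := (IsGalois.mem_range_algebraMap_iff_fixed (F := K) c).2 hcG
    have hlt' : v (y - algebraMap K Ω a) < 1 := by
      have : (c : Ω) = algebraMap K Ω a := by rw [← ha]; rfl
      rw [← this]
      exact lt_of_lt_of_le hlt hy1
    have ha1 : v (algebraMap K Ω a) ≤ 1 := by
      have : algebraMap K Ω a = y - (y - algebraMap K Ω a) := by ring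
      rw [this]
      exact v.map_sub_le hy1 hlt'.le
    obtain ⟨c', hc'⟩ := hres a ha1
    refine ⟨c', ?_⟩
    have : y - algebraMap k Ω c' =
        (y - algebraMap K Ω a) + (algebraMap K Ω a - algebraMap k Ω c') := by ring
    rw [this]
    exact v.map_add_lt hlt' hc'
  have hbot : IntermediateField.fixedField D = ⊥ := by
    apply IntermediateField.lift_injective M
    rw [hmax _ hL, IntermediateField.lift_bot]
  have htop : D = ⊤ := by
    rw [← IntermediateField.fixingSubgroup_fixedField D, hbot,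
      IntermediateField.fixingSubgroup_bot]
  have hg : σ.restrictNormal M ∈ D := by rw [htop]; trivial
  have := val_smul_of_mem_decomp w hg ⟨x, hxM⟩
  rw [hw, hw] at this
  have h2 := AlgEquiv.restrictNormal_commutes σ M ⟨x, hxM⟩
  have h3 : ((σ.restrictNormal M • (⟨x, hxM⟩ : M) : M) : Ω) = σ x := h2
  rwa [h3] at this

theorem exists_pow_ValC [Algebra.IsAlgebraic K Ω] (v : Valuation Ω Γ) {x : Ω} (hx : x ≠ 0) :
    ∃ n : ℕ, 0 < n ∧ ∃ y : K, v x ^ n = v (algebraMap K Ω y) := by
  by_contra hcon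
  push Not at hcon
  have hint : IsIntegral K x := Algebra.IsIntegral.isIntegral x
  set p := minpoly K x with hp
  have hsum : ∑ i ∈ Finset.range (p.natDegree + 1), algebraMap K Ω (p.coeff i) * x ^ i = 0 := by
    have := minpoly.aeval K x
    rw [aeval_eq_sum_range] at this
    simpa [Algebra.smul_def] using this
  have hle := le_val_sum_ValC v (Finset.range (p.natDegree + 1))
    (fun i => algebraMap K Ω (p.coeff i) * x ^ i) (by
      intro i _ j _ hij hi0 h
      have hi0' : v (algebraMap K Ω (p.coeff i) * x ^ i) ≠ 0 := by simpa using hi0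
      rcases lt_or_gt_of_ne hij with hlt | hlt
      · exact hcon (j - i) (by omega) _ (pow_sub_ValC v hlt hx h (h ▸ hi0'))
      · exact hcon (i - j) (by omega) _ (pow_sub_ValC v hlt hx h.symm hi0'))
    p.natDegree (Finset.self_mem_range_succ _)
  rw [hsum, map_zero] at hle
  have hm : p.coeff p.natDegree = 1 := (minpoly.monic hint).coeff_natDegree
  simp only [hm, map_one, one_mul, map_pow, le_zero_iff] at hle
  exact hx (by simpa using pow_eq_zero_iff'.1 hle |>.1)

theorem val_ValC [IsAlgClosure K Ω] (v : Valuation Ω Γ)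
    (hres : ∀ x : K, v (algebraMap K Ω x) ≤ 1 →
      ∃ c : k, v (algebraMap K Ω x - algebraMap k Ω c) < 1)
    (hmax : ∀ L : IntermediateField K Ω, ResValC k v L → L = ⊥) (x : Ω) :
    ∃ y : K, v x = v (algebraMap K Ω y) := by
  classical
  have : IsAlgClosed Ω := IsAlgClosure.isAlgClosed K
  by_cases hx : x = 0
  · exact ⟨0, by simp [hx]⟩
  have hex := exists_pow_ValC (K := K) v hx
  set n := Nat.find hex with hn
  obtain ⟨hn0, y, hy⟩ := Nat.find_spec hex
  rw [← hn] at hn0 hy
  have hmin : ∀ m : ℕ, 0 < m → m < n → ∀ y : K, v x ^ m ≠ v (algebraMap K Ω y) := by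
    intro m hm0 hm y h
    exact Nat.find_min hex hm ⟨hm0, y, h⟩
  obtain ⟨z, hz⟩ := IsAlgClosed.exists_pow_nat_eq (algebraMap K Ω y) hn0
  have hzx : v z = v x := by
    have : v z ^ n = v x ^ n := by rw [hy, ← hz, map_pow]
    exact (pow_left_inj₀ zero_le zero_le hn0.ne').1 this
  have hz0 : z ≠ 0 := by
    intro h
    rw [h, map_zero] at hzx
    exact hx (by simpa using hzx.symm)
  rw [← hzx] at hmin
  have hint : IsIntegral K z := Algebra.IsIntegral.isIntegral z
  have hL : ResValC k v (IntermediateField.adjoin K {z}) := by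
    intro u hu hu1
    have hu' : u ∈ Algebra.adjoin K {z} := by
      rw [← IntermediateField.adjoin_simple_toSubalgebra_of_isAlgebraic hint.isAlgebraic]
      exact hu
    rw [Algebra.adjoin_singleton_eq_range_aeval] at hu'
    obtain ⟨p, rfl⟩ := hu'
    have hmon : (X ^ n - C y : K[X]).Monic := monic_X_pow_sub_C y hn0.ne'
    set r := p %ₘ (X ^ n - C y) with hr
    have hrz : aeval z r = aeval z p :=
      aeval_modByMonic_eq_self_of_root (by simp [hz])
    have hdeg : r.natDegree < n := by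
      have h1 : (X ^ n - C y : K[X]) ≠ 1 := by
        intro h
        have := congrArg natDegree h
        rw [natDegree_X_pow_sub_C, natDegree_one] at this
        omega
      have := natDegree_modByMonic_lt p hmon h1
      rwa [natDegree_X_pow_sub_C] at this
    have hsum : aeval z p = ∑ i ∈ Finset.range n, algebraMap K Ω (r.coeff i) * z ^ i := by
      rw [← hrz, aeval_eq_sum_range' hdeg]
      simp [Algebra.smul_def]
    change v (aeval z p) ≤ 1 at hu1
    change ∃ c : k, v (aeval z p - _) < 1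
    have hle := le_val_sum_ValC v (Finset.range n)
      (fun i => algebraMap K Ω (r.coeff i) * z ^ i) (by
        intro i hi j hj hij hi0 h
        rw [Finset.mem_range] at hi hj
        have hi0' : v (algebraMap K Ω (r.coeff i) * z ^ i) ≠ 0 := by simpa using hi0
        rcases lt_or_gt_of_ne hij with hlt | hlt
        · exact hmin (j - i) (by omega) (by omega) _ (pow_sub_ValC v hlt hz0 h (h ▸ hi0'))
        · exact hmin (i - j) (by omega) (by omega) _ (pow_sub_ValC v hlt hz0 h.symm hi0'))
    rw [← hsum] at hle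
    have h0 : v (algebraMap K Ω (r.coeff 0)) ≤ 1 := by
      simpa using (hle 0 (Finset.mem_range.2 hn0)).trans hu1
    obtain ⟨c, hc⟩ := hres _ h0
    refine ⟨c, ?_⟩
    obtain ⟨m, hm⟩ : ∃ m, n = m + 1 := ⟨n - 1, by omega⟩
    have hsplit : aeval z p - algebraMap k Ω c =
        ∑ i ∈ Finset.range m, algebraMap K Ω (r.coeff (i + 1)) * z ^ (i + 1) +
          (algebraMap K Ω (r.coeff 0) - algebraMap k Ω c) := by
      rw [hsum, hm, Finset.sum_range_succ']
      ring
    rw [hsplit]
    refine v.map_add_lt (v.map_sum_lt one_ne_zero ?_) hc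
    intro i hi
    rw [Finset.mem_range] at hi
    refine lt_of_le_of_ne ((hle (i + 1) (Finset.mem_range.2 (by omega))).trans hu1) ?_
    intro h
    have h' : v (algebraMap K Ω 1 * z ^ 0) = v (algebraMap K Ω (r.coeff (i + 1)) * z ^ (i + 1)) := by
      rw [h]; simp
    exact hmin (i + 1 - 0) (by omega) (by omega) _
      (pow_sub_ValC v (Nat.succ_pos i) hz0 h' (by rw [h]; exact one_ne_zero))
  have hzb : z ∈ (⊥ : IntermediateField K Ω) := by
    rw [← hmax _ hL]
    exact IntermediateField.mem_adjoin_simple_self K z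
  obtain ⟨a, ha⟩ := IntermediateField.mem_bot.1 hzb
  exact ⟨a, by rw [ha, hzx]⟩

theorem exists_max_ValC (v : Valuation Ω Γ) (h : ResValC k v (⊥ : IntermediateField K Ω)) :
    ∃ L : IntermediateField K Ω, ResValC k v L ∧
      ∀ L' : IntermediateField K Ω, L ≤ L' → ResValC k v L' → L' ≤ L := by
  obtain ⟨L, -, hL⟩ := zorn_le_nonempty₀ {L : IntermediateField K Ω | ResValC k v L} (by
    intro c hc hchain L hL
    refine ⟨sSup c, ?_, fun _ hz => le_sSup hz⟩
    intro x hx hx1
    have hx' : x ∈ ((sSup c : IntermediateField K Ω) : Set Ω) := hx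
    have : Nonempty c := ⟨⟨L, hL⟩⟩
    rw [sSup_eq_iSup', IntermediateField.coe_iSup_of_directed hchain.directedOn.directed_val,
      Set.mem_iUnion] at hx'
    obtain ⟨L', hL'⟩ := hx'
    exact hc L'.2 x hL' hx1) ⊥ h
  exact ⟨L, hL.prop, fun L' hle hL' => hL.le_of_ge hL' hle⟩

theorem nonempty_equiv_ValC (K Ω : Type) [Field K] [Field Ω] [Algebra K Ω] [IsAlgClosure K Ω] :
    Nonempty (AlgebraicClosure K ≃ₐ[K] Ω) :=
  ⟨IsAlgClosure.equiv K _ _⟩

theorem exists_start_ValC (k : Type) [Field k] :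
    ∃ B : ValuationSubring (AlgebraicClosure (RatFunc k)),
      (∀ p : k[X], B.valuation (algebraMap k[X] _ p) ≤ 1) ∧
        B.valuation (algebraMap k[X] _ X) < 1 := by
  let φ := algebraMap k[X] (AlgebraicClosure (RatFunc k))
  have hφ : Function.Injective φ := by
    have : φ = (algebraMap (RatFunc k) _).comp (algebraMap k[X] (RatFunc k)) :=
      IsScalarTower.algebraMap_eq _ _ _
    rw [this]
    exact (algebraMap (RatFunc k) _).injective.comp (IsFractionRing.injective _ _)
  let t : φ.range := ⟨φ X, X, rfl⟩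
  have hI : Ideal.span {t} ≠ ⊤ := by
    intro h
    have h1 : (1 : φ.range) ∈ Ideal.span {t} := by rw [h]; trivial
    obtain ⟨⟨_, p, rfl⟩, hp⟩ := Ideal.mem_span_singleton'.1 h1
    have h2 : φ (p * X) = φ 1 := by
      rw [map_mul, map_one]
      exact congrArg Subtype.val hp
    have h3 := congrArg (fun q => q.coeff 0) (hφ h2)
    simp at h3
  obtain ⟨B, hB, hB'⟩ := Ideal.image_subset_nonunits_valuationSubring _ hI
  refine ⟨B, fun p => (B.valuation_le_one_iff _).2 (hB ⟨p, rfl⟩), ?_⟩
  exact B.mem_nonunits_iff.1 (hB' ⟨t, Ideal.subset_span rfl, rfl⟩)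

theorem res_bot_ValC {k : Type} [Field k] (v : Valuation (AlgebraicClosure (RatFunc k)) Γ)
    (h1 : ∀ p : k[X], v (algebraMap k[X] _ p) ≤ 1) (hX : v (algebraMap k[X] _ X) < 1) :
    ResValC k v (⊥ : IntermediateField (RatFunc k) (AlgebraicClosure (RatFunc k))) := by
  set φ := algebraMap k[X] (AlgebraicClosure (RatFunc k)) with hφ
  have hC : ∀ c : k, φ (C c) = algebraMap k _ c := by
    intro c
    exact (IsScalarTower.algebraMap_apply k k[X] _ c).symm
  have hc : ∀ c : k, v (algebraMap k _ c) ≤ 1 := fun c => hC c ▸ h1 (C c)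
  have hlt : ∀ p : k[X], p.coeff 0 = 0 → v (φ p) < 1 := by
    intro p hp
    obtain ⟨q, rfl⟩ := X_dvd_iff.2 hp
    rw [map_mul, map_mul]
    exact mul_lt_one_of_lt_of_le hX (h1 q)
  have heq : ∀ p : k[X], p.coeff 0 ≠ 0 → v (φ p) = 1 := by
    intro p hp
    have h2 : φ p = algebraMap k _ (p.coeff 0) + φ (p - C (p.coeff 0)) := by
      rw [map_sub, hC]; ring
    have h3 := val_const_ValC v hc hp
    rw [h2, v.map_add_eq_of_lt_left, h3]
    rw [h3]
    exact hlt _ (by simp)
  intro x hx hx1
  obtain ⟨f, rfl⟩ := IntermediateField.mem_bot.1 hx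
  have hf : algebraMap (RatFunc k) (AlgebraicClosure (RatFunc k)) f = φ f.num / φ f.denom := by
    conv_lhs => rw [← RatFunc.num_div_denom f]
    rw [map_div₀, ← IsScalarTower.algebraMap_apply, ← IsScalarTower.algebraMap_apply]
  have hd0 : φ f.denom ≠ 0 := by
    rw [hφ, IsScalarTower.algebraMap_apply k[X] (RatFunc k)]
    simpa using f.denom_ne_zero
  rw [hf] at hx1 ⊢
  by_cases hd : f.denom.coeff 0 = 0
  · exfalso
    have hn : f.num.coeff 0 ≠ 0 := by
      intro hn
      have := (RatFunc.isCoprime_num_denom f).isUnit_of_dvd' (X_dvd_iff.2 hn) (X_dvd_iff.2 hd)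
      exact not_isUnit_X this
    have hpos : 0 < v (φ f.denom) := by simpa [zero_lt_iff] using hd0
    rw [map_div₀, heq _ hn, div_le_one₀ hpos] at hx1
    exact absurd (hlt _ hd) (not_lt.2 hx1)
  · refine ⟨f.num.coeff 0 / f.denom.coeff 0, ?_⟩
    have : φ f.num / φ f.denom - algebraMap k _ (f.num.coeff 0 / f.denom.coeff 0) =
        φ (f.num - C (f.num.coeff 0 / f.denom.coeff 0) * f.denom) / φ f.denom := by
      rw [map_sub, map_mul, hC]
      field_simp
    rw [this, map_div₀, heq _ hd, div_one]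
    apply hlt
    rw [coeff_sub, coeff_C_mul, div_mul_cancel₀ _ hd, sub_self]

end AuxValC

open Polynomial in
theorem exists_valData (k : Type) [Field k] [CharZero k] :
    ∃ (K : Type) (_ : Field K) (_ : Algebra k K) (Γ : Type)
      (_ : LinearOrderedCommGroupWithZero Γ) (v : Valuation (AlgebraicClosure K) Γ) (ρ : K),
      ValData k K v ρ := by
  obtain ⟨B, h1, hX⟩ := exists_start_ValC k
  let Ω := AlgebraicClosure (RatFunc k)
  let w : Valuation Ω B.ValueGroup := B.valuation
  have hc : ∀ c : k, w (algebraMap k Ω c) ≤ 1 := by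
    intro c
    rw [IsScalarTower.algebraMap_apply k k[X] Ω c]
    exact h1 _
  obtain ⟨L, hL, hmaxL⟩ := exists_max_ValC (k := k) w (res_bot_ValC w h1 hX)
  have : IsAlgClosure L Ω := ⟨inferInstance, inferInstance⟩
  have : CharZero L := algebraRat.charZero L
  have hres : ∀ x : L, w (algebraMap L Ω x) ≤ 1 →
      ∃ c : k, w (algebraMap L Ω x - algebraMap k Ω c) < 1 := fun x hx => hL x x.2 hx
  have hmax : ∀ L' : IntermediateField L Ω, ResValC k w L' → L' = ⊥ := by
    intro L' hL'
    have hle : L ≤ L'.restrictScalars (RatFunc k) := fun x hx => L'.algebraMap_mem ⟨x, hx⟩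
    have := hmaxL _ hle hL'
    exact eq_bot_iff.2 fun x hx => IntermediateField.mem_bot.2 ⟨⟨x, this hx⟩, rfl⟩
  obtain ⟨e⟩ := nonempty_equiv_ValC L Ω
  let v : Valuation (AlgebraicClosure L) B.ValueGroup := w.comap (e : AlgebraicClosure L →+* Ω)
  have hv : ∀ x, v x = w (e x) := fun _ => rfl
  have hk : ∀ c : k, e (algebraMap k _ c) = algebraMap k Ω c := by
    intro c
    rw [IsScalarTower.algebraMap_apply k L (AlgebraicClosure L), e.commutes]
    rfl
  refine ⟨L, inferInstance, inferInstance, B.ValueGroup, inferInstance, v,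
    algebraMap (RatFunc k) L RatFunc.X, ?_, ?_, ?_, ?_, ?_, ?_⟩
  · intro c
    rw [hv, hk]
    exact hc c
  · simpa using RatFunc.X_ne_zero
  · rw [hv, e.commutes, ← IsScalarTower.algebraMap_apply, ← RatFunc.algebraMap_X,
      ← IsScalarTower.algebraMap_apply]
    exact hX
  · intro σ x
    have := gal_ValC w hc hres hmax ((e.symm.trans σ).trans e) (e x)
    rw [hv, hv, ← this]
    simp
  · intro x hx
    rw [hv, e.commutes] at hx
    obtain ⟨c, hc⟩ := hres x hx
    exact ⟨c, by rwa [hv, map_sub, e.commutes, hk]⟩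
  · intro x
    obtain ⟨y, hy⟩ := val_ValC w hres hmax (e x)
    exact ⟨y, by rw [hv, hv, e.commutes, hy]⟩

end Zc68
end

-- merged part: Pool.Agent.Work.MP_d65f04_ag.ValD
section
/-! The Gauss valuation of radius infinitesimally smaller than one. -/

namespace Zc68

open Polynomial

open Classical in
/-- The number of roots of `g` in the open unit disc. -/
noncomputable def nIn {K Γ : Type} [Field K] [LinearOrderedCommGroupWithZero Γ]
    (v : Valuation (AlgebraicClosure K) Γ) (g : K[X]) : ℕ :=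
  Multiset.card ((g.aroots (AlgebraicClosure K)).filter fun α => v α < 1)

/-- `w` extends `v` along `ι`, and `w τ` is infinitesimally smaller than one. -/
structure GaussData {K Ω Γ Γ' : Type} [Field K] [Field Ω] [Algebra K Ω]
    [LinearOrderedCommGroupWithZero Γ] [LinearOrderedCommGroupWithZero Γ']
    (v : Valuation (AlgebraicClosure K) Γ) (w : Valuation Ω Γ') (ι : AlgebraicClosure K →ₐ[K] Ω)
    (τ : Ω) : Prop where
  le : ∀ x, w (ι x) ≤ 1 ↔ v x ≤ 1
  lt : w τ < 1
  inf : ∀ x, v x < 1 → ∀ n : ℕ, w (ι x) < w τ ^ n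

variable {K Ω Γ Γ' : Type} [Field K] [Field Ω] [Algebra K Ω]
  [LinearOrderedCommGroupWithZero Γ] [LinearOrderedCommGroupWithZero Γ']
  {v : Valuation (AlgebraicClosure K) Γ} {w : Valuation Ω Γ'} {ι : AlgebraicClosure K →ₐ[K] Ω}
  {τ : Ω}

/-- The ring of Laurent polynomials `p(τ) / τ ^ n` with integral coefficients whose polar part
has its coefficients in the kernel of `r`. -/
def gaussRingValD {O κ Ω : Type} [CommRing O] [CommRing κ] [CommRing Ω] (r : O →+* κ)
    (f : O →+* Ω) (τ : Ω) : Subring Ω where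
  carrier := {z | ∃ (n : ℕ) (p : O[X]), X ^ n ∣ p.map r ∧ z * τ ^ n = p.eval₂ f τ}
  mul_mem' := by
    rintro z z' ⟨n, p, h1, h2⟩ ⟨n', p', h1', h2'⟩
    refine ⟨n + n', p * p', ?_, ?_⟩
    · rw [pow_add, Polynomial.map_mul]
      exact mul_dvd_mul h1 h1'
    · rw [eval₂_mul, ← h2, ← h2']
      ring
  one_mem' := ⟨0, 1, by simp, by simp⟩
  add_mem' := by
    rintro z z' ⟨n, p, h1, h2⟩ ⟨n', p', h1', h2'⟩
    refine ⟨n + n', p * X ^ n' + X ^ n * p', ?_, ?_⟩
    · rw [pow_add, Polynomial.map_add, Polynomial.map_mul, Polynomial.map_mul, Polynomial.map_pow,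
        Polynomial.map_pow, map_X]
      exact dvd_add (mul_dvd_mul h1 dvd_rfl) (mul_dvd_mul dvd_rfl h1')
    · rw [eval₂_add, eval₂_mul, eval₂_mul, eval₂_X_pow, eval₂_X_pow, ← h2, ← h2']
      ring
  zero_mem' := ⟨0, 0, by simp, by simp⟩
  neg_mem' := by
    rintro z ⟨n, p, h1, h2⟩
    exact ⟨n, -p, by rwa [Polynomial.map_neg, dvd_neg], by rw [eval₂_neg, ← h2, neg_mul]⟩

theorem exists_gauss [IsAlgClosed Ω] (v : Valuation (AlgebraicClosure K) Γ) (τ : Ω)
    (hτ : Transcendental K τ) :
    ∃ (Γ' : Type) (_ : LinearOrderedCommGroupWithZero Γ') (w : Valuation Ω Γ')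
      (ι : AlgebraicClosure K →ₐ[K] Ω), GaussData v w ι τ := by
  let ι : AlgebraicClosure K →ₐ[K] Ω := IsAlgClosed.lift
  let _ : Algebra (AlgebraicClosure K) Ω := ι.toRingHom.toAlgebra
  have : IsScalarTower K (AlgebraicClosure K) Ω :=
    IsScalarTower.of_algebraMap_eq fun c => (ι.commutes c).symm
  have hinj := transcendental_iff_injective.1 (hτ.extendScalars (AlgebraicClosure K))
  have hτ0 : τ ≠ 0 := fun e => hτ (e ▸ isAlgebraic_zero)
  let O := v.valuationSubring
  let f : O →+* Ω := (algebraMap (AlgebraicClosure K) Ω).comp O.subtype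
  have hev : ∀ p : O[X], p.eval₂ f τ = aeval τ (p.map O.subtype) := fun p => by
    rw [aeval_def, eval₂_map]
  let A := gaussRingValD (IsLocalRing.residue O) f τ
  have hA : τ ∈ A := ⟨0, X, by simp, by simp⟩
  have hI : Ideal.span {(⟨τ, hA⟩ : A)} ≠ ⊤ := by
    rw [Ne, Ideal.span_singleton_eq_top, isUnit_iff_exists_inv]
    rintro ⟨⟨z, n, p, h1, h2⟩, hz⟩
    have hz' : τ * z = 1 := congrArg Subtype.val hz
    have h3 : (X * p).eval₂ f τ = (X ^ n : O[X]).eval₂ f τ := by
      rw [eval₂_mul, eval₂_X, eval₂_X_pow, ← h2, ← mul_assoc, hz', one_mul]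
    rw [hev, hev] at h3
    have h4 := congrArg (Polynomial.map (IsLocalRing.residue O))
      (map_injective _ O.subtype_injective (hinj h3))
    rw [Polynomial.map_mul, Polynomial.map_pow, map_X] at h4
    have h5 : (X : (IsLocalRing.ResidueField O)[X]) ^ (n + 1) ∣ X ^ n := by
      conv_rhs => rw [← h4]
      rw [pow_succ']
      exact mul_dvd_mul dvd_rfl h1
    have h6 := natDegree_le_of_dvd h5 (pow_ne_zero _ X_ne_zero)
    rw [natDegree_X_pow, natDegree_X_pow] at h6
    omega
  obtain ⟨B, hB1, hB2⟩ := Ideal.image_subset_nonunits_valuationSubring _ hI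
  have hlt : B.valuation τ < 1 :=
    B.mem_nonunits_iff.1 (hB2 ⟨⟨τ, hA⟩, Ideal.subset_span rfl, rfl⟩)
  have hpos : 0 < B.valuation τ := zero_lt_iff.2 ((Valuation.ne_zero_iff _).2 hτ0)
  have hinf : ∀ x, v x < 1 → ∀ n : ℕ, B.valuation (ι x) < B.valuation τ ^ n := by
    intro x hx n
    have hxO : x ∈ O := (v.mem_valuationSubring_iff _).2 hx.le
    have h1 : ι x / τ ^ (n + 1) ∈ A := by
      refine ⟨n + 1, C ⟨x, hxO⟩, ?_, ?_⟩
      · rw [map_C, (IsLocalRing.residue_eq_zero_iff _).2
          ((Valuation.mem_maximalIdeal_iff _ v).2 hx), C_0]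
        exact dvd_zero _
      · rw [eval₂_C, div_mul_cancel₀ _ (pow_ne_zero _ hτ0)]
        rfl
    have h2 := (B.valuation_le_one_iff _).2 (hB1 h1)
    rw [map_div₀, map_pow, div_le_one₀ (pow_pos hpos _)] at h2
    refine h2.trans_lt ?_
    rw [pow_succ]
    exact mul_lt_of_lt_one_right (pow_pos hpos _) hlt
  refine ⟨B.ValueGroup, inferInstance, B.valuation, ι, fun x => ⟨fun h => ?_, fun h => ?_⟩, hlt,
    hinf⟩
  · by_contra hx
    rw [not_le] at hx
    have hx0 : x ≠ 0 := fun e => by simp [e] at hx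
    have h1 : v x⁻¹ < 1 := by
      rw [map_inv₀]
      exact inv_lt_one_of_one_lt₀ hx
    have h2 := hinf _ h1 0
    rw [pow_zero, map_inv₀, map_inv₀, inv_lt_one₀
      (zero_lt_iff.2 ((Valuation.ne_zero_iff _).2 ((_root_.map_ne_zero ι).2 hx0)))] at h2
    exact absurd h h2.not_ge
  · refine (B.valuation_le_one_iff _).2 (hB1 ⟨0, C ⟨x, (v.mem_valuationSubring_iff _).2 h⟩,
      by simp, ?_⟩)
    rw [eval₂_C, pow_zero, mul_one]
    rfl

theorem GaussData.pos_valD (h : GaussData v w ι τ) : 0 < w τ := by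
  have := h.inf 0 (by simp) 1
  rwa [map_zero, map_zero, pow_one] at this

theorem pos_iota_valD (w : Valuation Ω Γ') (ι : AlgebraicClosure K →ₐ[K] Ω)
    {c : AlgebraicClosure K} (hc : c ≠ 0) : 0 < w (ι c) :=
  zero_lt_iff.2 ((Valuation.ne_zero_iff _).2 ((_root_.map_ne_zero ι).2 hc))

theorem GaussData.one_le_valD (h : GaussData v w ι τ) {x : AlgebraicClosure K} (hx : ¬ v x < 1) :
    x ≠ 0 ∧ 1 ≤ w (ι x) := by
  have hx0 : x ≠ 0 := fun e => hx (by simp [e])
  refine ⟨hx0, ?_⟩
  have h1 : v x⁻¹ ≤ 1 := by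
    rw [map_inv₀]
    exact inv_le_one_of_one_le₀ (not_lt.1 hx)
  have h2 := (h.le _).2 h1
  rwa [map_inv₀, map_inv₀, inv_le_one₀ (pos_iota_valD w ι hx0)] at h2

theorem GaussData.lt_iff_valD (h : GaussData v w ι τ) (x : AlgebraicClosure K) :
    w (ι x) < 1 ↔ v x < 1 :=
  ⟨fun hx => by_contra fun hv => absurd hx (h.one_le_valD hv).2.not_gt,
    fun hx => by simpa using h.inf x hx 0⟩

open Classical in
theorem GaussData.prod_valD (h : GaussData v w ι τ) (s : Multiset (AlgebraicClosure K)) :
    ∃ c : AlgebraicClosure K, c ≠ 0 ∧ w (s.map fun α => τ - ι α).prod =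
      w (ι c) * w τ ^ Multiset.card (s.filter fun α => v α < 1) := by
  induction s using Multiset.induction_on with
  | empty => exact ⟨1, one_ne_zero, by simp⟩
  | cons α s ih =>
    obtain ⟨c, hc, e⟩ := ih
    rw [Multiset.map_cons, Multiset.prod_cons, map_mul, e]
    by_cases hα : v α < 1
    · refine ⟨c, hc, ?_⟩
      rw [Multiset.filter_cons_of_pos (p := fun α => v α < 1) _ hα, Multiset.card_cons,
        w.map_sub_eq_of_lt_left (by simpa using h.inf α hα 1), pow_succ, mul_comm, mul_assoc]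
    · obtain ⟨h0, h1⟩ := h.one_le_valD hα
      refine ⟨α * c, mul_ne_zero h0 hc, ?_⟩
      rw [Multiset.filter_cons_of_neg (p := fun α => v α < 1) _ hα,
        w.map_sub_eq_of_lt_right (h.lt.trans_le h1), map_mul, map_mul, mul_assoc]

theorem GaussData.lead (h : GaussData v w ι τ) (g : K[X]) (hg : g ≠ 0) :
    ∃ c : AlgebraicClosure K, c ≠ 0 ∧ w (aeval τ g) = w (ι c) * w τ ^ nIn v g := by
  obtain ⟨c, hc, e⟩ := h.prod_valD (g.aroots (AlgebraicClosure K))
  have hg' : g.map (algebraMap K (AlgebraicClosure K)) ≠ 0 := map_ne_zero hg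
  refine ⟨(g.map (algebraMap K (AlgebraicClosure K))).leadingCoeff * c,
    mul_ne_zero (leadingCoeff_ne_zero.2 hg') hc, ?_⟩
  have h1 : aeval τ g = eval₂RingHom (ι : AlgebraicClosure K →+* Ω) τ
      (g.map (algebraMap K (AlgebraicClosure K))) := by
    rw [coe_eval₂RingHom, eval₂_map, AlgHom.comp_algebraMap, aeval_def]
  rw [(IsAlgClosed.splits (g.map (algebraMap K (AlgebraicClosure K)))).eq_prod_roots, map_mul,
    map_multiset_prod, Multiset.map_map] at h1
  simp only [coe_eval₂RingHom, eval₂_C, Function.comp_def, eval₂_sub, eval₂_X,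
    RingHom.coe_coe] at h1
  rw [h1, map_mul, map_mul, map_mul, mul_assoc, nIn, ← e]

theorem GaussData.not_lt_valD (h : GaussData v w ι τ) {c c' : AlgebraicClosure K} (hc' : c' ≠ 0)
    {n n' : ℕ} (e : w (ι c) * w τ ^ n = w (ι c') * w τ ^ n') : ¬ n < n' := by
  intro hn
  obtain ⟨m, rfl⟩ := Nat.exists_eq_add_of_lt hn
  have h1 : w (ι (c / c')) = w τ ^ (m + 1) := by
    rw [map_div₀, map_div₀, div_eq_iff (pos_iota_valD w ι hc').ne']
    refine mul_right_cancel₀ (pow_pos h.pos_valD n).ne' ?_
    rw [e, add_assoc, pow_add, mul_comm (w τ ^ (m + 1)), mul_assoc, mul_comm (w τ ^ n)]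
  have h2 : v (c / c') < 1 := by
    rw [← h.lt_iff_valD, h1]
    exact pow_lt_one₀ zero_le h.lt (Nat.succ_ne_zero m)
  exact absurd h1 (h.inf _ h2 (m + 1)).ne

theorem GaussData.unique (h : GaussData v w ι τ) {c c' : AlgebraicClosure K} (hc : c ≠ 0)
    {n n' : ℕ} (e : w (ι c) * w τ ^ n = w (ι c') * w τ ^ n') : n = n' := by
  have hc' : c' ≠ 0 := fun e' => by
    rw [e', map_zero, map_zero, zero_mul] at e
    exact (mul_pos (pos_iota_valD w ι hc) (pow_pos h.pos_valD n)).ne' e
  exact le_antisymm (not_lt.1 (h.not_lt_valD hc e.symm)) (not_lt.1 (h.not_lt_valD hc' e))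

theorem GaussData.unique_valD (h : GaussData v w ι τ) {a b : K} (ha : a ≠ 0) {n n' : ℕ}
    (e : w (algebraMap K Ω a * τ ^ n) = w (algebraMap K Ω b * τ ^ n')) : n = n' := by
  refine h.unique (c := algebraMap K _ a) (c' := algebraMap K _ b) ((_root_.map_ne_zero _).2 ha) ?_
  rwa [AlgHom.commutes, AlgHom.commutes, ← map_pow, ← map_pow, ← map_mul, ← map_mul]

/-- The dominant term of a polynomial in `τ`. -/
theorem GaussData.dom_valD (h : GaussData v w ι τ) (p : K[X]) (hp : p ≠ 0) :
    ∃ (a : K) (i : ℕ), a ≠ 0 ∧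
      w (aeval τ p - algebraMap K Ω a * τ ^ i) < w (algebraMap K Ω a * τ ^ i) := by
  obtain ⟨i, hi, hmax⟩ := p.support.exists_max_image
    (fun i => w (algebraMap K Ω (p.coeff i) * τ ^ i)) (support_nonempty.2 hp)
  have h0 := mem_support_iff.1 hi
  refine ⟨p.coeff i, i, h0, ?_⟩
  rw [aeval_def, eval₂_eq_sum, sum_def, ← Finset.add_sum_erase _ _ hi, add_sub_cancel_left]
  refine w.map_sum_lt ?_ fun j hj => ?_
  · rw [map_mul, map_pow]
    exact mul_ne_zero ((Valuation.ne_zero_iff _).2 ((_root_.map_ne_zero _).2 h0))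
      (pow_pos h.pos_valD i).ne'
  · obtain ⟨hji, hj⟩ := Finset.mem_erase.1 hj
    exact (hmax j hj).lt_of_ne fun e => hji (h.unique_valD (mem_support_iff.1 hj) e)

/-- The residue field of `K(τ)` is that of `K`. -/
theorem GaussData.res (h : GaussData v w ι τ) (p q : K[X])
    (hx : w (aeval τ p / aeval τ q) ≤ 1) :
    ∃ y : K, w (algebraMap K Ω y) ≤ 1 ∧ w (aeval τ p / aeval τ q - algebraMap K Ω y) < 1 := by
  rcases hx.lt_or_eq with hx | hx
  · exact ⟨0, by simp, by rwa [map_zero, sub_zero]⟩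
  have hp : p ≠ 0 := fun e => by simp [e] at hx
  have hq : q ≠ 0 := fun e => by simp [e] at hx
  obtain ⟨a, i, ha, h1⟩ := h.dom_valD p hp
  obtain ⟨b, j, hb, h2⟩ := h.dom_valD q hq
  have e1 := w.map_eq_of_sub_lt h1
  have e2 := w.map_eq_of_sub_lt h2
  have hq0 : 0 < w (aeval τ q) := e2 ▸ zero_le.trans_lt h2
  have hq1 : aeval τ q ≠ 0 := (Valuation.ne_zero_iff _).1 hq0.ne'
  rw [map_div₀, div_eq_one_iff_eq hq0.ne'] at hx
  obtain rfl : i = j := h.unique_valD ha (e1.symm.trans (hx.trans e2))
  have hb1 : algebraMap K Ω b ≠ 0 := (_root_.map_ne_zero _).2 hb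
  have hb0 : 0 < w (algebraMap K Ω b) := zero_lt_iff.2 ((Valuation.ne_zero_iff _).2 hb1)
  have e3 : w (algebraMap K Ω a) = w (algebraMap K Ω b) := by
    have := e1.symm.trans (hx.trans e2)
    rw [map_mul, map_mul, map_pow] at this
    exact mul_right_cancel₀ (pow_pos h.pos_valD i).ne' this
  have e4 : w (algebraMap K Ω (a / b)) = 1 := by
    rw [map_div₀, map_div₀, e3, div_self hb0.ne']
  refine ⟨a / b, e4.le, ?_⟩
  have e5 : aeval τ p / aeval τ q - algebraMap K Ω (a / b) =
      ((aeval τ p - algebraMap K Ω a * τ ^ i) -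
        algebraMap K Ω (a / b) * (aeval τ q - algebraMap K Ω b * τ ^ i)) / aeval τ q := by
    rw [map_div₀]
    field_simp
    ring
  rw [e5, map_div₀, div_lt_one₀ hq0]
  refine w.map_sub_lt (h1.trans_eq (e1.symm.trans hx)) ?_
  rw [map_mul, e4, one_mul]
  exact h2.trans_eq e2.symm

end Zc68
end

-- merged part: Pool.Agent.Work.MP_d65f04_ag.CycA3
section
/-! Degree of a principal divisor, and its part over the open unit disc. -/

namespace Zc68

open Polynomial
open scoped IntermediateField

variable {K L Γ : Type} [Field K] [CharZero K] [Field L] [Algebra K L]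
  [LinearOrderedCommGroupWithZero Γ]

theorem finite_of_transcendental (t : L) [FiniteDimensional K⟮t⟯ L] (τ : L)
    (hτ : Transcendental K τ) : FiniteDimensional K⟮τ⟯ L := by
  have h1 : Algebra.IsAlgebraic (Algebra.adjoin K {t}) L :=
    IntermediateField.isAlgebraic_adjoin_iff_top.1 inferInstance
  have h2 : Algebra.trdeg K L ≤ Cardinal.mk Unit := by
    simpa using Algebra.IsAlgebraic.trdeg_le_cardinalMk K ({t} : Set L)
  have h3 := ((algebraicIndependent_unique_type_iff (x := fun _ : Unit => τ)).2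
    hτ).isTranscendenceBasis_of_trdeg_le_of_finite h2 |>.isAlgebraic_field
  rw [Set.range_const] at h3
  have h4 : Algebra.EssFiniteType K K⟮t⟯ :=
    IntermediateField.essFiniteType_iff.2 ⟨{t}, by simp⟩
  have h5 : Algebra.EssFiniteType K L := .comp K K⟮t⟯ L
  have h6 : Algebra.EssFiniteType K⟮τ⟯ L := .of_comp K _ _
  exact Algebra.finite_of_essFiniteType_of_isAlgebraic

theorem ordAt_unit_A3 (O : ValuationSubring L) {f : L} (hf : f ≠ 0) (h : f ∈ O) (h' : f⁻¹ ∈ O) :
    ordAt O f = 0 := by
  rw [ordAt, dif_pos h, Ring.ord_of_isUnit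
    (IsUnit.of_mul_eq_one (⟨f⁻¹, h'⟩ : O) (Subtype.ext (mul_inv_cancel₀ hf)))]
  rfl

omit [CharZero K] in
theorem mem_of_alg_A3 (p : Place K L) {f : L} (hf : IsAlgebraic K f) : f ∈ p.O := by
  let _ : Algebra K p.O := ((algebraMap K L).codRestrict p.O.toSubring p.mem).toAlgebra
  have : IsScalarTower K p.O L := IsScalarTower.of_algebraMap_eq fun _ => rfl
  obtain ⟨y, hy⟩ := IsIntegrallyClosed.isIntegral_iff.1 (hf.isIntegral.tower_top (A := p.O))
  rw [← hy]
  exact y.2

omit [CharZero K] in
theorem inv_mem_A3 (p : Place K L) {f : L} (h : f ∈ p.O) (h' : ¬ p.At f 0) : f⁻¹ ∈ p.O := by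
  have h1 : IsUnit (⟨f, h⟩ : p.O) := by
    by_contra c
    exact h' ⟨h, (p.ι_eq_zero _).2 c⟩
  obtain ⟨y, hy⟩ := h1.exists_right_inv
  rw [inv_eq_of_mul_eq_one_right (congrArg Subtype.val hy : f * y = 1)]
  exact y.2

/-- A principal divisor has degree zero. -/
theorem sum_ord_eq_zero (t : L) [FiniteDimensional K⟮t⟯ L] (f : L) (hf : f ≠ 0)
    (T : Finset (Place K L)) (hT : ∀ p : Place K L, ordAt p.O f ≠ 0 → p ∈ T) :
    ∑ p ∈ T, ordAt p.O f = 0 := by
  classical
  by_cases ha : IsAlgebraic K f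
  · exact Finset.sum_eq_zero fun p _ =>
      ordAt_unit_A3 p.O hf (mem_of_alg_A3 p ha) (mem_of_alg_A3 p ha.inv)
  have ha' : Transcendental K f⁻¹ := fun c => ha (IsAlgebraic.inv_iff.1 c)
  have := finite_of_transcendental t f ha
  have := finite_of_transcendental t f⁻¹ ha'
  have e : K⟮f⁻¹⟯ = K⟮f⟯ := le_antisymm
    (IntermediateField.adjoin_simple_le_iff.2
      (inv_mem (IntermediateField.mem_adjoin_simple_self K f)))
    (IntermediateField.adjoin_simple_le_iff.2 (by
      simpa using inv_mem (IntermediateField.mem_adjoin_simple_self K f⁻¹)))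
  have e' : Module.finrank K⟮f⁻¹⟯ L = Module.finrank K⟮f⟯ L :=
    congrArg (fun E : IntermediateField K L => Module.finrank E L) e
  have nr : ∀ (E : IntermediateField K L) (h : f ∈ E),
      algebraMap E L (Algebra.norm E f) = f ^ Module.finrank E L := fun E h => by
    have := Algebra.norm_algebraMap (S := L) (⟨f, h⟩ : E)
    rw [show algebraMap E L ⟨f, h⟩ = f from rfl] at this
    rw [this, map_pow]
    rfl
  have h1 := sum_ord_at f ha f hf (X ^ Module.finrank K⟮f⟯ L) 1 one_ne_zero (by
    rw [nr _ (IntermediateField.mem_adjoin_simple_self K f)]; simp) T hT 0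
  have h2 := sum_ord_at f⁻¹ ha' f hf 1 (X ^ Module.finrank K⟮f⟯ L) (pow_ne_zero _ X_ne_zero) (by
    rw [nr _ (e ▸ IntermediateField.mem_adjoin_simple_self K f), e']; simp [hf]) T hT 0
  have h3 : ∀ p ∈ T, ordAt p.O f = (if p.At f 0 then ordAt p.O f else 0) +
      if p.At f⁻¹ 0 then ordAt p.O f else 0 := fun p _ => by
    by_cases c : p.At f 0 <;> by_cases c' : p.At f⁻¹ 0
    · obtain ⟨k1, -⟩ := c
      obtain ⟨k2, -⟩ := c'
      simp [ordAt_unit_A3 p.O hf k1 k2]
    · simp [c, c']
    · simp [c, c']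
    · rcases p.O.mem_or_inv_mem f with k | k
      · simp [ordAt_unit_A3 p.O hf k (inv_mem_A3 p k c)]
      · simp [ordAt_unit_A3 p.O hf (by simpa using inv_mem_A3 p k c') k]
  rw [Finset.sum_congr rfl h3, Finset.sum_add_distrib, ← Finset.sum_filter, ← Finset.sum_filter]
  exact (congrArg₂ (· + ·) (by convert h1) (by convert h2)).trans (by ring)

/-- The value of `τ` at `p` lies in the open unit disc. -/
def Place.In (p : Place K L) (v : Valuation (AlgebraicClosure K) Γ) (τ : L) : Prop :=
  ∃ h : τ ∈ p.O, v (p.ι ⟨τ, h⟩) < 1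

open Classical in
theorem sum_ord_in (v : Valuation (AlgebraicClosure K) Γ) (τ : L) (hτ : Transcendental K τ)
    [FiniteDimensional K⟮τ⟯ L] (f : L) (hf : f ≠ 0) (g q : K[X]) (hq : q ≠ 0)
    (hN : algebraMap K⟮τ⟯ L (Algebra.norm K⟮τ⟯ f) * aeval τ q = aeval τ g)
    (T : Finset (Place K L)) (hT : ∀ p : Place K L, ordAt p.O f ≠ 0 → p ∈ T) :
    ∑ p ∈ T.filter (fun p => p.In v τ), ordAt p.O f = (nIn v g : ℤ) - nIn v q := by
  let val : Place K L → AlgebraicClosure K := fun p => if h : τ ∈ p.O then p.ι ⟨τ, h⟩ else 0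
  let A : Finset (AlgebraicClosure K) := (T.image val ∪ ((g.aroots (AlgebraicClosure K)).toFinset ∪
    (q.aroots (AlgebraicClosure K)).toFinset)).filter fun α => v α < 1
  have h1 : ∀ p ∈ T.filter (fun p => p.In v τ), val p ∈ A := fun p hp => by
    obtain ⟨k, h, k'⟩ := Finset.mem_filter.1 hp
    refine Finset.mem_filter.2 ⟨Finset.mem_union_left _ (Finset.mem_image_of_mem _ k), ?_⟩
    simpa only [val, dif_pos h] using k'
  have h2 : ∀ r : K[X], (r.aroots (AlgebraicClosure K)).toFinset ⊆
      (g.aroots (AlgebraicClosure K)).toFinset ∪ (q.aroots (AlgebraicClosure K)).toFinset →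
      nIn v r = ∑ α ∈ A, (r.map (algebraMap K (AlgebraicClosure K))).rootMultiplicity α := by
    intro r hr
    rw [nIn, ← Multiset.sum_count_eq_card (s := A) fun α hα => Finset.mem_filter.2
      ⟨Finset.mem_union_right _ (hr (Multiset.mem_toFinset.2 (Multiset.mem_filter.1 hα).1)),
        (Multiset.mem_filter.1 hα).2⟩]
    refine Finset.sum_congr rfl fun α hα => ?_
    rw [Multiset.count_filter_of_pos (p := fun α => v α < 1) (Finset.mem_filter.1 hα).2, aroots,
      count_roots]
  rw [← Finset.sum_fiberwise_of_maps_to h1, h2 g Finset.subset_union_left,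
    h2 q Finset.subset_union_right, Nat.cast_sum, Nat.cast_sum, ← Finset.sum_sub_distrib]
  refine Finset.sum_congr rfl fun α hα => ?_
  rw [← sum_ord_at τ hτ f hf g q hq hN T hT α, Finset.filter_filter]
  refine Finset.sum_congr (Finset.filter_congr fun p _ => ⟨?_, ?_⟩) fun _ _ => rfl
  · rintro ⟨⟨h, -⟩, k⟩
    exact ⟨h, by simpa only [val, dif_pos h] using k⟩
  · rintro ⟨h, k⟩
    exact ⟨⟨h, by rw [k]; exact (Finset.mem_filter.1 hα).2⟩, by simpa only [val, dif_pos h] using k⟩

end Zc68
end

-- merged part: Pool.Agent.Work.MP_d65f04_ag.ValC2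
section
/-! Properties inherited from the residue field. -/

namespace Zc68

variable {k K Γ : Type} [Field k] [CharZero k] [Field K] [Algebra k K]
  [LinearOrderedCommGroupWithZero Γ] {v : Valuation (AlgebraicClosure K) Γ} {ρ : K}

theorem const_eq_zero_ValC2 {k Ω Γ : Type} [Field k] [Field Ω] [Algebra k Ω]
    [LinearOrderedCommGroupWithZero Γ] (w : Valuation Ω Γ)
    (hw : ∀ c : k, w (algebraMap k Ω c) ≤ 1) {c : k} (hc : w (algebraMap k Ω c) < 1) : c = 0 := by
  by_contra h0
  exact absurd (val_const_ValC w hw h0) hc.ne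

theorem sq_cong_ValC2 {Ω Γ : Type} [Field Ω] [LinearOrderedCommGroupWithZero Γ]
    (w : Valuation Ω Γ) {a b m : Ω} (ha : w a ≤ 1) (hm : w m ≤ 1) (hab : w (a - b) < 1) :
    w (m * (a ^ 2 - b ^ 2)) < 1 := by
  have hb : w b ≤ 1 := by
    have : b = a - (a - b) := by ring
    rw [this]
    exact w.map_sub_le ha hab.le
  have : m * (a ^ 2 - b ^ 2) = (a - b) * (m * (a + b)) := by ring
  rw [this, map_mul, map_mul]
  exact mul_lt_one_of_lt_of_le hab (mul_le_one' hm (w.map_add_le ha hb))

/-- A solution modulo the maximal ideal with residues in `k` gives a point over `k`. -/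
theorem NoPt.not_residue {Ω : Type} [Field Ω] [Algebra k Ω] (hk : NoPt k) (w : Valuation Ω Γ)
    (hw : ∀ c : k, w (algebraMap k Ω c) ≤ 1) (ξ : Fin 5 → Ω) (hξ : ∀ j, w (ξ j) ≤ 1) (j : Fin 5)
    (hj : ξ j = 1) (h0 : w (Q0 ξ) < 1) (h1 : w (Q1 ξ) < 1) :
    ∃ i, ∀ c : k, ¬ w (ξ i - algebraMap k Ω c) < 1 := by
  by_contra hcon
  push Not at hcon
  choose c hc using hcon
  have hn : ∀ n : ℕ, w (n : Ω) ≤ 1 := fun n => by simpa using hw (n : k)
  have hs : ∀ (n : ℕ) (i : Fin 5), w ((n : Ω) * (ξ i ^ 2 - algebraMap k Ω (c i) ^ 2)) < 1 :=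
    fun n i => sq_cong_ValC2 w (hξ i) (hn n) (hc i)
  have e0 : Q0 c = 0 := by
    apply const_eq_zero_ValC2 w hw
    have : algebraMap k Ω (Q0 c) = Q0 ξ -
        ((3 : ℕ) : Ω) * (ξ 0 ^ 2 - algebraMap k Ω (c 0) ^ 2) -
        ((6 : ℕ) : Ω) * (ξ 1 ^ 2 - algebraMap k Ω (c 1) ^ 2) -
        ((1 : ℕ) : Ω) * (ξ 2 ^ 2 - algebraMap k Ω (c 2) ^ 2) +
        ((1 : ℕ) : Ω) * (ξ 3 ^ 2 - algebraMap k Ω (c 3) ^ 2) +
        ((2 : ℕ) : Ω) * (ξ 4 ^ 2 - algebraMap k Ω (c 4) ^ 2) := by
      rw [map_Q0]
      simp only [Q0]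
      push_cast
      ring
    rw [this]
    exact w.map_add_lt (w.map_add_lt (w.map_sub_lt (w.map_sub_lt (w.map_sub_lt h0 (hs _ _))
      (hs _ _)) (hs _ _)) (hs _ _)) (hs _ _)
  have e1 : Q1 c = 0 := by
    apply const_eq_zero_ValC2 w hw
    have : algebraMap k Ω (Q1 c) = Q1 ξ +
        ((9 : ℕ) : Ω) * (ξ 0 ^ 2 - algebraMap k Ω (c 0) ^ 2) +
        ((12 : ℕ) : Ω) * (ξ 1 ^ 2 - algebraMap k Ω (c 1) ^ 2) -
        ((1 : ℕ) : Ω) * (ξ 2 ^ 2 - algebraMap k Ω (c 2) ^ 2) -
        ((1 : ℕ) : Ω) * (ξ 3 ^ 2 - algebraMap k Ω (c 3) ^ 2) := by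
      rw [map_Q1]
      simp only [Q1]
      push_cast
      ring
    rw [this]
    exact w.map_sub_lt (w.map_sub_lt (w.map_add_lt (w.map_add_lt h1 (hs _ _))
      (hs _ _)) (hs _ _)) (hs _ _)
  have hc0 := hk c e0 e1
  have := hc j
  rw [hj, hc0] at this
  simp at this

theorem ValData.noPt (h : ValData k K v ρ) (hk : NoPt k) : NoPt K := by
  intro y h0 h1
  by_contra hy
  obtain ⟨j, -, hj⟩ := Finset.univ.exists_max_image
    (fun i => v (algebraMap K (AlgebraicClosure K) (y i))) Finset.univ_nonempty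
  have hj0 : y j ≠ 0 := by
    intro hj0
    apply hy
    funext i
    have := hj i (Finset.mem_univ i)
    simpa [hj0] using this
  have hpos : 0 < v (algebraMap K (AlgebraicClosure K) (y j)) := by
    simpa [zero_lt_iff] using hj0
  have hle : ∀ i, v (algebraMap K (AlgebraicClosure K) (y i / y j)) ≤ 1 := by
    intro i
    rw [map_div₀, map_div₀, div_le_one₀ hpos]
    exact hj i (Finset.mem_univ i)
  have e0 : Q0 (fun i => y i / y j) = 0 := by
    have : Q0 (fun i => y i / y j) = Q0 y / y j ^ 2 := by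
      simp only [Q0]
      field_simp
    rw [this, h0, zero_div]
  have e1 : Q1 (fun i => y i / y j) = 0 := by
    have : Q1 (fun i => y i / y j) = Q1 y / y j ^ 2 := by
      simp only [Q1]
      field_simp
    rw [this, h1, zero_div]
  obtain ⟨i, hi⟩ := hk.not_residue v h.const
    (fun i => algebraMap K (AlgebraicClosure K) (y i / y j)) hle j (by simp [hj0])
    (by rw [← map_Q0, e0]; simp) (by rw [← map_Q1, e1]; simp)
  obtain ⟨c, hc⟩ := h.res _ (hle i)
  exact hi c hc

omit [CharZero k] in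
theorem ValData.gal_const_ValC2 (σ : AlgebraicClosure K ≃ₐ[K] AlgebraicClosure K) (c : k) :
    σ (algebraMap k (AlgebraicClosure K) c) = algebraMap k (AlgebraicClosure K) c := by
  rw [IsScalarTower.algebraMap_apply k K (AlgebraicClosure K), σ.commutes]

open Polynomial in
theorem coeff_prod_le_ValC2 {Ω : Type} [Field Ω] (w : Valuation Ω Γ) (s : Multiset Ω)
    (hs : ∀ r ∈ s, w r ≤ 1) (i : ℕ) : w ((s.map fun r => X - C r).prod.coeff i) ≤ 1 := by
  induction s using Multiset.induction_on generalizing i with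
  | empty =>
    simp only [Multiset.map_zero, Multiset.prod_zero, coeff_one]
    split_ifs <;> simp
  | cons a s ih =>
    rw [Multiset.map_cons, Multiset.prod_cons, coeff_mul]
    refine w.map_sum_le fun x _ => ?_
    rw [map_mul]
    refine mul_le_one' ?_ (ih (fun r hr => hs r (Multiset.mem_cons_of_mem hr)) _)
    rw [coeff_sub]
    refine w.map_sub_le ?_ ?_
    · rw [coeff_X]
      split_ifs <;> simp
    · rw [coeff_C]
      split_ifs
      · exact hs a (Multiset.mem_cons_self a s)
      · simp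

open Polynomial in
omit [CharZero k] in
theorem ValData.res_of_odd_ValC2 (h : ValData k K v ρ) (hk : OddRoot k)
    {β : AlgebraicClosure K} (hβ : v β ≤ 1) (hodd : Odd (minpoly K β).natDegree) :
    ∃ c : k, v (β - algebraMap k (AlgebraicClosure K) c) < 1 := by
  have hint : IsIntegral K β := Algebra.IsIntegral.isIntegral β
  set m := minpoly K β with hm
  have hmon : m.Monic := minpoly.monic hint
  set m' := m.map (algebraMap K (AlgebraicClosure K)) with hm'
  have hmon' : m'.Monic := hmon.map _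
  have hsp : m'.Splits := IsAlgClosed.splits _
  have hconj : ∀ r ∈ m'.roots, ∃ σ : AlgebraicClosure K ≃ₐ[K] AlgebraicClosure K, σ β = r := by
    intro r hr
    apply minpoly.exists_algEquiv_of_root' hint.isAlgebraic
    have := (mem_roots hmon'.ne_zero).1 hr
    rwa [IsRoot.def, hm', eval_map_algebraMap] at this
  have hcoeff : ∀ i, v (algebraMap K (AlgebraicClosure K) (m.coeff i)) ≤ 1 := by
    intro i
    rw [← coeff_map, ← hm', hsp.eq_prod_roots_of_monic hmon']
    apply coeff_prod_le_ValC2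
    intro r hr
    obtain ⟨σ, rfl⟩ := hconj r hr
    rwa [h.gal]
  choose a ha using fun i => h.res _ (hcoeff i)
  set d := m.natDegree with hd
  let q : k[X] := X ^ d + ∑ i : Fin d, C (a i) * X ^ (i : ℕ)
  have hq : q.natDegree = d := by
    have := natDegree_add_eq_left_of_degree_lt (p := (X ^ d : k[X]))
      (q := ∑ i : Fin d, C (a i) * X ^ (i : ℕ))
      (by rw [degree_X_pow]; exact degree_sum_fin_lt _)
    rw [this, natDegree_X_pow]
  obtain ⟨c, hc⟩ := hk q (hq ▸ hodd)
  set c' := algebraMap k (AlgebraicClosure K) c with hc'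
  have hc1 : c' ^ d + ∑ i : Fin d, algebraMap k (AlgebraicClosure K) (a i) * c' ^ (i : ℕ) = 0 := by
    have := congrArg (algebraMap k (AlgebraicClosure K)) hc.eq_zero
    simpa [q, eval_finsetSum] using this
  have hev : m'.eval c' = ∑ i : Fin d, (algebraMap K (AlgebraicClosure K) (m.coeff i) -
      algebraMap k (AlgebraicClosure K) (a i)) * c' ^ (i : ℕ) := by
    have h1 : m'.natDegree = d := hmon.natDegree_map _
    have h2 : m'.coeff d = 1 := by rw [← h1]; exact hmon'.coeff_natDegree
    rw [eval_eq_sum_range, h1, Finset.sum_range_succ, h2, one_mul,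
      ← Fin.sum_univ_eq_sum_range (fun i => m'.coeff i * c' ^ i)]
    simp only [sub_mul, Finset.sum_sub_distrib, hm', coeff_map]
    linear_combination hc1
  have hlt : v (m'.eval c') < 1 := by
    rw [hev]
    refine v.map_sum_lt one_ne_zero fun i _ => ?_
    rw [map_mul, map_pow]
    exact mul_lt_one_of_lt_of_le (ha i) (pow_le_one' (h.const c) _)
  rw [hsp.eval_eq_prod_roots_of_monic hmon', map_multiset_prod] at hlt
  by_contra hcon
  push Not at hcon
  refine absurd hlt (not_lt.2 (Multiset.one_le_prod_of_one_le ?_))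
  intro x hx
  simp only [Multiset.map_map, Multiset.mem_map, Function.comp] at hx
  obtain ⟨r, hr, rfl⟩ := hx
  obtain ⟨σ, rfl⟩ := hconj r hr
  have h3 : c' - σ β = σ (c' - β) := by rw [map_sub, hc', ValData.gal_const_ValC2]
  rw [h3, h.gal, v.map_sub_swap]
  exact hcon c

theorem ValData.mem_of_odd_ValC2 (h : ValData k K v ρ) (hk : OddRoot k)
    (L : IntermediateField K (AlgebraicClosure K)) [FiniteDimensional K L]
    (hodd : Odd (Module.finrank K L)) (α : L) : ∃ t : K, algebraMap K L t = α := by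
  have : CharZero K := charZero_of_injective_algebraMap (algebraMap k K).injective
  set n := Module.finrank K L with hn
  have hn0 : (n : K) ≠ 0 := by exact_mod_cast hodd.pos.ne'
  let t : K := Algebra.trace K L α / n
  by_contra hcon
  have hα : α - algebraMap K L t ≠ 0 := fun h0 => hcon ⟨t, (sub_eq_zero.1 h0).symm⟩
  have htr : Algebra.trace K L (α - algebraMap K L t) = 0 := by
    rw [map_sub, Algebra.trace_algebraMap, ← hn, nsmul_eq_mul, mul_div_cancel₀ _ hn0, sub_self]
  obtain ⟨y, hy⟩ := h.val ((α - algebraMap K L t : L) : AlgebraicClosure K)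
  have hv0 : v ((α - algebraMap K L t : L) : AlgebraicClosure K) ≠ 0 := by
    rw [Valuation.ne_zero_iff]
    exact fun h0 => hα (Subtype.ext h0)
  set β : L := y⁻¹ • (α - algebraMap K L t) with hβ
  have hβtr : Algebra.trace K L β = 0 := by rw [hβ, map_smul, htr, smul_zero]
  have hβ1 : v (β : AlgebraicClosure K) = 1 := by
    rw [hβ, IntermediateField.coe_smul, Algebra.smul_def, map_mul, map_inv₀, map_inv₀, ← hy,
      inv_mul_cancel₀ hv0]
  have hmin : minpoly K (β : AlgebraicClosure K) = minpoly K β :=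
    minpoly.algHom_eq L.val Subtype.val_injective β
  have hβodd : Odd (minpoly K (β : AlgebraicClosure K)).natDegree := by
    rw [hmin]
    exact hodd.of_dvd_nat (minpoly.degree_dvd (Algebra.IsIntegral.isIntegral β))
  obtain ⟨c, hc⟩ := h.res_of_odd_ValC2 hk hβ1.le hβodd
  have hall : ∀ φ : L →ₐ[K] AlgebraicClosure K,
      v (φ β - algebraMap k (AlgebraicClosure K) c) < 1 := by
    intro φ
    obtain ⟨σ, hσ⟩ := minpoly.exists_algEquiv_of_root' (x := φ β)
      (Algebra.IsAlgebraic.isAlgebraic (R := K) (β : AlgebraicClosure K))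
      (by rw [hmin, Polynomial.aeval_algHom_apply, minpoly.aeval, map_zero])
    rwa [← hσ, ← ValData.gal_const_ValC2 σ c, ← map_sub, h.gal]
  have hsum : v (∑ φ : L →ₐ[K] AlgebraicClosure K,
      (φ β - algebraMap k (AlgebraicClosure K) c)) < 1 :=
    v.map_sum_lt one_ne_zero fun φ _ => hall φ
  rw [Finset.sum_sub_distrib, ← trace_eq_sum_embeddings, hβtr, map_zero, zero_sub,
    Valuation.map_neg, Finset.sum_const, Finset.card_univ, AlgHom.card, ← hn, nsmul_eq_mul,
    ← map_natCast (algebraMap k (AlgebraicClosure K)), ← map_mul] at hsum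
  have h0 := const_eq_zero_ValC2 v h.const hsum
  have hnk : (n : k) ≠ 0 := by exact_mod_cast hodd.pos.ne'
  rw [(mul_eq_zero.1 h0).resolve_left hnk, map_zero, sub_zero] at hc
  exact absurd hβ1 hc.ne

open Polynomial in
theorem exists_irreducible_odd_ValC2 {F : Type} [Field F] (p : F[X]) (hp : Odd p.natDegree) :
    ∃ q : F[X], Irreducible q ∧ Odd q.natDegree ∧ q ∣ p := by
  induction p using WfDvdMonoid.induction_on_irreducible with
  | zero => simp at hp
  | unit u hu => rw [natDegree_eq_zero_of_isUnit hu] at hp; simp at hp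
  | mul a i ha hi ih =>
    rw [natDegree_mul hi.ne_zero ha] at hp
    by_cases h : Odd i.natDegree
    · exact ⟨i, hi, h, dvd_mul_right _ _⟩
    · have : Odd a.natDegree := by
        rw [Nat.odd_iff] at hp h ⊢
        omega
      obtain ⟨q, hq, hq', hd⟩ := ih this
      exact ⟨q, hq, hq', hd.mul_left _⟩

theorem ValData.oddRoot (h : ValData k K v ρ) (hk : OddRoot k) : OddRoot K := by
  intro p hp
  obtain ⟨q, hq, hq', hd⟩ := exists_irreducible_odd_ValC2 p hp
  obtain ⟨α, hα⟩ := IsAlgClosed.exists_aeval_eq_zero (AlgebraicClosure K) q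
    (Polynomial.degree_pos_of_irreducible hq).ne'
  have hint : IsIntegral K α := Algebra.IsIntegral.isIntegral α
  have := IntermediateField.adjoin.finiteDimensional hint
  have hdeg : (minpoly K α).natDegree = q.natDegree := by
    rw [← minpoly.eq_of_irreducible hq hα, Polynomial.natDegree_mul_C
      (inv_ne_zero (Polynomial.leadingCoeff_ne_zero.2 hq.ne_zero))]
  obtain ⟨t, ht⟩ := h.mem_of_odd_ValC2 hk (IntermediateField.adjoin K {α})
    (by rwa [IntermediateField.adjoin.finrank hint, hdeg]) (IntermediateField.AdjoinSimple.gen K α)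
  have ht' : algebraMap K (AlgebraicClosure K) t = α := congrArg Subtype.val ht
  refine ⟨t, Polynomial.IsRoot.dvd ?_ hd⟩
  rw [← ht', Polynomial.aeval_algebraMap_apply] at hα
  simpa using hα

theorem ValData.isSquare_ValC2 (h : ValData k K v ρ) {x : K}
    (hx : v (algebraMap K (AlgebraicClosure K) x - 1) < 1) : IsSquare x := by
  have : CharZero K := charZero_of_injective_algebraMap (algebraMap k K).injective
  have key : ∀ s : AlgebraicClosure K, s * s = algebraMap K (AlgebraicClosure K) x →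
      v (s - 1) < 1 → IsSquare x := by
    intro s hs hs1
    obtain ⟨y, hy⟩ := (InfiniteGalois.mem_range_algebraMap_iff_fixed (k := K) s).2 (by
      intro σ
      have h1 : σ s * σ s = s * s := by rw [← map_mul, hs, σ.commutes]
      rcases mul_self_eq_mul_self_iff.1 h1 with h2 | h2
      · exact h2
      · exfalso
        have h3 : v (-s - 1) < 1 := by
          rw [← h2, ← map_one σ, ← map_sub, h.gal]
          exact hs1
        have h4 : v (algebraMap k (AlgebraicClosure K) (-2)) < 1 := by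
          have : algebraMap k (AlgebraicClosure K) (-2) = (s - 1) + (-s - 1) := by
            rw [map_neg, map_ofNat]; ring
          rw [this]
          exact v.map_add_lt hs1 h3
        have := const_eq_zero_ValC2 v h.const h4
        norm_num at this)
    refine ⟨y, (algebraMap K (AlgebraicClosure K)).injective ?_⟩
    rw [map_mul, hy, hs]
  obtain ⟨s, hs⟩ := IsAlgClosed.exists_eq_mul_self (algebraMap K (AlgebraicClosure K) x)
  by_cases h1 : v (s - 1) < 1
  · exact key s hs.symm h1
  · refine key (-s) (by rw [hs]; ring) ?_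
    by_contra h2
    have h3 : algebraMap K (AlgebraicClosure K) x - 1 = -((s - 1) * (-s - 1)) := by
      rw [hs]; ring
    rw [h3, Valuation.map_neg, map_mul] at hx
    exact absurd hx (not_lt.2 (one_le_mul (not_lt.1 h1) (not_lt.1 h2)))

theorem ValData.eq_const_mul_sq_ValC2 (h : ValData k K v ρ) {a : K} (ha : a ≠ 0) :
    ∃ (c : k) (y : K), y ≠ 0 ∧ a = algebraMap k K c * y ^ 2 := by
  obtain ⟨s, hs⟩ := IsAlgClosed.exists_eq_mul_self (algebraMap K (AlgebraicClosure K) a)
  obtain ⟨y, hy⟩ := h.val s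
  have hs0 : v s ≠ 0 := by
    intro h0
    rw [Valuation.zero_iff] at h0
    rw [h0, mul_zero, map_eq_zero] at hs
    exact ha hs
  have hy0 : y ≠ 0 := by
    intro h0
    rw [h0, map_zero, map_zero] at hy
    exact hs0 hy
  have h1 : v (algebraMap K (AlgebraicClosure K) (a / y ^ 2)) = 1 := by
    rw [map_div₀, map_div₀, map_pow, map_pow, hs, map_mul, ← hy, sq, div_self (mul_ne_zero hs0 hs0)]
  obtain ⟨c, hc⟩ := h.res _ h1.le
  have hc0 : c ≠ 0 := by
    intro h0
    rw [h0, map_zero, sub_zero, h1] at hc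
    exact lt_irrefl _ hc
  have hc1 := val_const_ValC v h.const hc0
  have hc' : algebraMap k (AlgebraicClosure K) c ≠ 0 := by simpa using hc0
  have hcK : algebraMap k K c ≠ 0 := by simpa using hc0
  obtain ⟨z, hz⟩ := h.isSquare_ValC2 (x := a / y ^ 2 / algebraMap k K c) (by
    rw [map_div₀, ← IsScalarTower.algebraMap_apply, div_sub_one hc', map_div₀, hc1, div_one]
    exact hc)
  have hz0 : z ≠ 0 := by
    intro h0
    rw [h0, mul_zero] at hz
    exact (div_ne_zero (div_ne_zero ha (pow_ne_zero 2 hy0)) hcK) hz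
  refine ⟨c, y * z, mul_ne_zero hy0 hz0, ?_⟩
  rw [mul_pow, sq z, ← hz]
  field_simp

theorem ValData.allNorm (h : ValData k K v ρ) (hk : AllNorm k) : AllNorm K := by
  intro a b
  by_cases ha : a = 0
  · exact Or.inl ⟨0, by simp [ha]⟩
  by_cases hb : b = 0
  · exact Or.inr ⟨0, 0, by simp [hb]⟩
  obtain ⟨c, y, hy, rfl⟩ := h.eq_const_mul_sq_ValC2 ha
  obtain ⟨d, z, -, rfl⟩ := h.eq_const_mul_sq_ValC2 hb
  rcases hk c d with ⟨r, rfl⟩ | ⟨r, s, rfl⟩
  · exact Or.inl ⟨algebraMap k K r * y, by rw [map_mul]; ring⟩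
  · refine Or.inr ⟨algebraMap k K r * z, algebraMap k K s * z / y, ?_⟩
    simp only [map_sub, map_mul, map_pow]
    field_simp

end Zc68
end

-- merged part: Pool.Agent.Work.MP_d65f04_ag.Uni1
section
/-! A rational parametrisation of the diagonal intersection of three quadrics in `P^6`. -/

namespace Zc68

open Polynomial

theorem sq_dvd_uni1 {E : Type} [Field E] (R : E[X]) (b : E) (h0 : R.eval b = 0)
    (h1 : R.derivative.eval b = 0) : (X - C b) ^ 2 ∣ R := by
  obtain ⟨Q, rfl⟩ := dvd_iff_isRoot.2 h0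
  have hQ : Q.eval b = 0 := by simpa using h1
  obtain ⟨Q', rfl⟩ := dvd_iff_isRoot.2 hQ
  exact ⟨Q', by ring⟩

/-- Hermite interpolation at two points. -/
theorem hermite_uni1 {E : Type} [Field E] (b c : E) (hbc : b ≠ c) (p₁ p₂ u v : E) :
    ∃ L : E[X], L.natDegree ≤ 3 ∧ L.eval b = p₂ ∧ L.eval c = p₁ ∧
      L.derivative.eval b = u ∧ L.derivative.eval c = v := by
  have h : b - c ≠ 0 := sub_ne_zero.2 hbc
  have h' : c - b ≠ 0 := sub_ne_zero.2 hbc.symm
  refine ⟨(X - C c) ^ 2 * (C (p₂ / (b - c) ^ 2) +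
      C ((u - 2 * (b - c) * (p₂ / (b - c) ^ 2)) / (b - c) ^ 2) * (X - C b)) +
    (X - C b) ^ 2 * (C (p₁ / (c - b) ^ 2) +
      C ((v - 2 * (c - b) * (p₁ / (c - b) ^ 2)) / (c - b) ^ 2) * (X - C c)), ?_, ?_, ?_, ?_, ?_⟩
  · compute_degree
  · simp only [eval_add, eval_mul, eval_pow, eval_sub, eval_X, eval_C]
    field_simp
    ring
  · simp only [eval_add, eval_mul, eval_pow, eval_sub, eval_X, eval_C]
    field_simp
    ring
  · simp only [derivative_add, derivative_mul, derivative_pow, derivative_sub, derivative_X,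
      derivative_C, eval_add, eval_mul, eval_pow, eval_sub, eval_X, eval_C, eval_zero, eval_one]
    field_simp
    push_cast
    ring
  · simp only [derivative_add, derivative_mul, derivative_pow, derivative_sub, derivative_X,
      derivative_C, eval_add, eval_mul, eval_pow, eval_sub, eval_X, eval_C, eval_zero, eval_one]
    field_simp
    push_cast
    ring

/-- The polynomial identity behind the parametrisation: with `B = (T - b) (T - c)` there are
`A` of degree at most four and `g` of degree at most three with `A ^ 2 ≡ g B ^ 2` modulo `δ`. -/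
theorem pade {E : Type} [Field E] [CharZero E] (δ : E[X]) (hδ : δ.Monic) (hdeg : δ.natDegree = 7)
    (b c a p₁ p₂ : E) (hbc : b ≠ c) (hb : δ.eval b ≠ 0) (hp₁ : p₁ ≠ 0) (hp₂ : p₂ ≠ 0)
    (hc : δ.eval c * (a ^ 2 * (c - b) + p₂ ^ 2 / δ.eval b) = p₁ ^ 2) :
    ∃ A g M : E[X], A.natDegree ≤ 4 ∧ A.coeff 4 = a ∧ A.eval b = p₂ ∧ A.eval c = p₁ ∧
      g.natDegree ≤ 3 ∧ A ^ 2 - δ * M = g * ((X - C b) * (X - C c)) ^ 2 := by
  set M : E[X] := C (a ^ 2) * (X - C b) + C (p₂ ^ 2 / δ.eval b) with hM
  set N : E[X] := δ * M with hN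
  have hNb : N.eval b = p₂ ^ 2 := by
    rw [hN, hM]
    simp only [eval_add, eval_mul, eval_sub, eval_X, eval_C]
    field_simp
    ring
  have hNc : N.eval c = p₁ ^ 2 := by
    rw [hN, hM, ← hc]
    simp only [eval_add, eval_mul, eval_sub, eval_X, eval_C]
  obtain ⟨L, hL3, hLb, hLc, hLb', hLc'⟩ := hermite_uni1 b c hbc p₁ p₂
    (N.derivative.eval b / (2 * p₂)) (N.derivative.eval c / (2 * p₁))
  set B : E[X] := (X - C b) * (X - C c) with hB
  have hBm : (B ^ 2).Monic := ((monic_X_sub_C b).mul (monic_X_sub_C c)).pow 2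
  have hBd : (B ^ 2).natDegree = 4 := by
    rw [natDegree_pow, hB, (monic_X_sub_C b).natDegree_mul (monic_X_sub_C c)]
    simp
  set A : E[X] := C a * B ^ 2 + L with hA
  have hA4 : A.natDegree ≤ 4 := by
    rw [hA]
    refine (natDegree_add_le _ _).trans (max_le ?_ (by omega))
    exact (natDegree_C_mul_le _ _).trans hBd.le
  have hAa : A.coeff 4 = a := by
    have h1 : (B ^ 2).coeff 4 = 1 := by
      rw [← hBd]
      exact hBm.coeff_natDegree
    rw [hA, coeff_add, coeff_C_mul, h1, coeff_eq_zero_of_natDegree_lt (by omega : L.natDegree < 4)]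
    ring
  have hAb : A.eval b = p₂ := by simp [hA, hB, hLb]
  have hAc : A.eval c = p₁ := by simp [hA, hB, hLc]
  have hAb' : A.derivative.eval b = N.derivative.eval b / (2 * p₂) := by
    simp [hA, hB, hLb', derivative_pow]
  have hAc' : A.derivative.eval c = N.derivative.eval c / (2 * p₁) := by
    simp [hA, hB, hLc', derivative_pow]
  have hd : ∀ x : E, (A ^ 2 - N).derivative.eval x =
      2 * A.eval x * A.derivative.eval x - N.derivative.eval x := by
    intro x
    simp [derivative_pow]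
  have h1 : (X - C b) ^ 2 ∣ A ^ 2 - N := by
    refine sq_dvd_uni1 _ _ (by simp [hAb, hNb]) ?_
    rw [hd, hAb, hAb']
    field_simp
    ring
  have h2 : (X - C c) ^ 2 ∣ A ^ 2 - N := by
    refine sq_dvd_uni1 _ _ (by simp [hAc, hNc]) ?_
    rw [hd, hAc, hAc']
    field_simp
    ring
  have hcop : IsCoprime ((X - C b) ^ 2) ((X - C c) ^ 2) :=
    (isCoprime_X_sub_C_of_isUnit_sub (sub_ne_zero.2 hbc).isUnit).pow
  obtain ⟨g, hg⟩ := hcop.mul_dvd h1 h2
  have hg' : A ^ 2 - N = g * B ^ 2 := by rw [hg, hB]; ring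
  refine ⟨A, g, M, hA4, hAa, hAb, hAc, ?_, hg'⟩
  have hM1 : M.natDegree ≤ 1 := by rw [hM]; compute_degree
  have hMc : M.coeff 1 = a ^ 2 := by
    rw [hM]
    simp only [coeff_add, coeff_C_mul, coeff_sub, coeff_X_one, coeff_C_succ]
    ring
  have hN8 : N.natDegree ≤ 8 := by
    rw [hN]
    exact natDegree_mul_le.trans (by omega)
  have hA8 : (A ^ 2).natDegree ≤ 8 := natDegree_pow_le.trans (by omega)
  have hc8 : (A ^ 2 - N).coeff 8 = 0 := by
    have e1 : (A ^ 2).coeff 8 = a ^ 2 := by
      rw [pow_two, show (8 : ℕ) = 4 + 4 from rfl, coeff_mul_add_eq_of_natDegree_le hA4 hA4, hAa]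
      ring
    have e2 : N.coeff 8 = a ^ 2 := by
      have e3 : δ.coeff 7 = 1 := by
        rw [← hdeg]
        exact hδ.coeff_natDegree
      rw [hN, show (8 : ℕ) = 7 + 1 from rfl, coeff_mul_add_eq_of_natDegree_le hdeg.le hM1, hMc, e3,
        one_mul]
    rw [coeff_sub, e1, e2, sub_self]
  have hR8 : (A ^ 2 - N).natDegree ≤ 8 := (natDegree_sub_le _ _).trans (max_le hA8 hN8)
  have hR7 : (A ^ 2 - N).natDegree ≤ 7 := natDegree_le_pred hR8 hc8
  by_cases hg0 : g = 0
  · simp [hg0]
  · rw [hg', natDegree_mul hg0 hBm.ne_zero, hBd] at hR7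
    omega

/-- Coefficientwise application of a linear form. -/
theorem exists_lift_uni1 {F E : Type} [Field F] [Field E] [Algebra F E] (l : E →ₗ[F] F)
    (P : E[X]) : ∃ Q : F[X], (∀ n, Q.coeff n = l (P.coeff n)) ∧
      ∀ t : F, Q.eval t = l (P.eval (algebraMap F E t)) := by
  induction P using Polynomial.induction_on' with
  | add p q hp hq =>
    obtain ⟨p', hp1, hp2⟩ := hp
    obtain ⟨q', hq1, hq2⟩ := hq
    exact ⟨p' + q', fun n => by simp [hp1, hq1], fun t => by simp [hp2, hq2]⟩
  | monomial n x =>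
    refine ⟨monomial n (l x), fun m => ?_, fun t => ?_⟩
    · simp only [coeff_monomial]
      split_ifs <;> simp
    · rw [eval_monomial, eval_monomial, ← map_pow, mul_comm x, ← Algebra.smul_def, map_smul,
        smul_eq_mul, mul_comm]

/-- Uniqueness of rational interpolation: the values at seven points determine `A` and `B`. -/
theorem pade_unique {F E : Type} [Field F] [Field E] [Algebra F E] (θ : Fin 7 → F)
    (hθ : Function.Injective θ) (A B : E[X]) (hA : A.natDegree ≤ 4) (hB : B.Monic)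
    (hB2 : B.natDegree = 2) (hcop : IsCoprime A B) (r : Fin 7 → F)
    (hr : ∀ j, A.eval (algebraMap F E (θ j)) = algebraMap F E (r j) * B.eval (algebraMap F E (θ j))) :
    (∀ n, A.coeff n ∈ Set.range (algebraMap F E)) ∧ ∀ n, B.coeff n ∈ Set.range (algebraMap F E) := by
  classical
  obtain ⟨l, hl⟩ := (Algebra.linearMap F E).exists_leftInverse_of_injective
    (LinearMap.ker_eq_bot.2 (algebraMap F E).injective)
  have hl1 : l 1 = 1 := by
    have := LinearMap.congr_fun hl 1
    simpa using this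
  obtain ⟨A', hA1, hA2⟩ := exists_lift_uni1 l A
  obtain ⟨B', hB1, hB2'⟩ := exists_lift_uni1 l B
  have hA'd : A'.natDegree ≤ 4 := natDegree_le_iff_coeff_eq_zero.2 fun n hn => by
    rw [hA1, coeff_eq_zero_of_natDegree_lt (by omega), map_zero]
  have hB'd : B'.natDegree ≤ 2 := natDegree_le_iff_coeff_eq_zero.2 fun n hn => by
    rw [hB1, coeff_eq_zero_of_natDegree_lt (by omega), map_zero]
  have hB'c : B'.coeff 2 = 1 := by
    rw [hB1, ← hB2, hB.coeff_natDegree, hl1]
  have hB'm : B'.Monic := monic_of_natDegree_le_of_coeff_eq_one 2 hB'd hB'c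
  have hr' : ∀ j, A'.eval (θ j) = r j * B'.eval (θ j) := by
    intro j
    rw [hA2, hB2', hr, ← Algebra.smul_def, map_smul, smul_eq_mul]
  set A'' : E[X] := A'.map (algebraMap F E) with hA''
  set B'' : E[X] := B'.map (algebraMap F E) with hB''
  have hA''d : A''.natDegree ≤ 4 := natDegree_map_le.trans hA'd
  have hB''d : B''.natDegree ≤ 2 := natDegree_map_le.trans hB'd
  have hz : A * B'' - A'' * B = 0 := by
    refine eq_zero_of_natDegree_lt_card_of_eval_eq_zero _
      (f := fun j => algebraMap F E (θ j)) ((algebraMap F E).injective.comp hθ) (fun j => ?_) ?_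
    · simp only [eval_sub, eval_mul, hA'', hB'', eval_map_algebraMap, aeval_algebraMap_apply,
        coe_aeval_eq_eval]
      rw [hr, hr', map_mul]
      ring
    · have e1 : (A * B'').natDegree ≤ 6 := natDegree_mul_le.trans (by omega)
      have e2 : (A'' * B).natDegree ≤ 6 := natDegree_mul_le.trans (by omega)
      have := (natDegree_sub_le (A * B'') (A'' * B)).trans (max_le e1 e2)
      simp only [Fintype.card_fin]
      omega
  have hz' : A * B'' = A'' * B := sub_eq_zero.1 hz
  have hdvd : B ∣ B'' := hcop.symm.dvd_of_dvd_mul_left ⟨A'', by rw [hz', mul_comm]⟩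
  have hBB : B'' = B := eq_of_monic_of_dvd_of_natDegree_le hB (hB'm.map _) hdvd (by omega)
  have hAA : A = A'' := by
    rw [hBB] at hz'
    exact mul_right_cancel₀ hB.ne_zero hz'
  refine ⟨fun n => ⟨A'.coeff n, ?_⟩, fun n => ⟨B'.coeff n, ?_⟩⟩
  · rw [hAA, hA'', coeff_map]
  · rw [← hBB, hB'', coeff_map]

end Zc68
end

-- merged part: Pool.Agent.Work.MP_d65f04_ag.Uni2
section
/-! The parametrisation is generically finite. -/

namespace Zc68

open Polynomial

theorem isCoprime_X_sub_C_uni2 {E : Type} [Field E] (A : E[X]) (b : E) (h : A.eval b ≠ 0) :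
    IsCoprime A (X - C b) := by
  have h1 : (X - C b) * (A /ₘ (X - C b)) + C (A.eval b) = A := by
    rw [← modByMonic_X_sub_C_eq_C_eval, add_comm]
    exact modByMonic_add_div A (X - C b)
  refine ⟨C (A.eval b)⁻¹, -(C (A.eval b)⁻¹ * (A /ₘ (X - C b))), ?_⟩
  have h2 : C (A.eval b)⁻¹ * C (A.eval b) = (1 : E[X]) := by
    rw [← C_mul, inv_mul_cancel₀ h, C_1]
  linear_combination (-C (A.eval b)⁻¹) * h1 + h2

theorem eval_mem_uni2 {F E : Type} [Field F] [Field E] [Algebra F E] (K : IntermediateField F E)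
    (A : E[X]) (hA : ∀ n, A.coeff n ∈ Set.range (algebraMap F E)) (x : E) (hx : x ∈ K) :
    A.eval x ∈ K := by
  rw [eval_eq_sum_range]
  refine K.sum_mem fun n _ => K.mul_mem ?_ (pow_mem hx n)
  obtain ⟨u, hu⟩ := hA n
  rw [← hu]
  exact K.algebraMap_mem u

theorem root_mem_uni2 {F E : Type} [Field F] [Field E] [Algebra F E]
    (B : E[X]) (hm : B.Monic) (hB : ∀ n, B.coeff n ∈ Set.range (algebraMap F E)) (x : E)
    (hx : B.eval x = 0) : x ∈ algebraicClosure F E := by
  rw [mem_algebraicClosure_iff']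
  obtain ⟨q, hq, -, hqm⟩ := lifts_and_natDegree_eq_and_monic
    ((lifts_iff_coeff_lifts B).2 hB) hm
  refine ⟨q, hqm, ?_⟩
  rw [← eval_map, hq, hx]

/-- The abstract form of the parametrisation. -/
theorem param_abstract_uni2 {Ω E : Type} [Field Ω] [CharZero Ω] [IsAlgClosed Ω] [Field E]
    [Algebra Ω E] (c θ : Fin 7 → Ω) (hc : ∀ j, c j ≠ 0) (hθ : Function.Injective θ)
    (b p κ a : E) (hb : ∀ j, b - algebraMap Ω E (θ j) ≠ 0) (hp : p ≠ 0) (hκ : κ ≠ 0) (ha : a ≠ 0)
    (hcθ : ∀ j, (b - algebraMap Ω E (θ j)) * (∏ l, (b - algebraMap Ω E (θ l))) - p ^ 2 ≠ 0)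
    (hr₁ : (∏ l, (b - algebraMap Ω E (θ l))) ^ 8 - κ ^ 2 *
      ∏ j, ((b - algebraMap Ω E (θ j)) * (∏ l, (b - algebraMap Ω E (θ l))) - p ^ 2) ≠ 0)
    (hr₂ : (∏ l, (b - algebraMap Ω E (θ l))) ^ 8 + κ ^ 2 *
      ∏ j, ((b - algebraMap Ω E (θ j)) * (∏ l, (b - algebraMap Ω E (θ l))) - p ^ 2) ≠ 0) :
    ∃ φ : Fin 7 → E, (∀ n < 3, dq c θ n φ = 0) ∧
      b ∈ algebraicClosure (IntermediateField.adjoin Ω (Set.range φ)) E ∧
      p ∈ algebraicClosure (IntermediateField.adjoin Ω (Set.range φ)) E ∧
      κ ∈ algebraicClosure (IntermediateField.adjoin Ω (Set.range φ)) E ∧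
      a ∈ algebraicClosure (IntermediateField.adjoin Ω (Set.range φ)) E := by
  classical
  have : CharZero E := charZero_of_injective_algebraMap (algebraMap Ω E).injective
  set D : E := ∏ l, (b - algebraMap Ω E (θ l)) with hD
  have hD0 : D ≠ 0 := Finset.prod_ne_zero_iff.2 fun l _ => hb l
  set δ : E[X] := ∏ l, (X - C (algebraMap Ω E (θ l))) with hδ
  have hδm : δ.Monic := monic_prod_of_monic _ _ fun l _ => monic_X_sub_C _
  have hδd : δ.natDegree = 7 := by
    rw [hδ, natDegree_prod_of_monic _ _ fun l _ => monic_X_sub_C _]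
    simp
  have hδe : ∀ x : E, δ.eval x = ∏ l, (x - algebraMap Ω E (θ l)) := by
    intro x
    rw [hδ, eval_prod]
    simp
  have hδb : δ.eval b = D := hδe b
  set c' : E := b - p ^ 2 / D with hc'
  set W : E := ∏ j, ((b - algebraMap Ω E (θ j)) * D - p ^ 2) with hW
  have hW0 : W ≠ 0 := Finset.prod_ne_zero_iff.2 fun l _ => hcθ l
  have hc'θ : ∀ j, c' - algebraMap Ω E (θ j) = ((b - algebraMap Ω E (θ j)) * D - p ^ 2) / D := by
    intro j
    rw [hc']
    field_simp
    ring
  have hδc : δ.eval c' = W / D ^ 7 := by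
    rw [hδe, Finset.prod_congr rfl fun j _ => hc'θ j, Finset.prod_div_distrib]
    simp [hW]
  set p₁ : E := 2 * κ * p * a * W / (D ^ 8 - κ ^ 2 * W) with hp₁
  set p₂ : E := p * a + κ * p₁ with hp₂
  have hp₁0 : p₁ ≠ 0 := by
    rw [hp₁]
    exact div_ne_zero (mul_ne_zero (mul_ne_zero (mul_ne_zero (mul_ne_zero two_ne_zero hκ) hp) ha)
      hW0) hr₁
  have hp₂e : p₂ = p * a * (D ^ 8 + κ ^ 2 * W) / (D ^ 8 - κ ^ 2 * W) := by
    rw [hp₂, hp₁]
    field_simp
    ring
  have hp₂0 : p₂ ≠ 0 := by
    rw [hp₂e]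
    exact div_ne_zero (mul_ne_zero (mul_ne_zero hp ha) hr₂) hr₁
  have hbc : b ≠ c' := by
    intro h
    have : p ^ 2 / D = 0 := by
      rw [hc'] at h
      linear_combination h
    exact div_ne_zero (pow_ne_zero 2 hp) hD0 this
  have hkey : δ.eval c' * (a ^ 2 * (c' - b) + p₂ ^ 2 / δ.eval b) = p₁ ^ 2 := by
    have h1 : p₁ * (D ^ 8 - κ ^ 2 * W) = 2 * κ * p * a * W := by
      rw [hp₁, div_mul_cancel₀ _ hr₁]
    rw [hδc, hδb, hp₂, hc']
    field_simp
    linear_combination (-p₁) * h1
  obtain ⟨A, g, M, hA4, hAa, hAb, hAc, hg, hid⟩ :=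
    pade δ hδm hδd b c' a p₁ p₂ hbc (hδb ▸ hD0) hp₁0 hp₂0 hkey
  set B : E[X] := (X - C b) * (X - C c') with hB
  have hBm : B.Monic := (monic_X_sub_C b).mul (monic_X_sub_C c')
  have hBd : B.natDegree = 2 := by
    rw [hB, (monic_X_sub_C b).natDegree_mul (monic_X_sub_C c')]
    simp
  have hBθ : ∀ j, B.eval (algebraMap Ω E (θ j)) ≠ 0 := by
    intro j
    rw [hB]
    simp only [eval_mul, eval_sub, eval_X, eval_C]
    refine mul_ne_zero ?_ ?_
    · intro h
      exact hb j (by linear_combination -h)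
    · intro h
      have h2 : c' - algebraMap Ω E (θ j) = 0 := by linear_combination -h
      rw [hc'θ j] at h2
      exact div_ne_zero (hcθ j) hD0 h2
  have hcop : IsCoprime A B :=
    (isCoprime_X_sub_C_uni2 A b (hAb ▸ hp₂0)).mul_right
      (isCoprime_X_sub_C_uni2 A c' (hAc ▸ hp₁0))
  have hw0 : ∀ j, c j * ∏ l ∈ Finset.univ.erase j, (θ j - θ l) ≠ 0 := by
    intro j
    refine mul_ne_zero (hc j) (Finset.prod_ne_zero_iff.2 fun l hl => ?_)
    exact sub_ne_zero.2 fun h => (Finset.ne_of_mem_erase hl) (hθ h).symm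
  have hs : ∀ j, ∃ s : Ω, s ^ 2 = (c j * ∏ l ∈ Finset.univ.erase j, (θ j - θ l))⁻¹ := fun j =>
    IsAlgClosed.exists_pow_nat_eq _ two_pos
  choose s hs using hs
  have hs0 : ∀ j, s j ≠ 0 := by
    intro j h
    have := hs j
    rw [h] at this
    exact inv_ne_zero (hw0 j) (by rw [← this]; ring)
  set φ : Fin 7 → E := fun j => algebraMap Ω E (s j) *
    (A.eval (algebraMap Ω E (θ j)) / B.eval (algebraMap Ω E (θ j))) with hφ
  have hAg : ∀ j, A.eval (algebraMap Ω E (θ j)) ^ 2 =
      g.eval (algebraMap Ω E (θ j)) * B.eval (algebraMap Ω E (θ j)) ^ 2 := by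
    intro j
    have h1 := congrArg (eval (algebraMap Ω E (θ j))) hid
    have h2 : δ.eval (algebraMap Ω E (θ j)) = 0 := by
      rw [hδe]
      exact Finset.prod_eq_zero (Finset.mem_univ j) (sub_self _)
    simp only [eval_sub, eval_mul, eval_pow, h2, zero_mul, sub_zero] at h1
    exact h1
  refine ⟨φ, ?_, ?_⟩
  · refine dq_eq_zero_of_gamma (d := 4) hθ (by simp) (fun m => g.coeff m) fun j => ?_
    have h1 : g.eval (algebraMap Ω E (θ j)) =
        ∑ m : Fin 4, algebraMap Ω E (θ j ^ (m : ℕ)) * g.coeff m := by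
      rw [eval_eq_sum_range' (n := 4) (by omega), Finset.sum_range]
      refine Finset.sum_congr rfl fun m _ => ?_
      rw [map_pow, mul_comm]
    have h2 : algebraMap Ω E (c j * ∏ l ∈ Finset.univ.erase j, (θ j - θ l)) *
        algebraMap Ω E (s j) ^ 2 = 1 := by
      rw [← map_pow, ← map_mul, hs j, mul_inv_cancel₀ (hw0 j), map_one]
    rw [← h1, hφ]
    simp only
    rw [mul_pow, ← mul_assoc, h2, one_mul, div_pow, hAg j]
    field_simp [hBθ j]
  · set F := IntermediateField.adjoin Ω (Set.range φ) with hF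
    have hφF : ∀ j, φ j ∈ F := fun j => IntermediateField.subset_adjoin _ _ ⟨j, rfl⟩
    let r : Fin 7 → F := fun j => (algebraMap Ω F (s j))⁻¹ * ⟨φ j, hφF j⟩
    have hθF : Function.Injective fun j => algebraMap Ω F (θ j) :=
      (algebraMap Ω F).injective.comp hθ
    have hto : ∀ u : Ω, algebraMap F E (algebraMap Ω F u) = algebraMap Ω E u := fun u =>
      (IsScalarTower.algebraMap_apply Ω F E u).symm
    have hr : ∀ j, A.eval (algebraMap F E (algebraMap Ω F (θ j))) =
        algebraMap F E (r j) * B.eval (algebraMap F E (algebraMap Ω F (θ j))) := by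
      intro j
      have h3 : algebraMap F E (r j) = (algebraMap Ω E (s j))⁻¹ * φ j := by
        simp only [r, map_mul, map_inv₀, hto]
        rfl
      have h4 : algebraMap Ω E (s j) ≠ 0 := (_root_.map_ne_zero _).2 (hs0 j)
      rw [h3, hto, hφ]
      simp only
      field_simp [hBθ j]
    obtain ⟨hAF, hBF⟩ := pade_unique (fun j => algebraMap Ω F (θ j)) hθF A B hA4 hBm hBd hcop r hr
    set K := algebraicClosure F E with hK
    have hbK : b ∈ K := root_mem_uni2 B hBm hBF b (by simp [hB])
    have hcK : c' ∈ K := root_mem_uni2 B hBm hBF c' (by simp [hB])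
    have haK : a ∈ K := by
      obtain ⟨u, hu⟩ := hAF 4
      rw [← hAa, ← hu]
      exact K.algebraMap_mem u
    have hp₁K : p₁ ∈ K := hAc ▸ eval_mem_uni2 K A hAF c' hcK
    have hp₂K : p₂ ∈ K := hAb ▸ eval_mem_uni2 K A hAF b hbK
    have hDK : D ∈ K := by
      rw [hD]
      refine K.prod_mem fun l _ => K.sub_mem hbK ?_
      rw [← hto]
      exact K.algebraMap_mem _
    have hpK : p ∈ K := by
      have h1 : p ^ 2 = (b - c') * D := by
        rw [hc']
        field_simp
        ring
      have h2 : p ^ 2 ∈ K := h1 ▸ K.mul_mem (K.sub_mem hbK hcK) hDK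
      exact mem_algebraicClosure_iff.2 ((mem_algebraicClosure_iff.1 h2).of_pow two_pos)
    have hκK : κ ∈ K := by
      have h1 : κ = (p₂ - p * a) / p₁ := by
        rw [hp₂]
        field_simp
        ring
      rw [h1]
      exact K.div_mem (K.sub_mem hp₂K (K.mul_mem hpK haK)) hp₁K
    exact ⟨hbK, hpK, hκK, haK⟩

theorem exists_param {Ω : Type} [Field Ω] [CharZero Ω] [IsAlgClosed Ω] (c θ : Fin 7 → Ω)
    (hc : ∀ j, c j ≠ 0) (hθ : Function.Injective θ) :
    ∃ φ : Fin 7 → FractionRing (MvPolynomial (Fin 4) Ω), (∀ n < 3, dq c θ n φ = 0) ∧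
      Algebra.IsAlgebraic (Algebra.adjoin Ω (Set.range φ))
        (FractionRing (MvPolynomial (Fin 4) Ω)) := by
  classical
  set P := MvPolynomial (Fin 4) Ω with hP
  set E := FractionRing P with hE
  have hinj : Function.Injective (algebraMap P E) := IsFractionRing.injective P E
  have hto : ∀ u : Ω, algebraMap Ω E u = algebraMap P E (MvPolynomial.C u) := fun u =>
    IsScalarTower.algebraMap_apply Ω P E u
  have hne : ∀ (f : P) (v : Fin 4 → Ω), MvPolynomial.eval v f ≠ 0 → algebraMap P E f ≠ 0 := by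
    intro f v hv h
    have : f = 0 := hinj (by rw [h, map_zero])
    exact hv (by rw [this, map_zero])
  let v : Fin 4 → Ω := ![θ 0, 1, 1, 1]
  have hprod : ∏ l, (θ 0 - θ l) = 0 := Finset.prod_eq_zero (Finset.mem_univ 0) (sub_self _)
  obtain ⟨φ, hφ, hb, hp, hκ, ha⟩ := param_abstract_uni2 (E := E) c θ hc hθ
    (algebraMap P E (MvPolynomial.X 0)) (algebraMap P E (MvPolynomial.X 1))
    (algebraMap P E (MvPolynomial.X 2)) (algebraMap P E (MvPolynomial.X 3))
    (fun j => by
      rw [hto, ← map_sub]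
      exact hne _ ![θ j + 1, 1, 1, 1] (by simp))
    (hne _ v (by simp [v])) (hne _ v (by simp [v])) (hne _ v (by simp [v]))
    (fun j => by
      simp only [hto, ← map_sub, ← map_mul, ← map_prod, ← map_pow]
      refine hne _ v ?_
      simp [v, hprod])
    (by
      simp only [hto, ← map_sub, ← map_mul, ← map_prod, ← map_pow]
      refine hne _ v ?_
      simp [v, hprod])
    (by
      simp only [hto, ← map_sub, ← map_mul, ← map_prod, ← map_pow, ← map_add]
      refine hne _ v ?_
      simp [v, hprod])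
  refine ⟨φ, hφ, ?_⟩
  rw [← IntermediateField.isAlgebraic_adjoin_iff_top]
  set F := IntermediateField.adjoin Ω (Set.range φ) with hF
  set K := algebraicClosure F E with hK
  have hPK : ∀ f : P, algebraMap P E f ∈ K := by
    intro f
    induction f using MvPolynomial.induction_on with
    | C u =>
      rw [← hto, IsScalarTower.algebraMap_apply Ω F E u]
      exact K.algebraMap_mem _
    | add f g hf hg => rw [map_add]; exact K.add_mem hf hg
    | mul_X f i hf =>
      rw [map_mul]
      refine K.mul_mem hf ?_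
      fin_cases i
      · exact hb
      · exact hp
      · exact hκ
      · exact ha
  refine ⟨fun z => ?_⟩
  obtain ⟨f, g, -, rfl⟩ := IsFractionRing.div_surjective (A := P) z
  exact mem_algebraicClosure_iff.1 (K.div_mem (hPK f) (hPK g))

end Zc68
end
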