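import Pool.Agent.Work.MP_d65f04_ag.CycB
import Pool.Agent.Work.MP_d65f04_ag.Uni2
import Pool.Agent.Work.MP_d65f04_ag.Defs

-- merged part: Pool.Agent.Work.MP_d65f04_ag.Conic1
section
/-! Existence and first properties of the function field of a conic. -/

namespace Zc68

open Polynomial

theorem transcendental_div_c1 {K E : Type} [Field K] [Field E] [Algebra K E] {t : E}
    (ht : Transcendental K t) {β : K} (hβ : β ≠ 0) : Transcendental K (algebraMap K E β / t) := by
  intro h
  apply ht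
  have h1 : IsAlgebraic K ((algebraMap K E β / t)⁻¹) := h.inv
  have h2 : IsAlgebraic K (algebraMap K E β * (algebraMap K E β / t)⁻¹) :=
    (isAlgebraic_algebraMap β).mul h1
  have hb : algebraMap K E β ≠ 0 := by simpa using hβ
  have : algebraMap K E β * (algebraMap K E β / t)⁻¹ = t := by
    rw [inv_div]; field_simp
  rwa [this] at h2

theorem exists_tau_c1 {k K : Type} [Field k] [Field K] [Algebra k K] (c : K →ₐ[k] K) {β : K}
    (hβ : β ≠ 0) : ∃ τ : RatFunc K →ₐ[k] RatFunc K,
      (∀ x : K, τ (algebraMap K (RatFunc K) x) = algebraMap K (RatFunc K) (c x)) ∧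
      τ RatFunc.X = algebraMap K (RatFunc K) β / RatFunc.X := by
  have ht : Transcendental K (algebraMap K (RatFunc K) β / RatFunc.X) :=
    transcendental_div_c1 RatFunc.transcendental_X hβ
  let φ : K[X] →ₐ[k] RatFunc K :=
    ((aeval (algebraMap K (RatFunc K) β / RatFunc.X) : K[X] →ₐ[K] RatFunc K).restrictScalars k).comp
      (Polynomial.mapAlgHom c)
  have hφ : Function.Injective φ := by
    have h1 := transcendental_iff_injective.mp ht
    have h2 : Function.Injective (Polynomial.mapAlgHom c) :=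
      Polynomial.map_injective (c : K →+* K) c.toRingHom.injective
    exact h1.comp h2
  have hφ' := nonZeroDivisors_le_comap_nonZeroDivisors_of_injective φ hφ
  have key : ∀ p : K[X], RatFunc.liftAlgHom φ hφ' (algebraMap K[X] (RatFunc K) p) = φ p := by
    intro p
    have := RatFunc.liftAlgHom_apply_div φ hφ' p 1
    simpa using this
  refine ⟨RatFunc.liftAlgHom φ hφ', ?_, ?_⟩
  · intro x
    have : algebraMap K (RatFunc K) x = algebraMap K[X] (RatFunc K) (C x) := by
      rw [IsScalarTower.algebraMap_apply K K[X] (RatFunc K)]; rfl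
    rw [this, key]
    simp [φ]
  · rw [← RatFunc.algebraMap_X, key]
    simp [φ]

theorem exists_conicData {k : Type} [Field k] [CharZero k] (a b : k) (ha : ¬ IsSquare a)
    (hb : ¬ ∃ x y : k, x ^ 2 - a * y ^ 2 = b) :
    ∃ (K E : Type) (_ : Field K) (_ : Field E) (_ : Algebra k K) (_ : Algebra K E)
      (_ : Algebra k E) (_ : IsScalarTower k K E) (r : K) (c : K →ₐ[k] K) (t : E)
      (τ : E →ₐ[k] E), ConicData k K E a b r c t τ ∧ (Countable k → Countable E) := by
  have : Fact (∀ r : k, r ^ 2 ≠ a + 0 * r) := ⟨fun r hr => ha ⟨r, by rw [← sq, hr]; ring⟩⟩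
  have hb0 : b ≠ 0 := fun h => hb ⟨0, 0, by simp [h]⟩
  let c : QuadraticAlgebra k a 0 →ₐ[k] QuadraticAlgebra k a 0 :=
    QuadraticAlgebra.lift ⟨-QuadraticAlgebra.omega, by
      ext <;> simp [QuadraticAlgebra.re_one, QuadraticAlgebra.im_one]⟩
  have hc : ∀ x : QuadraticAlgebra k a 0, c x = ⟨x.re, -x.im⟩ := by
    intro x
    ext <;> simp [c, QuadraticAlgebra.re_one, QuadraticAlgebra.im_one]
  let K := QuadraticAlgebra k a 0
  have hβ : algebraMap k K b ≠ 0 := by simpa using hb0
  obtain ⟨τ, hτ1, hτ2⟩ := exists_tau_c1 c hβ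
  refine ⟨K, RatFunc K, inferInstance, inferInstance, inferInstance, inferInstance, inferInstance,
    inferInstance, QuadraticAlgebra.omega, c, RatFunc.X, τ, ⟨?_, ?_, ?_, ?_, ?_, ?_, ?_, hτ1, ?_⟩,
    ?_⟩
  · ext <;> simp [sq, K]
  · intro h
    have := congrArg QuadraticAlgebra.im h
    simp [K] at this
  · rw [hc]; ext <;> simp [K]
  · intro x
    refine ⟨x.re, x.im, ?_⟩
    ext <;> simp [K]
  · intro x hx
    apply hb
    refine ⟨x.re, x.im, ?_⟩
    rw [hc] at hx
    have := congrArg QuadraticAlgebra.re hx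
    simp [K] at this
    rw [← this]; ring
  · exact RatFunc.transcendental_X
  · intro f
    refine ⟨f.num, f.denom, f.denom_ne_zero, ?_⟩
    rw [RatFunc.aeval_X_left_eq_algebraMap, RatFunc.aeval_X_left_eq_algebraMap,
      RatFunc.num_div_denom]
  · rw [hτ2, ← IsScalarTower.algebraMap_apply]
  · intro hk
    have : Countable K := (QuadraticAlgebra.equivProd a 0).injective.countable
    have : Countable K[X] := by
      rw [← Cardinal.mk_le_aleph0_iff]
      exact Polynomial.cardinalMk_le_max.trans (max_le Cardinal.mk_le_aleph0 le_rfl)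
    have : Function.Surjective fun pq : K[X] × K[X] =>
        algebraMap K[X] (RatFunc K) pq.1 / algebraMap K[X] (RatFunc K) pq.2 :=
      fun f => ⟨(f.num, f.denom), RatFunc.num_div_denom f⟩
    exact this.countable

variable {k K E : Type} [Field k] [CharZero k] [Field K] [Field E] [Algebra k K] [Algebra K E]
  [Algebra k E] [IsScalarTower k K E] {a b : k} {r : K} {c : K →ₐ[k] K} {t : E}
  {τ : E →ₐ[k] E}

omit [CharZero k] in
theorem ConicData.b_ne_c1 (h : ConicData k K E a b r c t τ) : b ≠ 0 := by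
  intro hb
  apply h.nonnorm 0
  simp [hb]

omit [CharZero k] in
theorem ConicData.t_ne_c1 (h : ConicData k K E a b r c t τ) : t ≠ 0 := by
  intro ht
  apply h.trans
  rw [ht]
  exact isAlgebraic_zero

omit [CharZero k] in
theorem ConicData.cc_c1 (h : ConicData k K E a b r c t τ) (x : K) : c (c x) = x := by
  obtain ⟨u, v, rfl⟩ := h.dec x
  simp [h.conj]

omit [CharZero k] in
theorem ConicData.invol_poly_c1 (h : ConicData k K E a b r c t τ) (p : K[X]) :
    τ (τ (aeval t p)) = aeval t p := by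
  have hb : algebraMap k E b ≠ 0 := by simpa using h.b_ne_c1
  have ht := h.t_ne_c1
  have htt : τ (τ t) = t := by
    rw [h.taut, map_div₀, h.taut, AlgHom.commutes]
    field_simp
  induction p using Polynomial.induction_on' with
  | add p q hp hq => simp only [map_add, hp, hq]
  | monomial n x =>
    rw [aeval_monomial, map_mul, map_mul, map_pow, map_pow, htt, h.tauC, h.tauC, h.cc_c1]

theorem ConicData.invol (h : ConicData k K E a b r c t τ) (f : E) : τ (τ f) = f := by
  obtain ⟨p, q, -, rfl⟩ := h.gen f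
  rw [map_div₀, map_div₀, h.invol_poly_c1, h.invol_poly_c1]

theorem ConicData.tau_poly (h : ConicData k K E a b r c t τ) (p : K[X]) (d : ℕ)
    (hp : p.natDegree ≤ d) : ∃ q : K[X], q.natDegree ≤ d ∧ τ (aeval t p) * t ^ d = aeval t q ∧
      ∀ i ≤ d, q.coeff (d - i) = c (p.coeff i) * algebraMap k K b ^ i := by
  have ht := h.t_ne_c1
  refine ⟨∑ i ∈ Finset.range (d + 1), monomial (d - i) (c (p.coeff i) * algebraMap k K b ^ i),
    ?_, ?_, ?_⟩
  · refine natDegree_sum_le_of_forall_le _ _ fun i _ => ?_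
    exact (natDegree_monomial_le _).trans (Nat.sub_le _ _)
  · rw [aeval_eq_sum_range' (Nat.lt_succ_of_le hp), map_sum, map_sum, Finset.sum_mul]
    refine Finset.sum_congr rfl fun i hi => ?_
    have hi' : i ≤ d := Nat.lt_succ_iff.mp (Finset.mem_range.mp hi)
    rw [aeval_monomial, Algebra.smul_def, map_mul, map_pow, h.tauC, h.taut, map_mul, map_pow,
      ← IsScalarTower.algebraMap_apply]
    obtain ⟨m, rfl⟩ := Nat.exists_eq_add_of_le hi'
    rw [Nat.add_sub_cancel_left, pow_add, div_pow]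
    field_simp
  · intro i hi
    rw [finsetSum_coeff, Finset.sum_eq_single i]
    · simp
    · intro j hj hji
      have hj' : j ≤ d := Nat.lt_succ_iff.mp (Finset.mem_range.mp hj)
      rw [coeff_monomial, if_neg]
      omega
    · intro hi'
      exact absurd (Finset.mem_range.mpr (Nat.lt_succ_of_le hi)) hi'

theorem ConicData.point (h : ConicData k K E a b r c t τ) :
    ∃ x y : LL τ, x ^ 2 - algebraMap k (LL τ) a * y ^ 2 = algebraMap k (LL τ) b := by
  have hb : algebraMap k E b ≠ 0 := by simpa using h.b_ne_c1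
  have ht := h.t_ne_c1
  have : CharZero E := charZero_of_injective_algebraMap (algebraMap k E).injective
  have hr : algebraMap K E r ≠ 0 := by simpa using h.ne
  have hτr : τ (algebraMap K E r) = -algebraMap K E r := by rw [h.tauC, h.conj, map_neg]
  have hr2 : algebraMap k E a = algebraMap K E r ^ 2 := by
    rw [← map_pow, h.sq, ← IsScalarTower.algebraMap_apply]
  refine ⟨⟨(t + τ t) / 2, ?_⟩, ⟨(t - τ t) / (2 * algebraMap K E r), ?_⟩, ?_⟩
  · rw [mem_LL, map_div₀, map_add, h.invol, map_ofNat, add_comm]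
  · rw [mem_LL, map_div₀, map_sub, h.invol, map_mul, map_ofNat, hτr]
    field_simp
    ring
  · apply Subtype.ext
    push_cast
    rw [hr2, h.taut]
    field_simp
    ring

omit [CharZero k] in
theorem ConicData.mem_K_c1 (h : ConicData k K E a b r c t τ) (f : E) (hf : IsAlgebraic K f) :
    ∃ x : K, f = algebraMap K E x := by
  have hinj := transcendental_iff_injective.mp h.trans
  let : Algebra K[X] E := (aeval t : K[X] →ₐ[K] E).toRingHom.toAlgebra
  have ha : ∀ p : K[X], algebraMap K[X] E p = aeval t p := fun p => rfl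
  have : IsScalarTower K K[X] E := IsScalarTower.of_algebraMap_eq fun x => by
    rw [ha]; simp
  have : FaithfulSMul K[X] E := (faithfulSMul_iff_algebraMap_injective _ _).mpr hinj
  have : IsFractionRing K[X] E := by
    refine IsFractionRing.of_field K[X] E fun z => ?_
    obtain ⟨p, q, -, rfl⟩ := h.gen z
    exact ⟨p, q, rfl⟩
  have h1 : IsIntegral K[X] f := hf.isIntegral.tower_top
  obtain ⟨p, hp⟩ := IsIntegrallyClosed.algebraMap_eq_of_integral h1
  have h2 : IsAlgebraic K p := by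
    rw [← hp] at hf
    exact (isAlgebraic_algebraMap_iff hinj).mp hf
  have h3 : p.natDegree = 0 := by
    by_contra h3
    refine Polynomial.transcendental p h3 ?_ h2
    refine mem_nonZeroDivisors_of_ne_zero ?_
    rw [leadingCoeff_ne_zero]
    rintro rfl
    simp at h3
  rw [eq_C_of_natDegree_eq_zero h3] at hp
  refine ⟨p.coeff 0, ?_⟩
  rw [← hp, ha]
  simp

theorem ConicData.fixed_c1 (h : ConicData k K E a b r c t τ) (x : K) (hx : c x = x) :
    ∃ u : k, x = algebraMap k K u := by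
  have : CharZero K := charZero_of_injective_algebraMap (algebraMap k K).injective
  obtain ⟨u, v, rfl⟩ := h.dec x
  refine ⟨u, ?_⟩
  simp only [map_add, map_mul, AlgHom.commutes, h.conj] at hx
  have h2 : (2 : K) * (algebraMap k K v * r) = 0 := by linear_combination -hx
  have h3 : algebraMap k K v * r = 0 := by simpa using h2
  rw [h3, add_zero]

/-- `k` is algebraically closed in the function field of the conic. -/
theorem ConicData.const (h : ConicData k K E a b r c t τ) (f : LL τ) (hf : IsAlgebraic k f) :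
    ∃ u : k, f = algebraMap k (LL τ) u := by
  have h1 : IsAlgebraic k (f : E) := hf.algebraMap
  have h2 : IsAlgebraic K (f : E) := h1.tower_top K
  obtain ⟨x, hx⟩ := h.mem_K_c1 f h2
  have h3 : τ (f : E) = f := f.2
  rw [hx, h.tauC] at h3
  obtain ⟨u, hu⟩ := h.fixed_c1 x ((algebraMap K E).injective h3)
  refine ⟨u, Subtype.ext ?_⟩
  rw [hx, hu, ← IsScalarTower.algebraMap_apply]
  rfl

/-- The basis `1, r` of `K` over `k`. -/
theorem ConicData.equiv_c1 (h : ConicData k K E a b r c t τ) : Nonempty ((k × k) ≃ₗ[k] K) := by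
  have : CharZero K := charZero_of_injective_algebraMap (algebraMap k K).injective
  let φ : (k × k) →ₗ[k] K :=
    (LinearMap.toSpanSingleton k K 1).coprod (LinearMap.toSpanSingleton k K r)
  have hφ : ∀ u v : k, φ (u, v) = algebraMap k K u + algebraMap k K v * r := by
    intro u v
    simp [φ, Algebra.smul_def]
  refine ⟨LinearEquiv.ofBijective φ ⟨?_, ?_⟩⟩
  · rw [injective_iff_map_eq_zero]
    rintro ⟨u, v⟩ huv
    rw [hφ] at huv
    have h1 := congrArg c huv
    simp only [map_add, map_mul, AlgHom.commutes, h.conj, map_zero] at h1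
    have h2 : (2 : K) * algebraMap k K u = 0 := by linear_combination huv + h1
    have h3 : (2 : K) * (algebraMap k K v * r) = 0 := by linear_combination huv - h1
    have hr := h.ne
    have h4 : u = 0 := by simpa using h2
    have h5 : v = 0 := by simpa [hr] using h3
    simp [h4, h5]
  · intro x
    obtain ⟨u, v, rfl⟩ := h.dec x
    exact ⟨(u, v), hφ u v⟩

theorem ConicData.trdeg_le (h : ConicData k K E a b r c t τ) : Algebra.trdeg k (LL τ) ≤ 1 := by
  obtain ⟨e⟩ := h.equiv_c1
  have : Module.Finite k K := Module.Finite.equiv e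
  have h1 : Algebra.trdeg k (LL τ) ≤ Algebra.trdeg k E :=
    trdeg_le_of_injective (LL τ).val (LL τ).val.toRingHom.injective
  have h2 := trdeg_add_eq k K (A := E)
  have h3 : Algebra.trdeg k K = 0 := trdeg_eq_zero
  have h4 : Algebra.trdeg K E ≤ 1 := by
    have : Algebra.IsAlgebraic (Algebra.adjoin K ({t} : Set E)) E := by
      constructor
      intro f
      obtain ⟨p, q, hq, rfl⟩ := h.gen f
      have hp' : IsAlgebraic (Algebra.adjoin K ({t} : Set E)) (aeval t p) :=
        isAlgebraic_algebraMap (⟨aeval t p, aeval_mem_adjoin_singleton K t⟩ :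
          Algebra.adjoin K ({t} : Set E))
      have hq' : IsAlgebraic (Algebra.adjoin K ({t} : Set E)) (aeval t q) :=
        isAlgebraic_algebraMap (⟨aeval t q, aeval_mem_adjoin_singleton K t⟩ :
          Algebra.adjoin K ({t} : Set E))
      rw [div_eq_mul_inv]
      exact hp'.mul hq'.inv
    have := Algebra.IsAlgebraic.trdeg_le_cardinalMk K ({t} : Set E)
    simpa using this
  rw [h3, zero_add] at h2
  exact h1.trans (h2 ▸ h4)

theorem ConicData.finrank_TT (h : ConicData k K E a b r c t τ) (n : ℕ) :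
    Module.finrank k (TT K t τ n) = 2 * n + 1 := by
  obtain ⟨e⟩ := h.equiv_c1
  have : Module.Finite k K := Module.Finite.equiv e
  have : CharZero E := charZero_of_injective_algebraMap (algebraMap k E).injective
  have hK : Module.finrank k K = 2 := by rw [← e.finrank_eq]; simp
  have ht := h.t_ne_c1
  have hb : algebraMap k E b ≠ 0 := by simpa using h.b_ne_c1
  have hinj := transcendental_iff_injective.mp h.trans
  have hr : algebraMap K E r ≠ 0 := by simpa using h.ne
  have hτr : τ (algebraMap K E r) = -algebraMap K E r := by rw [h.tauC, h.conj, map_neg]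
  let W := Polynomial.degreeLT K (2 * n + 1)
  have : Module.Finite k W := Module.Finite.trans K W
  have hW : Module.finrank k W = 2 * (2 * n + 1) := by
    rw [← Module.finrank_mul_finrank k K W, hK, Module.finrank_eq_card_basis (degreeLT.basis K _)]
    simp
  have hWmem : ∀ p : K[X], p ∈ W ↔ p.natDegree ≤ 2 * n := by
    intro p
    rw [Polynomial.mem_degreeLT]
    by_cases hp0 : p = 0
    · subst hp0
      simp only [degree_zero, natDegree_zero, Nat.zero_le, iff_true]
      exact WithBot.bot_lt_coe _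
    · rw [← natDegree_lt_iff_degree_lt hp0, Nat.lt_succ_iff]
  let A : W →ₗ[k] E :=
    ((aeval t : K[X] →ₐ[K] E).toLinearMap.restrictScalars k).comp (W.subtype.restrictScalars k)
  have hA : ∀ p : W, A p = aeval t (p : K[X]) := fun p => rfl
  have hAinj : Function.Injective A := hinj.comp Subtype.val_injective
  let v : TT K t τ n →ₗ[k] E := ((LL τ).val.toLinearMap).comp (TT K t τ n).subtype
  have hv : ∀ f : TT K t τ n, v f = ((f : LL τ) : E) := fun f => rfl
  let B : (TT K t τ n × TT K t τ n) →ₗ[k] E :=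
    ((LinearMap.mulRight k (t ^ n)).comp v).coprod
      ((LinearMap.mulRight k (algebraMap K E r * t ^ n)).comp v)
  have hB : ∀ f g : TT K t τ n, B (f, g) =
      (((f : LL τ) : E) + ((g : LL τ) : E) * algebraMap K E r) * t ^ n := by
    intro f g
    simp only [B, LinearMap.coprod_apply, LinearMap.comp_apply, LinearMap.mulRight_apply, hv]
    ring
  have hBinj : Function.Injective B := by
    rw [injective_iff_map_eq_zero]
    rintro ⟨f, g⟩ hfg
    rw [hB] at hfg
    have h1 : ((f : LL τ) : E) + ((g : LL τ) : E) * algebraMap K E r = 0 := by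
      simpa [ht] using hfg
    have h2 := congrArg τ h1
    have hf : τ ((f : LL τ) : E) = ((f : LL τ) : E) := (f : LL τ).2
    have hg : τ ((g : LL τ) : E) = ((g : LL τ) : E) := (g : LL τ).2
    rw [map_add, map_mul, hf, hg, hτr, map_zero] at h2
    have h3 : (2 : E) * ((f : LL τ) : E) = 0 := by linear_combination h1 + h2
    have h4 : (2 : E) * (((g : LL τ) : E) * algebraMap K E r) = 0 := by
      linear_combination h1 - h2
    have h5 : ((f : LL τ) : E) = 0 := by simpa using h3
    have h6 : ((g : LL τ) : E) = 0 := by simpa [hr] using h4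
    ext
    · exact h5
    · exact h6
  have hrange : LinearMap.range B = LinearMap.range A := by
    apply le_antisymm
    · rintro _ ⟨⟨f, g⟩, rfl⟩
      obtain ⟨p, hp, hf⟩ := f.2
      obtain ⟨q, hq, hg⟩ := g.2
      refine ⟨⟨p + C r * q, (hWmem _).mpr ((natDegree_add_le _ _).trans
        (max_le hp ((natDegree_C_mul_le _ _).trans hq)))⟩, ?_⟩
      rw [hA, hB, map_add, map_mul, aeval_C, ← hf, ← hg]
      ring
    · rintro _ ⟨p, rfl⟩
      have hp := (hWmem _).mp p.2
      obtain ⟨q, hq, hq2, -⟩ := h.tau_poly p (2 * n) hp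
      set φ : E := aeval t (p : K[X]) / t ^ n with hφ
      have h1 : φ * t ^ n = aeval t (p : K[X]) := by rw [hφ]; field_simp
      have hbK : algebraMap k K b ≠ 0 := by simpa using h.b_ne_c1
      have h2 : τ φ * t ^ n = aeval t (C ((algebraMap k K b ^ n)⁻¹) * q) := by
        rw [map_mul, aeval_C, ← hq2, hφ, map_div₀, map_pow, h.taut, map_inv₀, map_pow,
          ← IsScalarTower.algebraMap_apply, div_pow, two_mul, pow_add]
        field_simp
      have hq' : (C ((algebraMap k K b ^ n)⁻¹) * q).natDegree ≤ 2 * n :=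
        (natDegree_C_mul_le _ _).trans hq
      set q' := C ((algebraMap k K b ^ n)⁻¹) * q with hq'def
      have m1 : (φ + τ φ) / 2 ∈ LL τ := by
        rw [mem_LL, map_div₀, map_add, h.invol, map_ofNat, add_comm]
      have m2 : (φ - τ φ) / (2 * algebraMap K E r) ∈ LL τ := by
        rw [mem_LL, map_div₀, map_sub, h.invol, map_mul, map_ofNat, hτr]
        field_simp
        ring
      have n1 : (⟨_, m1⟩ : LL τ) ∈ TT K t τ n := by
        refine ⟨C (2 : K)⁻¹ * ((p : K[X]) + q'), (natDegree_C_mul_le _ _).trans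
          ((natDegree_add_le _ _).trans (max_le hp hq')), ?_⟩
        rw [map_mul, aeval_C, map_add, ← h1, ← h2, map_inv₀, map_ofNat]
        ring
      have n2 : (⟨_, m2⟩ : LL τ) ∈ TT K t τ n := by
        refine ⟨C (2 * r)⁻¹ * ((p : K[X]) - q'), (natDegree_C_mul_le _ _).trans
          ((natDegree_sub_le _ _).trans (max_le hp hq')), ?_⟩
        rw [map_mul, aeval_C, map_sub, ← h1, ← h2, map_inv₀, map_mul, map_ofNat]
        ring
      refine ⟨(⟨_, n1⟩, ⟨_, n2⟩), ?_⟩
      rw [hB, hA, ← h1]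
      field_simp
      ring
  have e1 := LinearEquiv.ofInjective B hBinj
  have e2 := LinearEquiv.ofInjective A hAinj
  rw [hrange] at e1
  have e3 := e1.trans e2.symm
  have : Module.Finite k (TT K t τ n × TT K t τ n) := Module.Finite.equiv e3.symm
  have : Module.Finite k (TT K t τ n) :=
    Module.Finite.of_surjective (LinearMap.fst k _ (TT K t τ n)) Prod.fst_surjective
  have h5 := e3.finrank_eq
  rw [Module.finrank_prod, hW] at h5
  omega

end Zc68
end

-- merged part: Pool.Agent.Work.MP_d65f04_ag.Conic2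
section
/-! Base point free representatives of points with coordinates in the function field. -/

namespace Zc68

open Polynomial

variable {k K E : Type} [Field k] [CharZero k] [Field K] [Field E] [Algebra k K] [Algebra K E]
  [Algebra k E] [IsScalarTower k K E] {a b : k} {r : K} {c : K →ₐ[k] K} {t : E}
  {τ : E →ₐ[k] E}

omit [CharZero k] in
theorem ConicData.clear_conic2 (h : ConicData k K E a b r c t τ) (x : Fin 5 → E) (hx : x ≠ 0) :
    ∃ (lam : E) (p e : Fin 5 → K[X]), lam ≠ 0 ∧ (∀ j, x j = lam * aeval t (p j)) ∧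
      ∑ j, e j * p j = 1 := by
  have hinj : ∀ q : K[X], q ≠ 0 → aeval t q ≠ 0 := fun q hq h0 => h.trans ⟨q, hq, h0⟩
  choose P Q hQ hPQ using fun j => h.gen (x j)
  have hQ0 : (∏ j, Q j) ≠ 0 := Finset.prod_ne_zero_iff.2 fun j _ => hQ j
  have h1 : ∀ j, ∃ P' : K[X], x j * aeval t (∏ j, Q j) = aeval t P' := by
    intro j
    obtain ⟨R, hR⟩ := Finset.dvd_prod_of_mem Q (Finset.mem_univ j)
    refine ⟨P j * R, ?_⟩
    rw [hR, hPQ j, map_mul, map_mul]
    field_simp [hinj _ (hQ j)]
  choose P' hP' using h1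
  obtain ⟨g, hg⟩ := (IsPrincipalIdealRing.principal (Ideal.span (Set.range P'))).principal
  have h2 : ∀ j, ∃ p : K[X], P' j = g * p := by
    intro j
    have : P' j ∈ Ideal.span (Set.range P') := Ideal.subset_span ⟨j, rfl⟩
    rw [hg] at this
    exact Ideal.mem_span_singleton.1 this
  choose p hp using h2
  have h3 : g ∈ Ideal.span (Set.range P') := by
    rw [hg]; exact Ideal.mem_span_singleton_self g
  obtain ⟨e, he⟩ := Ideal.mem_span_range_iff_exists_fun.1 h3
  have hg0 : g ≠ 0 := by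
    rintro rfl
    refine hx (funext fun j => ?_)
    have := hP' j
    rw [hp j, zero_mul, map_zero] at this
    exact (mul_eq_zero.1 this).resolve_right (hinj _ hQ0)
  refine ⟨aeval t g / aeval t (∏ j, Q j), p, e, div_ne_zero (hinj _ hg0) (hinj _ hQ0),
    fun j => ?_, ?_⟩
  · rw [div_mul_eq_mul_div, eq_div_iff (hinj _ hQ0), hP' j, hp j, map_mul]
  · refine mul_left_cancel₀ hg0 ?_
    rw [mul_one, Finset.mul_sum]
    conv_rhs => rw [← he]
    exact Finset.sum_congr rfl fun j _ => by rw [hp j]; ring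

/-- A primitive representative. -/
theorem ConicData.primitive (h : ConicData k K E a b r c t τ) (x : Fin 5 → LL τ) (hx : x ≠ 0) :
    ∃ (ν : LL τ) (m : ℕ) (p : Fin 5 → K[X]), ν ≠ 0 ∧
      (∀ j, ((ν * x j : LL τ) : E) * t ^ m = aeval t (p j)) ∧ (∀ j, (p j).natDegree ≤ 2 * m) ∧
      (∃ j, (p j).coeff (2 * m) ≠ 0) ∧ Ideal.span (Set.range p) = ⊤ := by
  have hinj : ∀ q : K[X], q ≠ 0 → aeval t q ≠ 0 := fun q hq h0 => h.trans ⟨q, hq, h0⟩
  have ht : t ≠ 0 := by simpa using hinj X X_ne_zero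
  have hx' : (fun j => (x j : E)) ≠ 0 := fun h0 =>
    hx (funext fun j => Subtype.ext (congrFun h0 j))
  obtain ⟨lam, p, e, hlam, hp, he⟩ := h.clear_conic2 _ hx'
  obtain ⟨j0, -, hj0⟩ := Finset.exists_max_image Finset.univ (fun j => (p j).degree)
    Finset.univ_nonempty
  have hp0 : p j0 ≠ 0 := by
    intro h0
    have : ∀ j, p j = 0 := fun j => by
      have := hj0 j (Finset.mem_univ j)
      rwa [h0, degree_zero, le_bot_iff, degree_eq_bot] at this
    simp [this] at he
  obtain ⟨d, hd⟩ : ∃ d, (p j0).natDegree = d := ⟨_, rfl⟩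
  have hdeg : ∀ j, (p j).natDegree ≤ d := fun j =>
    hd ▸ natDegree_le_natDegree (hj0 j (Finset.mem_univ j))
  choose q hq1 hq2 _ using fun j => h.tau_poly (p j) d (hdeg j)
  have hτlam : τ lam ≠ 0 := (_root_.map_ne_zero τ).2 hlam
  have hq3 : ∀ j, aeval t (q j) * τ lam = lam * t ^ d * aeval t (p j) := by
    intro j
    have h1 : τ (x j : E) = x j := (x j).2
    rw [hp j, map_mul] at h1
    rw [← hq2 j]
    linear_combination t ^ d * h1
  have hκ0 : aeval t (∑ j, e j * q j) * τ lam = lam * t ^ d := by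
    have h1 : aeval t (∑ j, e j * p j) = (1 : E) := by rw [he, map_one]
    rw [map_sum] at h1
    rw [map_sum, Finset.sum_mul, ← mul_one (lam * t ^ d), ← h1, Finset.mul_sum]
    refine Finset.sum_congr rfl fun j _ => ?_
    rw [map_mul, map_mul, mul_assoc, hq3 j]
    ring
  generalize (∑ j, e j * q j) = κ0 at hκ0
  have hκne : κ0 ≠ 0 := by
    rintro rfl
    rw [map_zero, zero_mul] at hκ0
    exact mul_ne_zero hlam (pow_ne_zero _ ht) hκ0.symm
  have hq4 : q j0 = κ0 * p j0 := by
    by_contra hne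
    refine hinj _ (sub_ne_zero.2 hne) (mul_right_cancel₀ hτlam ?_)
    rw [map_sub, map_mul, sub_mul, hq3 j0, ← hκ0]
    ring
  have hκdeg : κ0.natDegree = 0 := by
    have h1 := hq1 j0
    rw [hq4, natDegree_mul hκne hp0, hd] at h1
    omega
  obtain ⟨κ, rfl⟩ := natDegree_eq_zero.1 hκdeg
  rw [aeval_C] at hκ0
  have hb : algebraMap k K b ≠ 0 := by simpa [eq_comm] using h.nonnorm 0
  have hbE : algebraMap k E b = algebraMap K E (algebraMap k K b) :=
    IsScalarTower.algebraMap_apply k K E b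
  have hbE0 : algebraMap K E (algebraMap k K b) ≠ 0 := (_root_.map_ne_zero _).2 hb
  have hnorm : κ * c κ = algebraMap k K b ^ d := by
    have h1 := congrArg τ hκ0
    rw [map_mul, map_mul, map_pow, h.invol, h.tauC, h.taut, hbE, div_pow] at h1
    refine (algebraMap K E).injective (mul_right_cancel₀ hlam ?_)
    rw [map_mul, map_pow, mul_assoc, h1, ← mul_assoc, hκ0]
    field_simp
  have hcb : c (algebraMap k K b) = algebraMap k K b := c.commutes b
  rcases Nat.even_or_odd' d with ⟨m, rfl | rfl⟩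
  · obtain ⟨μ, hμ0, hμ⟩ : ∃ μ : K, μ ≠ 0 ∧ μ * algebraMap k K b ^ m = κ * c μ := by
      by_cases hη : algebraMap k K b ^ m + κ = 0
      · refine ⟨r, h.ne, ?_⟩
        rw [h.conj]
        linear_combination r * hη
      · refine ⟨_, hη, ?_⟩
        rw [map_add, map_pow, hcb]
        linear_combination -hnorm
    have hν : τ (algebraMap K E μ / (lam * t ^ m)) = algebraMap K E μ / (lam * t ^ m) := by
      have h1 := congrArg (algebraMap K E) hμ
      rw [map_mul, map_mul, map_pow] at h1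
      rw [map_div₀, map_mul, map_pow, h.tauC, h.taut, hbE, div_pow,
        div_eq_div_iff (mul_ne_zero hτlam (div_ne_zero (pow_ne_zero _ hbE0) (pow_ne_zero _ ht))) (mul_ne_zero hlam (pow_ne_zero _ ht))]
      field_simp
      linear_combination (-algebraMap K E (c μ)) * hκ0 - τ lam * h1
    refine ⟨⟨_, hν⟩, m, fun j => C μ * p j, fun h0 => ?_, fun j => ?_, fun j => ?_, ⟨j0, ?_⟩, ?_⟩
    · exact div_ne_zero ((_root_.map_ne_zero _).2 hμ0) (mul_ne_zero hlam (pow_ne_zero _ ht))
        (congrArg Subtype.val h0)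
    · change algebraMap K E μ / (lam * t ^ m) * (x j : E) * t ^ m = _
      rw [map_mul, aeval_C, hp j]
      field_simp
    · exact (natDegree_C_mul_le _ _).trans (hdeg j)
    · rw [coeff_C_mul, ← hd]
      exact mul_ne_zero hμ0 (leadingCoeff_ne_zero.2 hp0)
    · rw [Ideal.eq_top_iff_one, Ideal.mem_span_range_iff_exists_fun]
      refine ⟨fun j => C μ⁻¹ * e j, ?_⟩
      rw [← he]
      refine Finset.sum_congr rfl fun j _ => ?_
      rw [mul_mul_mul_comm, ← C_mul, inv_mul_cancel₀ hμ0, C_1, one_mul]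
  · refine absurd ?_ (h.nonnorm (κ / algebraMap k K b ^ m))
    rw [map_div₀, map_pow, hcb, div_mul_div_comm, hnorm]
    field_simp
    ring

end Zc68
end

-- merged part: Pool.Agent.Work.MP_d65f04_ag.Conic2b
section
/-! Base point free representatives of points with coordinates in the function field. -/

namespace Zc68

open Polynomial

variable {k K E : Type} [Field k] [CharZero k] [Field K] [Field E] [Algebra k K] [Algebra K E]
  [Algebra k E] [IsScalarTower k K E] {a b : k} {r : K} {c : K →ₐ[k] K} {t : E}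
  {τ : E →ₐ[k] E}

omit [CharZero k] in
theorem ConicData.t_ne_c2b (h : ConicData k K E a b r c t τ) : t ≠ 0 := by
  rintro rfl
  exact h.trans isAlgebraic_zero

omit [CharZero k] in
theorem ConicData.b_ne_c2b (h : ConicData k K E a b r c t τ) : b ≠ 0 := by
  rintro rfl
  exact h.nonnorm 0 (by simp)

/-- Averaging over the involution. -/
theorem ConicData.avg_c2b (h : ConicData k K E a b r c t τ) (N : ℕ) (p : K[X])
    (hp : p.natDegree ≤ 2 * N) : ∃ g ∈ TT K t τ N,
      2 * (g : E) = aeval t p / t ^ N + τ (aeval t p / t ^ N) := by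
  have ht := h.t_ne_c2b
  have hb : algebraMap k E b ≠ 0 := by simpa using h.b_ne_c2b
  have : CharZero E := charZero_of_injective_algebraMap (algebraMap k E).injective
  set y : E := aeval t p / t ^ N with hy
  have hmem : (y + τ y) / 2 ∈ LL τ := by
    rw [mem_LL, map_div₀, map_add, h.invol, map_ofNat, add_comm]
  obtain ⟨q, hq, hq', -⟩ := h.tau_poly p (2 * N) hp
  refine ⟨⟨_, hmem⟩, ⟨C (algebraMap k K 2⁻¹) * (p + C (algebraMap k K (b ^ N)⁻¹) * q),
    (natDegree_C_mul_le _ _).trans ((natDegree_add_le _ _).trans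
      (max_le hp ((natDegree_C_mul_le _ _).trans hq))), ?_⟩, ?_⟩
  · simp only [map_mul, map_add, aeval_C, ← IsScalarTower.algebraMap_apply, ← hq', hy, map_div₀,
      map_pow, h.taut, map_inv₀, map_ofNat, div_pow]
    field_simp
    ring
  · simp only
    ring

theorem exists_coeffs_c2b (p : Fin 5 → K[X]) (d : ℕ) (hlead : ∃ j, (p j).coeff d ≠ 0)
    (hcop : Ideal.span (Set.range p) = ⊤) (G0 : K[X]) (hG0 : G0 ≠ 0) :
    ∃ e : Fin 5 → k, (∑ j, e j • p j).coeff d ≠ 0 ∧ IsCoprime (∑ j, e j • p j) G0 := by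
  classical
  let L : (Fin 5 → k) →ₗ[k] K[X] := Fintype.linearCombination k p
  have hL : ∀ e, L e = ∑ j, e j • p j := fun e => Fintype.linearCombination_apply k p e
  have hL1 : ∀ j, L (Pi.single j 1) = p j := fun j => by simp [L]
  let W : Option {q // q ∈ (UniqueFactorizationMonoid.factors G0).toFinset} →
      Submodule k (Fin 5 → k) := fun o => match o with
    | none => LinearMap.ker (((lcoeff K d).restrictScalars k).comp L)
    | some q => ((Ideal.span {q.1}).restrictScalars k).comap L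
  have hW : ∀ o, W o ≠ ⊤ := by
    rintro (_ | q) hq
    · obtain ⟨j, hj⟩ := hlead
      have : Pi.single j 1 ∈ W none := hq ▸ Submodule.mem_top
      apply hj
      simpa [W, hL1] using this
    · have hirr : Irreducible q.1 :=
        UniqueFactorizationMonoid.irreducible_of_factor _ (Multiset.mem_toFinset.1 q.2)
      have : Ideal.span (Set.range p) ≤ Ideal.span {q.1} := by
        rw [Ideal.span_le]
        rintro _ ⟨j, rfl⟩
        have : Pi.single j 1 ∈ W (some q) := hq ▸ Submodule.mem_top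
        simpa [W, hL1] using this
      rw [hcop, top_le_iff, Ideal.span_singleton_eq_top] at this
      exact hirr.not_isUnit this
  obtain ⟨e, he⟩ := Submodule.exists_forall_notMem_of_forall_ne_top W hW
  refine ⟨e, ?_, ?_⟩
  · have := he none
    simpa [W, hL] using this
  · refine (isCoprime_of_irreducible_dvd (fun h => hG0 h.1) fun z hz hzG hzl => ?_).symm
    obtain ⟨q, hq, hzq⟩ := UniqueFactorizationMonoid.exists_mem_factors_of_dvd hG0 hz hzG
    apply he (some ⟨q, Multiset.mem_toFinset.2 hq⟩)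
    simp only [W, Submodule.mem_comap, Submodule.restrictScalars_mem, Ideal.mem_span_singleton, hL]
    exact hzq.symm.dvd.trans hzl

/-- Division with degree control. -/
theorem exists_div_c2b {l G0 f : K[X]} {d D : ℕ} (hl : l.natDegree = d) (hl0 : l ≠ 0)
    (hcop : IsCoprime l G0) (hG : G0.natDegree ≤ D) (hf : f.natDegree ≤ D + d) :
    ∃ g w : K[X], g.natDegree ≤ D ∧ w.natDegree ≤ d ∧ f = l * g + G0 * w := by
  obtain ⟨A, B, hAB⟩ := hcop
  have hw : ((B * f) % l).natDegree ≤ d :=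
    hl ▸ natDegree_le_natDegree (degree_mod_lt _ hl0).le
  have hdiv := EuclideanDomain.div_add_mod (B * f) l
  have key : f = l * (A * f + G0 * (B * f / l)) + G0 * ((B * f) % l) := by
    linear_combination (-f) * hAB - G0 * hdiv
  refine ⟨_, _, ?_, hw, key⟩
  set g := A * f + G0 * (B * f / l)
  rcases eq_or_ne g 0 with hg | hg
  · simp [hg]
  · have h1 : l * g = f - G0 * ((B * f) % l) := by rw [eq_sub_iff_add_eq]; exact key.symm
    have h2 : (l * g).natDegree ≤ D + d := by
      rw [h1]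
      exact (natDegree_sub_le _ _).trans (max_le hf (natDegree_mul_le.trans (add_le_add hG hw)))
    rw [natDegree_mul hl0 hg, hl] at h2
    omega

/-- The base point free pencil trick. -/
theorem ConicData.gen_of_primitive (h : ConicData k K E a b r c t τ) (x : Fin 5 → LL τ) (m : ℕ)
    (p : Fin 5 → K[X]) (hx : ∀ j, (x j : E) * t ^ m = aeval t (p j))
    (hp : ∀ j, (p j).natDegree ≤ 2 * m) (hlead : ∃ j, (p j).coeff (2 * m) ≠ 0)
    (hcop : Ideal.span (Set.range p) = ⊤) (s : ℕ) (G : LL τ) (hG : G ∈ TT K t τ (m * s))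
    (hG0 : G ≠ 0) : ∃ e : Fin 5 → k, ∀ n, ∀ f ∈ TT K t τ (m * (n + s + 1)),
      ∃ g ∈ TT K t τ (m * (n + s)), ∃ w ∈ TT K t τ (m * (n + 1)),
        f = (∑ j, e j • x j) * g + G * w := by
  have ht := h.t_ne_c2b
  have : CharZero E := charZero_of_injective_algebraMap (algebraMap k E).injective
  obtain ⟨G0, hG0d, hG0e⟩ := hG
  have hG00 : G0 ≠ 0 := by
    rintro rfl
    rw [map_zero, mul_eq_zero] at hG0e
    exact hG0e.elim (fun h1 => hG0 (Subtype.ext h1)) (pow_ne_zero _ ht)
  obtain ⟨e, he, hco⟩ := exists_coeffs_c2b (k := k) p (2 * m) hlead hcop G0 hG00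
  refine ⟨e, fun n f hf => ?_⟩
  obtain ⟨f0, hf0d, hf0e⟩ := hf
  set l := ∑ j, e j • p j with hl
  have hl0 : l ≠ 0 := fun h0 => he (by rw [h0, coeff_zero])
  have hld : l.natDegree = 2 * m := by
    refine le_antisymm ?_ (le_natDegree_of_ne_zero he)
    exact natDegree_sum_le_of_forall_le _ _ fun j _ => (natDegree_smul_le _ _).trans (hp j)
  obtain ⟨g0, w0, hg0, hw0, hf0⟩ := exists_div_c2b (f := f0) (D := 2 * (m * (n + s))) hld hl0 hco
    (hG0d.trans (by gcongr; omega)) (hf0d.trans (le_of_eq (by ring)))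
  obtain ⟨g, hg, hge⟩ := h.avg_c2b (m * (n + s)) g0 hg0
  obtain ⟨w, hw, hwe⟩ := h.avg_c2b (m * (n + 1)) w0
    (hw0.trans (by gcongr; exact Nat.le_mul_of_pos_right _ n.succ_pos))
  refine ⟨g, hg, w, hw, ?_⟩
  set lam : LL τ := ∑ j, e j • x j with hlam
  have hle : (lam : E) * t ^ m = aeval t l := by
    rw [hlam, hl, map_sum, AddSubmonoidClass.coe_finsetSum, Finset.sum_mul]
    refine Finset.sum_congr rfl fun j _ => ?_
    have h1 : ((e j • x j : LL τ) : E) = e j • (x j : E) := rfl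
    rw [h1, smul_mul_assoc, hx j, ← algebraMap_smul K (e j) (p j), map_smul, algebraMap_smul]
  have key : (f : E) = lam * (aeval t g0 / t ^ (m * (n + s))) +
      G * (aeval t w0 / t ^ (m * (n + 1))) := by
    have h1 : (f : E) = aeval t f0 / t ^ (m * (n + s + 1)) := by
      rw [← hf0e]; field_simp
    have h2 : (lam : E) = aeval t l / t ^ m := by rw [← hle]; field_simp
    have h3 : (G : E) = aeval t G0 / t ^ (m * s) := by rw [← hG0e]; field_simp
    rw [h1, h2, h3, hf0, map_add, map_mul, map_mul]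
    field_simp
    ring
  have key' := congrArg τ key
  rw [map_add, map_mul, map_mul, (mem_LL τ _).1 f.2, (mem_LL τ _).1 lam.2,
    (mem_LL τ _).1 G.2] at key'
  apply Subtype.ext
  have h2 : (2 : E) ≠ 0 := two_ne_zero
  apply mul_left_cancel₀ h2
  push_cast
  linear_combination key + key' - (lam : E) * hge - (G : E) * hwe

end Zc68
end

-- merged part: Pool.Agent.Work.MP_d65f04_ag.QF1
section
/-! Theorems of Springer and Amer-Brumer for diagonal quadratic forms. -/

namespace Zc68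

open Polynomial

theorem coeff_form_qf1 {F ι : Type} [Field F] [Fintype ι] (c : ι → F) (w : ι → F[X]) (d : ℕ)
    (hw : ∀ j, (w j).natDegree ≤ d) :
    (∑ j, C (c j) * w j ^ 2).coeff (2 * d) = ∑ j, c j * (w j).coeff d ^ 2 := by
  rw [finsetSum_coeff]
  refine Finset.sum_congr rfl fun j _ => ?_
  rw [coeff_C_mul, coeff_pow_of_natDegree_le (hw j)]

theorem natDegree_form_le_qf1 {F ι : Type} [Field F] [Fintype ι] (c : ι → F) (w : ι → F[X])
    (d : ℕ) (hw : ∀ j, (w j).natDegree ≤ d) :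
    (∑ j, C (c j) * w j ^ 2).natDegree ≤ 2 * d := by
  refine natDegree_sum_le_of_forall_le _ _ fun j _ => ?_
  refine (natDegree_C_mul_le _ _).trans (natDegree_pow_le.trans ?_)
  exact Nat.mul_le_mul_left _ (hw j)

theorem exists_odd_factor_qf1 {F : Type} [Field F] (h : F[X]) (hodd : Odd h.natDegree) :
    ∃ p : F[X], Irreducible p ∧ Odd p.natDegree ∧ p ∣ h := by
  induction h using WfDvdMonoid.induction_on_irreducible with
  | zero => simp at hodd
  | unit u hu => rw [natDegree_eq_zero_of_isUnit hu] at hodd; simp at hodd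
  | mul a i ha hi ih =>
    rw [natDegree_mul hi.ne_zero ha] at hodd
    by_cases h1 : Odd i.natDegree
    · exact ⟨i, hi, h1, dvd_mul_right _ _⟩
    · have h2 : Odd a.natDegree := by
        rw [Nat.odd_add] at hodd
        rw [Nat.not_odd_iff_even] at h1
        by_contra h3
        rw [Nat.not_odd_iff_even] at h3
        exact (Nat.not_odd_iff_even.mpr h1) (hodd.mpr h3)
      obtain ⟨p, hp, hp1, hp2⟩ := ih h2
      exact ⟨p, hp, hp1, hp2.mul_left _⟩

theorem springer_poly_qf1 {F ι : Type} [Field F] [Fintype ι] (c : ι → F)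
    (h : ∀ v : ι → F, ∑ j, c j * v j ^ 2 = 0 → v = 0) (n : ℕ) :
    ∀ p : F[X], Irreducible p → p.natDegree = n → Odd n →
      ∀ v : ι → F[X], p ∣ ∑ j, C (c j) * v j ^ 2 → ∀ j, p ∣ v j := by
  induction n using Nat.strong_induction_on with
  | _ n ih =>
  intro p hp hn hodd
  have key : ∀ d : ℕ, d ≤ n → ∀ w : ι → F[X], (∀ j, (w j).degree < d) →
      p ∣ ∑ j, C (c j) * w j ^ 2 → w = 0 := by
    intro d
    induction d with
    | zero =>
      intro _ w hw _
      funext j
      have := hw j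
      simpa using this
    | succ d ihd =>
      intro hd w hw hdvd
      have hwd : ∀ j, (w j).natDegree ≤ d := fun j => by
        have := hw j
        rw [natDegree_le_iff_degree_le]
        exact_mod_cast (Order.le_of_lt_succ (by
          rcases eq_or_ne (w j) 0 with h0 | h0
          · rw [h0]; simp only [degree_zero]; exact bot_lt_iff_ne_bot.mpr (by
              intro hh; have := Order.le_succ (d : WithBot ℕ); rw [hh] at this; simp at this)
          · rw [degree_eq_natDegree h0] at this ⊢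
            have h1 : (w j).natDegree < d + 1 := by exact_mod_cast this
            exact Order.lt_succ_of_le (by exact_mod_cast Nat.lt_succ_iff.mp h1)) :
              (w j).degree ≤ (d : WithBot ℕ))
      by_cases ha : ∀ j, (w j).coeff d = 0
      · refine ihd (Nat.le_of_succ_le hd) w (fun j => ?_) hdvd
        rw [degree_lt_iff_coeff_zero]
        intro m hm
        rcases hm.eq_or_lt with h1 | h1
        · rw [← h1]; exact ha j
        · exact coeff_eq_zero_of_natDegree_lt ((hwd j).trans_lt h1)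
      · exfalso
        have hc : (∑ j, C (c j) * w j ^ 2).coeff (2 * d) ≠ 0 := by
          rw [coeff_form_qf1 c w d hwd]
          intro h0
          exact ha fun j => congrFun (h _ h0) j
        have hdeg : (∑ j, C (c j) * w j ^ 2).natDegree = 2 * d :=
          le_antisymm (natDegree_form_le_qf1 c w d hwd) (le_natDegree_of_ne_zero hc)
        have hne : (∑ j, C (c j) * w j ^ 2) ≠ 0 := fun h0 => hc (by rw [h0]; simp)
        obtain ⟨g, hg⟩ := hdvd
        have hg0 : g ≠ 0 := fun h0 => hne (by rw [hg, h0, mul_zero])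
        have hdg : n + g.natDegree = 2 * d := by
          rw [← hdeg, hg, natDegree_mul hp.ne_zero hg0, hn]
        have hgodd : Odd g.natDegree := by
          obtain ⟨k, hk⟩ := hodd
          exact ⟨d - k - 1, by omega⟩
        obtain ⟨q, hq, hqodd, hqg⟩ := exists_odd_factor_qf1 g hgodd
        have hqd : q.natDegree ≤ g.natDegree := natDegree_le_of_dvd hqg hg0
        have hqn : q.natDegree < n := by omega
        have hqw : ∀ j, q ∣ w j := ih _ hqn q hq rfl hqodd w (by rw [hg]; exact hqg.mul_left _)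
        choose u hu using hqw
        have hq1 : 1 ≤ q.natDegree := hqodd.pos
        have hud : ∀ j, (u j).degree < d := fun j => by
          rcases eq_or_ne (u j) 0 with h0 | h0
          · rw [h0]; simp
          · have h1 := hwd j
            rw [hu j, natDegree_mul hq.ne_zero h0] at h1
            rw [degree_eq_natDegree h0]
            exact_mod_cast (by omega : (u j).natDegree < d)
        have hfac : ∑ j, C (c j) * w j ^ 2 = q ^ 2 * ∑ j, C (c j) * u j ^ 2 := by
          rw [Finset.mul_sum]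
          refine Finset.sum_congr rfl fun j _ => ?_
          rw [hu j]; ring
        have hpr : Prime p := hp.prime
        have hpu : p ∣ ∑ j, C (c j) * u j ^ 2 := by
          have : p ∣ q ^ 2 * ∑ j, C (c j) * u j ^ 2 := by rw [← hfac, hg]; exact dvd_mul_right _ _
          rcases hpr.dvd_or_dvd this with h1 | h1
          · have := natDegree_le_of_dvd (hpr.dvd_of_dvd_pow h1) hq.ne_zero
            omega
          · exact h1
        have hu0 := ihd (Nat.le_of_succ_le hd) u hud hpu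
        exact ha fun j => by rw [hu j, congrFun hu0 j]; simp
  intro v hv j
  have hw := key n le_rfl (fun j => v j % p) (fun j => by
    have := degree_mod_lt (v j) hp.ne_zero
    rwa [degree_eq_natDegree hp.ne_zero, hn] at this) (by
    have h1 : p ∣ ∑ j, C (c j) * v j ^ 2 - ∑ j, C (c j) * (v j % p) ^ 2 := by
      rw [← Finset.sum_sub_distrib]
      refine Finset.dvd_sum fun j _ => ?_
      have h2 : v j - v j % p = p * (v j / p) := by
        have := EuclideanDomain.div_add_mod (v j) p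
        linear_combination -this
      exact ⟨C (c j) * (v j / p) * (v j + v j % p), by linear_combination (C (c j) * (v j + v j % p)) * h2⟩
    have h3 := dvd_sub hv h1
    simpa using h3)
  exact EuclideanDomain.mod_eq_zero.mp (congrFun hw j)

/-- Springer: a diagonal form that is anisotropic over `F` stays anisotropic over a finite
extension of odd degree. -/
theorem springer {F K ι : Type} [Field F] [CharZero F] [Field K] [Algebra F K]
    [FiniteDimensional F K] (hodd : Odd (Module.finrank F K)) [Fintype ι] (c : ι → F)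
    (h : ∀ v : ι → F, ∑ j, c j * v j ^ 2 = 0 → v = 0)
    (v : ι → K) (hv : ∑ j, algebraMap F K (c j) * v j ^ 2 = 0) : v = 0 := by
  let pb : PowerBasis F K := Field.powerBasisOfFiniteOfSeparable F K
  choose w hw using fun j => pb.exists_eq_aeval' (v j)
  have hirr : Irreducible (minpoly F pb.gen) := minpoly.irreducible pb.isIntegral_gen
  have hdeg : (minpoly F pb.gen).natDegree = Module.finrank F K := by
    rw [pb.natDegree_minpoly, pb.finrank]
  have hd : minpoly F pb.gen ∣ ∑ j, C (c j) * w j ^ 2 := by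
    refine minpoly.dvd F pb.gen ?_
    rw [map_sum, ← hv]
    refine Finset.sum_congr rfl fun j _ => ?_
    rw [map_mul, map_pow, aeval_C, ← hw j]
  funext j
  obtain ⟨g, hg⟩ := springer_poly_qf1 c h _ _ hirr hdeg hodd w hd j
  rw [hw j, hg, map_mul, minpoly.aeval, zero_mul]
  rfl

theorem amer_brumer_aux_qf1 {F ι : Type} [Field F] [Fintype ι] (c c' : ι → F)
    (h : ∀ v : ι → F, ∑ j, c j * v j ^ 2 = 0 → ∑ j, c' j * v j ^ 2 = 0 → v = 0) (n : ℕ) :
    ∀ v : ι → F[X], (∀ j, (v j).degree < n) →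
      ∑ j, (C (c j) + X * C (c' j)) * v j ^ 2 = 0 → v = 0 := by
  induction n with
  | zero =>
    intro v hv _
    funext j
    simpa using hv j
  | succ n ih =>
    intro v hvd hv
    set a : ι → F := fun j => (v j).coeff n with ha
    set w : ι → F[X] := fun j => v j - X ^ n * C (a j) with hw
    have hcz : ∀ j m, n < m → (v j).coeff m = 0 := fun j m hm =>
      (degree_lt_iff_coeff_zero _ _).mp (hvd j) m hm
    have hvn : ∀ j, (v j).natDegree ≤ n := fun j =>
      natDegree_le_iff_coeff_eq_zero.mpr (hcz j)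
    have hwd : ∀ j, (w j).degree < n := fun j => by
      rw [degree_lt_iff_coeff_zero]
      intro m hm
      simp only [hw, coeff_sub, coeff_mul_C, coeff_X_pow]
      rcases hm.eq_or_lt with h1 | h1
      · subst h1; simp [ha]
      · rw [hcz j m h1, if_neg h1.ne']; simp
    by_cases ha0 : a = 0
    · refine ih v (fun j => ?_) hv
      have : w j = v j := by simp [hw, ha0]
      rw [← this]; exact hwd j
    exfalso
    have hsplit : ∑ j, (C (c j) + X * C (c' j)) * v j ^ 2 =
        ∑ j, C (c j) * v j ^ 2 + X * ∑ j, C (c' j) * v j ^ 2 := by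
      rw [Finset.mul_sum, ← Finset.sum_add_distrib]
      exact Finset.sum_congr rfl fun j _ => by ring
    have hpsi : ∑ j, c' j * a j ^ 2 = 0 := by
      have h1 := congrArg (fun p => p.coeff (2 * n + 1)) hv
      simp only [hsplit, coeff_add, coeff_X_mul, coeff_zero] at h1
      rw [coeff_eq_zero_of_natDegree_lt
        ((natDegree_form_le_qf1 c v n hvn).trans_lt (Nat.lt_succ_self _)), zero_add,
        coeff_form_qf1 c' v n hvn] at h1
      exact h1
    set A : F := ∑ j, c j * a j ^ 2 with hA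
    have hA0 : A ≠ 0 := fun h0 => ha0 (h a h0 hpsi)
    have hrhoa : ∑ j, (C (c j) + X * C (c' j)) * C (a j) ^ 2 = C A := by
      have h1 : ∑ j, (C (c j) + X * C (c' j)) * C (a j) ^ 2 =
          C (∑ j, c j * a j ^ 2) + X * C (∑ j, c' j * a j ^ 2) := by
        rw [map_sum, map_sum, Finset.mul_sum, ← Finset.sum_add_distrib]
        exact Finset.sum_congr rfl fun j _ => by simp only [map_mul, map_pow]; ring
      rw [h1, hpsi]; simp [hA]
    set R : F[X] := ∑ j, (C (c j) + X * C (c' j)) * w j ^ 2 with hR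
    set b : F[X] := ∑ j, 2 * ((C (c j) + X * C (c' j)) * w j * C (a j)) with hb
    have hexp : ∀ t : F[X], ∑ j, (C (c j) + X * C (c' j)) * (w j + t * C (a j)) ^ 2 =
        R + t * b + t ^ 2 * C A := fun t => by
      rw [← hrhoa, hR, hb, Finset.mul_sum, Finset.mul_sum, ← Finset.sum_add_distrib,
        ← Finset.sum_add_distrib]
      exact Finset.sum_congr rfl fun j _ => by ring
    have hvw : ∀ j, v j = w j + X ^ n * C (a j) := fun j => by simp [hw]
    have h1 : R + X ^ n * b + (X ^ n) ^ 2 * C A = 0 := by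
      rw [← hexp, ← hv]
      exact Finset.sum_congr rfl fun j _ => by rw [← hvw j]
    set s : F[X] := -(b + X ^ n * C A) with hs
    have hRs : R = X ^ n * s := by rw [hs]; linear_combination h1
    have hRd : R.degree < ((2 * n : ℕ) : WithBot ℕ) := by
      rw [← mem_degreeLT, hR]
      refine Submodule.sum_mem _ fun j _ => ?_
      rw [mem_degreeLT]
      rcases eq_or_ne (w j) 0 with h0 | h0
      · rw [h0, zero_pow two_ne_zero, mul_zero, degree_zero]
        exact WithBot.bot_lt_coe _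
      · have h2 : (w j).natDegree < n := by
          have := hwd j
          rw [degree_eq_natDegree h0] at this
          exact_mod_cast this
        have h3 : (C (c j) + X * C (c' j)).natDegree ≤ 1 := by compute_degree
        have h4 : ((C (c j) + X * C (c' j)) * w j ^ 2).natDegree < 2 * n := by
          have h5 := natDegree_mul_le (p := C (c j) + X * C (c' j)) (q := w j ^ 2)
          have h6 := natDegree_pow_le (p := w j) (n := 2)
          omega
        exact degree_le_natDegree.trans_lt (by exact_mod_cast h4)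
    have hsd : s.degree < n := by
      rcases eq_or_ne s 0 with h0 | h0
      · rw [h0]; simp
      · have h2 : R ≠ 0 := by rw [hRs]; exact mul_ne_zero (pow_ne_zero _ X_ne_zero) h0
        rw [degree_eq_natDegree h2, hRs, natDegree_mul (pow_ne_zero _ X_ne_zero) h0,
          natDegree_X_pow] at hRd
        rw [degree_eq_natDegree h0]
        have h3 : n + s.natDegree < 2 * n := by exact_mod_cast hRd
        exact_mod_cast (by omega : s.natDegree < n)
    have hAA : C A⁻¹ * C A = (1 : F[X]) := by rw [← map_mul, inv_mul_cancel₀ hA0, map_one]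
    set t : F[X] := C A⁻¹ * s with ht
    have htd : t.degree < n := by
      rw [← mem_degreeLT, ht, ← smul_eq_C_mul]
      exact Submodule.smul_mem _ _ (mem_degreeLT.mpr hsd)
    have hu := ih (fun j => w j + t * C (a j)) (fun j => by
      rw [← mem_degreeLT, mul_comm, ← smul_eq_C_mul]
      exact Submodule.add_mem _ (mem_degreeLT.mpr (hwd j))
        (Submodule.smul_mem _ _ (mem_degreeLT.mpr htd))) (by
      rw [hexp, hRs]
      have hb' : b = -s - X ^ n * C A := by rw [hs]; ring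
      rw [hb', ht]
      linear_combination (C A⁻¹ * s ^ 2 - X ^ n * s) * hAA)
    have h2 : (X ^ n - t) ^ 2 * C A = 0 := by
      rw [← hrhoa, Finset.mul_sum, ← hv]
      refine Finset.sum_congr rfl fun j _ => ?_
      have h3 : w j + t * C (a j) = 0 := congrFun hu j
      have h4 : v j = (X ^ n - t) * C (a j) := by rw [hvw j]; linear_combination h3
      rw [h4]; ring
    have h3 : X ^ n - t = 0 := by
      rcases mul_eq_zero.mp h2 with h4 | h4
      · exact pow_eq_zero_iff (two_ne_zero) |>.mp h4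
      · exact absurd (C_eq_zero.mp h4) hA0
    have h4 : t = X ^ n := by linear_combination -h3
    rw [h4, degree_X_pow] at htd
    exact lt_irrefl _ htd

/-- Amer-Brumer: if two diagonal forms have no common zero over `F`, then the form
`q + t q'` is anisotropic over `F[t]`. -/
theorem amer_brumer {F ι : Type} [Field F] [CharZero F] [Fintype ι] (c c' : ι → F)
    (h : ∀ v : ι → F, ∑ j, c j * v j ^ 2 = 0 → ∑ j, c' j * v j ^ 2 = 0 → v = 0)
    (v : ι → F[X]) (hv : ∑ j, (C (c j) + X * C (c' j)) * v j ^ 2 = 0) : v = 0 := by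
  refine amer_brumer_aux_qf1 c c' h (Finset.univ.sup (fun j => (v j).natDegree) + 1) v
    (fun j => ?_) hv
  refine degree_le_natDegree.trans_lt ?_
  have := Finset.le_sup (f := fun j => (v j).natDegree) (Finset.mem_univ j)
  exact_mod_cast Nat.lt_succ_of_le this

end Zc68
end

-- merged part: Pool.Agent.Work.MP_d65f04_ag.QF2
section
/-! Consequences for the surface `S`. -/

namespace Zc68

open Polynomial

theorem exists_odd_factor_qf2 {F : Type} [Field F] (q : F[X]) (hq : Odd q.natDegree) :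
    ∃ r : F[X], Irreducible r ∧ r ∣ q ∧ Odd r.natDegree := by
  induction q using WfDvdMonoid.induction_on_irreducible with
  | zero => simp at hq
  | unit u hu =>
    rw [Polynomial.natDegree_eq_zero_of_isUnit hu] at hq
    simp at hq
  | mul a i ha hi ih =>
    rw [Polynomial.natDegree_mul hi.ne_zero ha] at hq
    by_cases h : Odd i.natDegree
    · exact ⟨i, hi, dvd_mul_right _ _, h⟩
    · have h' : Odd a.natDegree := by
        rw [Nat.not_odd_iff_even] at h
        exact (Nat.odd_add'.1 hq).2 h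
      obtain ⟨r, hr, hd, ho⟩ := ih h'
      exact ⟨r, hr, hd.mul_left _, ho⟩

/-- coefficients of the first quadric -/
def c0_qf2 (k : Type) [Field k] : Fin 5 → k := ![3, 6, 1, -1, -2]

/-- coefficients of the second quadric -/
def c1_qf2 (k : Type) [Field k] : Fin 5 → k := ![-9, -12, 1, 1, 0]

theorem sum_c0_qf2 {k R : Type} [Field k] [CommRing R] (f : k →+* R) (y : Fin 5 → R) :
    ∑ j, f (c0_qf2 k j) * y j ^ 2 = Q0 y := by
  simp [Fin.sum_univ_five, c0_qf2, Q0, map_ofNat]
  ring

theorem sum_c1_qf2 {k R : Type} [Field k] [CommRing R] (f : k →+* R) (y : Fin 5 → R) :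
    ∑ j, f (c1_qf2 k j) * y j ^ 2 = Q1 y := by
  simp [Fin.sum_univ_five, c1_qf2, Q1, map_ofNat]
  ring

theorem aniso_ratfunc_qf2 {k : Type} [Field k] [CharZero k] (h : NoPt k)
    (v : Fin 5 → RatFunc k)
    (hv : ∑ j, algebraMap k[X] (RatFunc k) (C (c0_qf2 k j) + X * C (c1_qf2 k j)) * v j ^ 2 = 0) :
    v = 0 := by
  obtain ⟨b, hb⟩ := IsLocalization.exist_integer_multiples_of_finite (nonZeroDivisors k[X]) v
  choose w hw using hb
  have hw0 : w = 0 := by
    refine amer_brumer (c0_qf2 k) (c1_qf2 k) (fun y h0 h1 => h y ?_ ?_) w ?_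
    · rw [← sum_c0_qf2 (RingHom.id k)]
      exact h0
    · rw [← sum_c1_qf2 (RingHom.id k)]
      exact h1
    · apply IsFractionRing.injective k[X] (RatFunc k)
      rw [map_zero, map_sum]
      have : ∀ j, algebraMap k[X] (RatFunc k) ((C (c0_qf2 k j) + X * C (c1_qf2 k j)) * w j ^ 2) =
          algebraMap k[X] (RatFunc k) b ^ 2 *
            (algebraMap k[X] (RatFunc k) (C (c0_qf2 k j) + X * C (c1_qf2 k j)) * v j ^ 2) := by
        intro j
        rw [map_mul, map_pow, hw j, Algebra.smul_def]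
        ring
      rw [Finset.sum_congr rfl (fun j _ => this j), ← Finset.mul_sum, hv, mul_zero]
  funext j
  have h1 := hw j
  rw [hw0, Pi.zero_apply, map_zero, Algebra.smul_def] at h1
  have hb0 : algebraMap k[X] (RatFunc k) b ≠ 0 := by
    intro h2
    exact nonZeroDivisors.coe_ne_zero b
      (IsFractionRing.injective k[X] (RatFunc k) (h2.trans (map_zero _).symm))
  exact (mul_eq_zero.1 h1.symm).resolve_left hb0

theorem NoPt.of_odd {k K : Type} [Field k] [CharZero k] [Field K] [Algebra k K]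
    [FiniteDimensional k K] (hodd : Odd (Module.finrank k K)) (h : NoPt k) : NoPt K := by
  intro y h0 h1
  have : CharZero (RatFunc k) := charZero_of_injective_algebraMap (algebraMap k _).injective
  let pb : PowerBasis k K := Field.powerBasisOfFiniteOfSeparable k K
  have hdeg : Odd ((minpoly k pb.gen).map (algebraMap k (RatFunc k))).natDegree := by
    rw [Polynomial.natDegree_map, pb.natDegree_minpoly, ← pb.finrank]
    exact hodd
  obtain ⟨r, hr, hd, ho⟩ := exists_odd_factor_qf2 _ hdeg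
  have : Fact (Irreducible r) := ⟨hr⟩
  have hroot : aeval (AdjoinRoot.root r) (minpoly k pb.gen) = 0 := by
    rw [← Polynomial.aeval_map_algebraMap (RatFunc k), AdjoinRoot.aeval_eq, AdjoinRoot.mk_eq_zero]
    exact hd
  let φ : K →ₐ[k] AdjoinRoot r := pb.lift (AdjoinRoot.root r) hroot
  have : FiniteDimensional (RatFunc k) (AdjoinRoot r) :=
    (AdjoinRoot.powerBasis hr.ne_zero).finite
  have hodd' : Odd (Module.finrank (RatFunc k) (AdjoinRoot r)) := by
    rw [(AdjoinRoot.powerBasis hr.ne_zero).finrank, AdjoinRoot.powerBasis_dim]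
    exact ho
  have hz := springer hodd'
    (fun j => algebraMap k[X] (RatFunc k) (C (c0_qf2 k j) + X * C (c1_qf2 k j)))
    (aniso_ratfunc_qf2 h) (fun j => φ (y j)) (by
      have e0 : Q0 (fun j => φ (y j)) = 0 := by rw [← map_Q0 φ, h0, map_zero]
      have e1 : Q1 (fun j => φ (y j)) = 0 := by rw [← map_Q1 φ, h1, map_zero]
      rw [← sum_c0_qf2 (algebraMap k (AdjoinRoot r))] at e0
      rw [← sum_c1_qf2 (algebraMap k (AdjoinRoot r))] at e1
      have hc : ∀ a : k, algebraMap (RatFunc k) (AdjoinRoot r) (algebraMap k[X] (RatFunc k) (C a)) =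
          algebraMap k (AdjoinRoot r) a := by
        intro a
        rw [← Polynomial.algebraMap_eq, ← IsScalarTower.algebraMap_apply,
          ← IsScalarTower.algebraMap_apply]
      have : ∀ j, algebraMap (RatFunc k) (AdjoinRoot r)
            (algebraMap k[X] (RatFunc k) (C (c0_qf2 k j) + X * C (c1_qf2 k j))) * φ (y j) ^ 2 =
          algebraMap k (AdjoinRoot r) (c0_qf2 k j) * φ (y j) ^ 2 +
            algebraMap (RatFunc k) (AdjoinRoot r) (algebraMap k[X] (RatFunc k) X) *
              (algebraMap k (AdjoinRoot r) (c1_qf2 k j) * φ (y j) ^ 2) := by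
        intro j
        rw [map_add, map_add, map_mul, map_mul, hc, hc]
        ring
      rw [Finset.sum_congr rfl (fun j _ => this j), Finset.sum_add_distrib, ← Finset.mul_sum,
        e0, e1, mul_zero, add_zero])
  funext j
  have := congrFun hz j
  exact φ.toRingHom.injective (by simpa using this)

theorem not_isSquare_of_odd_qf2 {k K : Type} [Field k] [CharZero k] [Field K] [Algebra k K]
    [FiniteDimensional k K] (hodd : Odd (Module.finrank k K)) (u : k) (h : ¬ IsSquare u) :
    ¬ IsSquare (algebraMap k K u) := by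
  rintro ⟨r, hr⟩
  have hz := springer hodd (ι := Fin 2) ![1, -u] (by
    intro v hv
    simp only [Fin.sum_univ_two, Matrix.cons_val_zero, Matrix.cons_val_one] at hv
    have h1 : v 1 = 0 := by
      by_contra h1
      apply h
      refine ⟨v 0 / v 1, ?_⟩
      field_simp
      linear_combination -hv
    have h0 : v 0 = 0 := by
      rw [h1] at hv
      simpa using hv
    funext j
    fin_cases j
    · exact h0
    · exact h1) ![r, 1] (by
    simp only [Fin.sum_univ_two, Matrix.cons_val_zero, Matrix.cons_val_one, map_one, map_neg, hr]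
    ring)
  have := congrFun hz 1
  simp at this

theorem Inv.of_odd {k K : Type} [Field k] [CharZero k] [Field K] [Algebra k K]
    [FiniteDimensional k K] (hodd : Odd (Module.finrank k K)) (h : Inv k) : Inv K := by
  obtain ⟨h0, h2, h3, h6, h1⟩ := h
  refine ⟨h0.of_odd hodd, ?_, ?_, ?_, ?_⟩
  · simpa [map_ofNat] using not_isSquare_of_odd_qf2 hodd _ h2
  · simpa [map_ofNat] using not_isSquare_of_odd_qf2 hodd _ h3
  · simpa [map_ofNat] using not_isSquare_of_odd_qf2 hodd _ h6
  · simpa using not_isSquare_of_odd_qf2 hodd _ h1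

theorem even_quot_qf2 {k A : Type} [Field k] [CharZero k] [CommRing A] [Algebra k A]
    (h : NoPt k) (ξ : Fin 5 → A) (h0 : Q0 ξ = 0) (h1 : Q1 ξ = 0) (e : Fin 5 → k)
    (he : ∑ j, e j • ξ j = 1) (I : Ideal A) (hI : I.IsMaximal) [FiniteDimensional k (A ⧸ I)] :
    Even (Module.finrank k (A ⧸ I)) := by
  let : Field (A ⧸ I) := Ideal.Quotient.field I
  by_contra hne
  rw [Nat.not_even_iff_odd] at hne
  have hz := h.of_odd hne (fun j => Ideal.Quotient.mkₐ k I (ξ j))
    (by rw [← map_Q0 (Ideal.Quotient.mkₐ k I), h0, map_zero])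
    (by rw [← map_Q1 (Ideal.Quotient.mkₐ k I), h1, map_zero])
  have := congrArg (Ideal.Quotient.mkₐ k I) he
  rw [map_sum, map_one] at this
  have h2 : ∀ j, Ideal.Quotient.mkₐ k I (e j • ξ j) = 0 := by
    intro j
    have h3 : Ideal.Quotient.mkₐ k I (ξ j) = 0 := congrFun hz j
    rw [map_smul, h3, smul_zero]
  rw [Finset.sum_congr rfl (fun j _ => h2 j), Finset.sum_const_zero] at this
  exact zero_ne_one this

theorem even_finrank_aux_qf2 {k A : Type} [Field k] [CharZero k] [CommRing A] [Algebra k A]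
    (h : NoPt k) (ξ : Fin 5 → A) (h0 : Q0 ξ = 0) (h1 : Q1 ξ = 0) (e : Fin 5 → k)
    (he : ∑ j, e j • ξ j = 1) (n : ℕ) : ∀ (V : Type) [AddCommGroup V] [Module k V] [Module A V]
      [IsScalarTower k A V] [FiniteDimensional k V], Module.finrank k V = n → Even n := by
  induction n using Nat.strong_induction_on with
  | _ n ih =>
    intro V _ _ _ _ _ hn
    have : Module.Finite A V := Module.Finite.of_restrictScalars_finite k A V
    rcases eq_top_or_exists_le_coatom (⊥ : Submodule A V) with hb | ⟨W, hW, -⟩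
    · have : Subsingleton V := (Submodule.subsingleton_iff A).1 (subsingleton_of_bot_eq_top hb)
      rw [← hn, Module.finrank_zero_of_subsingleton]
      exact Even.zero
    · have hs : IsSimpleModule A (V ⧸ W) := isSimpleModule_iff_isCoatom.2 hW
      obtain ⟨I, hI, ⟨ψ⟩⟩ := isSimpleModule_iff_quot_maximal.1 hs
      let ψ' : (V ⧸ W.restrictScalars k) ≃ₗ[k] (A ⧸ I) :=
        (Submodule.Quotient.restrictScalarsEquiv k W).trans (ψ.restrictScalars k)
      have : FiniteDimensional k (A ⧸ I) := ψ'.finiteDimensional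
      have e1 := even_quot_qf2 h ξ h0 h1 e he I hI
      have e2 := Submodule.finrank_quotient_add_finrank (W.restrictScalars k)
      rw [ψ'.finrank_eq, hn] at e2
      have : Nontrivial (A ⧸ I) := Ideal.Quotient.nontrivial_iff.2 hI.ne_top
      have hpos : 0 < Module.finrank k (A ⧸ I) := Module.finrank_pos
      have : FiniteDimensional k W := inferInstanceAs (FiniteDimensional k (W.restrictScalars k))
      have e4 : Module.finrank k (W.restrictScalars k) = Module.finrank k W := rfl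
      rw [e4] at e2
      have e3 : Even (Module.finrank k W) := ih (Module.finrank k W) (by omega) W rfl
      rw [← e2]
      exact e1.add e3

/-- A finite dimensional module supported on `S` has even dimension. -/
theorem even_finrank {k A V : Type} [Field k] [CharZero k] [CommRing A] [Algebra k A]
    [AddCommGroup V] [Module k V] [Module A V] [IsScalarTower k A V] [FiniteDimensional k V]
    (h : NoPt k) (ξ : Fin 5 → A) (h0 : Q0 ξ = 0) (h1 : Q1 ξ = 0) (e : Fin 5 → k)
    (he : ∑ j, e j • ξ j = 1) : Even (Module.finrank k V) :=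
  even_finrank_aux_qf2 h ξ h0 h1 e he _ V rfl

theorem three_dvd_of_sq_qf2 {a : ℤ} (h : (3 : ℤ) ∣ a ^ 2) : (3 : ℤ) ∣ a :=
  Int.Prime.dvd_pow' (p := 3) Nat.prime_three (by simpa using h)

theorem descent_qf2 (n : ℕ) : ∀ a b c d e : ℤ,
    a.natAbs + b.natAbs + c.natAbs + d.natAbs + e.natAbs = n →
    3 * a ^ 2 + 6 * b ^ 2 + c ^ 2 - d ^ 2 - 2 * e ^ 2 = 0 →
    -9 * a ^ 2 - 12 * b ^ 2 + c ^ 2 + d ^ 2 = 0 → n = 0 := by
  induction n using Nat.strong_induction_on with
  | _ n ih =>
    intro a b c d e hn h0 h1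
    have hcd : (3 : ℤ) ∣ c ∧ (3 : ℤ) ∣ d := by
      have h2 : (c ^ 2 + d ^ 2) % 3 = 0 := by omega
      have hc : c % 3 = 0 ∨ c % 3 = 1 ∨ c % 3 = 2 := by omega
      have hd : d % 3 = 0 ∨ d % 3 = 1 ∨ d % 3 = 2 := by omega
      rcases hc with hc | hc | hc <;> rcases hd with hd | hd | hd <;>
        simp [pow_two, Int.add_emod, Int.mul_emod, hc, hd] at h2 <;> omega
    obtain ⟨⟨c, rfl⟩, ⟨d, rfl⟩⟩ := hcd
    obtain ⟨e, rfl⟩ : (3 : ℤ) ∣ e := by
      apply three_dvd_of_sq_qf2
      exact ⟨e ^ 2 - a ^ 2 - 2 * b ^ 2 - 3 * c ^ 2 + 3 * d ^ 2, by linear_combination h0⟩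
    obtain ⟨b, rfl⟩ : (3 : ℤ) ∣ b := by
      apply three_dvd_of_sq_qf2
      refine ⟨c ^ 2 + d ^ 2 - a ^ 2 - b ^ 2, ?_⟩
      have : 3 * b ^ 2 = 3 * (3 * (c ^ 2 + d ^ 2 - a ^ 2 - b ^ 2)) := by linear_combination -h1
      omega
    obtain ⟨a, rfl⟩ : (3 : ℤ) ∣ a := by
      apply three_dvd_of_sq_qf2
      refine ⟨-6 * b ^ 2 - c ^ 2 + d ^ 2 + 2 * e ^ 2, ?_⟩
      have : 3 * a ^ 2 = 3 * (3 * (-6 * b ^ 2 - c ^ 2 + d ^ 2 + 2 * e ^ 2)) := by
        linear_combination h0
      omega
    by_contra hne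
    have g0 : 3 * a ^ 2 + 6 * b ^ 2 + c ^ 2 - d ^ 2 - 2 * e ^ 2 = 0 := by
      have : 9 * (3 * a ^ 2 + 6 * b ^ 2 + c ^ 2 - d ^ 2 - 2 * e ^ 2) = 0 := by
        linear_combination h0
      omega
    have g1 : -9 * a ^ 2 - 12 * b ^ 2 + c ^ 2 + d ^ 2 = 0 := by
      have : 9 * (-9 * a ^ 2 - 12 * b ^ 2 + c ^ 2 + d ^ 2) = 0 := by
        linear_combination h1
      omega
    have := ih _ (by omega) a b c d e rfl g0 g1
    omega

theorem inv_rat : Inv ℚ := by
  refine ⟨?_, ?_, ?_, ?_, ?_⟩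
  · intro y h0 h1
    obtain ⟨b, hb⟩ := IsLocalization.exist_integer_multiples_of_finite (nonZeroDivisors ℤ) y
    choose w hw using hb
    have hw' : ∀ j, (w j : ℚ) = ((b : ℤ) : ℚ) * y j := by
      intro j
      have := hw j
      rw [Algebra.smul_def] at this
      exact this
    have g0 : 3 * w 0 ^ 2 + 6 * w 1 ^ 2 + w 2 ^ 2 - w 3 ^ 2 - 2 * w 4 ^ 2 = 0 := by
      apply Int.cast_injective (α := ℚ)
      push_cast
      simp only [hw']
      unfold Q0 at h0
      linear_combination ((b : ℤ) : ℚ) ^ 2 * h0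
    have g1 : -9 * w 0 ^ 2 - 12 * w 1 ^ 2 + w 2 ^ 2 + w 3 ^ 2 = 0 := by
      apply Int.cast_injective (α := ℚ)
      push_cast
      simp only [hw']
      unfold Q1 at h1
      linear_combination ((b : ℤ) : ℚ) ^ 2 * h1
    have hz := descent_qf2 _ (w 0) (w 1) (w 2) (w 3) (w 4) rfl g0 g1
    have hb0 : ((b : ℤ) : ℚ) ≠ 0 := by exact_mod_cast nonZeroDivisors.coe_ne_zero b
    funext j
    have hj : w j = 0 := by
      fin_cases j <;> simp <;> omega
    have := hw' j
    rw [hj] at this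
    exact (mul_eq_zero.1 (this.symm.trans Int.cast_zero)).resolve_left hb0
  · have : ¬ IsSquare ((2 : ℕ) : ℚ) := by
      rw [Rat.isSquare_natCast_iff]
      exact Nat.prime_two.prime.not_isSquare
    simpa using this
  · have : ¬ IsSquare ((3 : ℕ) : ℚ) := by
      rw [Rat.isSquare_natCast_iff]
      exact Nat.prime_three.prime.not_isSquare
    simpa using this
  · have : ¬ IsSquare ((6 : ℕ) : ℚ) := by
      rw [Rat.isSquare_natCast_iff]
      rintro ⟨r, hr⟩
      have h1 : r ≤ 6 := by nlinarith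
      interval_cases r <;> omega
    simpa using this
  · rintro ⟨r, hr⟩
    nlinarith [mul_self_nonneg r]

end Zc68
end

-- merged part: Pool.Agent.Work.MP_d65f04_ag.Filt
section
/-! The parity argument: a curve with odd Hilbert function does not map onto a curve of `S`. -/

namespace Zc68

open Module

section Aux

variable {k L : Type} [Field k] [Field L] [Algebra k L]

/-- A subspace stable under the `ξ j` is a module over the algebra they generate. -/
def filtSub (ξ : Fin 5 → L) (N : Submodule k L) (hN : ∀ j, ∀ f ∈ N, ξ j * f ∈ N) :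
    Submodule (Algebra.adjoin k (Set.range ξ)) L where
  carrier := N
  add_mem' := N.add_mem
  zero_mem' := N.zero_mem
  smul_mem' := by
    rintro ⟨a, ha⟩
    change ∀ f ∈ N, a * f ∈ N
    induction ha using Algebra.adjoin_induction with
    | mem y hy => obtain ⟨j, rfl⟩ := hy; exact hN j
    | algebraMap c => intro f hf; rw [← Algebra.smul_def]; exact N.smul_mem c hf
    | add a b _ _ iha ihb => intro f hf; rw [add_mul]; exact N.add_mem (iha f hf) (ihb f hf)
    | mul a b _ _ iha ihb => intro f hf; rw [mul_assoc]; exact iha _ (ihb f hf)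

theorem filt_even_aux [CharZero k] {A W : Type} [CommRing A] [Algebra k A] [AddCommGroup W]
    [Module k W] [Module A W] [IsScalarTower k A W] (hk : NoPt k) (ξ : Fin 5 → A) (h0 : Q0 ξ = 0)
    (h1 : Q1 ξ = 0) (e : Fin 5 → k) (he : ∑ j, e j • ξ j = 1) (S M : Submodule k W)
    [FiniteDimensional k S] (B N : Submodule A W) (hB : ∀ f, f ∈ B ↔ f ∈ S ⊔ M)
    (hN : ∀ f, f ∈ N ↔ f ∈ M) :
    ∃ r, Even r ∧ r + finrank k (S ⊓ M : Submodule k W) = finrank k S := by
  let i : S →ₗ[k] B :=
    { toFun := fun f => ⟨f, (hB _).2 (Submodule.mem_sup_left f.2)⟩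
      map_add' := fun _ _ => rfl
      map_smul' := fun _ _ => rfl }
  let φ : S →ₗ[k] (B ⧸ N.comap B.subtype) := ((N.comap B.subtype).mkQ.restrictScalars k) ∘ₗ i
  have hφ : Function.Surjective φ := fun v => by
    obtain ⟨⟨f, hf⟩, rfl⟩ := (N.comap B.subtype).mkQ_surjective v
    obtain ⟨a, ha, b, hb, rfl⟩ := Submodule.mem_sup.1 ((hB f).1 hf)
    refine ⟨⟨a, ha⟩, (Submodule.Quotient.eq _).2 ((hN _).2 ?_)⟩
    change a - (a + b) ∈ M
    rw [sub_add_cancel_left]
    exact M.neg_mem hb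
  have hker : LinearMap.ker φ = (S ⊓ M).comap S.subtype := by
    ext f
    refine (Submodule.Quotient.mk_eq_zero _).trans ((hN _).trans ?_)
    exact ⟨fun h => ⟨f.2, h⟩, fun h => h.2⟩
  have : FiniteDimensional k (B ⧸ N.comap B.subtype) := Module.Finite.of_surjective φ hφ
  refine ⟨finrank k (B ⧸ N.comap B.subtype), even_finrank hk ξ h0 h1 e he, ?_⟩
  rw [← φ.finrank_range_add_finrank_ker, LinearMap.range_eq_top.2 hφ, finrank_top, hker,
    (Submodule.comapSubtypeEquivOfLe (inf_le_left : S ⊓ M ≤ S)).finrank_eq]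

theorem filt_even [CharZero k] (hk : NoPt k) (ξ : Fin 5 → L) (h0 : Q0 ξ = 0) (h1 : Q1 ξ = 0)
    (e : Fin 5 → k) (he : ∑ j, e j • ξ j = 1) (S M : Submodule k L) [FiniteDimensional k S]
    (hS : ∀ j, ∀ f ∈ S, ξ j * f ∈ S ⊔ M) (hM : ∀ j, ∀ f ∈ M, ξ j * f ∈ M) :
    ∃ r, Even r ∧ r + finrank k (S ⊓ M : Submodule k L) = finrank k S := by
  have hB : ∀ j, ∀ f ∈ S ⊔ M, ξ j * f ∈ S ⊔ M := fun j f hf => by
    obtain ⟨a, ha, b, hb, rfl⟩ := Submodule.mem_sup.1 hf
    rw [mul_add]
    exact add_mem (hS j a ha) (Submodule.mem_sup_right (hM j b hb))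
  refine filt_even_aux (A := Algebra.adjoin k (Set.range ξ)) hk
    (fun j => ⟨ξ j, Algebra.subset_adjoin ⟨j, rfl⟩⟩) (Subtype.ext ?_) (Subtype.ext ?_) e
    (Subtype.ext ?_) S M (filtSub ξ (S ⊔ M) hB) (filtSub ξ M hM) (fun _ => Iff.rfl)
    fun _ => Iff.rfl
  · exact (map_Q0 (Algebra.adjoin k (Set.range ξ)).val
      fun j => ⟨ξ j, Algebra.subset_adjoin ⟨j, rfl⟩⟩).trans h0
  · exact (map_Q1 (Algebra.adjoin k (Set.range ξ)).val
      fun j => ⟨ξ j, Algebra.subset_adjoin ⟨j, rfl⟩⟩).trans h1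
  · simpa using he

theorem filt_finrank (S : Submodule k L) {c : L} (hc : c ≠ 0) :
    finrank k (S.comap (LinearMap.mulLeft k c)) = finrank k S := by
  let E : L ≃ₗ[k] L := (LinearEquiv.smulOfNeZero L L c hc).restrictScalars k
  have h : S.comap (LinearMap.mulLeft k c) = S.comap (E : L →ₗ[k] L) := rfl
  rw [h, Submodule.comap_equiv_eq_map_symm, LinearEquiv.finrank_map_eq]

/-- The map `u ↦ ∑ u i * b i`. -/
noncomputable def filtPhi (V : Submodule k L) {e : ℕ} (b : Fin e → L) : (Fin e → V) →ₗ[k] L :=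
  ∑ i, LinearMap.mulRight k (b i) ∘ₗ V.subtype ∘ₗ LinearMap.proj i

theorem filtPhi_apply (V : Submodule k L) {e : ℕ} (b : Fin e → L) (u : Fin e → V) :
    filtPhi V b u = ∑ i, (u i : L) * b i := by
  simp [filtPhi]

theorem filt_mem {V : Submodule k L} {e : ℕ} {b : Fin e → L} {f : L} :
    f ∈ LinearMap.range (filtPhi V b) ↔ ∃ u : Fin e → L, (∀ i, u i ∈ V) ∧ ∑ i, u i * b i = f :=
  ⟨fun ⟨u, hu⟩ => ⟨fun i => u i, fun i => (u i).2, (filtPhi_apply V b u).symm.trans hu⟩,
    fun ⟨u, hu, h⟩ => ⟨fun i => ⟨u i, hu i⟩, (filtPhi_apply V b _).trans h⟩⟩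

theorem filt_mul {U V W : Submodule k L} (h : ∀ u ∈ U, ∀ v ∈ V, u * v ∈ W) {e : ℕ}
    {b : Fin e → L} {u f : L} (hu : u ∈ U) (hf : f ∈ LinearMap.range (filtPhi V b)) :
    u * f ∈ LinearMap.range (filtPhi W b) := by
  obtain ⟨v, hv, rfl⟩ := filt_mem.1 hf
  exact filt_mem.2 ⟨fun i => u * v i, fun i => h u hu _ (hv i), by
    simp only [Finset.mul_sum, mul_assoc]⟩

/-- A maximal family that is free over the graded ring `U`. -/
theorem filt_free (U : ℕ → Submodule k L) (hone : (1 : L) ∈ U 0)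
    (hmul : ∀ m n, ∀ f ∈ U m, ∀ g ∈ U n, f * g ∈ U (m + n)) (g : Finset L) :
    ∃ (e : ℕ) (b : Fin e → L), (∀ i, b i ∈ g) ∧
      (∀ n, ∀ u : Fin e → L, (∀ i, u i ∈ U n) → ∑ i, u i * b i = 0 → ∀ i, u i = 0) ∧
      ∃ s, ∃ G ∈ U s, G ≠ 0 ∧ ∀ f ∈ g, G * f ∈ LinearMap.range (filtPhi (U s) b) := by
  classical
  induction g using Finset.induction_on with
  | empty => exact ⟨0, Fin.elim0, fun i => i.elim0, fun _ _ _ _ i => i.elim0, 0, 1, hone,
      one_ne_zero, by simp⟩
  | insert f g _ ih =>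
    obtain ⟨e, b, hb, hind, s, G, hG, hG0, hg⟩ := ih
    by_cases c : ∃ n, ∃ u ∈ U n, u ≠ 0 ∧ u * f ∈ LinearMap.range (filtPhi (U n) b)
    · obtain ⟨n, u, hu, hu0, huf⟩ := c
      refine ⟨e, b, fun i => Finset.mem_insert_of_mem (hb i), hind, s + n, G * u,
        hmul _ _ _ hG _ hu, mul_ne_zero hG0 hu0, fun f' hf' => ?_⟩
      rcases Finset.mem_insert.1 hf' with rfl | h
      · rw [mul_assoc]
        exact filt_mul (hmul s n) hG huf
      · rw [mul_comm G, mul_assoc, add_comm]
        exact filt_mul (hmul n s) hu (hg f' h)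
    · push Not at c
      refine ⟨e + 1, Fin.cons f b, fun i => ?_, fun n u hu h => ?_, s, G, hG, hG0,
        fun f' hf' => ?_⟩
      · refine Fin.cases ?_ (fun i => ?_) i
        · exact Finset.mem_insert_self _ _
        · exact Finset.mem_insert_of_mem (hb i)
      · rw [Fin.sum_univ_succ, Fin.cons_zero] at h
        simp only [Fin.cons_succ] at h
        have h0 : u 0 = 0 := by
          by_contra h0
          refine c n (u 0) (hu 0) h0 ?_
          rw [eq_neg_of_add_eq_zero_left h]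
          exact neg_mem (filt_mem.2 ⟨_, fun i => hu i.succ, rfl⟩)
        rw [h0, zero_mul, zero_add] at h
        exact fun i => Fin.cases h0 (hind n _ (fun i => hu i.succ) h) i
      · rcases Finset.mem_insert.1 hf' with rfl | h
        · exact filt_mem.2 ⟨Fin.cons G 0, fun i => Fin.cases hG (fun _ => zero_mem _) i, by
            simp [Fin.sum_univ_succ]⟩
        · obtain ⟨u, hu, h'⟩ := filt_mem.1 (hg f' h)
          exact filt_mem.2 ⟨Fin.cons 0 u, fun i => Fin.cases (zero_mem _) hu i, by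
            simp [Fin.sum_univ_succ, h']⟩

theorem filt_one (x : Fin 5 → L) : (1 : L) ∈ UU k x 0 :=
  ⟨1, MvPolynomial.isHomogeneous_one _ _, map_one (MvPolynomial.aeval x)⟩

theorem filt_X (x : Fin 5 → L) (j : Fin 5) : x j ∈ UU k x 1 :=
  ⟨MvPolynomial.X j, MvPolynomial.isHomogeneous_X _ _, MvPolynomial.aeval_X x j⟩

theorem filt_UU_mul (x : Fin 5 → L) (m n : ℕ) :
    ∀ f ∈ UU k x m, ∀ g ∈ UU k x n, f * g ∈ UU k x (m + n) := by
  rintro _ ⟨p, hp, rfl⟩ _ ⟨q, hq, rfl⟩
  exact ⟨p * q, MvPolynomial.IsHomogeneous.mul hp hq, map_mul (MvPolynomial.aeval x) p q⟩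

theorem filt_UU_le (T : ℕ → Submodule k L)
    (hmul : ∀ m n, ∀ f ∈ T m, ∀ g ∈ T n, f * g ∈ T (m + n)) (hone : (1 : L) ∈ T 0)
    (x : Fin 5 → L) (hx : ∀ j, x j ∈ T 1) (n : ℕ) : UU k x n ≤ T n := by
  have : SetLike.GradedMonoid T :=
    { one_mem := hone
      mul_mem := fun i j a b ha hb => hmul i j a ha b hb }
  rintro _ ⟨p, hp, rfl⟩
  rw [AlgHom.toLinearMap_apply, p.as_sum, map_sum]
  refine Submodule.sum_mem _ fun d hd => ?_
  rw [MvPolynomial.aeval_monomial, ← Algebra.smul_def]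
  refine Submodule.smul_mem _ _ ?_
  have h1 := SetLike.prod_pow_mem_graded T (fun _ => 1) x (F := d.support) d fun j _ => hx j
  have h2 : ∑ j ∈ d.support, d j • 1 = n := hp (MvPolynomial.mem_support_iff.1 hd)
  rwa [h2] at h1

end Aux

theorem filt_contra {k L : Type} [Field k] [CharZero k] [Field L] [Algebra k L] (hk : NoPt k)
    (T : ℕ → Submodule k L) (hodd : ∀ n, Odd (Module.finrank k (T n)))
    (hmul : ∀ m n, ∀ f ∈ T m, ∀ g ∈ T n, f * g ∈ T (m + n)) (hone : (1 : L) ∈ T 0)
    (x : Fin 5 → L) (hx0 : x ≠ 0) (hx : ∀ j, x j ∈ T 1) (h0 : Q0 x = 0) (h1 : Q1 x = 0)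
    (hgen : ∀ s, ∀ G ∈ T s, G ≠ 0 → ∃ e : Fin 5 → k, ∀ n, ∀ f ∈ T (n + s + 1),
      ∃ g ∈ T (n + s), ∃ w ∈ T (n + 1), f = (∑ j, e j • x j) * g + G * w)
    (heven : ∃ n₀, ∀ n ≥ n₀, Even (Module.finrank k (UU k x n))) : False := by
  classical
  have hfin : ∀ n, FiniteDimensional k (T n) := fun n =>
    Module.finite_of_finrank_pos (hodd n).pos
  have hUT := filt_UU_le T hmul hone x hx
  have hUm := filt_UU_mul (k := k) x
  have hlin : ∀ e : Fin 5 → k, ∑ j, e j • x j ∈ UU k x 1 := fun e =>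
    Submodule.sum_mem _ fun j _ => Submodule.smul_mem _ _ (filt_X x j)
  obtain ⟨g, hg⟩ : (T 1).FG := (Submodule.fg_iff_finiteDimensional _).2 (hfin 1)
  obtain ⟨r, b, hb, hind, s, G, hG, hG0, hGg⟩ := filt_free (UU k x) (filt_one x) hUm g
  let M : ℕ → Submodule k L := fun n => LinearMap.range (filtPhi (UU k x n) b)
  have hMT : ∀ n, M n ≤ T (n + 1) := fun n f hf => by
    obtain ⟨u, hu, rfl⟩ := filt_mem.1 hf
    exact Submodule.sum_mem _ fun i _ => hmul _ _ _ (hUT n (hu i)) _
      (hg ▸ Submodule.subset_span (hb i))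
  have hM1 : ∀ n, ∀ u ∈ UU k x 1, ∀ f ∈ M n, u * f ∈ M (n + 1) := fun n u hu f hf =>
    filt_mul (fun a ha c hc => by rw [add_comm]; exact hUm 1 n a ha c hc) hu hf
  obtain ⟨n₀, hn₀⟩ := heven
  have hMe : ∀ n ≥ n₀, Even (finrank k (M n)) := fun n hn => by
    have : FiniteDimensional k (UU k x n) := Submodule.finiteDimensional_of_le (hUT n)
    rw [LinearMap.finrank_range_of_inj, Module.finrank_pi_fintype, Finset.sum_const, smul_eq_mul]
    · exact (hn₀ n hn).mul_left _
    · rw [← LinearMap.ker_eq_bot, LinearMap.ker_eq_bot']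
      intro u hu
      rw [filtPhi_apply] at hu
      exact funext fun i => Subtype.ext (hind n _ (fun i => (u i).2) hu i)
  obtain ⟨j, hj⟩ := Function.ne_iff.1 hx0
  have hGT : ∀ n, ∀ w ∈ T (n + 1), G * w ∈ M (s + n) := by
    obtain ⟨e, he⟩ := hgen 1 (x j) (hx j) hj
    intro n
    induction n with
    | zero =>
      intro w hw
      rw [zero_add, ← hg] at hw
      exact (Submodule.span_le (p := (M s).comap (LinearMap.mulLeft k G))).2 hGg hw
    | succ n ih =>
      intro w hw
      obtain ⟨a, ha, c, hc, rfl⟩ := he n w hw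
      rw [mul_add, mul_left_comm, mul_left_comm G]
      exact add_mem (hM1 _ _ (hlin e) _ (ih a ha)) (hM1 _ _ (filt_X x j) _ (ih c hc))
  obtain ⟨e, he⟩ := hgen s G (hUT s hG) hG0
  have hl := hlin e
  generalize hlam : ∑ j, e j • x j = lam at he hl
  have hstep : ∀ n ≥ s, ∀ f ∈ T (n + 2), ∃ a ∈ T (n + 1), ∃ c ∈ M (n + 1), f = lam * a + c := by
    intro n hn f hf
    obtain ⟨n, rfl⟩ := Nat.exists_eq_add_of_le hn
    obtain ⟨a, ha, w, hw, rfl⟩ := he (n + 1) f (by rwa [show n + 1 + s + 1 = s + n + 2 by ring])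
    exact ⟨a, by rwa [show s + n + 1 = n + 1 + s by ring], _, hGT (n + 1) w hw, rfl⟩
  by_cases hl0 : lam = 0
  · have h2 : M (s + n₀ + 1) = T (s + n₀ + 2) := le_antisymm (hMT _) fun f hf => by
      obtain ⟨a, -, c, hc, rfl⟩ := hstep (s + n₀) (by omega) f hf
      rwa [hl0, zero_mul, zero_add]
    have h3 := hMe (s + n₀ + 1) (by omega)
    rw [h2] at h3
    exact Nat.not_even_iff_odd.2 (hodd _) h3
  let t : ℕ → Submodule k L := fun n => (T (n + 1)).comap (LinearMap.mulLeft k (lam ^ n))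
  have ht : ∀ n f, f ∈ t n ↔ lam ^ n * f ∈ T (n + 1) := fun _ _ => Iff.rfl
  let m : ℕ →o Submodule k L := ⟨fun n => (M n).comap (LinearMap.mulLeft k (lam ^ n)),
    monotone_nat_of_le_succ fun n f hf => by
      change lam ^ (n + 1) * f ∈ M (n + 1)
      rw [pow_succ', mul_assoc]
      exact hM1 n _ hl _ hf⟩
  have hm : ∀ n f, f ∈ m n ↔ lam ^ n * f ∈ M n := fun _ _ => Iff.rfl
  have htf : ∀ n, finrank k (t n) = finrank k (T (n + 1)) := fun n =>
    filt_finrank _ (pow_ne_zero n hl0)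
  have htfin : ∀ n, FiniteDimensional k (t n) := fun n =>
    Module.finite_of_finrank_pos (htf n ▸ (hodd _).pos)
  have htm : ∀ n ≥ s, t (n + 1) ≤ t n ⊔ m (n + 1) := fun n hn f hf => by
    obtain ⟨a, ha, c, hc, h⟩ := hstep n hn _ ((ht _ _).1 hf)
    refine Submodule.mem_sup.2 ⟨a / lam ^ n, (ht _ _).2 ?_, c / lam ^ (n + 1), (hm _ _).2 ?_, ?_⟩
    · rwa [mul_div_cancel₀ _ (pow_ne_zero n hl0)]
    · rwa [mul_div_cancel₀ _ (pow_ne_zero _ hl0)]
    · refine mul_left_cancel₀ (pow_ne_zero (n + 1) hl0) ?_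
      rw [h]
      field_simp
      ring
  have hts : ∀ n ≥ s, t n ≤ t s ⊔ m n := fun n hn => by
    induction n, hn using Nat.le_induction with
    | base => exact le_sup_left
    | succ n hn ih =>
      exact (htm n hn).trans (sup_le (ih.trans (sup_le_sup_left (m.monotone n.le_succ) _))
        le_sup_right)
  let c : ℕ →o Submodule k L := ⟨fun n => t s ⊓ m n, fun _ _ h => inf_le_inf_left _ (m.monotone h)⟩
  have : FiniteDimensional k (iSup c : Submodule k L) :=
    Submodule.finiteDimensional_of_le (iSup_le fun n => inf_le_left : iSup c ≤ t s)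
  obtain ⟨n₁, hn₁⟩ := ((Submodule.fg_iff_finiteDimensional (iSup c)).2 this).stabilizes_of_iSup_eq
    c rfl
  have hN : t (s + n₀ + n₁) ⊓ iSup m = m (s + n₀ + n₁) := by
    refine le_antisymm (fun f hf => ?_) (le_inf (fun f hf => hMT _ hf) (le_iSup m _))
    obtain ⟨a, ha, d, hd, rfl⟩ := Submodule.mem_sup.1 (hts _ (by omega) hf.1)
    have h2 : a ∈ iSup m := (Submodule.add_mem_iff_left _ (le_iSup m _ hd)).1 hf.2
    obtain ⟨n, hn⟩ := (Submodule.mem_iSup_of_chain m a).1 h2
    have h3 : a ∈ c n₁ := hn₁ ▸ le_iSup c n ⟨ha, hn⟩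
    exact add_mem (m.monotone (by omega) h3.2) hd
  have hξ : ∀ (n : ℕ) (j : Fin 5) (f : L),
      lam ^ (n + 1) * (lam⁻¹ * x j * f) = x j * (lam ^ n * f) := fun n j f => by
    field_simp
    ring
  obtain ⟨q, hq, hq'⟩ := filt_even hk (fun j => lam⁻¹ * x j)
    (by have : Q0 (fun j => lam⁻¹ * x j) = lam⁻¹ ^ 2 * Q0 x := by simp only [Q0]; ring
        rw [this, h0, mul_zero])
    (by have : Q1 (fun j => lam⁻¹ * x j) = lam⁻¹ ^ 2 * Q1 x := by simp only [Q1]; ring
        rw [this, h1, mul_zero]) e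
    (by simp only [← mul_smul_comm]
        rw [← Finset.mul_sum, hlam, inv_mul_cancel₀ hl0]) (t (s + n₀ + n₁)) (iSup m)
    (fun j f hf => by
      refine sup_le_sup_left (le_iSup m _) _ (htm _ (by omega) ((ht _ _).2 ?_))
      rw [hξ, add_comm]
      exact hmul _ _ _ (hx j) _ hf)
    (fun j f hf => by
      obtain ⟨n, hn⟩ := (Submodule.mem_iSup_of_chain m f).1 hf
      refine le_iSup m (n + 1) ((hm _ _).2 ?_)
      rw [hξ]
      exact hM1 n _ (filt_X x j) _ hn)
  have h2 : finrank k (m (s + n₀ + n₁)) = finrank k (M (s + n₀ + n₁)) :=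
    filt_finrank _ (pow_ne_zero _ hl0)
  rw [hN, h2, htf] at hq'
  exact Nat.not_even_iff_odd.2 (hodd _) (hq' ▸ hq.add (hMe _ (by omega)))

end Zc68
end

-- merged part: Pool.Agent.Work.MP_d65f04_ag.RS1
section
/-! The homogeneous coordinate ring of the del Pezzo surface `S`. -/

namespace Zc68

open MvPolynomial

/-- The ideal of `S`. -/
noncomputable def IS (k : Type) [Field k] : Ideal (MvPolynomial (Fin 5) k) :=
  Ideal.span {Q0 X, Q1 X}

/-- The homogeneous coordinate ring of `S`. -/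
abbrev RS (k : Type) [Field k] : Type := MvPolynomial (Fin 5) k ⧸ IS k

variable {k : Type} [Field k]

/-- The coordinates. -/
noncomputable def yy (k : Type) [Field k] (j : Fin 5) : RS k := Ideal.Quotient.mk (IS k) (X j)

theorem Q0_yy : Q0 (yy k) = 0 := by
  have : Q0 (yy k) = Ideal.Quotient.mk (IS k) (Q0 X) := (map_Q0 _ _).symm
  rw [this, Ideal.Quotient.eq_zero_iff_mem]
  exact Ideal.subset_span (by simp)

theorem Q1_yy : Q1 (yy k) = 0 := by
  have : Q1 (yy k) = Ideal.Quotient.mk (IS k) (Q1 X) := (map_Q1 _ _).symm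
  rw [this, Ideal.Quotient.eq_zero_iff_mem]
  exact Ideal.subset_span (by simp)

/-- The universal property of `RS`. -/
noncomputable def liftS {B : Type} [CommRing B] [Algebra k B] (s : Fin 5 → B) (h0 : Q0 s = 0)
    (h1 : Q1 s = 0) : RS k →ₐ[k] B :=
  Ideal.Quotient.liftₐ (IS k) (aeval s) (by
    intro a ha
    have : IS k ≤ RingHom.ker (aeval (R := k) s) := by
      rw [IS, Ideal.span_le]
      rintro _ (rfl | rfl)
      · simpa [RingHom.mem_ker, map_Q0] using h0
      · simpa [RingHom.mem_ker, map_Q1] using h1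
    exact this ha)

theorem liftS_mk {B : Type} [CommRing B] [Algebra k B] (s : Fin 5 → B) (h0 : Q0 s = 0)
    (h1 : Q1 s = 0) (p : MvPolynomial (Fin 5) k) :
    liftS s h0 h1 (Ideal.Quotient.mk (IS k) p) = aeval s p := rfl

@[simp] theorem liftS_yy {B : Type} [CommRing B] [Algebra k B] (s : Fin 5 → B) (h0 : Q0 s = 0)
    (h1 : Q1 s = 0) (j : Fin 5) : liftS (k := k) s h0 h1 (yy k j) = s j := by
  simp [yy, liftS_mk]

theorem RS_ext {B : Type} [CommRing B] [Algebra k B] {f g : RS k →ₐ[k] B}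
    (h : ∀ j, f (yy k j) = g (yy k j)) : f = g := by
  apply Ideal.Quotient.algHom_ext
  apply MvPolynomial.algHom_ext
  intro j
  exact h j

theorem adjoin_yy : Algebra.adjoin k (Set.range (yy k)) = ⊤ := by
  have h : Set.range (yy k) = (Ideal.Quotient.mkₐ k (IS k)) '' Set.range X := by
    rw [← Set.range_comp]; rfl
  rw [h, ← AlgHom.map_adjoin, MvPolynomial.adjoin_range_X, Algebra.map_top,
    AlgHom.range_eq_top]
  exact Ideal.Quotient.mkₐ_surjective k _

/-- Change the sign of the `i`-th coordinate. -/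
def flipS {B : Type} [CommRing B] (i : Fin 5) (x : Fin 5 → B) : Fin 5 → B :=
  fun j => if j = i then -x j else x j

theorem flipS_sq {B : Type} [CommRing B] (i : Fin 5) (x : Fin 5 → B) (j : Fin 5) :
    flipS i x j ^ 2 = x j ^ 2 := by
  unfold flipS; split_ifs <;> ring

theorem Q0_flipS {B : Type} [CommRing B] (i : Fin 5) (x : Fin 5 → B) :
    Q0 (flipS i x) = Q0 x := by simp only [Q0, flipS_sq]

theorem Q1_flipS {B : Type} [CommRing B] (i : Fin 5) (x : Fin 5 → B) :
    Q1 (flipS i x) = Q1 x := by simp only [Q1, flipS_sq]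

/-- The involution `y i ↦ - y i`. -/
noncomputable def sg (k : Type) [Field k] (i : Fin 5) : RS k →ₐ[k] RS k :=
  liftS (flipS i (yy k)) (by rw [Q0_flipS, Q0_yy]) (by rw [Q1_flipS, Q1_yy])

@[simp] theorem sg_yy (i j : Fin 5) : sg k i (yy k j) = flipS i (yy k) j := liftS_yy _ _ _ _

theorem sg_sg (i : Fin 5) (r : RS k) : sg k i (sg k i r) = r := by
  have : (sg k i).comp (sg k i) = AlgHom.id k _ := by
    apply RS_ext
    intro j
    by_cases h : j = i <;> simp [flipS, h]
  exact DFunLike.congr_fun this r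

theorem sg_comm (i l : Fin 5) (r : RS k) : sg k i (sg k l r) = sg k l (sg k i r) := by
  have : (sg k i).comp (sg k l) = (sg k l).comp (sg k i) := by
    apply RS_ext
    intro j
    by_cases h : j = i <;> by_cases h' : j = l <;> simp_all [flipS]
  exact DFunLike.congr_fun this r

/-- The subring generated by the coordinates other than `y i`. -/
noncomputable def WW (k : Type) [Field k] (i : Fin 5) : Subalgebra k (RS k) :=
  Algebra.adjoin k (yy k '' {j | j ≠ i})

theorem Q0_CX {B : Type} [CommRing B] (x : Fin 5 → B) :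
    Q0 (fun j => Polynomial.C (x j) * Polynomial.X) = Polynomial.C (Q0 x) * Polynomial.X ^ 2 := by
  rw [map_Q0]; simp only [Q0]; ring

theorem Q1_CX {B : Type} [CommRing B] (x : Fin 5 → B) :
    Q1 (fun j => Polynomial.C (x j) * Polynomial.X) = Polynomial.C (Q1 x) * Polynomial.X ^ 2 := by
  rw [map_Q1]; simp only [Q1]; ring

/-- The graded evaluation map `y j ↦ x j * X`. -/
noncomputable def evS (k : Type) [Field k] {B : Type} [CommRing B] [Algebra k B] (x : Fin 5 → B)
    (h0 : Q0 x = 0) (h1 : Q1 x = 0) : RS k →ₐ[k] Polynomial B :=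
  liftS (fun j => Polynomial.C (x j) * Polynomial.X) (by rw [Q0_CX, h0]; simp)
    (by rw [Q1_CX, h1]; simp)

@[simp] theorem evS_yy {B : Type} [CommRing B] [Algebra k B] (x : Fin 5 → B)
    (h0 : Q0 x = 0) (h1 : Q1 x = 0) (j : Fin 5) :
    evS k x h0 h1 (yy k j) = Polynomial.C (x j) * Polynomial.X := liftS_yy _ _ _ _

/-- The grading of `RS`, as a coaction. -/
noncomputable def Dl (k : Type) [Field k] : RS k →ₐ[k] Polynomial (RS k) :=
  evS k (yy k) Q0_yy Q1_yy

/-- The coefficients `a_j` of `Q0`. -/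
def aS (k : Type) [Field k] : Fin 5 → k := ![3, 6, 1, -1, -2]

/-- The parameters `θ_j` of the pencil. -/
def tS (k : Type) [Field k] : Fin 5 → k := ![-3, -2, 1, -1, 0]

theorem dq_zero {B : Type} [CommRing B] [Algebra k B] (y : Fin 5 → B) :
    dq (aS k) (tS k) 0 y = Q0 y := by
  simp [dq, aS, Q0, Fin.sum_univ_five, map_ofNat]; ring

theorem dq_one {B : Type} [CommRing B] [Algebra k B] (y : Fin 5 → B) :
    dq (aS k) (tS k) 1 y = Q1 y := by
  simp [dq, aS, tS, Q1, Fin.sum_univ_five, map_ofNat]; ring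

theorem aS_ne [CharZero k] (j : Fin 5) : aS k j ≠ 0 := by
  fin_cases j <;> simp [aS]

theorem tS_inj [CharZero k] : Function.Injective (tS k) := by
  have h : tS k = fun j => ((![-3, -2, 1, -1, 0] j : ℤ) : k) := by
    funext j; fin_cases j <;> simp [tS]
  rw [h]
  exact Int.cast_injective.comp (by decide)

theorem diag_RS [CharZero k] : DiagData k (RS k) (Fin 5) (aS k) (tS k) 2 3 (yy k) where
  ha := aS_ne
  hθ := tS_inj
  card := by simp
  two_le := by norm_num
  gen := adjoin_yy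
  eqs := by
    intro n hn
    interval_cases n
    · rw [dq_zero, Q0_yy]
    · rw [dq_one, Q1_yy]
  univ := by
    intro Ω _ _ s hs
    exact ⟨liftS s (by rw [← dq_zero (k := k)]; exact hs 0 (by norm_num))
      (by rw [← dq_one (k := k)]; exact hs 1 (by norm_num)), fun j => liftS_yy _ _ _ j⟩

instance [CharZero k] : IsDomain (RS k) := diag_RS.isDomain

end Zc68
end

-- merged part: Pool.Agent.Work.MP_d65f04_ag.RS2
section
/-! The grading of `RS`. -/

namespace Zc68

open Polynomial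

section General

variable {k L : Type} [Field k] [CommRing L] [Algebra k L] {x : Fin 5 → L}

theorem mul_mem_UU_rs2 {m n : ℕ} {r s : L} (hr : r ∈ UU k x m) (hs : s ∈ UU k x n) :
    r * s ∈ UU k x (m + n) := by
  obtain ⟨p, hp, rfl⟩ := hr
  obtain ⟨q, hq, rfl⟩ := hs
  exact ⟨p * q, MvPolynomial.IsHomogeneous.mul hp hq, map_mul (MvPolynomial.aeval x) p q⟩

theorem one_mem_UU_rs2 : (1 : L) ∈ UU k x 0 :=
  ⟨1, MvPolynomial.isHomogeneous_one _ _, map_one (MvPolynomial.aeval x)⟩

theorem self_mem_UU_rs2 (j : Fin 5) : x j ∈ UU k x 1 :=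
  ⟨MvPolynomial.X j, MvPolynomial.isHomogeneous_X _ _, MvPolynomial.aeval_X x j⟩

theorem pow_mem_UU_rs2 {m : ℕ} {r : L} (hr : r ∈ UU k x m) (e : ℕ) : r ^ e ∈ UU k x (m * e) := by
  induction e with
  | zero => simpa using one_mem_UU_rs2
  | succ e ih =>
    rw [pow_succ, Nat.mul_succ]
    exact mul_mem_UU_rs2 ih hr

theorem prod_mem_UU_rs2 {ι : Type} (s : Finset ι) (f : ι → L) (w : ι → ℕ)
    (h : ∀ i ∈ s, f i ∈ UU k x (w i)) : ∏ i ∈ s, f i ∈ UU k x (∑ i ∈ s, w i) := by
  classical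
  induction s using Finset.induction_on with
  | empty => simpa using one_mem_UU_rs2
  | insert a s ha ih =>
    rw [Finset.prod_insert ha, Finset.sum_insert ha]
    exact mul_mem_UU_rs2 (h a (Finset.mem_insert_self _ _))
      (ih fun i hi => h i (Finset.mem_insert_of_mem hi))

theorem aeval_CX_rs2 {n : ℕ} {p : MvPolynomial (Fin 5) k} (hp : p.IsHomogeneous n) :
    MvPolynomial.aeval (fun j => C (x j) * X) p = C (MvPolynomial.aeval x p) * X ^ n := by
  rw [MvPolynomial.aeval_def, MvPolynomial.aeval_def, MvPolynomial.eval₂_eq, MvPolynomial.eval₂_eq,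
    map_sum, Finset.sum_mul]
  refine Finset.sum_congr rfl fun d hd => ?_
  rw [hp.degree_eq_sum_deg_support hd]
  simp only [mul_pow, Finset.prod_mul_distrib, Finset.prod_pow_eq_pow_sum, map_mul, map_prod,
    map_pow, Polynomial.algebraMap_apply, mul_assoc]

end General

variable {k : Type} [Field k] [CharZero k]

omit [CharZero k] in
theorem aeval_yy_rs2 (p : MvPolynomial (Fin 5) k) :
    MvPolynomial.aeval (yy k) p = Ideal.Quotient.mk (IS k) p := by
  have : MvPolynomial.aeval (yy k) = Ideal.Quotient.mkₐ k (IS k) :=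
    MvPolynomial.algHom_ext fun j => by simp [yy]
  rw [this]
  rfl

omit [CharZero k] in
theorem Dl_of_mem_rs2 {n : ℕ} {r : RS k} (h : r ∈ UU k (yy k) n) : Dl k r = C r * X ^ n := by
  obtain ⟨p, hp, rfl⟩ := h
  change Dl k (MvPolynomial.aeval (yy k) p) = C (MvPolynomial.aeval (yy k) p) * X ^ n
  rw [← aeval_CX_rs2 hp, aeval_yy_rs2]
  rfl

omit [CharZero k] in
theorem coeff_Dl_mem_rs2 (r : RS k) (n : ℕ) : (Dl k r).coeff n ∈ UU k (yy k) n := by
  obtain ⟨p, rfl⟩ := Ideal.Quotient.mk_surjective r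
  rw [← aeval_yy_rs2, ← MvPolynomial.sum_homogeneousComponent p, map_sum, map_sum,
    finsetSum_coeff]
  refine Submodule.sum_mem _ fun i _ => ?_
  have h : MvPolynomial.aeval (yy k) (MvPolynomial.homogeneousComponent i p) ∈ UU k (yy k) i :=
    ⟨_, MvPolynomial.homogeneousComponent_mem i p, rfl⟩
  rw [Dl_of_mem_rs2 h, coeff_C_mul_X_pow]
  split_ifs with e
  · exact e ▸ h
  · exact Submodule.zero_mem _

theorem mem_UU_iff (n : ℕ) (r : RS k) : r ∈ UU k (yy k) n ↔ Dl k r = C r * X ^ n := by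
  refine ⟨Dl_of_mem_rs2, fun h => ?_⟩
  have := coeff_Dl_mem_rs2 r n
  rwa [h, coeff_C_mul_X_pow, if_pos rfl] at this

/-- The coefficients of `Dl r` are the homogeneous components of `r`. -/
theorem coeff_Dl_mem (r : RS k) (n : ℕ) : (Dl k r).coeff n ∈ UU k (yy k) n :=
  coeff_Dl_mem_rs2 r n

theorem eval_one_Dl (r : RS k) : (Dl k r).eval 1 = r := by
  have : ((Polynomial.aeval (R := RS k) (1 : RS k)).restrictScalars k).comp (Dl k) =
      AlgHom.id k _ := RS_ext fun j => by simp [Dl]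
  have h := DFunLike.congr_fun this r
  simpa [Polynomial.coe_aeval_eq_eval] using h

instance (n : ℕ) : FiniteDimensional k (UU k (yy k) n) :=
  Module.Finite.iff_fg.2 ((MvPolynomial.homogeneousSubmodule_fg _ _ n).map _)

/-- The index set of the basis vectors of weight `n`. -/
noncomputable def idx_rs2 (n : ℕ) : Finset (Σ _ : Finset (Fin 5), Fin 3 →₀ ℕ) :=
  (Finset.univ : Finset (Fin 5)).powerset.sigma fun J =>
    if J.card + 2 * ((n - J.card) / 2) = n then Finset.univ.finsuppAntidiag ((n - J.card) / 2)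
    else ∅

theorem mem_idx_rs2 (n : ℕ) (J : Finset (Fin 5)) (α : Fin 3 →₀ ℕ) :
    ⟨J, α⟩ ∈ idx_rs2 n ↔ J.card + 2 * ∑ m, α m = n := by
  simp only [idx_rs2, Finset.mem_sigma, Finset.mem_powerset, Finset.subset_univ, true_and]
  split_ifs with h
  · simp only [Finset.mem_finsuppAntidiag, Finset.subset_univ, and_true]
    change ∑ m, α m = _ ↔ _
    omega
  · simp only [Finset.notMem_empty, false_iff]
    omega

theorem odd_card_idx_rs2 (n : ℕ) : Odd (idx_rs2 n).card := by
  have N : ∀ t, ((Finset.univ : Finset (Fin 3)).finsuppAntidiag t).card = (t + 2).choose 2 :=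
    fun t => by
      rw [Finset.card_finsuppAntidiag_nat_eq_choose, Finset.card_univ, Fintype.card_fin,
        show 3 + t - 1 = t + 2 by omega, Nat.choose_symm_add]
  have key : ∀ t : ℕ, (t + 2 + 2).choose 2 = (t + 2).choose 2 + 2 * (t + 2) + 1 := fun t => by
    simp only [Nat.choose_succ_succ' (t + 3) 1, Nat.choose_succ_succ' (t + 2) 1, Nat.choose_one_right]
    ring
  rw [idx_rs2, Finset.card_sigma]
  simp only [apply_ite Finset.card, N, Finset.card_empty]
  rw [Finset.sum_powerset_apply_card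
    (fun s => if s + 2 * ((n - s) / 2) = n then ((n - s) / 2 + 2).choose 2 else 0)]
  simp only [Finset.card_univ, Fintype.card_fin, Finset.sum_range_succ, Finset.sum_range_zero,
    smul_eq_mul, show Nat.choose 5 0 = 1 by rfl, show Nat.choose 5 1 = 5 by rfl,
    show Nat.choose 5 2 = 10 by rfl, show Nat.choose 5 3 = 10 by rfl,
    show Nat.choose 5 4 = 5 by rfl, show Nat.choose 5 5 = 1 by rfl]
  rw [Nat.odd_iff]
  by_cases h : n < 4
  · interval_cases n <;> decide
  obtain ⟨t, rfl | rfl⟩ : ∃ t, n = 2 * t + 4 ∨ n = 2 * t + 5 := ⟨(n - 4) / 2, by omega⟩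
  · rw [if_pos (by omega), if_neg (by omega), if_pos (by omega), if_neg (by omega),
      if_pos (by omega), if_neg (by omega), show (2 * t + 4 - 0) / 2 = t + 2 by omega,
      show (2 * t + 4 - 4) / 2 = t by omega, key]
    omega
  · rw [if_neg (by omega), if_pos (by omega), if_neg (by omega), if_pos (by omega),
      if_neg (by omega), if_pos (by omega), show (2 * t + 5 - 1) / 2 = t + 2 by omega,
      show (2 * t + 5 - 5) / 2 = t by omega, key]
    omega

/-- The Hilbert function `2 n ^ 2 + 2 n + 1` of `S` is odd. -/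
theorem odd_finrank_UU (n : ℕ) : Odd (Module.finrank k (UU k (yy k) n)) := by
  obtain ⟨γ, hγ, b, hb⟩ := (diag_RS (k := k)).exists_basis
  have h2 : ∀ m, γ m ∈ UU k (yy k) 2 := fun m => by
    refine (Submodule.span_le.2 ?_) (hγ m)
    rintro _ ⟨j, rfl⟩
    exact pow_mem_UU_rs2 (self_mem_UU_rs2 j) 2
  have hw : ∀ J α, b (J, α) ∈ UU k (yy k) (J.card + 2 * ∑ m, α m) := fun J α => by
    rw [hb, Finset.card_eq_sum_ones, Finset.mul_sum]
    exact mul_mem_UU_rs2 (prod_mem_UU_rs2 _ _ _ fun j _ => self_mem_UU_rs2 j)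
      (prod_mem_UU_rs2 _ _ _ fun m _ => pow_mem_UU_rs2 (h2 m) _)
  have e : UU k (yy k) n =
      Submodule.span k (Set.range fun p : idx_rs2 n => b (p.1.1, p.1.2)) := by
    refine le_antisymm (fun r hr => ?_) (Submodule.span_le.2 ?_)
    · have h1 : (Dl k r).coeff n = r := by rw [Dl_of_mem_rs2 hr, coeff_C_mul_X_pow, if_pos rfl]
      rw [← h1, ← b.linearCombination_repr r, Finsupp.linearCombination_apply, Finsupp.sum,
        map_sum, finsetSum_coeff]
      refine Submodule.sum_mem _ fun ⟨J, α⟩ _ => ?_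
      rw [map_smul, coeff_smul, Dl_of_mem_rs2 (hw J α), coeff_C_mul_X_pow]
      refine Submodule.smul_mem _ _ ?_
      split_ifs with h
      · exact Submodule.subset_span ⟨⟨⟨J, α⟩, (mem_idx_rs2 n J α).2 h.symm⟩, rfl⟩
      · exact Submodule.zero_mem _
    · rintro _ ⟨⟨⟨J, α⟩, h⟩, rfl⟩
      have h1 := hw J α
      rwa [(mem_idx_rs2 n J α).1 h] at h1
  have li : LinearIndependent k fun p : idx_rs2 n => b (p.1.1, p.1.2) :=
    b.linearIndependent.comp (fun p : idx_rs2 n => (p.1.1, p.1.2)) fun p q h =>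
      Subtype.ext (Sigma.ext (congrArg Prod.fst h) (heq_of_eq (congrArg Prod.snd h)))
  rw [e, finrank_span_eq_card li, Fintype.card_coe]
  exact odd_card_idx_rs2 n

theorem eq_monomial_rs2 {R : Type} [CommRing R] {p : R[X]}
    (h : p.natDegree ≤ p.natTrailingDegree) : p = C (p.eval 1) * X ^ p.natDegree := by
  have e : p = C (p.coeff p.natDegree) * X ^ p.natDegree := by
    ext i
    rw [coeff_C_mul_X_pow]
    split_ifs with hi
    · rw [hi]
    · rcases lt_or_gt_of_ne hi with h1 | h1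
      · exact coeff_eq_zero_of_lt_natTrailingDegree (h1.trans_le h)
      · exact coeff_eq_zero_of_natDegree_lt h1
  have e1 : p.eval 1 = p.coeff p.natDegree := by
    conv_lhs => rw [e]
    simp
  rw [e1]
  exact e

/-- A divisor of a nonzero form is a form. -/
theorem exists_mem_UU_of_mul {n : ℕ} {r s : RS k} (h : r * s ∈ UU k (yy k) n) (h0 : r * s ≠ 0) :
    ∃ m ≤ n, r ∈ UU k (yy k) m ∧ s ∈ UU k (yy k) (n - m) := by
  have nz : ∀ u : RS k, u ≠ 0 → Dl k u ≠ 0 := fun u hu e => hu (by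
    rw [← eval_one_Dl u, e, eval_zero])
  have hr := nz r (left_ne_zero_of_mul h0)
  have hs := nz s (right_ne_zero_of_mul h0)
  have e := Dl_of_mem_rs2 h
  rw [map_mul, C_mul_X_pow_eq_monomial] at e
  have e1 := congrArg natDegree e
  have e2 := congrArg natTrailingDegree e
  rw [natDegree_mul hr hs, natDegree_monomial_eq _ h0] at e1
  rw [natTrailingDegree_mul hr hs, natTrailingDegree_monomial h0] at e2
  have l1 := natTrailingDegree_le_natDegree (Dl k r)
  have l2 := natTrailingDegree_le_natDegree (Dl k s)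
  refine ⟨(Dl k r).natDegree, by omega, (mem_UU_iff _ _).2 ?_, (mem_UU_iff _ _).2 ?_⟩
  · have := eq_monomial_rs2 (p := Dl k r) (by omega)
    rwa [eval_one_Dl] at this
  · have := eq_monomial_rs2 (p := Dl k s) (by omega)
    rwa [eval_one_Dl, show (Dl k s).natDegree = n - (Dl k r).natDegree by omega] at this

theorem unit_RS (u : RS k) (hu : IsUnit u) : ∃ c : k, u = algebraMap k (RS k) c := by
  obtain ⟨v, hv⟩ := hu.exists_right_inv
  obtain ⟨m, hm, ⟨p, hp, e⟩, -⟩ := exists_mem_UU_of_mul (n := 0) (r := u) (s := v)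
    (hv ▸ one_mem_UU_rs2) (hv ▸ one_ne_zero)
  obtain rfl : m = 0 := by omega
  rw [MvPolynomial.homogeneousSubmodule_zero] at hp
  obtain ⟨c, rfl⟩ := Submodule.mem_one.1 hp
  exact ⟨c, e.symm.trans (AlgHom.commutes (MvPolynomial.aeval (yy k)) c)⟩

end Zc68
end

-- merged part: Pool.Agent.Work.MP_d65f04_ag.Amb1
section
/-! Primes in a quadratic extension `B = A ⊕ A y` of a factorial domain. -/

namespace Zc68

/-- `B = A ⊕ A y` is a quadratic extension of the factorial subring `A`, ramified along the prime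
element `y`, with conjugation `σ`. -/
structure QuadData (k B : Type) [Field k] [CommRing B] [Algebra k B] (A : Subalgebra k B)
    (y : B) (σ : B →ₐ[k] B) : Prop where
  dec : ∀ b : B, ∃ u ∈ A, ∃ v ∈ A, b = u + v * y
  fix : ∀ u ∈ A, σ u = u
  neg : σ y = -y
  sq : y ^ 2 ∈ A
  prime : Prime y
  ufd : UniqueFactorizationMonoid A
  unit : ∀ u : B, IsUnit u → ∃ c : k, u = algebraMap k B c
  sqr : ∀ (c : k) (u w : B), ¬ y ∣ u → y ∣ algebraMap k B c * u ^ 2 - w ^ 2 → IsSquare c

/-- Two ideals are in the same class. -/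
def Rel {B : Type} [CommRing B] (I J : Ideal B) : Prop :=
  ∃ α β : B, α ≠ 0 ∧ β ≠ 0 ∧ Ideal.span {α} * I = Ideal.span {β} * J

variable {k B : Type} [Field k] [CharZero k] [CommRing B] [IsDomain B] [Algebra k B]
  {A : Subalgebra k B} {y : B} {σ : B →ₐ[k] B}

theorem Rel.refl (I : Ideal B) : Rel I I := ⟨1, 1, one_ne_zero, one_ne_zero, rfl⟩

theorem Rel.trans {I J K : Ideal B} (h : Rel I J) (h' : Rel J K) : Rel I K := by
  obtain ⟨a, b, ha, hb, h⟩ := h
  obtain ⟨c, d, hc, hd, h'⟩ := h'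
  refine ⟨c * a, b * d, mul_ne_zero hc ha, mul_ne_zero hb hd, ?_⟩
  rw [← Ideal.span_singleton_mul_span_singleton, ← Ideal.span_singleton_mul_span_singleton,
    mul_assoc, h, mul_left_comm, h', mul_assoc]

omit [IsDomain B] in
theorem isUnit_two_amb1 (k : Type) [Field k] [CharZero k] [Algebra k B] : IsUnit (2 : B) := by
  have := (IsUnit.mk0 (2 : k) two_ne_zero).map (algebraMap k B)
  rwa [map_ofNat] at this

omit [CharZero k] [IsDomain B] in
theorem QuadData.conj_amb1 (h : QuadData k B A y σ) {u v : B} (hu : u ∈ A) (hv : v ∈ A) :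
    σ (u + v * y) = u - v * y := by
  rw [map_add, map_mul, h.fix u hu, h.fix v hv, h.neg]
  ring

theorem QuadData.indep_amb1 (h : QuadData k B A y σ) {u v : B} (hu : u ∈ A) (hv : v ∈ A)
    (e : u + v * y = 0) : u = 0 ∧ v = 0 := by
  have e' := h.conj_amb1 hu hv
  rw [e, map_zero] at e'
  have h2 := (isUnit_two_amb1 (B := B) k).ne_zero
  have e1 : 2 * u = 0 := by linear_combination e - e'
  have e2 : 2 * (v * y) = 0 := by linear_combination e + e'
  exact ⟨(mul_eq_zero.1 e1).resolve_left h2,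
    (mul_eq_zero.1 ((mul_eq_zero.1 e2).resolve_left h2)).resolve_right h.prime.ne_zero⟩

theorem QuadData.dvd_amb1 (h : QuadData k B A y σ) {w : B} (hw : w ∈ A) (hy : y ∣ w) :
    ∃ v ∈ A, w = v * y ^ 2 := by
  obtain ⟨b, hb⟩ := hy
  obtain ⟨u, hu, v, hv, rfl⟩ := h.dec b
  have := h.indep_amb1 (A.sub_mem (A.mul_mem hv h.sq) hw) hu (by rw [hb]; ring)
  exact ⟨v, hv, (sub_eq_zero.1 this.1).symm⟩

/-- A prime of `B` over a principal prime of `A` is principal, or meets its conjugate in `G B`. -/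
theorem QuadData.cases (h : QuadData k B A y σ) (P : Ideal B) [P.IsPrime] (G : A) (hG : Prime G)
    (hP : ∀ u : A, (u : B) ∈ P ↔ G ∣ u) :
    P.IsPrincipal ∨ P ⊓ P.comap σ = Ideal.span {(G : B)} := by
  have hp : P.IsPrime := inferInstance
  have up : ∀ u, u ∈ A → u ∈ P → (G : B) ∣ u := fun u hu huP => by
    obtain ⟨w, hw⟩ := (hP ⟨u, hu⟩).1 huP
    exact ⟨w, congrArg Subtype.val hw⟩
  by_cases hy : y ∈ P
  · left
    obtain ⟨w, hw⟩ := (hP ⟨y ^ 2, h.sq⟩).1 (P.pow_mem_of_mem hy 2 two_pos)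
    have hw' : y ^ 2 = (G : B) * w := congrArg Subtype.val hw
    have hG' : y ∣ (G : B) := by
      refine (h.prime.dvd_or_dvd (hw' ▸ dvd_pow_self y two_ne_zero)).resolve_right fun hyw => ?_
      obtain ⟨v, hv, e⟩ := h.dvd_amb1 w.2 hyw
      have e1 : (G : B) * v = 1 := by
        apply mul_right_cancel₀ (pow_ne_zero 2 h.prime.ne_zero)
        rw [mul_assoc, ← e, ← hw', one_mul]
      exact hG.not_isUnit (IsUnit.of_mul_eq_one ⟨v, hv⟩ (Subtype.ext e1))
    refine ⟨y, le_antisymm (fun z hz => ?_) ?_⟩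
    · obtain ⟨u, hu, v, hv, rfl⟩ := h.dec z
      have huP : u ∈ P := (P.add_mem_iff_left (P.mul_mem_left v hy)).1 hz
      exact Ideal.mem_span_singleton.2 (dvd_add (hG'.trans (up u hu huP)) (dvd_mul_left y v))
    · exact (Ideal.span_singleton_le_iff_mem P).2 hy
  · right
    refine le_antisymm (fun z hz => ?_) ((Ideal.span_singleton_le_iff_mem _).2 ?_)
    · obtain ⟨u, hu, v, hv, rfl⟩ := h.dec z
      have h1 : u + v * y ∈ P := hz.1
      have h2 : σ (u + v * y) ∈ P := hz.2
      rw [h.conj_amb1 hu hv] at h2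
      have two := isUnit_two_amb1 (B := B) k
      have huP : u ∈ P := (P.unit_mul_mem_iff_mem two).1 (by
        have := P.add_mem h1 h2
        rwa [show u + v * y + (u - v * y) = 2 * u by ring] at this)
      have hvP : v ∈ P := (hp.mem_or_mem ((P.add_mem_iff_right huP).1 h1)).resolve_right hy
      exact Ideal.mem_span_singleton.2 (dvd_add (up u hu huP) ((up v hv hvP).mul_right y))
    · have hGP : (G : B) ∈ P := (hP G).2 dvd_rfl
      refine ⟨hGP, ?_⟩
      change σ G ∈ P
      rwa [h.fix G G.2]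

/-- Two reflections. -/
theorem rel_of_two (σ τ : B →ₐ[k] B) (hσ : ∀ b, σ (σ b) = b) (hτ : ∀ b, τ (τ b) = b)
    (hc : ∀ b, σ (τ b) = τ (σ b)) (P : Ideal B) [P.IsPrime] (G G' : B) (hG : G ≠ 0) (hG' : G' ≠ 0)
    (h : P ⊓ P.comap σ = Ideal.span {G})
    (h' : P.comap σ ⊓ (P.comap σ).comap τ = Ideal.span {G'}) :
    P.IsPrincipal ∨ Rel P ((P.comap σ).comap τ) := by
  have hp : P.IsPrime := inferInstance
  have hq : (P.comap σ).IsPrime := inferInstance
  have hp' : ((P.comap σ).comap τ).IsPrime := inferInstance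
  have inv : ∀ x, σ (τ (σ (τ x))) = x := fun x => by rw [hc, hσ, hτ]
  have princ : ∀ g : B, P.comap σ = Ideal.span {g} → P.IsPrincipal := fun g hg => by
    refine ⟨σ g, le_antisymm (fun x hx => ?_) ?_⟩
    · have : σ x ∈ P.comap σ := by
        change σ (σ x) ∈ P
        rwa [hσ]
      rw [hg, Ideal.mem_span_singleton] at this
      have h2 := map_dvd σ this
      rw [hσ] at h2
      exact Ideal.mem_span_singleton.2 h2
    · have : g ∈ P.comap σ := hg ▸ Ideal.mem_span_singleton_self g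
      exact (Ideal.span_singleton_le_iff_mem P).2 this
  have mG : G ∈ P ⊓ P.comap σ := h ▸ Ideal.mem_span_singleton_self G
  have mG' : G' ∈ P.comap σ ⊓ (P.comap σ).comap τ := h' ▸ Ideal.mem_span_singleton_self G'
  by_cases c1 : G ∈ (P.comap σ).comap τ
  · rcases hp'.inf_le.1 (h ▸ (Ideal.span_singleton_le_iff_mem _).2 c1) with l | l
    · have e : P = (P.comap σ).comap τ := le_antisymm l fun x hx => by
        have h1 : σ (τ x) ∈ P := hx
        have h2 : σ (τ (σ (τ x))) ∈ P := l h1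
        rwa [inv] at h2
      exact Or.inr (e ▸ Rel.refl P)
    · exact Or.inl (princ G' (by rw [← h', inf_eq_left.2 l]))
  by_cases c2 : G' ∈ P
  · rcases hp.inf_le.1 (h' ▸ (Ideal.span_singleton_le_iff_mem _).2 c2) with l | l
    · exact Or.inl (princ G (by rw [← h, inf_eq_right.2 l]))
    · have e : P = (P.comap σ).comap τ := le_antisymm (fun x hx => by
        have h1 : σ (τ x) ∈ (P.comap σ).comap τ := by
          change σ (τ (σ (τ x))) ∈ P
          rwa [inv]
        exact l h1) l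
      exact Or.inr (e ▸ Rel.refl P)
  refine Or.inr ⟨G', G, hG', hG, le_antisymm (fun w hw => ?_) fun w hw => ?_⟩
  · obtain ⟨x, hx, rfl⟩ := Ideal.mem_span_singleton_mul.1 hw
    have h1 : G' * x ∈ P ⊓ P.comap σ := ⟨P.mul_mem_left _ hx, Ideal.mul_mem_right _ _ mG'.1⟩
    rw [h, Ideal.mem_span_singleton] at h1
    obtain ⟨z, hz⟩ := h1
    have h2 : G * z ∈ (P.comap σ).comap τ := hz ▸ Ideal.mul_mem_right _ _ mG'.2
    exact Ideal.mem_span_singleton_mul.2 ⟨z, (hp'.mem_or_mem h2).resolve_left c1, hz.symm⟩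
  · obtain ⟨x, hx, rfl⟩ := Ideal.mem_span_singleton_mul.1 hw
    have h1 : G * x ∈ P.comap σ ⊓ (P.comap σ).comap τ :=
      ⟨Ideal.mul_mem_right _ _ mG.2, Ideal.mul_mem_left _ _ hx⟩
    rw [h', Ideal.mem_span_singleton] at h1
    obtain ⟨z, hz⟩ := h1
    have h2 : G' * z ∈ P := hz ▸ Ideal.mul_mem_right _ _ mG.1
    exact Ideal.mem_span_singleton_mul.2 ⟨z, (hp.mem_or_mem h2).resolve_left c2, hz.symm⟩

end Zc68
end

-- merged part: Pool.Agent.Work.MP_d65f04_ag.RS3
section
/-! `RS` is a quadratic extension of five factorial rings. -/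

namespace Zc68

variable {k : Type} [Field k] [CharZero k]

omit [CharZero k] in
theorem dq_sub_rs3 {B : Type} [CommRing B] [Algebra k B] (a θ : Fin 5 → k) (n : ℕ) (i : Fin 5)
    (x : Fin 5 → B) (hx : x i = 0) :
    dq (fun j : {j : Fin 5 // j ≠ i} => a j) (fun j => θ j) n (fun j => x j) = dq a θ n x := by
  unfold dq
  rw [← Finset.sum_subtype (Finset.univ.erase i) (p := fun j => j ≠ i) (by simp)
    (fun j => algebraMap k B (a j * θ j ^ n) * x j ^ 2)]
  exact Finset.sum_erase _ (by simp [hx])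

/-- The hyperplane section `y i = 0`. -/
theorem diag_section (i : Fin 5) :
    DiagData k (RS k ⧸ Ideal.span {yy k i}) {j : Fin 5 // j ≠ i} (fun j => aS k j)
      (fun j => tS k j) 2 2 (fun j => Ideal.Quotient.mk _ (yy k j)) := by
  have h0 : Ideal.Quotient.mk (Ideal.span {yy k i}) (yy k i) = 0 :=
    Ideal.Quotient.eq_zero_iff_mem.2 (Ideal.subset_span rfl)
  refine ⟨fun j => aS_ne _, tS_inj.comp Subtype.val_injective, by simp, le_rfl, ?_, ?_, ?_⟩
  · rw [eq_top_iff]
    rintro b -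
    obtain ⟨r, rfl⟩ := Ideal.Quotient.mk_surjective b
    have hr : r ∈ Algebra.adjoin k (Set.range (yy k)) := by rw [adjoin_yy]; trivial
    induction hr using Algebra.adjoin_induction with
    | mem x hx =>
      obtain ⟨j, rfl⟩ := hx
      by_cases hj : j = i
      · rw [hj, h0]; exact zero_mem _
      · exact Algebra.subset_adjoin ⟨⟨j, hj⟩, rfl⟩
    | algebraMap c => exact Subalgebra.algebraMap_mem _ c
    | add x y _ _ hx hy => rw [map_add]; exact add_mem hx hy
    | mul x y _ _ hx hy => rw [map_mul]; exact mul_mem hx hy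
  · intro n hn
    rw [dq_sub_rs3 (aS k) (tS k) n i (fun j => Ideal.Quotient.mk _ (yy k j)) h0]
    interval_cases n
    · rw [dq_zero, ← map_Q0, Q0_yy, map_zero]
    · rw [dq_one, ← map_Q1, Q1_yy, map_zero]
  · intro Ω _ _ s hs
    let x : Fin 5 → Ω := fun j => if h : j = i then 0 else s ⟨j, h⟩
    have hxi : x i = 0 := by simp [x]
    have hxs : (fun j : {j : Fin 5 // j ≠ i} => x j) = s := by
      funext j
      simp [x, j.2]
    have hq : ∀ n < 2, dq (aS k) (tS k) n x = 0 := by
      intro n hn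
      rw [← dq_sub_rs3 (aS k) (tS k) n i x hxi, hxs]
      exact hs n hn
    have q0 : Q0 x = 0 := by rw [← dq_zero (k := k)]; exact hq 0 (by norm_num)
    have q1 : Q1 x = 0 := by rw [← dq_one (k := k)]; exact hq 1 (by norm_num)
    refine ⟨Ideal.Quotient.liftₐ _ (liftS x q0 q1) ?_, fun j => ?_⟩
    · intro r hr
      obtain ⟨c, rfl⟩ := Ideal.mem_span_singleton.1 hr
      rw [map_mul, liftS_yy, hxi, zero_mul]
    · rw [← hxs]
      exact liftS_yy x q0 q1 j

theorem prime_yy (i : Fin 5) : Prime (yy k i) := by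
  rw [← Ideal.span_singleton_prime (diag_RS.ne_zero i), ← Ideal.Quotient.isDomain_iff_prime]
  exact (diag_section i).isDomain

omit [CharZero k] in
theorem indep_three_rs3 {R : Type} [CommRing R] [Algebra k R] (s y z : R) :
    AlgebraicIndependent k ![s, y, z] ↔ AlgebraicIndependent k ![y, z] ∧
      Transcendental (Algebra.adjoin k (Set.range ![y, z])) s := by
  rw [← AlgebraicIndependent.option_iff, ← algebraicIndependent_equiv (finSuccEquiv 2)]
  have : ((fun o : Option (Fin 2) => o.elim s ![y, z]) ∘ (finSuccEquiv 2)) = ![s, y, z] := by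
    funext j
    fin_cases j <;> rfl
  rw [this]

theorem ufd_aux_rs3 (i j l m n : Fin 5) (hset : {t : Fin 5 | t ≠ i} = {j, l, m, n})
    (hinj : Function.Injective ![j, m, n]) (cj cl cm cn w : k) (hcj : cj ≠ 0) (hw : w ≠ 0)
    (hw2 : -(cj * cl) = w ^ 2)
    (hrel : algebraMap k (RS k) cj * yy k j ^ 2 + algebraMap k (RS k) cl * yy k l ^ 2 +
      algebraMap k (RS k) cm * yy k m ^ 2 + algebraMap k (RS k) cn * yy k n ^ 2 = 0)
    (hns : ¬ IsSquare (-(cm * cn))) : UniqueFactorizationMonoid (WW k i) := by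
  set s : RS k := algebraMap k (RS k) cj * yy k j + algebraMap k (RS k) w * yy k l with hs
  set s' : RS k := algebraMap k (RS k) cj * yy k j - algebraMap k (RS k) w * yy k l with hs'
  have hw3 : (algebraMap k (RS k) w) ^ 2 = -(algebraMap k (RS k) cj * algebraMap k (RS k) cl) := by
    rw [← map_pow, ← hw2, map_neg, map_mul]
  have hss : s * s' = algebraMap k (RS k) (-(cj * cm)) * yy k m ^ 2 +
      algebraMap k (RS k) (-(cj * cn)) * yy k n ^ 2 := by
    rw [map_neg, map_neg, map_mul, map_mul, hs, hs']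
    linear_combination (algebraMap k (RS k) cj) * hrel - yy k l ^ 2 * hw3
  have he : ¬ IsSquare (-((-(cj * cm)) * (-(cj * cn)))) := by
    rintro ⟨e, he⟩
    refine hns ⟨e / cj, ?_⟩
    field_simp
    linear_combination he
  have hj : yy k j = algebraMap k (RS k) (2 * cj)⁻¹ * (s + s') := by
    have : s + s' = algebraMap k (RS k) (2 * cj) * yy k j := by
      rw [hs, hs', map_mul, map_ofNat]; ring
    rw [this, ← mul_assoc, ← map_mul, inv_mul_cancel₀ (mul_ne_zero two_ne_zero hcj), map_one,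
      one_mul]
  have hl : yy k l = algebraMap k (RS k) (2 * w)⁻¹ * (s - s') := by
    have : s - s' = algebraMap k (RS k) (2 * w) * yy k l := by
      rw [hs, hs', map_mul, map_ofNat]; ring
    rw [this, ← mul_assoc, ← map_mul, inv_mul_cancel₀ (mul_ne_zero two_ne_zero hw), map_one,
      one_mul]
  have hs0 : s ≠ 0 := by
    intro h0
    rw [h0, zero_mul] at hss
    refine he (diag_RS.isSquare_of _ (yy k n) (algebraMap k (RS k) (-(cj * cm)) * yy k m)
      (diag_RS.ne_zero n) ?_)
    rw [map_neg, map_mul]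
    linear_combination (algebraMap k (RS k) (-(cj * cm))) * hss
  have hind : AlgebraicIndependent k ![s, yy k m, yy k n] := by
    have h1 : AlgebraicIndependent k ![yy k j, yy k m, yy k n] := by
      have := (diag_RS (k := k)).indep _ hinj
      convert this using 1
      funext t
      fin_cases t <;> rfl
    rw [indep_three_rs3] at h1 ⊢
    refine ⟨h1.1, fun ha => h1.2 ?_⟩
    have hm : yy k m ∈ Algebra.adjoin k (Set.range ![yy k m, yy k n]) :=
      Algebra.subset_adjoin ⟨0, rfl⟩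
    have hn : yy k n ∈ Algebra.adjoin k (Set.range ![yy k m, yy k n]) :=
      Algebra.subset_adjoin ⟨1, rfl⟩
    have hq : s * s' ∈ Algebra.adjoin k (Set.range ![yy k m, yy k n]) := by
      rw [hss]
      exact add_mem (mul_mem (Subalgebra.algebraMap_mem _ _) (pow_mem hm 2))
        (mul_mem (Subalgebra.algebraMap_mem _ _) (pow_mem hn 2))
    have h2 : IsAlgebraic (Algebra.adjoin k (Set.range ![yy k m, yy k n])) s' :=
      IsAlgebraic.of_mul (mem_nonZeroDivisors_of_ne_zero hs0) ha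
        (isAlgebraic_algebraMap (⟨_, hq⟩ : Algebra.adjoin k (Set.range ![yy k m, yy k n])))
    rw [hj]
    exact (isAlgebraic_algebraMap (⟨_, Subalgebra.algebraMap_mem _ _⟩ :
      Algebra.adjoin k (Set.range ![yy k m, yy k n]))).mul (ha.add h2)
  have hW : WW k i = Algebra.adjoin k {s, s', yy k m, yy k n} := by
    unfold WW
    rw [hset]
    apply le_antisymm
    · rw [Algebra.adjoin_le_iff]
      have a1 : s ∈ Algebra.adjoin k {s, s', yy k m, yy k n} := Algebra.subset_adjoin (by simp)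
      have a2 : s' ∈ Algebra.adjoin k {s, s', yy k m, yy k n} := Algebra.subset_adjoin (by simp)
      rintro _ ⟨t, rfl | rfl | rfl | rfl, rfl⟩
      · rw [hj]; exact mul_mem (Subalgebra.algebraMap_mem _ _) (add_mem a1 a2)
      · rw [hl]; exact mul_mem (Subalgebra.algebraMap_mem _ _) (sub_mem a1 a2)
      · exact Algebra.subset_adjoin (by simp)
      · exact Algebra.subset_adjoin (by simp)
    · rw [Algebra.adjoin_le_iff]
      have a : ∀ t ∈ ({j, l, m, n} : Set (Fin 5)),
          yy k t ∈ Algebra.adjoin k (yy k '' {j, l, m, n}) :=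
        fun t ht => Algebra.subset_adjoin ⟨t, ht, rfl⟩
      rintro _ (rfl | rfl | rfl | rfl)
      · exact add_mem (mul_mem (Subalgebra.algebraMap_mem _ _) (a j (by simp)))
          (mul_mem (Subalgebra.algebraMap_mem _ _) (a l (by simp)))
      · exact sub_mem (mul_mem (Subalgebra.algebraMap_mem _ _) (a j (by simp)))
          (mul_mem (Subalgebra.algebraMap_mem _ _) (a l (by simp)))
      · exact a m (by simp)
      · exact a n (by simp)
  rw [hW]
  exact ufd_cone s s' _ _ _ _ hind hss he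

omit [CharZero k] in
theorem not_sq_rs3 {u c e : k} (hu : ¬ IsSquare u) (he : e ≠ 0) (h : c = u * e ^ 2) :
    ¬ IsSquare c := by
  rintro ⟨x, hx⟩
  refine hu ⟨x / e, ?_⟩
  field_simp
  linear_combination hx - h

theorem ufd_WW (hk : Inv k) (i : Fin 5) : UniqueFactorizationMonoid (WW k i) := by
  obtain ⟨-, h2, h3, h6, h1⟩ := hk
  have q0 := Q0_yy (k := k)
  have q1 := Q1_yy (k := k)
  unfold Q0 at q0
  unfold Q1 at q1
  fin_cases i
  · refine ufd_aux_rs3 0 1 4 2 3 (by ext t; fin_cases t <;> simp) (by decide) 6 (-6) 4 (-2) 6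
      (by norm_num) (by norm_num) (by norm_num) ?_ (not_sq_rs3 h2 (e := 2) (by norm_num) (by norm_num))
    simp only [map_neg, map_ofNat]
    linear_combination q1 + 3 * q0
  · refine ufd_aux_rs3 1 0 2 3 4 (by ext t; fin_cases t <;> simp) (by decide) (-3) 3 (-1) (-4) 3
      (by norm_num) (by norm_num) (by norm_num) ?_ (not_sq_rs3 h1 (e := 2) (by norm_num) (by norm_num))
    simp only [map_neg, map_ofNat, map_one]
    linear_combination q1 + 2 * q0
  · refine ufd_aux_rs3 2 1 3 0 4 (by ext t; fin_cases t <;> simp) (by decide) (-18) 2 (-12) 2 6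
      (by norm_num) (by norm_num) (by norm_num) ?_ (not_sq_rs3 h6 (e := 2) (by norm_num) (by norm_num))
    simp only [map_neg, map_ofNat]
    linear_combination q1 - q0
  · refine ufd_aux_rs3 3 2 4 0 1 (by ext t; fin_cases t <;> simp) (by decide) 2 (-2) (-6) (-6) 2
      (by norm_num) (by norm_num) (by norm_num) ?_ (not_sq_rs3 h1 (e := 6) (by norm_num) (by norm_num))
    simp only [map_neg, map_ofNat]
    linear_combination q1 + q0
  · refine ufd_aux_rs3 4 3 0 1 2 (by ext t; fin_cases t <;> simp) (by decide) 1 (-9) (-12) 1 3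
      (by norm_num) (by norm_num) (by norm_num) ?_ (not_sq_rs3 h3 (e := 2) (by norm_num) (by norm_num))
    simp only [map_neg, map_ofNat, map_one]
    linear_combination q1

omit [CharZero k] in
theorem mem_WW_rs3 {i j : Fin 5} (h : j ≠ i) : yy k j ∈ WW k i :=
  Algebra.subset_adjoin ⟨j, h, rfl⟩

theorem sq_mem_WW (i j : Fin 5) : yy k j ^ 2 ∈ WW k i := by
  by_cases h : j = i
  · subst h
    have h0 := (diag_RS (k := k)).eqs 0 (by norm_num)
    unfold dq at h0
    rw [← Finset.add_sum_erase _ _ (Finset.mem_univ j)] at h0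
    have h1 : yy k j ^ 2 = -(algebraMap k (RS k) (aS k j * tS k j ^ 0)⁻¹ *
        ∑ t ∈ Finset.univ.erase j, algebraMap k (RS k) (aS k t * tS k t ^ 0) * yy k t ^ 2) := by
      have h2 : algebraMap k (RS k) (aS k j * tS k j ^ 0)⁻¹ *
          algebraMap k (RS k) (aS k j * tS k j ^ 0) = 1 := by
        rw [← map_mul, inv_mul_cancel₀ (by simpa using aS_ne j), map_one]
      linear_combination algebraMap k (RS k) (aS k j * tS k j ^ 0)⁻¹ * h0 - yy k j ^ 2 * h2
    rw [h1]
    exact neg_mem (mul_mem (Subalgebra.algebraMap_mem _ _) (sum_mem fun t ht =>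
      mul_mem (Subalgebra.algebraMap_mem _ _)
        (pow_mem (mem_WW_rs3 (Finset.ne_of_mem_erase ht)) 2)))
  · exact pow_mem (mem_WW_rs3 h) 2

theorem quadData (hk : Inv k) (i : Fin 5) :
    QuadData k (RS k) (WW k i) (yy k i) (sg k i) := by
  refine ⟨fun b => ?_, fun u hu => ?_, by simp [flipS], sq_mem_WW i i, prime_yy i, ufd_WW hk i,
    unit_RS, fun c u w hu hd => ?_⟩
  · have hb : b ∈ Algebra.adjoin k (Set.range (yy k)) := by rw [adjoin_yy]; trivial
    induction hb using Algebra.adjoin_induction with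
    | mem x hx =>
      obtain ⟨j, rfl⟩ := hx
      by_cases hj : j = i
      · exact ⟨0, zero_mem _, 1, one_mem _, by rw [hj]; ring⟩
      · exact ⟨_, mem_WW_rs3 hj, 0, zero_mem _, by ring⟩
    | algebraMap c => exact ⟨_, Subalgebra.algebraMap_mem _ c, 0, zero_mem _, by ring⟩
    | add x y _ _ hx hy =>
      obtain ⟨u, hu, v, hv, rfl⟩ := hx
      obtain ⟨u', hu', v', hv', rfl⟩ := hy
      exact ⟨_, add_mem hu hu', _, add_mem hv hv', by ring⟩
    | mul x y _ _ hx hy =>
      obtain ⟨u, hu, v, hv, rfl⟩ := hx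
      obtain ⟨u', hu', v', hv', rfl⟩ := hy
      exact ⟨_, add_mem (mul_mem hu hu') (mul_mem (mul_mem hv hv') (sq_mem_WW i i)), _,
        add_mem (mul_mem hu hv') (mul_mem hv hu'), by ring⟩
  · induction hu using Algebra.adjoin_induction with
    | mem x hx =>
      obtain ⟨j, hj, rfl⟩ := hx
      have hj' : j ≠ i := hj
      simp [flipS, hj']
    | algebraMap c => exact AlgHom.commutes _ c
    | add x y _ _ hx hy => rw [map_add, hx, hy]
    | mul x y _ _ hx hy => rw [map_mul, hx, hy]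
  · refine (diag_section i).isSquare_of c (Ideal.Quotient.mk _ u) (Ideal.Quotient.mk _ w) ?_ ?_
    · rwa [Ne, Ideal.Quotient.eq_zero_iff_mem, Ideal.mem_span_singleton]
    · have := Ideal.Quotient.eq_zero_iff_mem.2 (Ideal.mem_span_singleton.2 hd)
      rw [map_sub, map_mul, map_pow, map_pow, sub_eq_zero] at this
      exact this

end Zc68
end

-- merged part: Pool.Agent.Work.MP_d65f04_ag.Amb2
section
/-! Ambiguous classes are trivial. -/

namespace Zc68

variable {k B : Type} [Field k] [CharZero k] [CommRing B] [IsDomain B] [Algebra k B]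
  {A : Subalgebra k B} {y : B} {σ : B →ₐ[k] B}

/-- An ideal of a factorial domain that is closed under greatest common divisors is principal. -/
theorem isPrincipal_of_gcd {R : Type} [CommRing R] [IsDomain R] [UniqueFactorizationMonoid R]
    (I : Ideal R) (h : ∀ u ∈ I, ∀ v ∈ I, ∀ g : R, g ∣ u → g ∣ v → (∀ e, e ∣ u → e ∣ v → e ∣ g) →
      g ∈ I) : I.IsPrincipal := by
  classical
  by_cases hI : I = ⊥
  · rw [hI]; exact bot_isPrincipal
  obtain ⟨u0, hu0, hu0'⟩ := Submodule.exists_mem_ne_zero_of_ne_bot hI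
  obtain ⟨g, ⟨hg, hg0⟩, hmin⟩ := (wellFounded_dvdNotUnit (α := R)).has_min
    {u | u ∈ I ∧ u ≠ 0} ⟨u0, hu0, hu0'⟩
  let _ : GCDMonoid R := UniqueFactorizationMonoid.toGCDMonoid R
  refine ⟨g, le_antisymm (fun u hu => ?_) ?_⟩
  · have he : gcd g u ∈ I :=
      h g hg u hu _ (gcd_dvd_left _ _) (gcd_dvd_right _ _) fun e h1 h2 => dvd_gcd h1 h2
    have he0 : gcd g u ≠ 0 := fun h0 => hg0 ((gcd_eq_zero_iff _ _).1 h0).1
    obtain ⟨c, hc⟩ := gcd_dvd_left g u
    have hcu : IsUnit c := by
      by_contra hcu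
      exact hmin _ ⟨he, he0⟩ ⟨he0, c, hcu, hc⟩
    have h1 : g ∣ gcd g u := by
      obtain ⟨c', hc'⟩ := hcu.exists_right_inv
      refine ⟨c', ?_⟩
      calc gcd g u = gcd g u * (c * c') := by rw [hc', mul_one]
        _ = g * c' := by rw [← mul_assoc, ← hc]
    exact Ideal.mem_span_singleton.2 (h1.trans (gcd_dvd_right _ _))
  · exact (Ideal.span_singleton_le_iff_mem _).2 hg

omit [IsDomain B] in
include k in
theorem two_cancel_amb2 (I : Ideal B) {b : B} (hb : b + b ∈ I) : b ∈ I := by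
  have h := I.mul_mem_left (algebraMap k B (1 / 2)) hb
  have h2 : algebraMap k B (1 / 2) * (b + b) = b := by
    rw [mul_add, ← add_mul, ← map_add]
    norm_num
  rwa [h2] at h

omit [CharZero k] [IsDomain B] in
theorem QuadData.conj_amb2 (h : QuadData k B A y σ) {u v : B} (hu : u ∈ A) (hv : v ∈ A) :
    σ (u + v * y) = u - v * y := by
  rw [map_add, map_mul, h.fix u hu, h.fix v hv, h.neg]; ring

omit [CharZero k] [IsDomain B] in
theorem QuadData.invol_amb2 (h : QuadData k B A y σ) (b : B) : σ (σ b) = b := by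
  obtain ⟨u, hu, v, hv, rfl⟩ := h.dec b
  rw [h.conj_amb2 hu hv, map_sub, map_mul, h.fix u hu, h.fix v hv, h.neg]; ring

theorem QuadData.uniq_amb2 (h : QuadData k B A y σ) {u v : B} (hu : u ∈ A) (hv : v ∈ A)
    (h0 : u + v * y = 0) : u = 0 ∧ v = 0 := by
  have h1 : u - v * y = 0 := by rw [← h.conj_amb2 hu hv, h0, map_zero]
  have h2 : u = 0 := by
    have : u + u ∈ (⊥ : Ideal B) := by
      rw [Ideal.mem_bot]; linear_combination h0 + h1
    exact Ideal.mem_bot.1 (two_cancel_amb2 (k := k) _ this)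
  refine ⟨h2, ?_⟩
  rw [h2, zero_add] at h0
  exact (mul_eq_zero.1 h0).resolve_right h.prime.ne_zero

theorem QuadData.sq_dvd_amb2 (h : QuadData k B A y σ) {w : B} (hw : w ∈ A) (hy : y ∣ w) :
    ∃ v ∈ A, w = v * y ^ 2 := by
  obtain ⟨b, hb⟩ := hy
  obtain ⟨a, ha, c, hc, rfl⟩ := h.dec b
  refine ⟨c, hc, ?_⟩
  have := (h.uniq_amb2 (u := c * y ^ 2 - w) (v := a) (A.sub_mem (A.mul_mem hc h.sq) hw) ha
    (by rw [hb]; ring)).1
  exact (sub_eq_zero.1 this).symm

omit [IsDomain B] in
theorem QuadData.mem_of_fix_amb2 (h : QuadData k B A y σ) {b : B} (hb : σ b = b) : b ∈ A := by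
  obtain ⟨u, hu, v, hv, rfl⟩ := h.dec b
  rw [h.conj_amb2 hu hv] at hb
  have : v * y + v * y ∈ (⊥ : Ideal B) := by
    rw [Ideal.mem_bot]; linear_combination -hb
  rw [Ideal.mem_bot.1 (two_cancel_amb2 (k := k) _ this), add_zero]
  exact hu

omit [IsDomain B] in
theorem QuadData.norm_mem_amb2 (h : QuadData k B A y σ) (b : B) : b * σ b ∈ A :=
  h.mem_of_fix_amb2 (by rw [map_mul, h.invol_amb2, mul_comm])

theorem QuadData.dvd_iff_amb2 (h : QuadData k B A y σ) (n u v : A) :
    (n : B) ∣ u + v * y ↔ n ∣ u ∧ n ∣ v := by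
  constructor
  · rintro ⟨b, hb⟩
    obtain ⟨a, ha, c, hc, rfl⟩ := h.dec b
    obtain ⟨h1, h2⟩ := h.uniq_amb2 (u := u - n * a) (v := v - n * c)
      (A.sub_mem u.2 (A.mul_mem n.2 ha)) (A.sub_mem v.2 (A.mul_mem n.2 hc))
      (by linear_combination hb)
    exact ⟨⟨⟨a, ha⟩, Subtype.ext (sub_eq_zero.1 h1)⟩, ⟨⟨c, hc⟩, Subtype.ext (sub_eq_zero.1 h2)⟩⟩
  · rintro ⟨⟨a, rfl⟩, ⟨c, rfl⟩⟩
    exact ⟨a + c * y, by push_cast; ring⟩

theorem QuadData.prime_sq_amb2 (h : QuadData k B A y σ) : Prime (⟨y ^ 2, h.sq⟩ : A) := by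
  refine ⟨fun h0 => h.prime.ne_zero (pow_eq_zero_iff two_ne_zero |>.1 (congrArg Subtype.val h0)),
    fun hu => ?_, fun a b hab => ?_⟩
  · have h1 : IsUnit (y ^ 2) := hu.map A.val
    exact h.prime.not_isUnit ((isUnit_pow_iff two_ne_zero).1 h1)
  · have h1 : y ∣ (a : B) * b := by
      obtain ⟨c, hc⟩ := hab
      refine ⟨y * c, ?_⟩
      have := congrArg Subtype.val hc
      push_cast at this
      rw [this]; ring
    have key : ∀ a : A, y ∣ (a : B) → (⟨y ^ 2, h.sq⟩ : A) ∣ a := fun a ha => by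
      obtain ⟨v, hv, hav⟩ := h.sq_dvd_amb2 a.2 ha
      exact ⟨⟨v, hv⟩, Subtype.ext (by push_cast; rw [hav, mul_comm])⟩
    exact (h.prime.dvd_or_dvd h1).imp (key a) (key b)

/-- A constant that is a norm is a square. -/
theorem QuadData.isSquare_of_norm (h : QuadData k B A y σ) (c : k) (α β : B) (hβ : β ∈ A)
    (hβ0 : β ≠ 0) (hα : α * σ α = algebraMap k B c * β ^ 2) : IsSquare c := by
  have := h.ufd
  have key : ∀ β : A, β ≠ 0 → ∀ α : B, α * σ α = algebraMap k B c * (β : B) ^ 2 → IsSquare c := by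
    intro β
    induction β using (wellFounded_dvdNotUnit (α := A)).induction with
    | _ β ih =>
      intro hβ0 α hα
      obtain ⟨u, hu, v, hv, rfl⟩ := h.dec α
      rw [h.conj_amb2 hu hv] at hα
      by_cases hy : y ∣ (β : B)
      · obtain ⟨β', hβ', hβe⟩ := h.sq_dvd_amb2 β.2 hy
        have hy0 := h.prime.ne_zero
        have h1 : y ∣ u := h.prime.dvd_of_dvd_pow (n := 2)
          ⟨v ^ 2 * y + algebraMap k B c * β' ^ 2 * y ^ 3, by
            rw [hβe] at hα; linear_combination hα⟩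
        obtain ⟨u', hu', rfl⟩ := h.sq_dvd_amb2 hu h1
        have h2 : y ∣ v := h.prime.dvd_of_dvd_pow (n := 2)
          ⟨(u' ^ 2 - algebraMap k B c * β' ^ 2) * y, mul_left_cancel₀ (pow_ne_zero 2 hy0) (by
            rw [hβe] at hα; linear_combination -hα)⟩
        obtain ⟨v', hv', rfl⟩ := h.sq_dvd_amb2 hv h2
        have hβ'0 : (⟨β', hβ'⟩ : A) ≠ 0 := fun h0 => hβ0 (Subtype.ext (by
          have : β' = 0 := congrArg Subtype.val h0
          rw [hβe, this, zero_mul]; rfl))
        refine ih ⟨β', hβ'⟩ ⟨hβ'0, ⟨y ^ 2, h.sq⟩, h.prime_sq_amb2.not_isUnit, Subtype.ext hβe⟩ hβ'0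
          (u' + v' * y) (mul_left_cancel₀ (pow_ne_zero 4 hy0) ?_)
        rw [h.conj_amb2 hu' hv']
        rw [hβe] at hα
        linear_combination hα
      · exact h.sqr c β u hy ⟨-(v ^ 2 * y), by linear_combination -hα⟩
  exact key ⟨β, hβ⟩ (fun h0 => hβ0 (congrArg Subtype.val h0)) α hα

theorem QuadData.dvd_gcd_amb2 (h : QuadData k B A y σ) (n : A) (b : B) (u v g : A)
    (hg : ∀ e, e ∣ u → e ∣ v → e ∣ g) (hu : (n : B) ∣ u * b) (hv : (n : B) ∣ v * b) :
    (n : B) ∣ g * b := by
  classical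
  have := h.ufd
  let _ : GCDMonoid A := UniqueFactorizationMonoid.toGCDMonoid A
  obtain ⟨b0, hb0, b1, hb1, rfl⟩ := h.dec b
  have e : ∀ w : A, (n : B) ∣ w * (b0 + b1 * y) ↔ n ∣ w * ⟨b0, hb0⟩ ∧ n ∣ w * ⟨b1, hb1⟩ := by
    intro w
    rw [← h.dvd_iff_amb2]
    push_cast
    rw [mul_add, mul_assoc]
  have key : ∀ t : A, n ∣ u * t → n ∣ v * t → n ∣ g * t := fun t h1 h2 =>
    ((dvd_gcd h1 h2).trans (gcd_mul_right' t u v).dvd).trans
      (mul_dvd_mul_right (hg _ (gcd_dvd_left _ _) (gcd_dvd_right _ _)) t)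
  rw [e] at hu hv ⊢
  exact ⟨key _ hu.1 hv.1, key _ hu.2 hv.2⟩

/-- A conjugation invariant ideal, all of whose sections are closed under greatest common
divisors, is principal. -/
theorem QuadData.principal_of_stable_amb2 (h : QuadData k B A y σ) (I : Ideal B)
    (hs : ∀ z ∈ I, σ z ∈ I)
    (hg : ∀ (b : B) (u v g : A), (∀ e, e ∣ u → e ∣ v → e ∣ g) → u * b ∈ I → v * b ∈ I →
      g * b ∈ I) : I.IsPrincipal := by
  have := h.ufd
  have sec : ∀ b : B, ∃ g : A, ∀ u : A, u * b ∈ I ↔ g ∣ u := by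
    intro b
    let J : Ideal A :=
      { carrier := {u | (u : B) * b ∈ I}
        add_mem' := fun {u v} hu hv => by
          have := I.add_mem hu hv
          simpa [add_mul] using this
        zero_mem' := by simp
        smul_mem' := fun c u hu => by
          have := I.mul_mem_left (c : B) hu
          simpa [mul_assoc] using this }
    obtain ⟨g, hJ⟩ := isPrincipal_of_gcd J fun u hu v hv g _ _ hm => hg b u v g hm hu hv
    refine ⟨g, fun u => ?_⟩
    rw [← Ideal.mem_span_singleton]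
    change u ∈ J ↔ _
    rw [hJ]
  obtain ⟨g0, h0⟩ := sec 1
  obtain ⟨g1, h1⟩ := sec y
  simp only [mul_one] at h0
  have hg0 : (g0 : B) ∈ I := (h0 g0).2 dvd_rfl
  have hg1 : (g1 : B) * y ∈ I := (h1 g1).2 dvd_rfl
  have comp : ∀ z ∈ I, ∃ u v : A, z = u + v * y ∧ g0 ∣ u ∧ g1 ∣ v := by
    intro z hz
    obtain ⟨u, hu, v, hv, rfl⟩ := h.dec z
    have hz' := hs _ hz
    rw [h.conj_amb2 hu hv] at hz'
    refine ⟨⟨u, hu⟩, ⟨v, hv⟩, rfl, (h0 _).1 (two_cancel_amb2 (k := k) _ ?_),
      (h1 _).1 (two_cancel_amb2 (k := k) _ ?_)⟩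
    · convert I.add_mem hz hz' using 1
      push_cast; ring
    · convert I.sub_mem hz hz' using 1
      push_cast; ring
  obtain ⟨t, ht⟩ : g1 ∣ g0 := (h1 g0).1 (I.mul_mem_right y hg0)
  have hd : g0 ∣ g1 * ⟨y ^ 2, h.sq⟩ := (h0 _).1 (by
    convert I.mul_mem_right y hg1 using 1
    push_cast; ring)
  have hcase : g0 ∣ g1 ∨ g1 * ⟨y ^ 2, h.sq⟩ ∣ g0 := by
    by_cases hz : g1 = 0
    · right; rw [ht, hz]; simp
    rw [ht, mul_dvd_mul_iff_left hz] at hd
    rcases h.prime_sq_amb2.irreducible.dvd_iff.1 hd with hu | hu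
    · left; rw [ht]; exact (associated_mul_unit_left _ _ hu).dvd
    · right; rw [ht]; exact mul_dvd_mul_left _ hu.dvd
  rcases hcase with hc | hc
  · refine ⟨g0, le_antisymm (fun z hz => ?_) ((Ideal.span_singleton_le_iff_mem _).2 hg0)⟩
    obtain ⟨u, v, rfl, hu, hv⟩ := comp z hz
    exact Ideal.mem_span_singleton.2 ((h.dvd_iff_amb2 _ _ _).2 ⟨hu, hc.trans hv⟩)
  · refine ⟨g1 * y, le_antisymm (fun z hz => ?_) ((Ideal.span_singleton_le_iff_mem _).2 hg1)⟩
    obtain ⟨u, v, rfl, hu, ⟨b, rfl⟩⟩ := comp z hz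
    obtain ⟨a, rfl⟩ := hc.trans hu
    exact Ideal.mem_span_singleton.2 ⟨y * a + b, by push_cast; ring⟩

omit [IsDomain B] in
theorem rel_iff_amb2 {α β : B} {I J : Ideal B}
    (h : Ideal.span {α} * I = Ideal.span {β} * J) :
    (∀ p ∈ I, ∃ q ∈ J, α * p = β * q) ∧ ∀ q ∈ J, ∃ p ∈ I, α * p = β * q := by
  constructor
  · intro p hp
    have : α * p ∈ Ideal.span {β} * J := by
      rw [← h]; exact Ideal.mem_span_singleton_mul.2 ⟨p, hp, rfl⟩
    obtain ⟨q, hq, e⟩ := Ideal.mem_span_singleton_mul.1 this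
    exact ⟨q, hq, e.symm⟩
  · intro q hq
    have : β * q ∈ Ideal.span {α} * I := by
      rw [h]; exact Ideal.mem_span_singleton_mul.2 ⟨q, hq, rfl⟩
    exact Ideal.mem_span_singleton_mul.1 this

/-- Hilbert 90: a multiple of `P` is invariant under conjugation. -/
theorem QuadData.exists_stable_amb2 (h : QuadData k B A y σ) (P : Ideal B) (G : A)
    (hG : G ≠ 0) (hP : P ⊓ P.comap σ = Ideal.span {(G : B)}) (hrel : Rel P (P.comap σ)) :
    ∃ w : B, w ≠ 0 ∧ ∀ p ∈ P, ∃ q ∈ P, σ w * σ p = w * q := by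
  obtain ⟨α, β, hα, hβ, hrel⟩ := hrel
  obtain ⟨r1, r2⟩ := rel_iff_amb2 hrel
  have hσ0 : ∀ b, b ≠ 0 → σ b ≠ 0 := fun b hb h0 => hb (by rw [← h.invol_amb2 b, h0, map_zero])
  have hG0 : (G : B) ≠ 0 := fun h0 => hG (Subtype.ext h0)
  have hGP : (G : B) ∈ P ⊓ P.comap σ := by rw [hP]; exact Ideal.mem_span_singleton_self _
  have hσG : σ G = G := h.fix _ G.2
  have hfix : ∀ (m n p : B), m ≠ 0 → σ m = m → σ n = n → p ∈ P → n * G = m * p → m ∣ n := by
    intro m n p hm hm' hn' hp e
    have e' := congrArg σ e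
    rw [map_mul, map_mul, hm', hn', hσG] at e'
    have hp' : σ p = p := mul_left_cancel₀ hm (e'.symm.trans e)
    have : p ∈ P ⊓ P.comap σ := ⟨hp, by change σ p ∈ P; rwa [hp']⟩
    rw [hP] at this
    obtain ⟨t, rfl⟩ := Ideal.mem_span_singleton.1 this
    exact ⟨t, mul_right_cancel₀ hG0 (by rw [e]; ring)⟩
  have hNα : σ (α * σ α) = α * σ α := by rw [map_mul, h.invol_amb2, mul_comm]
  have hNβ : σ (β * σ β) = β * σ β := by rw [map_mul, h.invol_amb2, mul_comm]
  have hNα0 : α * σ α ≠ 0 := mul_ne_zero hα (hσ0 _ hα)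
  have hNβ0 : β * σ β ≠ 0 := mul_ne_zero hβ (hσ0 _ hβ)
  have d1 : β * σ β ∣ α * σ α := by
    obtain ⟨q, hq, e⟩ := r1 G hGP.1
    obtain ⟨q', hq', e'⟩ := r1 (σ q) hq
    have e2 := congrArg σ e'
    rw [map_mul, map_mul, h.invol_amb2] at e2
    exact hfix _ _ (σ q') hNβ0 hNβ hNα hq' (by linear_combination σ α * e + β * e2)
  have d2 : α * σ α ∣ β * σ β := by
    obtain ⟨p, hp, e⟩ := r2 G hGP.2
    obtain ⟨p', hp', e'⟩ := r2 (σ p) (by change σ (σ p) ∈ P; rwa [h.invol_amb2])
    have e2 := congrArg σ e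
    rw [map_mul, map_mul, hσG] at e2
    exact hfix _ _ p' hNα0 hNα hNβ hp' (by linear_combination -β * e2 - σ α * e')
  obtain ⟨t, ht⟩ := d1
  have htu : IsUnit t := by
    rw [ht] at d2
    exact isUnit_of_dvd_one ((mul_dvd_mul_iff_left hNβ0).1 (by rwa [mul_one]))
  obtain ⟨c, rfl⟩ := h.unit t htu
  obtain ⟨e, rfl⟩ := h.isSquare_of_norm c (α * σ β) (β * σ β) (h.norm_mem_amb2 β) hNβ0 (by
    rw [map_mul, h.invol_amb2]
    linear_combination β * σ β * ht)
  have main : ∀ e' : k, e' * e' = e * e → algebraMap k B e' * (β * σ β) + α * σ β ≠ 0 →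
      ∃ w : B, w ≠ 0 ∧ ∀ p ∈ P, ∃ q ∈ P, σ w * σ p = w * q := by
    intro e' he' hw
    refine ⟨_, hw, fun p hp => ?_⟩
    obtain ⟨q, hq, e1⟩ := r2 (σ p) (by change σ (σ p) ∈ P; rwa [h.invol_amb2])
    refine ⟨algebraMap k B e' * q, P.mul_mem_left _ hq,
      mul_left_cancel₀ (mul_ne_zero hα (hσ0 _ hβ)) ?_⟩
    rw [← he', map_mul] at ht
    rw [map_add, map_mul, AlgHom.commutes, hNβ, map_mul, h.invol_amb2]
    linear_combination (β * σ β * σ p) * ht -
      algebraMap k B e' * σ β * (algebraMap k B e' * (β * σ β) + α * σ β) * e1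
  by_cases hw : algebraMap k B e * (β * σ β) + α * σ β = 0
  · refine main (-e) (by ring) fun hw' => mul_ne_zero hα (hσ0 _ hβ) ?_
    rw [map_neg] at hw'
    have : α * σ β + α * σ β ∈ (⊥ : Ideal B) := by
      rw [Ideal.mem_bot]; linear_combination hw + hw'
    exact Ideal.mem_bot.1 (two_cancel_amb2 (k := k) _ this)
  · exact main e rfl hw

theorem QuadData.principal_of_rel (h : QuadData k B A y σ) (P : Ideal B) [P.IsPrime] (G : A)
    (hG : Prime G) (hP : P ⊓ P.comap σ = Ideal.span {(G : B)}) (hrel : Rel P (P.comap σ)) :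
    P.IsPrincipal := by
  by_cases hle : P.comap σ ≤ P
  · have h1 : P ≤ P.comap σ := fun z hz =>
      hle (by change σ (σ z) ∈ P; rwa [h.invol_amb2] : σ z ∈ P.comap σ)
    rw [inf_eq_left.2 h1] at hP
    exact ⟨G, hP⟩
  obtain ⟨x, hxQ, hxP⟩ := SetLike.not_le_iff_exists.1 hle
  have hmem : ∀ z, z ∈ P ↔ (G : B) ∣ z * x := by
    intro z
    rw [← Ideal.mem_span_singleton, ← hP]
    exact ⟨fun hz => ⟨P.mul_mem_right x hz, (P.comap σ).mul_mem_left z hxQ⟩,
      fun hz => (Ideal.IsPrime.mem_or_mem inferInstance hz.1).resolve_right hxP⟩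
  obtain ⟨w, hw, hst⟩ := h.exists_stable_amb2 P G hG.ne_zero hP hrel
  have hσw : σ w ≠ 0 := fun h0 => hw (by rw [← h.invol_amb2 w, h0, map_zero])
  let N : A := ⟨w * σ w, h.norm_mem_amb2 w⟩
  have hN : (N : B) = w * σ w := rfl
  have hI : ∀ z, z ∈ Ideal.span {w} * P ↔
      (N : B) ∣ z * σ w ∧ ((N * G : A) : B) ∣ z * (σ w * x) := by
    intro z
    rw [Ideal.mem_span_singleton_mul]
    push_cast
    rw [hN]
    constructor
    · rintro ⟨p, hp, rfl⟩
      obtain ⟨t, ht⟩ := (hmem p).1 hp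
      exact ⟨⟨p, by ring⟩, ⟨t, by linear_combination w * σ w * ht⟩⟩
    · rintro ⟨⟨p, hp⟩, ⟨t, ht⟩⟩
      have hz : w * p = z := mul_right_cancel₀ hσw (by rw [hp]; ring)
      refine ⟨p, (hmem p).2 ⟨t, mul_left_cancel₀ (mul_ne_zero hw hσw) ?_⟩, hz⟩
      rw [← hz] at ht
      linear_combination ht
  obtain ⟨γ, hγ⟩ := h.principal_of_stable_amb2 (Ideal.span {w} * P)
    (fun z hz => by
      obtain ⟨p, hp, rfl⟩ := Ideal.mem_span_singleton_mul.1 hz
      obtain ⟨q, hq, e⟩ := hst p hp
      exact Ideal.mem_span_singleton_mul.2 ⟨q, hq, by rw [map_mul, e]⟩)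
    (fun b u v g hg hu hv => by
      rw [hI] at hu hv ⊢
      simp only [mul_assoc] at hu hv ⊢
      exact ⟨h.dvd_gcd_amb2 _ _ u v g hg hu.1 hv.1, h.dvd_gcd_amb2 _ _ u v g hg hu.2 hv.2⟩)
  have hγm : γ ∈ Ideal.span {w} * P := by rw [hγ]; exact Ideal.mem_span_singleton_self γ
  obtain ⟨p0, hp0, rfl⟩ := Ideal.mem_span_singleton_mul.1 hγm
  refine ⟨p0, le_antisymm (fun p hp => ?_) ((Ideal.span_singleton_le_iff_mem _).2 hp0)⟩
  have : w * p ∈ Ideal.span {w} * P := Ideal.mem_span_singleton_mul.2 ⟨p, hp, rfl⟩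
  rw [hγ] at this
  exact Ideal.mem_span_singleton.2 ((mul_dvd_mul_iff_left hw).1 (Ideal.mem_span_singleton.1 this))

end Zc68
end

-- merged part: Pool.Agent.Work.MP_d65f04_ag.Princ
section
/-! Every curve on `S` is cut out by one form. -/

namespace Zc68

variable {k L : Type} [Field k] [CharZero k] [Field L] [Algebra k L]

theorem evS_not_injective (htr : Algebra.trdeg k L ≤ 1) (x : Fin 5 → L) (h0 : Q0 x = 0)
    (h1 : Q1 x = 0) : ¬ Function.Injective (evS k x h0 h1) := by
  intro hinj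
  have h3 : Algebra.trdeg k (RS k) = (3 : ℕ) := diag_RS.trdeg_eq
  have hle := trdeg_le_of_injective (evS k x h0 h1) hinj
  have hadd := trdeg_add_eq k L (A := Polynomial L)
  rw [Polynomial.trdeg_of_isDomain] at hadd
  rw [h3, ← hadd] at hle
  have h2 : ((3 : ℕ) : Cardinal) ≤ ((2 : ℕ) : Cardinal) := by
    refine hle.trans ?_
    calc Algebra.trdeg k L + 1 ≤ 1 + 1 := add_le_add htr le_rfl
      _ = ((2 : ℕ) : Cardinal) := by norm_num
  have := Nat.cast_le.mp h2
  omega

omit [CharZero k] in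
theorem indep_mul_Princ {B : Type} [CommRing B] [IsDomain B] [Algebra k B] {s w : B}
    (h : AlgebraicIndependent k fun o : Option Unit => o.elim s fun _ => w) :
    AlgebraicIndependent k fun o : Option Unit => o.elim (w * s) fun _ => w := by
  rw [AlgebraicIndependent.option_iff] at h ⊢
  refine ⟨h.1, fun halg => h.2 ?_⟩
  have hw : w ≠ 0 := h.1.ne_zero ()
  refine IsAlgebraic.of_mul (mem_nonZeroDivisors_of_ne_zero hw) ?_ halg
  exact isAlgebraic_algebraMap
    (⟨w, Algebra.subset_adjoin ⟨(), rfl⟩⟩ : Algebra.adjoin k (Set.range fun _ : Unit => w))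

omit [CharZero k] in
theorem indep_sq_Princ {a b : L} (ht : Transcendental k (a / b)) :
    AlgebraicIndependent k ![(Polynomial.C a * Polynomial.X) ^ 2,
      (Polynomial.C b * Polynomial.X) ^ 2] := by
  have hb : b ≠ 0 := by
    rintro rfl
    exact ht (by simpa using isAlgebraic_zero)
  have hs : Transcendental k ((a / b) ^ 2) := ht.pow (by norm_num)
  have hs' : AlgebraicIndependent k fun _ : Unit => (Polynomial.C ((a / b) ^ 2) : Polynomial L) := by
    rw [algebraicIndependent_unique_type_iff]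
    exact fun halg => hs ((isAlgebraic_algebraMap_iff (A := Polynomial L)
      (algebraMap L (Polynomial L)).injective).mp halg)
  have hw : AlgebraicIndependent L fun _ : Unit => (Polynomial.C b * Polynomial.X) ^ 2 := by
    rw [algebraicIndependent_unique_type_iff]
    refine Transcendental.pow ?_ (by norm_num)
    refine Polynomial.transcendental _ ?_ ?_
    · rw [Polynomial.natDegree_C_mul_X _ hb]; norm_num
    · refine mem_nonZeroDivisors_of_ne_zero ?_
      rw [Polynomial.leadingCoeff_C_mul_X]; exact hb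
  have h1 := hs'.sumElim_of_tower (S := L) (by rintro _ ⟨_, rfl⟩; exact ⟨_, rfl⟩) hw
  have h2 : AlgebraicIndependent k fun o : Option Unit =>
      o.elim (Polynomial.C ((a / b) ^ 2) : Polynomial L)
        fun _ => (Polynomial.C b * Polynomial.X) ^ 2 := by
    have := h1.comp (fun o : Option Unit => o.elim (Sum.inr ()) fun _ => Sum.inl ())
      (by rintro (_ | _) (_ | _) h <;> simp_all)
    convert this using 1
    funext o
    cases o <;> rfl
  have h3 := (indep_mul_Princ h2).comp (![none, some ()] : Fin 2 → Option Unit) (by decide)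
  convert h3 using 1
  funext m
  fin_cases m
  · show (Polynomial.C a * Polynomial.X) ^ 2 =
      (Polynomial.C b * Polynomial.X) ^ 2 * Polynomial.C ((a / b) ^ 2)
    have : a = b * (a / b) := by field_simp
    conv_lhs => rw [this]
    rw [map_mul, map_pow]; ring
  · rfl

omit [CharZero k] in
theorem sg_injective_Princ (l : Fin 5) : Function.Injective (sg k l) :=
  Function.LeftInverse.injective (sg_sg l)

/-- The kernel meets `WW l` in a principal prime. -/
theorem ker_inter_WW (hk : Inv k) (htr : Algebra.trdeg k L ≤ 1) (x : Fin 5 → L) (h0 : Q0 x = 0)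
    (h1 : Q1 x = 0) {i j : Fin 5} (ht : Transcendental k (x i / x j)) (l : Fin 5) :
    ∃ G : WW k l, Prime G ∧ ∀ u : WW k l, (u : RS k) ∈ RingHom.ker (evS k x h0 h1) ↔ G ∣ u := by
  have := ufd_WW hk l
  have hq := quadData hk l
  have htr' : Algebra.trdeg k (WW k l) ≤ (2 + 1 : ℕ) := by
    have h3 : Algebra.trdeg k (RS k) = (3 : ℕ) := diag_RS.trdeg_eq
    rw [← h3]
    exact trdeg_le_of_injective (WW k l).val Subtype.val_injective
  have hni : ¬ Function.Injective ((evS k x h0 h1).comp (WW k l).val) := by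
    intro hinj
    apply evS_not_injective htr x h0 h1
    rw [injective_iff_map_eq_zero]
    intro z hz
    obtain ⟨u, hu, v, hv, rfl⟩ := hq.dec z
    have hmem : u ^ 2 - v ^ 2 * yy k l ^ 2 ∈ WW k l :=
      sub_mem (pow_mem hu 2) (mul_mem (pow_mem hv 2) hq.sq)
    have hprod : (u + v * yy k l) * sg k l (u + v * yy k l) = u ^ 2 - v ^ 2 * yy k l ^ 2 := by
      rw [map_add, map_mul, hq.fix u hu, hq.fix v hv, hq.neg]; ring
    have hzero : (⟨_, hmem⟩ : WW k l) = 0 := by
      apply hinj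
      rw [map_zero]
      show evS k x h0 h1 (u ^ 2 - v ^ 2 * yy k l ^ 2) = 0
      rw [← hprod, map_mul, hz, zero_mul]
    have h00 : (u + v * yy k l) * sg k l (u + v * yy k l) = 0 := by
      rw [hprod]; exact congrArg Subtype.val hzero
    rcases mul_eq_zero.mp h00 with h | h
    · exact h
    · exact sg_injective_Princ l (by rw [h, map_zero])
  have hind : AlgebraicIndependent k fun m => ((evS k x h0 h1).comp (WW k l).val)
      ((![⟨yy k i ^ 2, sq_mem_WW l i⟩, ⟨yy k j ^ 2, sq_mem_WW l j⟩] : Fin 2 → WW k l) m) := by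
    convert indep_sq_Princ ht using 1
    funext m
    fin_cases m <;> simp
  obtain ⟨G, hG, hker⟩ := ker_eq_span_prime _ htr' _ hind hni
  refine ⟨G, hG, fun u => ?_⟩
  rw [← Ideal.mem_span_singleton, ← hker]
  rfl

omit [CharZero k] in
theorem evS_comp_sg_Princ (x : Fin 5 → L) (h0 : Q0 x = 0) (h1 : Q1 x = 0) (l : Fin 5) :
    (evS k x h0 h1).comp (sg k l) =
      evS k (flipS l x) (by rw [Q0_flipS, h0]) (by rw [Q1_flipS, h1]) := by
  apply RS_ext
  intro j
  by_cases h : j = l <;> simp [flipS, h]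

omit [CharZero k] in
theorem comap_ker_Princ (x : Fin 5 → L) (h0 : Q0 x = 0) (h1 : Q1 x = 0) (l : Fin 5) :
    (RingHom.ker (evS k x h0 h1)).comap (sg k l) =
      RingHom.ker (evS k (flipS l x) (by rw [Q0_flipS, h0]) (by rw [Q1_flipS, h1])) := by
  rw [← evS_comp_sg_Princ x h0 h1 l]
  rfl

omit [CharZero k] in
theorem trans_flipS_Princ {x : Fin 5 → L} {i j : Fin 5} (ht : Transcendental k (x i / x j))
    (l : Fin 5) : Transcendental k (flipS l x i / flipS l x j) := by
  intro halg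
  apply ht
  refine IsAlgebraic.of_pow (n := 2) (by norm_num) ?_
  have := halg.pow 2
  rwa [div_pow, flipS_sq, flipS_sq, ← div_pow] at this

omit [CharZero k] in
theorem principal_of_comap_Princ (l : Fin 5) (P : Ideal (RS k))
    (h : (P.comap (sg k l)).IsPrincipal) : P.IsPrincipal := by
  obtain ⟨g, hg⟩ := h
  refine ⟨sg k l g, ?_⟩
  ext r
  have h1 : r ∈ P ↔ sg k l r ∈ P.comap (sg k l) := by
    rw [Ideal.mem_comap, sg_sg]
  rw [h1, hg]
  simp only [Ideal.submodule_span_eq, Ideal.mem_span_singleton]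
  constructor
  · intro hd
    have := map_dvd (sg k l) hd
    rwa [sg_sg] at this
  · intro hd
    have := map_dvd (sg k l) hd
    rwa [sg_sg] at this

/-- The kernels of evaluation maps along a curve. -/
def Cur_Princ (k L : Type) [Field k] [Field L] [Algebra k L] (P : Ideal (RS k)) : Prop :=
  ∃ (x : Fin 5 → L) (h0 : Q0 x = 0) (h1 : Q1 x = 0) (i j : Fin 5),
    Transcendental k (x i / x j) ∧ P = RingHom.ker (evS k x h0 h1)

omit [CharZero k] in
theorem Cur_Princ.comap {P : Ideal (RS k)} (h : Cur_Princ k L P) (l : Fin 5) :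
    Cur_Princ k L (P.comap (sg k l)) := by
  obtain ⟨x, h0, h1, i, j, ht, rfl⟩ := h
  exact ⟨flipS l x, _, _, i, j, trans_flipS_Princ ht l, comap_ker_Princ x h0 h1 l⟩

omit [CharZero k] in
theorem Cur_Princ.isPrime {P : Ideal (RS k)} (h : Cur_Princ k L P) : P.IsPrime := by
  obtain ⟨x, h0, h1, i, j, -, rfl⟩ := h
  exact RingHom.ker_isPrime _

theorem Cur_Princ.inf (hk : Inv k) (htr : Algebra.trdeg k L ≤ 1) {P : Ideal (RS k)}
    (h : Cur_Princ k L P) (hP : ¬ P.IsPrincipal) (l : Fin 5) :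
    ∃ G : WW k l, Prime G ∧ P ⊓ P.comap (sg k l) = Ideal.span {(G : RS k)} := by
  have := h.isPrime
  obtain ⟨x, h0, h1, i, j, ht, rfl⟩ := h
  obtain ⟨G, hG, hGP⟩ := ker_inter_WW hk htr x h0 h1 ht l
  exact ⟨G, hG, ((quadData hk l).cases _ G hG hGP).resolve_left hP⟩

theorem Cur_Princ.rel (hk : Inv k) (htr : Algebra.trdeg k L ≤ 1) {P : Ideal (RS k)}
    (h : Cur_Princ k L P) (hP : ¬ P.IsPrincipal) (l m : Fin 5) :
    Rel P ((P.comap (sg k l)).comap (sg k m)) := by
  have := h.isPrime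
  obtain ⟨G, hG, hGP⟩ := h.inf hk htr hP l
  obtain ⟨G', hG', hGP'⟩ := (h.comap l).inf hk htr
    (fun hh => hP (principal_of_comap_Princ l P hh)) m
  refine (rel_of_two (sg k l) (sg k m) (sg_sg l) (sg_sg m) (sg_comm l m) P G G' ?_ ?_
    hGP hGP').resolve_left hP
  · exact fun h0 => hG.ne_zero (Subtype.ext h0)
  · exact fun h0 => hG'.ne_zero (Subtype.ext h0)

omit [CharZero k] in
theorem four_Princ (x : Fin 5 → L) (h0 : Q0 x = 0) (h1 : Q1 x = 0) :
    ((((RingHom.ker (evS k x h0 h1)).comap (sg k 1)).comap (sg k 2)).comap (sg k 3)).comap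
      (sg k 4) = (RingHom.ker (evS k x h0 h1)).comap (sg k 0) := by
  have key : (((((evS k x h0 h1).comp (sg k 1)).comp (sg k 2)).comp (sg k 3)).comp (sg k 4)) =
      (((Polynomial.algEquivAevalNegX (R := L)).toAlgHom.restrictScalars k).comp
        (evS k x h0 h1)).comp (sg k 0) := by
    apply RS_ext
    intro j
    fin_cases j <;> simp [flipS]
  ext r
  have := DFunLike.congr_fun key r
  simp only [AlgHom.comp_apply] at this
  simp only [Ideal.mem_comap, RingHom.mem_ker]
  rw [this]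
  exact map_eq_zero_iff _ (Polynomial.algEquivAevalNegX (R := L)).injective

theorem ker_principal (hk : Inv k) (htr : Algebra.trdeg k L ≤ 1) (x : Fin 5 → L) (h0 : Q0 x = 0)
    (h1 : Q1 x = 0) {i j : Fin 5} (ht : Transcendental k (x i / x j)) :
    (RingHom.ker (evS k x h0 h1)).IsPrincipal := by
  by_contra hP
  have hc : Cur_Princ k L (RingHom.ker (evS k x h0 h1)) := ⟨x, h0, h1, i, j, ht, rfl⟩
  have := hc.isPrime
  have r1 := hc.rel hk htr hP 1 2
  have r2 := ((hc.comap 1).comap 2).rel hk htr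
    (fun hh => hP (principal_of_comap_Princ 1 _ (principal_of_comap_Princ 2 _ hh))) 3 4
  have r3 := r1.trans r2
  rw [four_Princ] at r3
  obtain ⟨G, hG, hGP⟩ := hc.inf hk htr hP 0
  exact hP ((quadData hk 0).principal_of_rel _ G hG hGP r3)

end Zc68
end

-- merged part: Pool.Agent.Work.MP_d65f04_ag.EvenIm
section
/-! Hilbert functions of curves on `S`. -/

namespace Zc68

open Polynomial

variable {k L : Type} [Field k] [CharZero k] [Field L] [Algebra k L]

omit [CharZero k] in
theorem evS_eq_map_evenIm (x : Fin 5 → L) (h0 : Q0 x = 0) (h1 : Q1 x = 0) (r : RS k) :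
    evS k x h0 h1 r = (Dl k r).map (liftS (k := k) x h0 h1 : RS k →+* L) := by
  have : evS k x h0 h1 = (mapAlgHom (liftS x h0 h1)).comp (Dl k) := by
    apply RS_ext
    intro j
    simp [Dl]
  rw [this]; rfl

theorem evS_of_mem_evenIm (x : Fin 5 → L) (h0 : Q0 x = 0) (h1 : Q1 x = 0) {n : ℕ} {r : RS k}
    (hr : r ∈ UU k (yy k) n) : evS k x h0 h1 r = 0 ↔ liftS x h0 h1 r = 0 := by
  rw [evS_eq_map_evenIm, (mem_UU_iff n r).mp hr]
  simp

omit [CharZero k] in
theorem map_UU_evenIm (x : Fin 5 → L) (h0 : Q0 x = 0) (h1 : Q1 x = 0) (n : ℕ) :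
    (UU k (yy k) n).map (liftS x h0 h1).toLinearMap = UU k x n := by
  have : (liftS x h0 h1).comp (MvPolynomial.aeval (yy k)) = MvPolynomial.aeval (R := k) x := by
    apply MvPolynomial.algHom_ext
    intro j
    simp
  rw [UU, UU, ← Submodule.map_comp, ← AlgHom.comp_toLinearMap, this]

/-- The Hilbert function of a curve on `S` is eventually even. -/
theorem even_image (hk : Inv k) (htr : Algebra.trdeg k L ≤ 1) (x : Fin 5 → L) (h0 : Q0 x = 0)
    (h1 : Q1 x = 0) {i j : Fin 5} (ht : Transcendental k (x i / x j)) :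
    ∃ n₀, ∀ n ≥ n₀, Even (Module.finrank k (UU k x n)) := by
  obtain ⟨π, hπ⟩ := ker_principal hk htr x h0 h1 ht
  have hmem : ∀ r, evS k x h0 h1 r = 0 ↔ π ∣ r := fun r => by
    rw [← RingHom.mem_ker, hπ]; exact Ideal.mem_span_singleton
  have hπ0 : π ≠ 0 := by
    rintro rfl
    apply evS_not_injective htr x h0 h1
    rw [injective_iff_map_eq_zero]
    intro r hr
    exact zero_dvd_iff.mp ((hmem r).mp hr)
  have hD : Dl k π ≠ 0 := fun h => hπ0 (by rw [← eval_one_Dl π, h, eval_zero])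
  obtain ⟨d, hd⟩ : ∃ d, (Dl k π).coeff d ≠ 0 := ⟨_, mt leadingCoeff_eq_zero.mp hD⟩
  obtain ⟨s, hs⟩ : π ∣ (Dl k π).coeff d := by
    rw [← hmem, evS_of_mem_evenIm x h0 h1 (coeff_Dl_mem π d)]
    have := congrArg (fun p => p.coeff d) ((hmem π).mpr dvd_rfl)
    simpa [evS_eq_map_evenIm] using this
  obtain ⟨m, -, hm, -⟩ := exists_mem_UU_of_mul (hs ▸ coeff_Dl_mem π d) (hs ▸ hd)
  refine ⟨m, fun n hn => ?_⟩
  have hker : UU k (yy k) n ⊓ LinearMap.ker (liftS x h0 h1).toLinearMap =
      (UU k (yy k) (n - m)).map (LinearMap.mulLeft k π) := by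
    ext r
    simp only [Submodule.mem_inf, LinearMap.mem_ker, AlgHom.toLinearMap_apply, Submodule.mem_map,
      LinearMap.mulLeft_apply]
    constructor
    · rintro ⟨hr, hr0⟩
      obtain ⟨w, rfl⟩ := (hmem r).mp ((evS_of_mem_evenIm x h0 h1 hr).mpr hr0)
      refine ⟨w, ?_, rfl⟩
      rw [mem_UU_iff] at hr hm ⊢
      rw [map_mul, hm] at hr
      have hX : (X : (RS k)[X]) ^ n = X ^ m * X ^ (n - m) := by
        rw [← pow_add, Nat.add_sub_cancel' hn]
      have hne : C π * X ^ m ≠ 0 := mul_ne_zero (C_ne_zero.mpr hπ0) (pow_ne_zero _ X_ne_zero)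
      apply mul_left_cancel₀ hne
      rw [hr, hX, map_mul]; ring
    · rintro ⟨w, hw, rfl⟩
      have hr : π * w ∈ UU k (yy k) n := by
        rw [mem_UU_iff] at hw hm ⊢
        have hX : (X : (RS k)[X]) ^ n = X ^ m * X ^ (n - m) := by
          rw [← pow_add, Nat.add_sub_cancel' hn]
        rw [map_mul, hm, hw, hX, map_mul]; ring
      exact ⟨hr, (evS_of_mem_evenIm x h0 h1 hr).mp ((hmem _).mpr (dvd_mul_right _ _))⟩
  have hrank := LinearMap.finrank_range_add_finrank_ker
    ((liftS x h0 h1).toLinearMap.domRestrict (UU k (yy k) n))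
  rw [LinearMap.range_domRestrict, map_UU_evenIm, LinearMap.ker_domRestrict,
    ← Submodule.finrank_map_subtype_eq, Submodule.map_comap_subtype, hker,
    ← (Submodule.equivMapOfInjective _ (mul_right_injective₀ hπ0 :
      Function.Injective (LinearMap.mulLeft k π)) _).finrank_eq] at hrank
  have o1 := odd_finrank_UU (k := k) n
  have o2 := odd_finrank_UU (k := k) (n - m)
  rw [← hrank] at o1
  exact (Nat.odd_add'.mp o1).mp o2

end Zc68
end

-- merged part: Pool.Agent.Work.MP_d65f04_ag.Conic3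
section
/-! The invariant survives the passage to the function field of a conic. -/

namespace Zc68

theorem Q0_smul {R : Type} [CommRing R] (c : R) (y : Fin 5 → R) :
    Q0 (fun j => c * y j) = c ^ 2 * Q0 y := by simp only [Q0]; ring

theorem Q1_smul {R : Type} [CommRing R] (c : R) (y : Fin 5 → R) :
    Q1 (fun j => c * y j) = c ^ 2 * Q1 y := by simp only [Q1]; ring

theorem conic_step {k : Type} [Field k] [CharZero k] (hk : Inv k) (a b : k) (ha : ¬ IsSquare a)
    (hb : ¬ ∃ x y : k, x ^ 2 - a * y ^ 2 = b) :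
    ∃ (L : Type) (_ : Field L) (_ : Algebra k L), Inv L ∧
      (∃ x y : L, x ^ 2 - algebraMap k L a * y ^ 2 = algebraMap k L b) ∧
      (Countable k → Countable L) := by
  obtain ⟨K, E, _, _, _, _, _, _, r, c, t, τ, h, hc⟩ := exists_conicData a b ha hb
  have hsq : ∀ u : k, IsSquare (algebraMap k (LL τ) u) → IsSquare u := by
    rintro u ⟨f, hf⟩
    have halg : IsAlgebraic k f := by
      refine ⟨Polynomial.X ^ 2 - Polynomial.C u, Polynomial.X_pow_sub_C_ne_zero two_pos u, ?_⟩
      simp [hf, sq]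
    obtain ⟨v, rfl⟩ := h.const f halg
    exact ⟨v, (algebraMap k (LL τ)).injective (by rw [map_mul, hf])⟩
  refine ⟨LL τ, inferInstance, inferInstance, ⟨?_, ?_, ?_, ?_, ?_⟩, h.point, fun hk => ?_⟩
  · intro x h0 h1
    by_contra hx
    obtain ⟨j, hj⟩ := Function.ne_iff.mp hx
    have hj : x j ≠ 0 := hj
    by_cases halg : ∀ i, IsAlgebraic k (x i / x j)
    · choose u hu using fun i => h.const _ (halg i)
      have hxu : (fun i => algebraMap k (LL τ) (u i)) = fun i => (x j)⁻¹ * x i := by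
        funext i; rw [← hu, div_eq_inv_mul]
      have hu0 : u = 0 := by
        apply hk.1 u
        · apply (algebraMap k (LL τ)).injective
          rw [map_Q0, hxu, Q0_smul, h0]; simp
        · apply (algebraMap k (LL τ)).injective
          rw [map_Q1, hxu, Q1_smul, h1]; simp
      have := hu j
      rw [hu0, div_self hj] at this
      simp at this
    · push Not at halg
      obtain ⟨i, hi⟩ := halg
      obtain ⟨ν, m, p, hν, hp1, hp2, hp3, hp4⟩ := h.primitive x hx
      have h0' : Q0 (fun j => ν * x j) = 0 := by rw [Q0_smul, h0, mul_zero]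
      have h1' : Q1 (fun j => ν * x j) = 0 := by rw [Q1_smul, h1, mul_zero]
      refine filt_contra hk.1 (fun n => TT K t τ (m * n)) ?_ ?_ ?_ (fun j => ν * x j) ?_ ?_ h0' h1'
        ?_ (even_image hk h.trdeg_le _ h0' h1' (i := i) (j := j) ?_)
      · intro n; rw [h.finrank_TT]; exact odd_two_mul_add_one _
      · intro m' n f hf g hg; rw [mul_add]; exact mul_mem_TT hf hg
      · simpa using one_mem_TT
      · intro h'; exact mul_ne_zero hν hj (congrFun h' j)
      · intro j; exact ⟨p j, by simpa using hp2 j, by simpa using hp1 j⟩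
      · intro s G hG hG0
        exact h.gen_of_primitive _ m p hp1 hp2 hp3 hp4 s G hG hG0
      · rw [mul_div_mul_left _ _ hν]; exact hi
  · intro h2; exact hk.2.1 (hsq 2 (by simpa [map_ofNat] using h2))
  · intro h2; exact hk.2.2.1 (hsq 3 (by simpa [map_ofNat] using h2))
  · intro h2; exact hk.2.2.2.1 (hsq 6 (by simpa [map_ofNat] using h2))
  · intro h2; exact hk.2.2.2.2 (hsq (-1) (by simpa using h2))
  · have := hc hk
    infer_instance

end Zc68
end

-- merged part: Pool.Agent.Work.MP_d65f04_ag.Tower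
section
/-! A field of cohomological dimension one over which `S` has no point. -/

namespace Zc68

/-- A countable extension of a countable subfield of `ℂ` embeds in `ℂ`. -/
theorem exists_embed (k : Subfield ℂ) (L : Type) [Field L] [Algebra k L] [Countable L] :
    Nonempty (L →ₐ[k] ℂ) := by
  classical
  have hk : Countable k := (algebraMap k L).injective.countable
  obtain ⟨s, hs⟩ := exists_isTranscendenceBasis k L
  obtain ⟨t, ht⟩ := exists_isTranscendenceBasis k ℂ
  have hc : Cardinal.mk ℂ = Cardinal.mk t := by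
    simpa using IsAlgClosed.cardinal_eq_cardinal_transcendence_basis_of_aleph0_lt _ ht
      Cardinal.mk_le_aleph0 (by rw [Cardinal.mk_complex]; exact Cardinal.aleph0_lt_continuum)
  have hle : Cardinal.mk s ≤ Cardinal.mk t := by
    rw [← hc, Cardinal.mk_complex]
    exact Cardinal.mk_le_aleph0.trans Cardinal.aleph0_le_continuum
  obtain ⟨e⟩ := (Cardinal.le_def _ _).1 hle
  have hy : AlgebraicIndependent k fun i : s => ((e i : t) : ℂ) := ht.1.comp e e.injective
  let R := Algebra.adjoin k (Set.range ((↑) : s → L))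
  let g : R →ₐ[k] ℂ :=
    (MvPolynomial.aeval fun i : s => ((e i : t) : ℂ)).comp hs.1.aevalEquiv.symm.toAlgHom
  have hg : Function.Injective g := fun a b hab =>
    hs.1.aevalEquiv.symm.injective (algebraicIndependent_iff_injective_aeval.1 hy hab)
  let _ : Algebra R ℂ := g.toRingHom.toAlgebra
  have : IsScalarTower k R ℂ := IsScalarTower.of_algebraMap_eq fun x => (g.commutes x).symm
  have : FaithfulSMul R ℂ := (faithfulSMul_iff_algebraMap_injective R ℂ).2 hg
  have : Algebra.IsAlgebraic R L := hs.isAlgebraic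
  exact ⟨(IsAlgClosed.lift (R := R) (S := L) (M := ℂ)).restrictScalars k⟩

theorem chain_tower {α : Type} (Q : α → Prop) (R : ℕ → α → α → Prop)
    (h : ∀ n a, Q a → ∃ b, Q b ∧ R n a b) {a₀ : α} (h₀ : Q a₀) :
    ∃ c : ℕ → α, c 0 = a₀ ∧ ∀ n, Q (c n) ∧ R n (c n) (c (n + 1)) := by
  choose! f hf using h
  let c : ℕ → α := fun n => Nat.rec a₀ (fun n a => f n a) n
  have hQ : ∀ n, Q (c n) := fun n => by
    induction n with
    | zero => exact h₀
    | succ n ih => exact (hf n _ ih).1
  exact ⟨c, rfl, fun n => ⟨hQ n, (hf n _ (hQ n)).2⟩⟩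

theorem abstract_tower {α P : Type} [CompleteLattice α] (G : α → Prop) (D S : α → P → Prop)
    (hD : ∀ k k' p, k ≤ k' → D k p → D k' p) (hS : ∀ k k' p, k ≤ k' → S k p → S k' p)
    (hcount : ∀ k, G k → {p | D k p}.Countable)
    (hstep : ∀ k p, G k → D k p → ∃ k', G k' ∧ k ≤ k' ∧ S k' p)
    (hunion : ∀ c : ℕ → α, Monotone c → (∀ n, G (c n)) → G (⨆ n, c n))
    (hfin : ∀ c : ℕ → α, Monotone c → ∀ p, D (⨆ n, c n) p → ∃ n, D (c n) p)
    {k₀ : α} (h₀ : G k₀) : ∃ k, G k ∧ ∀ p, D k p → S k p := by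
  have hA : ∀ k, G k → ∃ k', G k' ∧ k ≤ k' ∧ ∀ p, D k p → S k' p := by
    intro k hk
    rcases Set.eq_empty_or_nonempty {p | D k p} with h | h
    · exact ⟨k, hk, le_rfl, fun p hp => absurd (show p ∈ {p | D k p} from hp) (by simp [h])⟩
    obtain ⟨f, hf⟩ := (hcount k hk).exists_eq_range h
    have hfD : ∀ n, D k (f n) := fun n =>
      show f n ∈ {p | D k p} from hf ▸ Set.mem_range_self n
    obtain ⟨c, hc0, hc⟩ := chain_tower (fun a => G a ∧ k ≤ a) (fun n a b => a ≤ b ∧ S b (f n))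
      (fun n a ha => by
        obtain ⟨b, hb, hab, hs⟩ := hstep a (f n) ha.1 (hD _ _ _ ha.2 (hfD n))
        exact ⟨b, ⟨hb, ha.2.trans hab⟩, hab, hs⟩) ⟨hk, le_rfl⟩
    have hm : Monotone c := monotone_nat_of_le_succ fun n => (hc n).2.1
    refine ⟨⨆ n, c n, hunion c hm fun n => (hc n).1.1, (hc 0).1.2.trans (le_iSup c 0),
      fun p hp => ?_⟩
    obtain ⟨n, rfl⟩ : p ∈ Set.range f := hf ▸ hp
    exact hS _ _ _ (le_iSup c (n + 1)) (hc n).2.2
  obtain ⟨c, -, hc⟩ := chain_tower G (fun _ a b => a ≤ b ∧ ∀ p, D a p → S b p)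
    (fun _ a ha => hA a ha) h₀
  have hm : Monotone c := monotone_nat_of_le_succ fun n => (hc n).2.1
  refine ⟨⨆ n, c n, hunion c hm fun n => (hc n).1, fun p hp => ?_⟩
  obtain ⟨n, hn⟩ := hfin c hm p hp
  exact hS _ _ _ (le_iSup c (n + 1)) ((hc n).2.2 p hn)

theorem inv_of_local_tower {K : Type} [Field K]
    (h : ∀ y : Fin 5 → K, ∃ (L : Type) (_ : Field L) (f : L →+* K),
      Inv L ∧ ∀ j, ∃ x, f x = y j) : Inv K := by
  have hsq : ∀ n : ℤ, IsSquare (n : K) → ∃ (L : Type) (_ : Field L), Inv L ∧ IsSquare (n : L) := by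
    rintro n ⟨r, hr⟩
    obtain ⟨L, _, f, hL, hy⟩ := h fun _ => r
    obtain ⟨x, hx⟩ := hy 0
    exact ⟨L, inferInstance, hL, x, f.injective (by rw [map_intCast, map_mul, hx, hr])⟩
  refine ⟨fun y h0 h1 => ?_, fun h2 => ?_, fun h2 => ?_, fun h2 => ?_, fun h2 => ?_⟩
  · obtain ⟨L, _, f, hL, hy⟩ := h y
    choose x hx using hy
    have e : (fun j => f (x j)) = y := funext hx
    have hx0 : x = 0 := hL.1 x (f.injective (by rw [map_Q0, e, h0, map_zero]))
      (f.injective (by rw [map_Q1, e, h1, map_zero]))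
    rw [← e, hx0]
    funext j
    simp
  · obtain ⟨L, _, hL, h3⟩ := hsq 2 (by simpa using h2)
    exact hL.2.1 (by simpa using h3)
  · obtain ⟨L, _, hL, h3⟩ := hsq 3 (by simpa using h2)
    exact hL.2.2.1 (by simpa using h3)
  · obtain ⟨L, _, hL, h3⟩ := hsq 6 (by simpa using h2)
    exact hL.2.2.2.1 (by simpa using h3)
  · obtain ⟨L, _, hL, h3⟩ := hsq (-1) (by simpa using h2)
    exact hL.2.2.2.2 (by simpa using h3)

theorem good_fieldRange_tower {L : Type} [Field L] [Countable L] (hL : Inv L) (f : L →+* ℂ) :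
    Countable f.fieldRange ∧ Inv f.fieldRange :=
  ⟨f.rangeRestrictField_bijective.2.countable, inv_of_local_tower fun y =>
    ⟨L, inferInstance, f.rangeRestrictField, hL, fun j => f.rangeRestrictField_bijective.2 (y j)⟩⟩

theorem exists_odd_factor_tower {k : Type} [Field k] (p : Polynomial k) (hp : Odd p.natDegree) :
    ∃ q : Polynomial k, Irreducible q ∧ Odd q.natDegree ∧ q ∣ p := by
  induction p using WfDvdMonoid.induction_on_irreducible with
  | zero => simp at hp
  | unit u hu =>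
    rw [Polynomial.natDegree_eq_zero_of_isUnit hu] at hp
    simp at hp
  | mul a i ha hi ih =>
    rw [Polynomial.natDegree_mul hi.ne_zero ha] at hp
    by_cases h : Odd i.natDegree
    · exact ⟨i, hi, h, dvd_mul_right _ _⟩
    · obtain ⟨q, hq, hq1, hq2⟩ := ih (by
        rw [Nat.odd_add, iff_false_intro h] at hp
        simpa using hp)
      exact ⟨q, hq, hq1, hq2.mul_left _⟩

/-- The problems to be solved: polynomials of odd degree and conics. -/
def DefTower (k : Subfield ℂ) : Polynomial ℂ ⊕ (ℂ × ℂ) → Prop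
  | .inl p => Odd p.natDegree ∧ ∀ i, p.coeff i ∈ k
  | .inr q => q.1 ∈ k ∧ q.2 ∈ k

/-- The problem is solved in `k`. -/
def SolTower (k : Subfield ℂ) : Polynomial ℂ ⊕ (ℂ × ℂ) → Prop
  | .inl p => ∃ x ∈ k, p.IsRoot x
  | .inr q => (∃ r ∈ k, q.1 = r * r) ∨ ∃ x ∈ k, ∃ y ∈ k, x ^ 2 - q.1 * y ^ 2 = q.2

theorem lift_poly_tower (k : Subfield ℂ) {p : Polynomial ℂ} (hp : ∀ i, p.coeff i ∈ k) :
    ∃ q : Polynomial k, q.map (algebraMap k ℂ) = p :=
  (Polynomial.mem_lifts p).1 ((Polynomial.lifts_iff_coeff_lifts p).2 fun i => ⟨⟨_, hp i⟩, rfl⟩)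

theorem count_tower (k : Subfield ℂ) [Countable k] : {p | DefTower k p}.Countable := by
  have : Countable (Polynomial k) := by
    rw [← Cardinal.mk_le_aleph0_iff]
    exact Polynomial.cardinalMk_le_max.trans (max_le Cardinal.mk_le_aleph0 le_rfl)
  refine (Set.countable_range (Sum.map (Polynomial.map (algebraMap k ℂ))
    (Prod.map ((↑) : k → ℂ) ((↑) : k → ℂ)))).mono ?_
  rintro (p | ⟨a, b⟩) hp
  · obtain ⟨q, rfl⟩ := lift_poly_tower k hp.2
    exact ⟨.inl q, rfl⟩
  · exact ⟨.inr (⟨a, hp.1⟩, ⟨b, hp.2⟩), rfl⟩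

theorem step_tower (k : Subfield ℂ) (p : Polynomial ℂ ⊕ (ℂ × ℂ)) (hk : Countable k ∧ Inv k)
    (hp : DefTower k p) : ∃ k' : Subfield ℂ, (Countable k' ∧ Inv k') ∧ k ≤ k' ∧ SolTower k' p := by
  obtain ⟨hc, hk⟩ := hk
  have hle : ∀ {L : Type} [Field L] [Algebra k L] (φ : L →ₐ[k] ℂ),
      k ≤ (φ : L →+* ℂ).fieldRange := fun φ x hx => ⟨algebraMap k _ ⟨x, hx⟩, φ.commutes _⟩
  rcases p with p | ⟨a, b⟩
  · obtain ⟨q, rfl⟩ := lift_poly_tower k hp.2
    have hodd : Odd q.natDegree := by
      have := hp.1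
      rwa [Polynomial.natDegree_map] at this
    obtain ⟨r, hr, hr1, hr2⟩ := exists_odd_factor_tower q hodd
    have : Fact (Irreducible r) := ⟨hr⟩
    let pb := AdjoinRoot.powerBasis hr.ne_zero
    have : FiniteDimensional k (AdjoinRoot r) := pb.finite
    have : Countable (AdjoinRoot r) := pb.basis.equivFun.injective.countable
    have hL : Inv (AdjoinRoot r) := Inv.of_odd (by rw [pb.finrank]; exact hr1) hk
    obtain ⟨φ⟩ := exists_embed k (AdjoinRoot r)
    refine ⟨(φ : AdjoinRoot r →+* ℂ).fieldRange, good_fieldRange_tower hL _, hle φ,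
      φ (AdjoinRoot.root r), ⟨_, rfl⟩, ?_⟩
    rw [Polynomial.IsRoot, Polynomial.eval_map_algebraMap, Polynomial.aeval_algHom_apply,
      AdjoinRoot.aeval_eq, AdjoinRoot.mk_eq_zero.2 hr2, map_zero]
  · by_cases ha : IsSquare (⟨a, hp.1⟩ : k)
    · obtain ⟨r, hr⟩ := ha
      exact ⟨k, ⟨hc, hk⟩, le_rfl, .inl ⟨r, r.2, congrArg Subtype.val hr⟩⟩
    by_cases hb : ∃ x y : k, x ^ 2 - (⟨a, hp.1⟩ : k) * y ^ 2 = ⟨b, hp.2⟩
    · obtain ⟨x, y, h⟩ := hb
      exact ⟨k, ⟨hc, hk⟩, le_rfl, .inr ⟨x, x.2, y, y.2, congrArg Subtype.val h⟩⟩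
    obtain ⟨L, _, _, hL, ⟨x, y, h⟩, hcL⟩ := conic_step hk _ _ ha hb
    have := hcL hc
    obtain ⟨φ⟩ := exists_embed k L
    refine ⟨(φ : L →+* ℂ).fieldRange, good_fieldRange_tower hL _, hle φ,
      .inr ⟨φ x, ⟨_, rfl⟩, φ y, ⟨_, rfl⟩, ?_⟩⟩
    have := congrArg φ h
    simp only [map_sub, map_mul, map_pow, AlgHom.commutes] at this
    exact this

theorem finset_le_tower (c : ℕ → Subfield ℂ) (hc : Monotone c) {ι : Type} (s : Finset ι)
    (y : ι → ℂ) (hy : ∀ i ∈ s, y i ∈ ⨆ n, c n) : ∃ n, ∀ i ∈ s, y i ∈ c n := by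
  simp only [Subfield.mem_iSup_of_directed hc.directed_le] at hy
  choose! m hm using hy
  exact ⟨s.sup m, fun i hi => hc (Finset.le_sup hi) (hm i hi)⟩

theorem union_tower (c : ℕ → Subfield ℂ) (hc : Monotone c)
    (h : ∀ n, Countable (c n) ∧ Inv (c n)) :
    Countable (⨆ n, c n : Subfield ℂ) ∧ Inv (⨆ n, c n : Subfield ℂ) := by
  constructor
  · have : ((⨆ n, c n : Subfield ℂ) : Set ℂ).Countable := by
      rw [Subfield.coe_iSup_of_directed hc.directed_le]
      exact Set.countable_iUnion fun n => (h n).1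
    exact this
  · refine inv_of_local_tower fun y => ?_
    obtain ⟨n, hn⟩ := finset_le_tower c hc Finset.univ (fun j => (y j : ℂ)) fun j _ => (y j).2
    exact ⟨c n, inferInstance, Subfield.inclusion (le_iSup c n), (h n).2,
      fun j => ⟨⟨y j, hn j (Finset.mem_univ j)⟩, rfl⟩⟩

theorem fin_tower (c : ℕ → Subfield ℂ) (hc : Monotone c) (p : Polynomial ℂ ⊕ (ℂ × ℂ))
    (hp : DefTower (⨆ n, c n) p) : ∃ n, DefTower (c n) p := by
  rcases p with p | ⟨a, b⟩
  · obtain ⟨n, hn⟩ := finset_le_tower c hc p.support p.coeff fun i _ => hp.2 i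
    refine ⟨n, hp.1, fun i => ?_⟩
    by_cases hi : i ∈ p.support
    · exact hn i hi
    · rw [Polynomial.notMem_support_iff.1 hi]
      exact zero_mem _
  · obtain ⟨n, hn⟩ := finset_le_tower c hc Finset.univ ![a, b] fun i _ => by
      fin_cases i
      · exact hp.1
      · exact hp.2
    exact ⟨n, hn 0 (Finset.mem_univ _), hn 1 (Finset.mem_univ _)⟩

theorem exists_good : ∃ (k : Type) (_ : Field k) (_ : CharZero k), Inv k ∧ Good2 k := by
  obtain ⟨k, ⟨-, hk⟩, hs⟩ := abstract_tower (fun k : Subfield ℂ => Countable k ∧ Inv k)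
    DefTower SolTower
    (by
      rintro k k' (p | ⟨a, b⟩) h hp
      · exact ⟨hp.1, fun i => h (hp.2 i)⟩
      · exact ⟨h hp.1, h hp.2⟩)
    (by
      rintro k k' (p | ⟨a, b⟩) h hp
      · obtain ⟨x, hx, hp⟩ := hp
        exact ⟨x, h hx, hp⟩
      · rcases hp with ⟨r, hr, hp⟩ | ⟨x, hx, y, hy, hp⟩
        · exact .inl ⟨r, h hr, hp⟩
        · exact .inr ⟨x, h hx, y, h hy, hp⟩)
    (fun k hk => by
      have := hk.1
      exact count_tower k)
    step_tower union_tower fin_tower (good_fieldRange_tower inv_rat (algebraMap ℚ ℂ))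
  refine ⟨k, inferInstance, inferInstance, hk, fun p hp => ?_, fun a b => ?_⟩
  · obtain ⟨x, hx, h⟩ := hs (.inl (p.map (algebraMap k ℂ)))
      ⟨by rwa [Polynomial.natDegree_map], fun i => by
        rw [Polynomial.coeff_map]
        exact (p.coeff i).2⟩
    exact ⟨⟨x, hx⟩, (Polynomial.isRoot_map_iff (algebraMap k ℂ).injective).1 h⟩
  · rcases hs (.inr (a, b)) ⟨a.2, b.2⟩ with ⟨r, hr, h⟩ | ⟨x, hx, y, hy, h⟩
    · exact .inl ⟨⟨r, hr⟩, Subtype.ext h⟩
    · exact .inr ⟨⟨x, hx⟩, ⟨y, hy⟩, Subtype.ext h⟩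

end Zc68
end

-- merged part: Pool.Agent.Work.MP_d65f04_ag.XDef
section
/-! The intersection of three quadrics in `P^6`. -/

namespace Zc68

open scoped LinearAlgebra.Projectivization

variable {K : Type} [Field K]

/-- Coefficients of the first quadric. -/
def cX (ρ : K) : Fin 7 → K := ![3, 6, 1, -1, -2, -ρ ^ 5, ρ ^ 5]

/-- Parameters of the net of quadrics. -/
def tX (ρ : K) : Fin 7 → K := ![-3, -2, 1, -1, 0, (ρ ^ 3)⁻¹, -(ρ ^ 3)⁻¹]

/-- The diagonal quadrics `∑ c_j θ_j ^ n z_j ^ 2`, `n < 3`. -/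
noncomputable def FD (c θ : Fin 7 → K) : Fin 3 → MvPolynomial (Fin 7) K :=
  fun n => dq c θ n MvPolynomial.X

theorem aeval_FD (c θ : Fin 7 → K) {L : Type} [CommRing L] [Algebra K L] (z : Fin 7 → L)
    (n : Fin 3) : MvPolynomial.aeval z (FD c θ n) = dq c θ n z := by
  simp [FD, dq]

theorem FD_isHomogeneous (c θ : Fin 7 → K) (n : Fin 3) : (FD c θ n).IsHomogeneous 2 := by
  unfold FD dq
  refine MvPolynomial.IsHomogeneous.sum _ _ _ fun j _ => ?_
  exact (MvPolynomial.isHomogeneous_X_pow j 2).C_mul _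

/-- The first five coordinates. -/
def low {R : Type} (z : Fin 7 → R) : Fin 5 → R := fun j => z (Fin.castLE (by norm_num) j)

/-- The third quadric restricted to the first five coordinates. -/
def Q2 {R : Type} [CommRing R] (y : Fin 5 → R) : R :=
  27 * y 0 ^ 2 + 24 * y 1 ^ 2 + y 2 ^ 2 - y 3 ^ 2

theorem onX_iff {ρ : K} (hρ : ρ ≠ 0) {L : Type} [Field L] [Algebra K L] (z : Fin 7 → L) :
    OnX (FD (cX ρ) (tX ρ)) z ↔
      Q0 (low z) = algebraMap K L ρ ^ 5 * (z 5 ^ 2 - z 6 ^ 2) ∧
      Q1 (low z) = algebraMap K L ρ ^ 2 * (z 5 ^ 2 + z 6 ^ 2) ∧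
      algebraMap K L ρ * Q2 (low z) = z 5 ^ 2 - z 6 ^ 2 := by
  have hr : algebraMap K L ρ ≠ 0 := (map_ne_zero _).mpr hρ
  have e0 : dq (cX ρ) (tX ρ) 0 z =
      Q0 (low z) - algebraMap K L ρ ^ 5 * (z 5 ^ 2 - z 6 ^ 2) := by
    simp [dq, cX, Q0, low, Fin.sum_univ_seven, map_ofNat]; ring
  have e1 : dq (cX ρ) (tX ρ) 1 z =
      Q1 (low z) - algebraMap K L ρ ^ 2 * (z 5 ^ 2 + z 6 ^ 2) := by
    simp [dq, cX, tX, Q1, low, Fin.sum_univ_seven, map_ofNat]; field_simp; ring
  have e2 : algebraMap K L ρ * dq (cX ρ) (tX ρ) 2 z =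
      algebraMap K L ρ * Q2 (low z) - (z 5 ^ 2 - z 6 ^ 2) := by
    simp [dq, cX, tX, Q2, low, Fin.sum_univ_seven, map_ofNat]; field_simp; ring
  simp only [OnX, aeval_FD, Fin.forall_fin_succ, IsEmpty.forall_iff, and_true]
  change dq (cX ρ) (tX ρ) 0 z = 0 ∧ dq (cX ρ) (tX ρ) 1 z = 0 ∧ dq (cX ρ) (tX ρ) 2 z = 0 ↔ _
  rw [e0, e1, sub_eq_zero, sub_eq_zero, ← mul_eq_zero_iff_left hr, e2, sub_eq_zero]

open Classical in
/-- The invariant of a geometric point. -/
noncomputable def chi {Γ : Type} [LinearOrderedCommGroupWithZero Γ]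
    (v : Valuation (AlgebraicClosure K) Γ)
    (x : ℙ (AlgebraicClosure K) (Fin 7 → AlgebraicClosure K)) : ℤ :=
  if v (x.rep 5 - x.rep 6) < v (x.rep 5 + x.rep 6) then 1 else 0

open Classical in
theorem chi_mk {Γ : Type} [LinearOrderedCommGroupWithZero Γ]
    (v : Valuation (AlgebraicClosure K) Γ) (z : Fin 7 → AlgebraicClosure K) (hz : z ≠ 0) :
    chi v (Projectivization.mk _ z hz) = if v (z 5 - z 6) < v (z 5 + z 6) then 1 else 0 := by
  obtain ⟨a, ha⟩ := Projectivization.exists_smul_eq_mk_rep (AlgebraicClosure K) z hz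
  have h0 : 0 < v a := (v.pos_iff).mpr a.ne_zero
  unfold chi
  rw [← ha]
  simp only [Pi.smul_apply, Units.smul_def, smul_eq_mul, ← mul_sub, ← mul_add, map_mul,
    mul_lt_mul_iff_right₀ h0]

end Zc68
end

-- merged part: Pool.Agent.Work.MP_d65f04_ag.ValB0
section
/-! Values of norms along a tower of quadratic extensions. -/

namespace Zc68

variable {Γ : Type} [LinearOrderedCommGroupWithZero Γ]

theorem exists_step_vb0 {P : Type} [Group P] [Finite P] (hP : IsPGroup 2 P) (H : Subgroup P)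
    (hH : H ≠ ⊤) : ∃ (K : Subgroup P) (σ : P), H ≤ K ∧ σ ∈ K ∧ σ ∉ H ∧
      (∀ a ∈ K, ∀ b ∈ K, a * b ∈ H ↔ (a ∈ H ↔ b ∈ H)) ∧ H.index = 2 * K.index := by
  obtain ⟨n, hn⟩ := IsPGroup.iff_card.1 (hP.to_subgroup H)
  obtain ⟨m, hm⟩ := IsPGroup.iff_card.1 hP
  have hlt : Nat.card H < Nat.card P := by
    refine lt_of_le_of_ne (Subgroup.card_le_card_group H) fun h => hH ?_
    exact Subgroup.eq_top_of_card_eq H h
  rw [hn, hm, Nat.pow_lt_pow_iff_right (by norm_num)] at hlt
  obtain ⟨K, hK, hHK⟩ := Sylow.exists_subgroup_card_pow_succ (p := 2) (n := n)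
    (hm ▸ pow_dvd_pow 2 hlt) hn
  have hidx : (H.subgroupOf K).index = 2 := by
    have h1 := (H.subgroupOf K).card_mul_index
    rw [Nat.card_congr (Subgroup.subgroupOfEquivOfLe hHK).toEquiv, hn, hK, pow_succ] at h1
    exact Nat.eq_of_mul_eq_mul_left (by positivity) h1
  have hne : H.subgroupOf K ≠ ⊤ := fun h => by
    rw [h, Subgroup.index_top] at hidx
    omega
  obtain ⟨σ, hσ⟩ : ∃ σ : K, σ ∉ H.subgroupOf K := by
    by_contra h
    push Not at h
    exact hne ((Subgroup.eq_top_iff' _).2 h)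
  refine ⟨K, σ, hHK, σ.2, hσ, fun a ha b hb => ?_, ?_⟩
  · exact Subgroup.mul_mem_iff_of_index_two hidx (a := ⟨a, ha⟩) (b := ⟨b, hb⟩)
  · rw [← Subgroup.relIndex_mul_index hHK]
    exact congrArg (· * K.index) hidx

theorem exists_norm_vb0 {P M : Type} [Group P] [Finite P] [Field M] [MulSemiringAction P M]
    (v : Valuation M Γ) (hv : ∀ (g : P) (x : M), v (g • x) = v x)
    (K : Subgroup P) (x : M) (hx : ∀ h ∈ K, h • x = x) :
    ∃ e : M, (∀ g : P, g • e = e) ∧ v e = v x ^ K.index := by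
  classical
  have := Fintype.ofFinite (P ⧸ K)
  let F : P ⧸ K → M := fun q => q.out • x
  have hF : ∀ g : P, F (g : P ⧸ K) = g • x := fun g => by
    obtain ⟨h, hh⟩ := QuotientGroup.mk_out_eq_mul K g
    simp only [F, hh, mul_smul, hx h h.2]
  refine ⟨∏ q, F q, fun g => ?_, ?_⟩
  · rw [Finset.smul_prod', ← Equiv.prod_comp (MulAction.toPerm g) F]
    refine Finset.prod_congr rfl fun q _ => ?_
    induction q using QuotientGroup.induction_on with
    | H a =>
      rw [hF, MulAction.toPerm_apply, MulAction.Quotient.smul_mk, hF, smul_eq_mul, mul_smul]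
  · rw [map_prod]
    simp only [F, hv, Finset.prod_const, Finset.card_univ]
    rw [Subgroup.index, Nat.card_eq_fintype_card]

theorem sq_of_two_group {P M : Type} [Group P] [Finite P] [Field M] [MulSemiringAction P M]
    (hP : IsPGroup 2 P) (v : Valuation M Γ) (hv : ∀ (g : P) (x : M), v (g • x) = v x)
    (H : Subgroup P) (x : M) (hx : ∀ h ∈ H, h • x = x) (w : M) (hw : ∀ h ∈ H, h • w = w)
    (hw1 : v w ≤ 1) (hres : ∀ c : M, (∀ g : P, g • c = c) → ¬ v (w - c) < 1) :
    ∃ e : M, (∀ g : P, g • e = e) ∧ v x ^ H.index = v e ^ 2 := by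
  induction hn : H.index using Nat.strong_induction_on generalizing H x w with
  | _ n ih =>
  subst hn
  by_cases hH : H = ⊤
  · subst hH
    exact absurd (by simp) (hres w fun g => hw g (Subgroup.mem_top g))
  obtain ⟨K, σ, hHK, hσK, hσH, hmul, hidx⟩ := exists_step_vb0 hP H hH
  have hfix : ∀ y : M, (∀ h ∈ H, h • y = y) → σ • y = y → ∀ g ∈ K, g • y = y := by
    intro y hy hσ g hg
    by_cases hgH : g ∈ H
    · exact hy g hgH
    · have h1 : σ⁻¹ * g ∈ H :=
        (hmul _ (K.inv_mem hσK) _ hg).2 (by simp [hσH, hgH])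
      calc g • y = σ • (σ⁻¹ * g) • y := by rw [← mul_smul, mul_inv_cancel_left]
        _ = y := by rw [hy _ h1, hσ]
  have hσσ : ∀ y : M, (∀ h ∈ H, h • y = y) → σ • σ • y = y := fun y hy => by
    rw [← mul_smul]
    exact hy _ ((hmul _ hσK _ hσK).2 Iff.rfl)
  have hσfix : ∀ y : M, (∀ h ∈ H, h • y = y) → ∀ h ∈ H, h • σ • y = σ • y := fun y hy h hh => by
    have h1 : h * σ ∉ H := fun h2 => hσH (((hmul _ (hHK hh) _ hσK).1 h2).1 hh)
    have h2 : σ⁻¹ * (h * σ) ∈ H :=
      (hmul _ (K.inv_mem hσK) _ (K.mul_mem (hHK hh) hσK)).2 (by simp [hσH, h1])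
    calc h • σ • y = σ • (σ⁻¹ * (h * σ)) • y := by
          rw [← mul_smul, ← mul_smul, mul_inv_cancel_left]
      _ = σ • y := by rw [hy _ h2]
  by_cases hA : ∃ x' : M, (∀ g ∈ K, g • x' = x') ∧ v x = v x'
  · obtain ⟨x', hx', hvx⟩ := hA
    obtain ⟨e, he, hve⟩ := exists_norm_vb0 v hv K x' hx'
    exact ⟨e, he, by rw [hve, hvx, hidx, ← pow_mul, mul_comm]⟩
  have hxσ : x - σ • x ≠ 0 := fun h =>
    hA ⟨x, hfix x hx (sub_eq_zero.1 h).symm, rfl⟩
  set b := (w - σ • w) / (x - σ • x) with hb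
  have hbK : ∀ g ∈ K, g • b = b := by
    refine hfix b (fun h hh => ?_) ?_
    · rw [hb, smul_div₀', smul_sub, smul_sub, hw h hh, hx h hh, hσfix w hw h hh, hσfix x hx h hh]
    · rw [hb, smul_div₀', smul_sub, smul_sub, hσσ w hw, hσσ x hx, ← neg_sub w, ← neg_sub x,
        neg_div_neg_eq]
  set a := w - b * x with ha
  have haK : ∀ g ∈ K, g • a = a := by
    refine hfix a (fun h hh => ?_) ?_
    · rw [ha, smul_sub, smul_mul', hw h hh, hx h hh, hbK h (hHK hh)]
    · rw [ha, smul_sub, smul_mul', hbK σ hσK]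
      have : b * (x - σ • x) = w - σ • w := by rw [hb]; field_simp
      linear_combination this
  have hbx : v (b * x) < 1 := by
    rcases eq_or_ne b 0 with hb0 | hb0
    · simp [hb0]
    have hvb : v b ≠ 0 := (Valuation.ne_zero_iff v).2 hb0
    have h1 : v a ≠ v (b * x) := fun h => hA ⟨a / b, fun g hg => by
      rw [smul_div₀', haK g hg, hbK g hg], by
      rw [map_div₀, h, map_mul, mul_div_cancel_left₀ _ hvb]⟩
    have h2 : v (b * x) ≠ 1 := fun h => hA ⟨1 / b, fun g hg => by
      rw [smul_div₀', smul_one, hbK g hg], by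
      rw [map_div₀, map_one, ← h, map_mul, mul_div_cancel_left₀ _ hvb]⟩
    have h3 := v.map_add_of_distinct_val h1
    rw [ha, sub_add_cancel] at h3
    exact lt_of_le_of_ne ((le_max_right _ _).trans (h3 ▸ hw1)) h2
  have hva : v a ≤ 1 := (v.map_sub w (b * x)).trans (max_le hw1 hbx.le)
  have hKlt : K.index < H.index := by
    have := K.index_ne_zero_of_finite
    omega
  obtain ⟨e, he, hve⟩ := ih K.index hKlt K (x * σ • x) (hfix _ (fun h hh => by
      rw [smul_mul', hx h hh, hσfix x hx h hh]) (by rw [smul_mul', hσσ x hx, mul_comm]))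
    a haK hva (fun c hc hlt => hres c hc (by
      have : w - c = (a - c) + b * x := by rw [ha]; ring
      rw [this]
      exact (v.map_add _ _).trans_lt (max_lt hlt hbx))) rfl
  refine ⟨e, he, ?_⟩
  rw [← hve, map_mul, hv, hidx, pow_mul, sq]

end Zc68
end

-- merged part: Pool.Agent.Work.MP_d65f04_ag.ValB
section
/-! Norms have even value when all residue degrees are even. -/

namespace Zc68

open Polynomial

variable {Γ : Type} [LinearOrderedCommGroupWithZero Γ]

section Abstract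

variable {M k : Type} [Field M] [Field k]

lemma val_le_of_sub_valB (v : Valuation M Γ) {a b : M} (ha : v a ≤ 1) (h : v (a - b) < 1) :
    v b ≤ 1 := by
  have : b = a - (a - b) := by ring
  rw [this]
  exact v.map_sub_le ha h.le

lemma val_nat_valB [CharZero k] (v : Valuation M Γ) (ι : k →+* M) (hconst : ∀ c, v (ι c) ≤ 1)
    (n : ℕ) (hn : n ≠ 0) : v n = 1 := by
  have h1 : v n ≤ 1 := by simpa using hconst n
  have h2 : v (ι (n : k)⁻¹) ≤ 1 := hconst _
  have h3 : v n * v (ι (n : k)⁻¹) = 1 := by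
    rw [← map_natCast ι, ← map_mul, ← map_mul, mul_inv_cancel₀ (by exact_mod_cast hn), map_one,
      map_one]
  refine le_antisymm h1 ?_
  calc (1 : Γ) = v n * v (ι (n : k)⁻¹) := h3.symm
    _ ≤ v n * 1 := mul_le_mul_right h2 _
    _ = v n := mul_one _

/-- An element with an odd number of conjugates under `D` has its residue in `k`. -/
lemma res_of_odd_valB {D : Type} [Group D] [Finite D] [MulSemiringAction D M] (hk : OddRoot k)
    (v : Valuation M Γ) (ι : k →+* M) (hv : ∀ (g : D) (x : M), v (g • x) = v x)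
    (hι : ∀ (g : D) (c : k), g • ι c = ι c) (hconst : ∀ c, v (ι c) ≤ 1)
    (hres : ∀ x : M, (∀ g : D, g • x = x) → v x ≤ 1 → ∃ c, v (x - ι c) < 1) (y : M)
    (hy : v y ≤ 1) (hodd : Odd (MulAction.stabilizer D y).index) : ∃ c, v (y - ι c) < 1 := by
  classical
  have := Fintype.ofFinite D
  let O := v.valuationSubring
  have hmem : ∀ g : D ⧸ MulAction.stabilizer D y, MulAction.ofQuotientStabilizer D y g ∈ O := by
    intro g
    induction g using QuotientGroup.induction_on with
    | H g => exact (v.mem_valuationSubring_iff _).2 ((hv g y).trans_le hy)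
  let a : D ⧸ MulAction.stabilizer D y → O := fun g => ⟨_, hmem g⟩
  let p : O[X] := ∏ g, (X - C (a g))
  have hp : p.map O.subtype = prodXSubSMul D M y := by
    simp only [p, prodXSubSMul, Polynomial.map_prod, Polynomial.map_sub, map_X, map_C]
    exact Finset.prod_congr (by congr) fun g _ => rfl
  let ιO : k →+* O := ι.codRestrict O fun c => (v.mem_valuationSubring_iff _).2 (hconst c)
  let ρ := (IsLocalRing.residue O).comp ιO
  have key : ∀ (x : O) (c : k), IsLocalRing.residue O x = ρ c ↔ v ((x : M) - ι c) < 1 := by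
    intro x c
    rw [← sub_eq_zero, RingHom.comp_apply, ← map_sub, IsLocalRing.residue_eq_zero_iff,
      Valuation.mem_maximalIdeal_iff]
    rfl
  have hq : p.map (IsLocalRing.residue O) = ∏ g, (X - C (IsLocalRing.residue O (a g))) := by
    simp only [p, Polynomial.map_prod, Polynomial.map_sub, map_X, map_C]
  have hl : p.map (IsLocalRing.residue O) ∈ lifts ρ := by
    rw [lifts_iff_coeff_lifts]
    intro n
    have h1 : ((p.coeff n : O) : M) = (prodXSubSMul D M y).coeff n := by
      rw [← hp, coeff_map]; rfl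
    obtain ⟨c, hc⟩ := hres (p.coeff n : O) (fun g => by rw [h1]; exact prodXSubSMul.coeff D M y g n)
      ((v.mem_valuationSubring_iff _).1 (p.coeff n).2)
    exact ⟨c, by rw [coeff_map]; exact ((key _ _).2 hc).symm⟩
  obtain ⟨q, hq1, hq2, -⟩ := lifts_and_natDegree_eq_and_monic hl
    (by rw [hq]; exact monic_prod_of_monic _ _ fun g _ => monic_X_sub_C _)
  rw [hq, natDegree_finsetProd_X_sub_C_eq_card, Finset.card_univ, ← Nat.card_eq_fintype_card,
    ← Subgroup.index_eq_card] at hq2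
  obtain ⟨c, hc⟩ := hk q (hq2 ▸ hodd)
  have h2 : (q.map ρ).eval (ρ c) = 0 := by
    rw [eval_map, eval₂_hom, hc.eq_zero, map_zero]
  rw [hq1, hq, eval_prod, Finset.prod_eq_zero_iff] at h2
  obtain ⟨g, -, hg⟩ := h2
  induction g using QuotientGroup.induction_on with
  | H g =>
    rw [eval_sub, eval_X, eval_C, sub_eq_zero] at hg
    have h3 : v (g • y - ι c) < 1 := (key _ _).1 hg.symm
    refine ⟨c, ?_⟩
    rwa [← hι g c, ← smul_sub, hv] at h3

/-- The product of the conjugates. -/
lemma val_pow_index_valB {D : Type} [Group D] [Finite D] [MulSemiringAction D M]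
    (v : Valuation M Γ) (hv : ∀ (g : D) (x : M), v (g • x) = v x) (y : M) :
    ∃ z : M, (∀ g : D, g • z = z) ∧ v y ^ (MulAction.stabilizer D y).index = v z := by
  classical
  have := Fintype.ofFinite D
  refine ⟨(prodXSubSMul D M y).coeff 0, fun g => prodXSubSMul.coeff D M y g 0, ?_⟩
  rw [coeff_zero_eq_eval_zero, prodXSubSMul, eval_prod, map_prod, Subgroup.index_eq_card,
    Finset.prod_eq_pow_card (b := v y), Finset.card_univ, Nat.card_eq_fintype_card]
  intro g _
  induction g using QuotientGroup.induction_on with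
  | H g =>
    rw [eval_sub, eval_X, eval_C, zero_sub, Valuation.map_neg]
    exact hv g y

/-- A product of an equivariant family over a finite set with an action of a two-group. -/
lemma prod_sq_valB {P X : Type} [Group P] [Finite P] [MulSemiringAction P M] [Fintype X]
    [MulAction P X] (hP : IsPGroup 2 P) (v : Valuation M Γ)
    (hv : ∀ (g : P) (x : M), v (g • x) = v x) (F : X → M) (hF : ∀ (g : P) φ, F (g • φ) = g • F φ)
    (hW : ∀ φ : X, ∃ w : M, (∀ g : P, g • φ = φ → g • w = w) ∧ v w ≤ 1 ∧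
      ∀ c : M, (∀ g : P, g • c = c) → ¬ v (w - c) < 1) :
    ∃ e : M, (∀ g : P, g • e = e) ∧ v (∏ φ, F φ) = v e ^ 2 := by
  classical
  have h1 : ∀ φ : X, ∃ e : M, (∀ g : P, g • e = e) ∧
      v (F φ) ^ (MulAction.stabilizer P φ).index = v e ^ 2 := by
    intro φ
    obtain ⟨w, h1, h2, h3⟩ := hW φ
    exact sq_of_two_group hP v hv (MulAction.stabilizer P φ) (F φ)
      (fun g hg => by rw [← hF, MulAction.mem_stabilizer_iff.1 hg]) w (fun g hg => h1 g hg) h2 h3
  choose e he he' using h1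
  have : Fintype (MulAction.orbitRel.Quotient P X) := Fintype.ofFinite _
  refine ⟨∏ ω : MulAction.orbitRel.Quotient P X, e ω.out, fun g => ?_, ?_⟩
  · rw [Finset.smul_prod']
    exact Finset.prod_congr rfl fun ω _ => he _ g
  · rw [map_prod, map_prod, ← Finset.prod_pow, ← Finset.prod_fiberwise Finset.univ
      (fun φ : X => (Quotient.mk'' φ : MulAction.orbitRel.Quotient P X))]
    refine Finset.prod_congr rfl fun ω _ => ?_
    have h2 : ∀ φ : X, (Quotient.mk'' φ : MulAction.orbitRel.Quotient P X) = ω ↔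
        φ ∈ MulAction.orbit P ω.out := fun φ => by
      rw [← MulAction.orbitRel_apply, ← Quotient.eq'', Quotient.out_eq']
    rw [← he', Finset.prod_eq_pow_card (b := v (F ω.out)), MulAction.index_stabilizer,
      ← Set.ncard_coe_finset]
    · congr 2
      ext φ
      simp [h2]
    · intro φ hφ
      obtain ⟨g, rfl⟩ := (h2 φ).1 (Finset.mem_filter.1 hφ).2
      simp only [hF, hv]

lemma norm_even_abs_valB {G X : Type} [Group G] [Finite G] [MulSemiringAction G M] [CharZero k]
    [Fintype X] [MulAction G X] (hk : OddRoot k) (v : Valuation M Γ) (ι : k →+* M)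
    (hι : ∀ (g : G) (c : k), g • ι c = ι c) (hconst : ∀ c, v (ι c) ≤ 1)
    (hres : ∀ x : M, (∀ g : G, g • x = x) → v x ≤ 1 → ∃ c, v (x - ι c) < 1) (F : X → M)
    (hF : ∀ (g : G) φ, F (g • φ) = g • F φ)
    (hW : ∀ φ : X, ∃ w : M, (∀ g : G, g • φ = φ → g • w = w) ∧ v w ≤ 1 ∧
      ∀ c, ¬ v (w - ι c) < 1) :
    ∃ m : ℕ, Odd m ∧ ∃ e : M, (∀ g : G, g • e = e) ∧ v (∏ φ, F φ) ^ m = v e ^ 2 := by
  have hn := val_nat_valB v ι hconst
  have hvD : ∀ (g : decomp G v) (x : M), v (g • x) = v x := fun g x =>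
    val_smul_of_mem_decomp v g.2 x
  have hresD : ∀ x : M, (∀ g : decomp G v, g • x = x) → v x ≤ 1 → ∃ c, v (x - ι c) < 1 := by
    intro x hx hx1
    by_cases h0 : x = 0
    · exact ⟨0, by simp [h0]⟩
    obtain ⟨c, hc, hc'⟩ := decomp_immediate (G := G) v hn x h0 fun g hg => hx ⟨g, hg⟩
    have h1 := hc'.trans_le hx1
    obtain ⟨c', h2⟩ := hres c hc (val_le_of_sub_valB v hx1 h1)
    refine ⟨c', ?_⟩
    rw [← sub_add_sub_cancel x c]
    exact v.map_add_lt h1 h2
  have hvalD : ∀ x : M, (∀ g : decomp G v, g • x = x) →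
      ∃ c : M, (∀ g : G, g • c = c) ∧ v x = v c := by
    intro x hx
    by_cases h0 : x = 0
    · exact ⟨0, fun g => smul_zero g, by rw [h0]⟩
    obtain ⟨c, hc, hc'⟩ := decomp_immediate (G := G) v hn x h0 fun g hg => hx ⟨g, hg⟩
    refine ⟨c, hc, ?_⟩
    have : c = x - (x - c) := by ring
    rw [this, v.map_sub_eq_of_lt_left hc']
  obtain ⟨P⟩ : Nonempty (Sylow 2 (decomp G v)) := inferInstance
  have hodd : ∀ y : M, (∀ g : (P : Subgroup (decomp G v)), g • y = y) →
      Odd (MulAction.stabilizer (decomp G v) y).index := by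
    intro y hy
    rw [← Nat.not_even_iff_odd, even_iff_two_dvd]
    exact fun h => P.not_dvd_index (h.trans (Subgroup.index_dvd_of_le fun g hg => hy ⟨g, hg⟩))
  obtain ⟨e, he, he'⟩ := prod_sq_valB (P := (P : Subgroup (decomp G v))) P.isPGroup' v
    (fun g x => hvD g x) F (fun g φ => hF g φ) (fun φ => by
      obtain ⟨w, h1, h2, h3⟩ := hW φ
      refine ⟨w, fun g hg => h1 g hg, h2, fun c hc h4 => ?_⟩
      obtain ⟨c', h5⟩ := res_of_odd_valB hk v ι hvD (fun g c => hι g c) hconst hresD c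
        (val_le_of_sub_valB v h2 h4) (hodd c hc)
      refine h3 c' ?_
      rw [← sub_add_sub_cancel w c]
      exact v.map_add_lt h4 h5)
  obtain ⟨z, hz, hz'⟩ := val_pow_index_valB v hvD e
  obtain ⟨c, hc, hc'⟩ := hvalD z hz
  exact ⟨_, hodd e he, c, hc, by rw [he', ← pow_mul, mul_comm, pow_mul, hz', hc']⟩

end Abstract

theorem norm_even {k E L : Type} [Field k] [CharZero k] [Field E] [Field L] [Algebra k E]
    [Algebra E L] [FiniteDimensional E L] (hk : OddRoot k) (v : Valuation (AlgebraicClosure E) Γ)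
    (hconst : ∀ c : k, v (algebraMap k (AlgebraicClosure E) c) ≤ 1)
    (hres : ∀ x : E, v (algebraMap E (AlgebraicClosure E) x) ≤ 1 →
      ∃ c : k, v (algebraMap E (AlgebraicClosure E) x - algebraMap k (AlgebraicClosure E) c) < 1)
    (hL : ∀ φ : L →ₐ[E] AlgebraicClosure E, ∃ x : L, v (φ x) ≤ 1 ∧
      ∀ c : k, ¬ v (φ x - algebraMap k (AlgebraicClosure E) c) < 1) (f : L) :
    ∃ m : ℕ, Odd m ∧ ∃ e : E, v (algebraMap E (AlgebraicClosure E) (Algebra.norm E f)) ^ m =
      v (algebraMap E (AlgebraicClosure E) e) ^ 2 := by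
  have : CharZero E := charZero_of_injective_algebraMap (algebraMap k E).injective
  let M := IntermediateField.normalClosure E L (AlgebraicClosure E)
  have : IsGalois E M := {}
  let v' : Valuation M Γ := v.comap (algebraMap M (AlgebraicClosure E))
  let ι : k →+* M := (algebraMap E M).comp (algebraMap k E)
  have hι : ∀ c, algebraMap M (AlgebraicClosure E) (ι c) = algebraMap k (AlgebraicClosure E) c :=
    fun c => by
      rw [RingHom.comp_apply, ← IsScalarTower.algebraMap_apply, ← IsScalarTower.algebraMap_apply]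
  let _ : MulAction (M ≃ₐ[E] M) (L →ₐ[E] M) :=
    { smul := fun g φ => (g : M →ₐ[E] M).comp φ
      one_smul := fun φ => AlgHom.ext fun x => rfl
      mul_smul := fun g h φ => AlgHom.ext fun x => rfl }
  obtain ⟨m, hm, e, he, h⟩ := norm_even_abs_valB (G := M ≃ₐ[E] M) (X := L →ₐ[E] M) hk v' ι
    (fun g c => g.commutes _) (fun c => by rw [Valuation.comap_apply, hι]; exact hconst c)
    (fun x hx hx1 => by
      obtain ⟨y, rfl⟩ := (IsGalois.mem_range_algebraMap_iff_fixed x).2 hx
      rw [Valuation.comap_apply, ← IsScalarTower.algebraMap_apply] at hx1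
      obtain ⟨c, hc⟩ := hres y hx1
      refine ⟨c, ?_⟩
      rwa [Valuation.comap_apply, map_sub, hι, ← IsScalarTower.algebraMap_apply])
    (fun φ => φ f) (fun g φ => rfl) (fun φ => by
      obtain ⟨x, h1, h2⟩ := hL (M.val.comp φ)
      refine ⟨φ x, fun g hg => congrArg (fun ψ : L →ₐ[E] M => ψ x) hg, h1, fun c => ?_⟩
      rw [Valuation.comap_apply, map_sub, hι]
      exact h2 c)
  obtain ⟨y, rfl⟩ := (IsGalois.mem_range_algebraMap_iff_fixed e).2 he
  refine ⟨m, hm, y, ?_⟩
  rw [Valuation.comap_apply, Valuation.comap_apply, ← IsScalarTower.algebraMap_apply,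
    map_prod] at h
  rw [← h, Algebra.norm_eq_prod_embeddings,
    ← (normalClosure.algHomEquiv E L (AlgebraicClosure E)).prod_comp]
  rfl

end Zc68
end

-- merged part: Pool.Agent.Work.MP_d65f04_ag.ValE
section
/-! The number of zeros and poles of a norm in the open unit disc is even. -/

namespace Zc68

open Polynomial
open scoped IntermediateField

theorem gauss_even_valE {k K E L Γ : Type} [Field k] [CharZero k] [Field K] [Algebra k K]
    [Field E] [Algebra k E] [Algebra K E] [IsScalarTower k K E] [Field L] [Algebra K L]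
    [Algebra E L] [IsScalarTower K E L] [FiniteDimensional E L]
    [LinearOrderedCommGroupWithZero Γ] {v : Valuation (AlgebraicClosure K) Γ}
    {ρ : K} (h : ValData k K v ρ) (hk : OddRoot k) (t : E) (ht : Transcendental K t)
    (hgen : ∀ x : E, ∃ p q : K[X], x = aeval t p / aeval t q)
    (hL : ∀ (Ω Γ' : Type) [Field Ω] [Algebra K Ω] [Algebra k Ω] [IsScalarTower k K Ω]
      [LinearOrderedCommGroupWithZero Γ'] (w : Valuation Ω Γ') (φ : L →ₐ[K] Ω),
      (∀ c : k, w (algebraMap k Ω c) ≤ 1) → w (algebraMap K Ω ρ) < w (φ (algebraMap E L t)) →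
      w (φ (algebraMap E L t)) < 1 →
      ∃ x : L, w (φ x) ≤ 1 ∧ ∀ c : k, ¬ w (φ x - algebraMap k Ω c) < 1)
    (f : L) (hf : f ≠ 0) (g q : K[X]) (hq : q ≠ 0)
    (hN : Algebra.norm E f * aeval t q = aeval t g) :
    Even (nIn v g + nIn v q) := by
  have ht' : Transcendental K (algebraMap E (AlgebraicClosure E) t) :=
    (transcendental_algebraMap_iff (algebraMap E (AlgebraicClosure E)).injective).2 ht
  obtain ⟨Γ', _, w, ι, G⟩ := exists_gauss v _ ht'
  have hιk : ∀ c : k, ι (algebraMap k (AlgebraicClosure K) c) =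
      algebraMap k (AlgebraicClosure E) c := fun c => by
    rw [IsScalarTower.algebraMap_apply k K (AlgebraicClosure K), ι.commutes,
      ← IsScalarTower.algebraMap_apply]
  have hconst : ∀ c : k, w (algebraMap k (AlgebraicClosure E) c) ≤ 1 := fun c =>
    hιk c ▸ (G.le _).2 (h.const c)
  have ev : ∀ p : K[X], algebraMap E (AlgebraicClosure E) (aeval t p) =
      aeval (algebraMap E (AlgebraicClosure E) t) p := fun p =>
    (aeval_algebraMap_apply _ t p).symm
  obtain ⟨m, hm, e, he⟩ := norm_even (k := k) hk w hconst (fun x hx => by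
    obtain ⟨p, q, rfl⟩ := hgen x
    rw [map_div₀, ev, ev] at hx ⊢
    obtain ⟨y, hy, hy'⟩ := G.res p q hx
    rw [← ι.commutes, G.le] at hy
    obtain ⟨c, hc⟩ := h.res y hy
    have h1 := G.inf _ hc 0
    rw [pow_zero, map_sub, ι.commutes, hιk] at h1
    refine ⟨c, ?_⟩
    have h2 := w.map_add_lt hy' h1
    rwa [sub_add_sub_cancel] at h2) (fun φ => hL _ _ w (φ.restrictScalars K) hconst (by
      have h1 := G.inf _ h.lt 1
      rw [pow_one, ι.commutes] at h1
      rwa [AlgHom.restrictScalars_apply, φ.commutes]) (by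
      rw [AlgHom.restrictScalars_apply, φ.commutes]
      exact G.lt)) f
  have hN0 : Algebra.norm E f ≠ 0 := Algebra.norm_ne_zero_iff.2 hf
  have hq0 : aeval t q ≠ 0 := fun e => ht ⟨q, hq, e⟩
  have hg : g ≠ 0 := fun e => mul_ne_zero hN0 hq0 (by rw [hN, e, map_zero])
  have he0 : e ≠ 0 := fun e0 => by
    rw [e0, map_zero, map_zero, zero_pow two_ne_zero] at he
    exact hN0 (by simpa using eq_zero_of_pow_eq_zero he)
  obtain ⟨p, r, rfl⟩ := hgen e
  have hp : p ≠ 0 := fun e => he0 (by rw [e, map_zero, zero_div])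
  have hr0 : aeval t r ≠ 0 := fun e => he0 (by rw [e, div_zero])
  have hr : r ≠ 0 := fun e => hr0 (by rw [e, map_zero])
  obtain ⟨cg, hcg, eg⟩ := G.lead g hg
  obtain ⟨cq, -, eq⟩ := G.lead q hq
  obtain ⟨cp, -, ep⟩ := G.lead p hp
  obtain ⟨cr, hcr, er⟩ := G.lead r hr
  have e1 : w (algebraMap E (AlgebraicClosure E) (aeval t g)) ^ m *
      w (algebraMap E (AlgebraicClosure E) (aeval t r)) ^ 2 =
      w (algebraMap E (AlgebraicClosure E) (aeval t p)) ^ 2 *
      w (algebraMap E (AlgebraicClosure E) (aeval t q)) ^ m := by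
    rw [← hN, map_mul, map_mul, mul_pow, he, mul_right_comm, ← mul_pow, ← map_mul, ← map_mul,
      div_mul_cancel₀ _ hr0]
  rw [ev, ev, ev, ev, eg, eq, ep, er] at e1
  have e2 := G.unique (c := cg ^ m * cr ^ 2) (c' := cp ^ 2 * cq ^ m)
    (mul_ne_zero (pow_ne_zero _ hcg) (pow_ne_zero _ hcr))
    (n := nIn v g * m + nIn v r * 2) (n' := nIn v p * 2 + nIn v q * m) (by
      simp only [map_mul, map_pow, pow_add, pow_mul]
      simp only [mul_pow] at e1
      rw [mul_mul_mul_comm, e1, mul_mul_mul_comm])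
  have e3 : Even ((nIn v g + nIn v q) * m) := by
    rw [add_mul, Nat.even_iff]
    omega
  exact (Nat.even_mul.1 e3).resolve_right (Nat.not_even_iff_odd.2 hm)

theorem gauss_even {k K L Γ : Type} [Field k] [CharZero k] [Field K] [Algebra k K] [Field L]
    [Algebra K L] [LinearOrderedCommGroupWithZero Γ] {v : Valuation (AlgebraicClosure K) Γ}
    {ρ : K} (h : ValData k K v ρ) (hk : OddRoot k) (τ : L) (hτ : Transcendental K τ)
    [FiniteDimensional K⟮τ⟯ L]
    (hL : ∀ (Ω Γ' : Type) [Field Ω] [Algebra K Ω] [Algebra k Ω] [IsScalarTower k K Ω]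
      [LinearOrderedCommGroupWithZero Γ'] (w : Valuation Ω Γ') (φ : L →ₐ[K] Ω),
      (∀ c : k, w (algebraMap k Ω c) ≤ 1) → w (algebraMap K Ω ρ) < w (φ τ) → w (φ τ) < 1 →
      ∃ x : L, w (φ x) ≤ 1 ∧ ∀ c : k, ¬ w (φ x - algebraMap k Ω c) < 1)
    (f : L) (hf : f ≠ 0) (g q : K[X]) (hq : q ≠ 0)
    (hN : algebraMap K⟮τ⟯ L (Algebra.norm K⟮τ⟯ f) * aeval τ q = aeval τ g) :
    Even (nIn v g + nIn v q) := by
  let _ : Algebra k K⟮τ⟯ := ((algebraMap K K⟮τ⟯).comp (algebraMap k K)).toAlgebra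
  have : IsScalarTower k K K⟮τ⟯ := IsScalarTower.of_algebraMap_eq fun _ => rfl
  have inj := (algebraMap K⟮τ⟯ L).injective
  have ev : ∀ p : K[X], algebraMap K⟮τ⟯ L (aeval (IntermediateField.AdjoinSimple.gen K τ) p) =
      aeval τ p := fun p => (aeval_algebraMap_apply L _ p).symm
  refine gauss_even_valE h hk (IntermediateField.AdjoinSimple.gen K τ)
    ((transcendental_algebraMap_iff inj).1 hτ) (fun x => ?_) hL f hf g q hq (inj ?_)
  · obtain ⟨p, q, e⟩ := (IntermediateField.mem_adjoin_simple_iff K x.1).1 x.2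
    exact ⟨p, q, inj (by rw [map_div₀, ev, ev]; exact e)⟩
  · rw [map_mul, ev, ev, hN]

end Zc68
end

-- merged part: Pool.Agent.Work.MP_d65f04_ag.CycC
section
/-! The parity invariant vanishes on principal divisors. -/

namespace Zc68

open scoped LinearAlgebra.Projectivization IntermediateField

variable {k K Γ : Type} [Field k] [CharZero k] [Field K] [Algebra k K]
  [LinearOrderedCommGroupWithZero Γ]

theorem Q0_div_cycC {R : Type} [Field R] (y : Fin 5 → R) (a : R) :
    Q0 (fun i => y i / a) = Q0 y / a ^ 2 := by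
  simp only [Q0, div_pow]; ring

theorem Q1_div_cycC {R : Type} [Field R] (y : Fin 5 → R) (a : R) :
    Q1 (fun i => y i / a) = Q1 y / a ^ 2 := by
  simp only [Q1, div_pow]; ring

theorem Q2_div_cycC {R : Type} [Field R] (y : Fin 5 → R) (a : R) :
    Q2 (fun i => y i / a) = Q2 y / a ^ 2 := by
  simp only [Q2, div_pow]; ring

theorem Q2_le_cycC {Ω : Type} [Field Ω] (w : Valuation Ω Γ) (ξ : Fin 5 → Ω)
    (hξ : ∀ i, w (ξ i) ≤ 1) : w (Q2 ξ) ≤ 1 := by
  have hm : ∀ i, ξ i ∈ w.integer := hξ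
  have : Q2 ξ ∈ w.integer := by
    unfold Q2
    refine sub_mem (add_mem (add_mem (mul_mem ?_ (pow_mem (hm 0) 2))
      (mul_mem ?_ (pow_mem (hm 1) 2))) (pow_mem (hm 2) 2)) (pow_mem (hm 3) 2)
    · exact_mod_cast natCast_mem w.integer 27
    · exact_mod_cast natCast_mem w.integer 24
  exact this

/-- Points of `X` in the annulus `|ρ| ≤ |τ| ≤ 1` reduce to points of `S`. -/
theorem reduce {Ω : Type} [Field Ω] [Algebra K Ω] [Algebra k Ω] [IsScalarTower k K Ω]
    (hk : NoPt k) {ρ : K} (hρ : ρ ≠ 0) (w : Valuation Ω Γ)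
    (hw : ∀ c : k, w (algebraMap k Ω c) ≤ 1) (hlt : w (algebraMap K Ω ρ) < 1) (z : Fin 7 → Ω)
    (hz : z ≠ 0) (hX : OnX (FD (cX ρ) (tX ρ)) z) (τ : Ω) (hτ : z 5 - z 6 = τ * (z 5 + z 6))
    (h1 : w (algebraMap K Ω ρ) ≤ w τ) (h2 : w τ ≤ 1) :
    ∃ i j, w (z i / z j) ≤ 1 ∧ ∀ c : k, ¬ w (z i / z j - algebraMap k Ω c) < 1 := by
  have : CharZero Ω := charZero_of_injective_algebraMap (algebraMap k Ω).injective
  obtain ⟨e0, e1, e2⟩ := (onX_iff hρ z).mp hX
  set r := algebraMap K Ω ρ with hr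
  have hr0 : r ≠ 0 := (map_ne_zero _).mpr hρ
  have hwr : 0 < w r := (w.pos_iff).mpr hr0
  have hτ0 : τ ≠ 0 := by
    rintro rfl
    rw [map_zero] at h1
    exact absurd hwr (not_lt.mpr h1)
  set s := z 5 + z 6 with hs
  have f1 : z 5 ^ 2 - z 6 ^ 2 = τ * s ^ 2 := by
    rw [sq_sub_sq, hτ]; ring
  have f2 : z 5 ^ 2 + z 6 ^ 2 = (1 + τ ^ 2) * s ^ 2 / 2 := by
    have : 2 * (z 5 ^ 2 + z 6 ^ 2) = (z 5 - z 6) ^ 2 + s ^ 2 := by rw [hs]; ring
    rw [hτ] at this
    field_simp
    linear_combination this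
  obtain ⟨j, -, hj⟩ := Finset.exists_max_image Finset.univ (fun i => w (low z i))
    Finset.univ_nonempty
  have hj0 : low z j ≠ 0 := by
    intro h0
    have hall : ∀ i, low z i = 0 := by
      intro i
      have := hj i (Finset.mem_univ _)
      simp only [h0, map_zero, le_zero_iff] at this
      exact (w.zero_iff).mp this
    have hl : low z = 0 := funext hall
    have hs0 : s = 0 := by
      rw [f1, hl] at e2
      have : τ * s ^ 2 = 0 := by rw [← e2]; simp [Q2]
      exact pow_eq_zero_iff (two_ne_zero) |>.mp ((mul_eq_zero.mp this).resolve_left hτ0)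
    rw [hs0, mul_zero] at hτ
    have h5 : z 5 = 0 := by linear_combination (hτ + hs0 - hs) / 2
    have h6 : z 6 = 0 := by linear_combination h5 - hτ
    apply hz
    funext i
    fin_cases i
    · exact hall 0
    · exact hall 1
    · exact hall 2
    · exact hall 3
    · exact hall 4
    · exact h5
    · exact h6
  set a := low z j with ha
  have hwa : 0 < w a := (w.pos_iff).mpr hj0
  have hξ : ∀ i, w (low z i / a) ≤ 1 := by
    intro i
    rw [map_div₀, div_le_one₀ hwa]
    exact hj i (Finset.mem_univ _)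
  have hsa : w (s / a) ^ 2 ≤ 1 := by
    have g1 : r * Q2 (fun i => low z i / a) = τ * (s / a) ^ 2 := by
      rw [Q2_div_cycC, ← mul_div_assoc, e2, f1]; ring
    have g2 := congrArg w g1
    rw [map_mul, map_mul, map_pow] at g2
    have g3 : w τ * w (s / a) ^ 2 ≤ w τ * 1 := by
      rw [← g2]
      exact mul_le_mul' h1 (Q2_le_cycC w _ hξ)
    exact le_of_mul_le_mul_left g3 ((w.pos_iff).mpr hτ0)
  have h0' : w (Q0 fun i => low z i / a) < 1 := by
    have g1 : Q0 (fun i => low z i / a) = r ^ 5 * (τ * (s / a) ^ 2) := by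
      rw [Q0_div_cycC, e0, f1]; ring
    rw [g1, map_mul, map_mul, map_pow, map_pow]
    exact lt_of_le_of_lt (mul_le_of_le_one_right' (mul_le_one' h2 hsa))
      (pow_lt_one₀ zero_le hlt (by norm_num))
  have h1' : w (Q1 fun i => low z i / a) < 1 := by
    have g1 : Q1 (fun i => low z i / a) =
        r ^ 2 * ((1 + τ ^ 2) * (s / a) ^ 2 * algebraMap k Ω 2⁻¹) := by
      rw [Q1_div_cycC, e1, f2, map_inv₀, map_ofNat]; ring
    have g2 : w (1 + τ ^ 2) ≤ 1 :=
      w.map_add_le (by rw [map_one]) (by rw [map_pow]; exact pow_le_one₀ zero_le h2)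
    rw [g1, map_mul, map_mul, map_mul, map_pow, map_pow]
    exact lt_of_le_of_lt (mul_le_of_le_one_right' (mul_le_one' (mul_le_one' g2 hsa) (hw _)))
      (pow_lt_one₀ zero_le hlt (by norm_num))
  obtain ⟨i, hi⟩ := hk.not_residue w hw (fun i => low z i / a) hξ j (div_self hj0) h0' h1'
  exact ⟨_, _, hξ i, hi⟩

section Places

variable {L : Type} [Field L] [Algebra K L]

/-- The centre of the valuation ring lies on `z5 = z6 = 0`. -/
def BadCycC (O : ValuationSubring L) (z : Fin 7 → L) : Prop :=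
  ∃ j, O.valuation (z 5) < O.valuation (z j) ∧ O.valuation (z 6) < O.valuation (z j)

theorem Place.ι_eq_zero_iff_cycC (p : Place K L) (a : p.O) :
    p.ι a = 0 ↔ p.O.valuation (a : L) < 1 := by
  rw [p.ι_eq_zero, ValuationSubring.valuation_lt_one_iff]

theorem bad_iff_cycC (p : Place K L) (z : Fin 7 → L) (c : L) (w : Fin 7 → p.O)
    (h : (fun j => p.ι (w j)) ≠ 0) (hw : ∀ j, (w j : L) = c * z j) :
    BadCycC p.O z ↔ p.ι (w 5) = 0 ∧ p.ι (w 6) = 0 := by
  obtain ⟨j0, hj0⟩ := Function.ne_iff.mp h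
  have hj0' : p.ι (w j0) ≠ 0 := hj0
  have hc : c ≠ 0 := by
    rintro rfl
    apply hj0'
    rw [show w j0 = 0 from Subtype.ext (by rw [hw, zero_mul]; rfl), map_zero]
  have hvc : 0 < p.O.valuation c := (Valuation.pos_iff _).mpr hc
  have key : ∀ i j, p.O.valuation (z i) < p.O.valuation (z j) ↔
      p.O.valuation (w i : L) < p.O.valuation (w j : L) := by
    intro i j
    rw [hw, hw, map_mul, map_mul, mul_lt_mul_iff_right₀ hvc]
  rw [p.ι_eq_zero_iff_cycC, p.ι_eq_zero_iff_cycC]
  constructor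
  · rintro ⟨j, h5, h6⟩
    rw [key] at h5 h6
    exact ⟨h5.trans_le (p.O.valuation_le_one _), h6.trans_le (p.O.valuation_le_one _)⟩
  · rintro ⟨h5, h6⟩
    have h1 : p.O.valuation (w j0 : L) = 1 :=
      le_antisymm (p.O.valuation_le_one _)
        (not_lt.mp fun hh => hj0' ((p.ι_eq_zero_iff_cycC _).mpr hh))
    exact ⟨j0, by rw [key, h1]; exact h5, by rw [key, h1]; exact h6⟩

theorem Place.isUnit_cycC (p : Place K L) (a : p.O) (ha : p.ι a ≠ 0) : IsUnit a := by
  by_contra hu
  exact ha ((p.ι_eq_zero a).mpr hu)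

open Classical in
theorem chi_centre_cycC [CharZero K] (v : Valuation (AlgebraicClosure K) Γ) (p : Place K L)
    (z : Fin 7 → L) (τ : L) (hτ : z 5 - z 6 = τ * (z 5 + z 6))
    (x : ℙ (AlgebraicClosure K) (Fin 7 → AlgebraicClosure K)) (hx : IsCentre p z x) :
    chi v x = if p.In v τ ∧ ¬ BadCycC p.O z then 1 else 0 := by
  obtain ⟨c, w, h, hw, rfl⟩ := hx
  rw [chi_mk]
  have hL : ((w 5 - w 6 : p.O) : L) = τ * ((w 5 + w 6 : p.O) : L) := by
    push_cast
    rw [hw, hw, ← mul_sub, hτ]; ring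
  refine if_congr ?_ rfl rfl
  rw [bad_iff_cycC p z c w h hw, ← map_sub, ← map_add]
  constructor
  · intro hlt
    have hne : p.ι (w 5 + w 6) ≠ 0 := by
      intro h0
      rw [h0, map_zero] at hlt
      exact absurd hlt (not_lt.mpr zero_le)
    obtain ⟨u, hu⟩ := p.isUnit_cycC _ hne
    have hτe : τ = (((w 5 - w 6) * u⁻¹ : p.O) : L) := by
      rw [MulMemClass.coe_mul, hL, ← hu, mul_assoc, ← MulMemClass.coe_mul, Units.mul_inv]
      simp
    have hm : τ ∈ p.O := hτe ▸ SetLike.coe_mem _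
    refine ⟨⟨hm, ?_⟩, ?_⟩
    · have e : w 5 - w 6 = ⟨τ, hm⟩ * (w 5 + w 6) := Subtype.ext hL
      rw [e, map_mul, map_mul] at hlt
      by_contra hge
      exact absurd hlt (not_lt.mpr (le_mul_of_one_le_left' (not_lt.mp hge)))
    · rintro ⟨h5, h6⟩
      apply hne
      rw [map_add, h5, h6, add_zero]
  · rintro ⟨⟨hm, hlt⟩, hnb⟩
    have e : w 5 - w 6 = ⟨τ, hm⟩ * (w 5 + w 6) := Subtype.ext hL
    have hne : p.ι (w 5 + w 6) ≠ 0 := by
      intro h0
      have h1 : p.ι (w 5 - w 6) = 0 := by rw [e, map_mul, h0, mul_zero]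
      rw [map_add] at h0
      rw [map_sub] at h1
      exact hnb ⟨by linear_combination (h0 + h1) / 2, by linear_combination (h0 - h1) / 2⟩
    rw [e, map_mul, map_mul]
    exact mul_lt_of_lt_one_left ((v.pos_iff).mpr hne) hlt

theorem nonrat_cycC {ρ : K} (hρ : ρ ≠ 0) (hK : NoPt K) (p : Place K L) (z : Fin 7 → L)
    (hX : OnX (FD (cX ρ) (tX ρ)) z)
    (x : ℙ (AlgebraicClosure K) (Fin 7 → AlgebraicClosure K)) (hx : IsCentre p z x)
    (hb : BadCycC p.O z) :
    ∃ a : p.O, p.ι a ∉ Set.range (algebraMap K (AlgebraicClosure K)) := by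
  obtain ⟨c, w, h, hw, -⟩ := hx
  obtain ⟨h5, h6⟩ := (bad_iff_cycC p z c w h hw).mp hb
  obtain ⟨e0, e1, -⟩ := (onX_iff hρ z).mp hX
  set r : p.O := ⟨algebraMap K L ρ, p.mem ρ⟩ with hr
  have hlow : (fun i => p.O.subtype (low w i)) = fun i => c * low z i := funext fun i => hw _
  have g0 : Q0 (low w) = r ^ 5 * (w 5 ^ 2 - w 6 ^ 2) := by
    apply Subtype.ext
    change p.O.subtype (Q0 (low w)) = _
    rw [map_Q0, hlow]
    push_cast
    rw [hw, hw]
    simp only [Q0] at e0 ⊢
    linear_combination c ^ 2 * e0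
  have g1 : Q1 (low w) = r ^ 2 * (w 5 ^ 2 + w 6 ^ 2) := by
    apply Subtype.ext
    change p.O.subtype (Q1 (low w)) = _
    rw [map_Q1, hlow]
    push_cast
    rw [hw, hw]
    simp only [Q1] at e1 ⊢
    linear_combination c ^ 2 * e1
  have k0 : Q0 (fun i => p.ι (low w i)) = 0 := by
    rw [← map_Q0, g0]; simp [h5, h6]
  have k1 : Q1 (fun i => p.ι (low w i)) = 0 := by
    rw [← map_Q1, g1]; simp [h5, h6]
  obtain ⟨j, hj⟩ : ∃ j : Fin 5, p.ι (low w j) ≠ 0 := by
    by_contra hcon
    push Not at hcon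
    apply h
    funext i
    fin_cases i
    · exact hcon 0
    · exact hcon 1
    · exact hcon 2
    · exact hcon 3
    · exact hcon 4
    · exact h5
    · exact h6
  obtain ⟨u, hu⟩ := p.isUnit_cycC _ hj
  have hinv : p.ι (u⁻¹ : (p.O)ˣ) = (p.ι (low w j))⁻¹ := by
    rw [← hu]; exact map_units_inv _ _
  by_contra hcon
  push Not at hcon
  choose y hy using fun i => hcon (low w i * (u⁻¹ : (p.O)ˣ))
  have hy' : (fun i => algebraMap K (AlgebraicClosure K) (y i)) =
      fun i => p.ι (low w i) / p.ι (low w j) := by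
    funext i
    rw [hy, map_mul, hinv, div_eq_mul_inv]
  have := hK y ((algebraMap K (AlgebraicClosure K)).injective
      (by rw [map_Q0, hy', Q0_div_cycC, k0, zero_div, map_zero]))
    ((algebraMap K (AlgebraicClosure K)).injective
      (by rw [map_Q1, hy', Q1_div_cycC, k1, zero_div, map_zero]))
  have h2 := congrFun hy' j
  simp only [this, Pi.zero_apply, map_zero, div_self hj] at h2
  exact zero_ne_one h2

end Places

open Classical in
theorem even_in_cycC {v : Valuation (AlgebraicClosure K) Γ} {ρ : K} (h : ValData k K v ρ)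
    (hk : NoPt k) (hodd : OddRoot k) {L : Type} [Field L] [Algebra K L] (t : L)
    [FiniteDimensional K⟮t⟯ L] (z : Fin 7 → L) (hz : z ≠ 0) (hX : OnX (FD (cX ρ) (tX ρ)) z)
    (τ : L) (hτ : z 5 - z 6 = τ * (z 5 + z 6)) (f : L) (hf : f ≠ 0) (T : Finset (Place K L))
    (hT : ∀ p : Place K L, ordAt p.O f ≠ 0 → p ∈ T) :
    Even (∑ p ∈ T.filter (fun p => p.In v τ), ordAt p.O f) := by
  have : CharZero K := charZero_of_injective_algebraMap (algebraMap k K).injective
  by_cases halg : IsAlgebraic K τ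
  · by_cases hex : ∃ p : Place K L, p.In v τ
    · obtain ⟨p, hp, hlt⟩ := hex
      rw [Finset.filter_true_of_mem, sum_ord_eq_zero t f hf T hT]
      · exact Even.zero
      · intro q _
        obtain ⟨hp', hq, σ, hσ⟩ := p.conj_of_isAlgebraic q τ halg
        exact ⟨hq, by rw [← hσ, h.gal]; exact hlt⟩
    · rw [Finset.filter_false_of_mem fun p _ hp => hex ⟨p, hp⟩, Finset.sum_empty]
      exact Even.zero
  · have := finite_of_transcendental t τ halg
    obtain ⟨g, q, hgq⟩ := (IntermediateField.mem_adjoin_simple_iff K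
      ((Algebra.norm K⟮τ⟯ f : K⟮τ⟯) : L)).mp (SetLike.coe_mem _)
    have hN : ((Algebra.norm K⟮τ⟯ f : K⟮τ⟯) : L) ≠ 0 := by
      rw [Ne, ZeroMemClass.coe_eq_zero]
      exact Algebra.norm_ne_zero_iff.mpr hf
    have hq' : Polynomial.aeval τ q ≠ 0 := by
      intro h0
      rw [h0, div_zero] at hgq
      exact hN hgq
    have hq : q ≠ 0 := by
      rintro rfl
      exact hq' (map_zero _)
    have hN' : algebraMap K⟮τ⟯ L (Algebra.norm K⟮τ⟯ f) * Polynomial.aeval τ q =
        Polynomial.aeval τ g := by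
      rw [IntermediateField.algebraMap_apply, hgq, div_mul_cancel₀ _ hq']
    rw [sum_ord_in v τ halg f hf g q hq hN' T hT]
    have he := gauss_even h hodd τ halg ?_ f hf g q hq hN'
    · rw [Int.even_sub, ← Int.even_add]
      exact_mod_cast he
    · intro Ω Γ' _ _ _ _ _ w φ hw h1 h2
      have hz' : (fun j => φ (z j)) ≠ 0 := by
        intro h0
        apply hz
        funext j
        exact φ.toRingHom.injective ((congrFun h0 j).trans (map_zero φ).symm)
      have hX' : OnX (FD (cX ρ) (tX ρ)) fun j => φ (z j) := by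
        intro i
        rw [← MvPolynomial.comp_aeval_apply, hX i, map_zero]
      obtain ⟨i, j, g1, g2⟩ := reduce hk h.ne w hw (h1.trans h2) (fun j => φ (z j)) hz' hX' (φ τ)
        (by rw [← map_sub, hτ, map_mul, map_add]) h1.le h2.le
      exact ⟨z i / z j, by rwa [map_div₀], by rwa [map_div₀]⟩

theorem even_chi {v : Valuation (AlgebraicClosure K) Γ} {ρ : K} (h : ValData k K v ρ)
    (hk : NoPt k) (hodd : OddRoot k)
    (c : ℙ (AlgebraicClosure K) (Fin 7 → AlgebraicClosure K) →₀ ℤ)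
    (hc : IsDiv (FD (cX ρ) (tX ρ)) c) : Even (c.sum fun x n => n * chi v x) := by
  classical
  have : CharZero K := charZero_of_injective_algebraMap (algebraMap k K).injective
  obtain ⟨L, _, _, t, -, _, z, hz, hX, f, hf, T, x, hT, hx, rfl⟩ := hc
  have hsum : ((∑ p ∈ T, Finsupp.single (x p) (ordAt p.O f)).sum fun x n => n * chi v x) =
      ∑ p ∈ T, ordAt p.O f * chi v (x p) := by
    rw [← Finsupp.sum_finsetSum_index (by simp) (by intros; ring)]
    exact Finset.sum_congr rfl fun p _ => Finsupp.sum_single_index (by simp)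
  rw [hsum]
  by_cases hs : z 5 + z 6 = 0
  · rw [Finset.sum_eq_zero]
    · exact Even.zero
    · intro p hp
      obtain ⟨c, w, hw0, hw, hxp⟩ := hx p hp
      have e : w 5 + w 6 = 0 := by
        apply Subtype.ext
        push_cast
        rw [hw, hw, ← mul_add, hs, mul_zero]
      rw [hxp, chi_mk, ← map_add, e, map_zero, map_zero, if_neg (not_lt.mpr zero_le), mul_zero]
  · set τ := (z 5 - z 6) / (z 5 + z 6) with hτd
    have hτ : z 5 - z 6 = τ * (z 5 + z 6) := (div_mul_cancel₀ _ hs).symm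
    have h1 := even_in_cycC h hk hodd t z hz hX τ hτ f hf T hT
    have h2 : Even (∑ p ∈ T.filter (fun p => ordAt p.O f ≠ 0 ∧ p.In v τ ∧ BadCycC p.O z),
        ordAt p.O f) := by
      refine sum_even (h.oddRoot hodd) _ _ ?_ ?_ ?_
      · intro p hp q hpq
        obtain ⟨-, g1, ⟨hm, g2⟩, g3⟩ := Finset.mem_filter.mp hp
        have hm' : τ ∈ q.O := hpq ▸ hm
        obtain ⟨σ, hσ⟩ := p.conj q hpq τ hm hm'
        refine Finset.mem_filter.mpr ⟨hT q (hpq ▸ g1), hpq ▸ g1, ⟨hm', ?_⟩, hpq ▸ g3⟩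
        rw [← hσ, h.gal]
        exact g2
      · intro p q hpq
        rw [hpq]
      · intro p hp
        obtain ⟨g0, -, -, g3⟩ := Finset.mem_filter.mp hp
        exact nonrat_cycC h.ne (h.noPt hk) p z hX (x p) (hx p g0) g3
    have h3 := h1.sub h2
    rw [Finset.sum_filter, Finset.sum_filter, ← Finset.sum_sub_distrib] at h3
    rw [Finset.sum_congr rfl fun p hp => ?_]
    · exact h3
    rw [chi_centre_cycC v p z τ hτ (x p) (hx p hp)]
    by_cases g1 : ordAt p.O f = 0 <;> by_cases g2 : p.In v τ <;> by_cases g3 : BadCycC p.O z <;>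
      simp [g1, g2, g3]

end Zc68
end

-- merged part: Pool.Agent.Work.MP_d65f04_ag.Uni3
section
/-! Smoothness and unirationality. -/

namespace Zc68

variable {K : Type} [Field K] [CharZero K]

theorem rel_zero_uni3 {Ω : Type} [Field Ω] (c θ z : Fin 7 → Ω) (hc : ∀ j, c j ≠ 0)
    (hθ : Function.Injective θ) {j : Fin 7} (hj : z j ≠ 0) (e0 : ∑ l, c l * z l ^ 2 = 0)
    (e1 : ∑ l, c l * θ l * z l ^ 2 = 0) {g₀ g₁ g₂ : Ω}
    (hg : ∀ l, (g₀ + g₁ * θ l + g₂ * θ l ^ 2) * z l = 0) : g₀ = 0 ∧ g₁ = 0 ∧ g₂ = 0 := by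
  have hcz : c j * z j ^ 2 ≠ 0 := mul_ne_zero (hc j) (pow_ne_zero 2 hj)
  have hsub : ∀ l, l ≠ j → θ l - θ j ≠ 0 := fun l hl => sub_ne_zero.2 fun h => hl (hθ h)
  have h0 : g₀ + g₁ * θ j + g₂ * θ j ^ 2 = 0 := (mul_eq_zero.1 (hg j)).resolve_right hj
  have h1 : ∀ l, l ≠ j → (g₁ + g₂ * θ j + g₂ * θ l) * z l = 0 := fun l hl =>
    mul_left_cancel₀ (hsub l hl) (by linear_combination hg l - z l * h0)
  have h2 : g₁ + g₂ * θ j + g₂ * θ j = 0 := by
    have h : ∑ l, (g₁ + g₂ * θ j + g₂ * θ l) * (c l * z l ^ 2) = 0 := by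
      have : ∑ l, (g₁ + g₂ * θ j + g₂ * θ l) * (c l * z l ^ 2) =
          (g₁ + g₂ * θ j) * ∑ l, c l * z l ^ 2 + g₂ * ∑ l, c l * θ l * z l ^ 2 := by
        rw [Finset.mul_sum, Finset.mul_sum, ← Finset.sum_add_distrib]
        exact Finset.sum_congr rfl fun l _ => by ring
      rw [this, e0, e1]
      ring
    rw [Finset.sum_eq_single j (fun l _ hl => by linear_combination c l * z l * h1 l hl)
      (by simp)] at h
    exact (mul_eq_zero.1 h).resolve_right hcz
  have h3 : ∀ l, l ≠ j → g₂ * z l = 0 := fun l hl =>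
    mul_left_cancel₀ (hsub l hl) (by linear_combination h1 l hl - z l * h2)
  have h4 : g₂ = 0 := by
    have h : ∑ l, g₂ * (c l * z l ^ 2) = 0 := by rw [← Finset.mul_sum, e0, mul_zero]
    rw [Finset.sum_eq_single j (fun l _ hl => by linear_combination c l * z l * h3 l hl)
      (by simp)] at h
    exact (mul_eq_zero.1 h).resolve_right hcz
  have h5 : g₁ = 0 := by linear_combination h2 - 2 * θ j * h4
  exact ⟨by linear_combination h0 - θ j * h5 - θ j ^ 2 * h4, h5, h4⟩

omit [CharZero K] in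
theorem pderiv_FD_uni3 (c θ : Fin 7 → K) {L : Type} [CommRing L] [Algebra K L] (z : Fin 7 → L)
    (n : Fin 3) (j : Fin 7) :
    MvPolynomial.aeval z (MvPolynomial.pderiv j (FD c θ n)) =
      2 * algebraMap K L (c j) * algebraMap K L (θ j) ^ (n : ℕ) * z j := by
  simp only [FD, dq, map_sum, MvPolynomial.algebraMap_eq, MvPolynomial.pderiv_C_mul,
    MvPolynomial.pderiv_pow, MvPolynomial.pderiv_X]
  rw [Finset.sum_eq_single j (fun l _ hl => by simp [hl]) (by simp)]
  simp [map_ofNat]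
  ring

theorem smoothCI_FD (c θ : Fin 7 → K) (hc : ∀ j, c j ≠ 0) (hθ : Function.Injective θ) :
    SmoothCI (FD c θ) := by
  refine ⟨fun i => ⟨2, FD_isHomogeneous c θ i⟩, fun z hz hX => ?_⟩
  obtain ⟨j, hj⟩ := Function.ne_iff.1 hz
  refine Fintype.linearIndependent_iff.2 fun g hg => ?_
  have hc' : ∀ l, algebraMap K (AlgebraicClosure K) (c l) ≠ 0 := fun l => (map_ne_zero _).2 (hc l)
  have e0 := hX 0
  have e1 := hX 1
  rw [aeval_FD, dq] at e0 e1
  obtain ⟨h0, h1, h2⟩ := rel_zero_uni3 (fun l => algebraMap K _ (c l))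
    (fun l => algebraMap K _ (θ l)) z hc' ((algebraMap K _).injective.comp hθ) hj
    (by simpa using e0) (by simpa using e1) (g₀ := g 0) (g₁ := g 1) (g₂ := g 2) fun l => by
      have h := congrFun hg l
      simp only [Fin.sum_univ_three, Pi.add_apply, Pi.smul_apply, pderiv_FD_uni3, smul_eq_mul,
        Pi.zero_apply, Fin.val_zero, Fin.val_one, Fin.val_two] at h
      refine mul_left_cancel₀ (mul_ne_zero two_ne_zero (hc' l)) ?_
      linear_combination h
  intro i
  fin_cases i
  exacts [h0, h1, h2]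

theorem ker_param_uni3 {Ω : Type} [Field Ω] [CharZero Ω] [IsAlgClosed Ω] (c θ : Fin 7 → Ω)
    (hc : ∀ j, c j ≠ 0) (hθ : Function.Injective θ) :
    ∃ φ : Fin 7 → FractionRing (MvPolynomial (Fin 4) Ω), φ ≠ 0 ∧
      RingHom.ker (MvPolynomial.aeval (R := Ω) φ) = Ideal.span (Set.range (FD c θ)) := by
  obtain ⟨φ, hφ, halg⟩ := exists_param c θ hc hθ
  set I : Ideal (MvPolynomial (Fin 7) Ω) := Ideal.span (Set.range (FD c θ)) with hI
  let y : Fin 7 → MvPolynomial (Fin 7) Ω ⧸ I := fun j => Ideal.Quotient.mk I (MvPolynomial.X j)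
  have hmk : ∀ p, Ideal.Quotient.mk I p = MvPolynomial.aeval y p := fun p =>
    DFunLike.congr_fun (MvPolynomial.algHom_ext (f := Ideal.Quotient.mkₐ Ω I)
      (g := MvPolynomial.aeval y) fun j => by simp [y]) p
  have hD : DiagData Ω (MvPolynomial (Fin 7) Ω ⧸ I) (Fin 7) c θ 3 4 y :=
    { ha := hc
      hθ := hθ
      card := by simp
      two_le := by norm_num
      gen := by
        rw [Algebra.adjoin_range_eq_range_aeval, AlgHom.range_eq_top]
        intro u
        obtain ⟨p, rfl⟩ := Ideal.Quotient.mk_surjective u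
        exact ⟨p, (hmk p).symm⟩
      eqs := fun n hn => by
        rw [← aeval_FD c θ y ⟨n, hn⟩, ← hmk, Ideal.Quotient.eq_zero_iff_mem]
        exact Ideal.subset_span ⟨_, rfl⟩
      univ := fun L _ _ s hs => by
        refine ⟨Ideal.Quotient.liftₐ I (MvPolynomial.aeval s) fun p hp => ?_, fun j => by simp [y]⟩
        refine (Ideal.span_le (I := RingHom.ker (MvPolynomial.aeval (R := Ω) s))).2 ?_ hp
        rintro _ ⟨n, rfl⟩
        exact (aeval_FD c θ s n).trans (hs n n.2) }
  have := hD.isDomain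
  obtain ⟨f, hf⟩ := hD.univ _ φ hφ
  obtain ⟨t, ht, htb⟩ := exists_isTranscendenceBasis_subset (R := Ω) (Set.range φ)
  have hb : IsTranscendenceBasis Ω (algebraMap (MvPolynomial (Fin 4) Ω)
      (FractionRing (MvPolynomial (Fin 4) Ω)) ∘ MvPolynomial.X) := by
    have : Algebra.IsAlgebraic (MvPolynomial (Fin 4) Ω) (FractionRing (MvPolynomial (Fin 4) Ω)) :=
      IsLocalization.isAlgebraic _ (nonZeroDivisors _)
    exact (IsTranscendenceBasis.mvPolynomial (Fin 4) Ω).algebraMap_comp
  obtain ⟨e⟩ := Cardinal.eq.1 (hb.cardinalMk_eq htb)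
  choose m hm using fun i : Fin 4 => ht (e i).2
  have hinj : Function.Injective f :=
    injective_of_indep f hD.trdeg_eq.le (fun i => y (m i)) (by
      simp only [hf, hm]
      exact htb.1.comp e e.injective)
  refine ⟨φ, fun h => hD.ne_zero 0 (hinj (by rw [hf, h, map_zero]; rfl)), ?_⟩
  ext p
  have e1 : MvPolynomial.aeval φ p = f (Ideal.Quotient.mk I p) := by
    rw [hmk, ← AlgHom.comp_apply, MvPolynomial.comp_aeval]
    simp only [hf]
  rw [RingHom.mem_ker, e1, map_eq_zero_iff f hinj, Ideal.Quotient.eq_zero_iff_mem]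

theorem geomUnirational_FD (c θ : Fin 7 → K) (hc : ∀ j, c j ≠ 0) (hθ : Function.Injective θ) :
    GeomUnirational (FD c θ) := by
  obtain ⟨φ, h0, h⟩ := ker_param_uni3 (fun l => algebraMap K (AlgebraicClosure K) (c l))
    (fun l => algebraMap K _ (θ l)) (fun l => (map_ne_zero _).2 (hc l))
    ((algebraMap K _).injective.comp hθ)
  refine ⟨4, φ, h0, h.trans ?_⟩
  congr 2
  funext n
  simp [FD, dq]

end Zc68
end

-- merged part: Pool.Agent.Work.MP_d65f04_ag.Main
section
/-! Assembly. -/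

namespace Zc68

open scoped LinearAlgebra.Projectivization

variable {k K Γ : Type} [Field k] [CharZero k] [Field K] [Algebra k K]
  [LinearOrderedCommGroupWithZero Γ] {v : Valuation (AlgebraicClosure K) Γ} {ρ : K}

theorem ValData.tX_injective (h : ValData k K v ρ) : Function.Injective (tX ρ) := by
  have : CharZero K := charZero_of_injective_algebraMap (algebraMap k K).injective
  have hρ := h.ne
  have hint : ∀ n : ℤ, (ρ ^ 3)⁻¹ ≠ n := by
    intro n hn
    have h1 : (1 : K) = n * ρ ^ 3 := by rw [← hn]; field_simp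
    have h2 := congrArg (fun x => v (algebraMap K (AlgebraicClosure K) x)) h1
    simp only [map_one, map_mul, map_pow, map_intCast] at h2
    have h3 : v (n : AlgebraicClosure K) ≤ 1 := by simpa using h.const n
    have h4 : v (algebraMap K (AlgebraicClosure K) ρ) ^ 3 < 1 := pow_lt_one₀ zero_le h.lt (by norm_num)
    exact absurd h2 (ne_of_gt (lt_of_le_of_lt (mul_le_of_le_one_left' h3) h4))
  have hint' : ∀ n : ℤ, -(ρ ^ 3)⁻¹ ≠ n := by
    intro n hn
    exact hint (-n) (by rw [Int.cast_neg, ← hn, neg_neg])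
  have h0 : (ρ ^ 3)⁻¹ ≠ -(ρ ^ 3)⁻¹ := by
    intro h
    exact hint 0 (by simpa using self_eq_neg.mp h)
  have a1 := hint (-3); have a2 := hint (-2); have a3 := hint 1; have a4 := hint (-1)
  have a5 := hint 0
  have b1 := hint' (-3); have b2 := hint' (-2); have b3 := hint' 1; have b4 := hint' (-1)
  have b5 := hint' 0
  push_cast at a1 a2 a3 a4 a5 b1 b2 b3 b4 b5
  intro i j hij
  fin_cases i <;> fin_cases j <;> first
    | rfl
    | (exfalso; simp only [tX] at hij; revert hij; first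
        | exact a1 | exact a2 | exact a3 | exact a4 | exact a5
        | exact b1 | exact b2 | exact b3 | exact b4 | exact b5
        | exact a1.symm | exact a2.symm | exact a3.symm | exact a4.symm | exact a5.symm
        | exact b1.symm | exact b2.symm | exact b3.symm | exact b4.symm | exact b5.symm
        | exact h0 | exact h0.symm | norm_num)

theorem main : ∃ (K : Type) (_ : Field K), CharZero K ∧ CdLEOne K ∧
    ∃ F : Fin 3 → MvPolynomial (Fin 7) K, (∀ i, (F i).IsHomogeneous 2) ∧ SmoothCI F ∧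
      GeomUnirational F ∧ ∃ (P Q : Fin 7 → K) (hP : P ≠ 0) (hQ : Q ≠ 0), OnX F P ∧ OnX F Q ∧
        Finsupp.single (ratPt P hP) 1 - Finsupp.single (ratPt Q hQ) 1 ∉ RatTrivial F := by
  obtain ⟨k, _, _, hinv, hgood⟩ := exists_good
  obtain ⟨K, _, _, Γ, _, v, ρ, h⟩ := exists_valData k
  have hchar : CharZero K := charZero_of_injective_algebraMap (algebraMap k K).injective
  have hρ := h.ne
  have hc : ∀ j, cX ρ j ≠ 0 := by
    intro j; fin_cases j <;> simp [cX, hρ]
  have hP : (![0, 0, ρ, ρ, 0, 1, 1] : Fin 7 → K) ≠ 0 := fun e => by simpa using congrFun e 5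
  have hQ : (![0, 0, ρ, ρ, 0, 1, -1] : Fin 7 → K) ≠ 0 := fun e => by simpa using congrFun e 5
  refine ⟨K, inferInstance, hchar,
    cdLEOne_of_good2 ⟨h.oddRoot hgood.1, h.allNorm hgood.2⟩, FD (cX ρ) (tX ρ),
    FD_isHomogeneous _ _, smoothCI_FD _ _ hc h.tX_injective,
    geomUnirational_FD _ _ hc h.tX_injective, _, _, hP, hQ, ?_, ?_, ?_⟩
  · rw [onX_iff hρ]; simp [Q0, Q1, Q2, low]; ring
  · rw [onX_iff hρ]; simp [Q0, Q1, Q2, low]; ring
  · intro hmem
    let Φ : (ℙ (AlgebraicClosure K) (Fin 7 → AlgebraicClosure K) →₀ ℤ) →+ ℤ :=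
      Finsupp.liftAddHom fun x => AddMonoidHom.mulRight (chi v x)
    have hle : RatTrivial (FD (cX ρ) (tX ρ)) ≤ (AddSubgroup.zmultiples (2 : ℤ)).comap Φ := by
      rw [RatTrivial, AddSubgroup.closure_le]
      intro c hc
      obtain ⟨m, hm⟩ := even_chi h hinv.1 hgood.1 c hc
      refine ⟨m, ?_⟩
      change m • (2 : ℤ) = c.sum fun x n => n * chi v x
      rw [hm]; simp [mul_two]
    obtain ⟨m, hm⟩ := hle hmem
    have h2 : v (1 + 1 : AlgebraicClosure K) ≠ 0 := by
      rw [Valuation.ne_zero_iff]; norm_num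
    have e1 : chi v (ratPt _ hP) = 1 := by
      rw [ratPt, chi_mk]; simp [pos_iff_ne_zero, h2]
    have e2 : chi v (ratPt _ hQ) = 0 := by
      rw [ratPt, chi_mk]; simp
    rw [map_sub, Finsupp.liftAddHom_apply_single, Finsupp.liftAddHom_apply_single, e1, e2] at hm
    have hm' : m * 2 = 1 := by simpa using hm
    omega

end Zc68
end
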